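import Pool.Agent.Lib.MP_7d55f0_co.AF.MnF

set_option autoImplicit false

namespace Pool.Agent.Lib.FenceAF

open Finset Filter Topology Pool.Agent.Lib.FenceGlue

/-- a word as a pattern -/
def ext {n : ℕ} (v : Fin n → Bool) (i : ℕ) : Bool := if h : i < n then v ⟨i, h⟩ else false

theorem ext_ofFn {n : ℕ} (v : Fin n → Bool) :
    (fun i => (List.ofFn v).getD i false) = ext v := by
  funext i
  unfold ext
  split_ifs with h
  · rw [List.getD_eq_getElem _ _ (by simpa using h)]
    simp
  · rw [List.getD_eq_default _ _ (by simpa using h)]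

theorem win_card {n i R : ℕ} (c : Bool) (h : i + R < n) :
    (univ.filter (fun v : Fin n → Bool => ∀ x : Fin n, i ≤ x.val → x.val ≤ i + R → v x = c)).card *
      2 ^ (R + 1) ≤ 2 ^ n := by
  classical
  set S : Finset (Fin n) := univ.filter (fun x => i ≤ x.val ∧ x.val ≤ i + R) with hS
  have h1 : (univ.filter (fun v : Fin n → Bool =>
      ∀ x : Fin n, i ≤ x.val → x.val ≤ i + R → v x = c)) =
      Fintype.piFinset (fun x : Fin n => if x ∈ S then {c} else (univ : Finset Bool)) := by
    ext v
    simp only [mem_filter, mem_univ, true_and, Fintype.mem_piFinset]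
    constructor
    · intro hv x
      by_cases hx : x ∈ S
      · rw [if_pos hx, mem_singleton]
        rw [hS, mem_filter] at hx
        exact hv x hx.2.1 hx.2.2
      · rw [if_neg hx]
        exact mem_univ _
    · intro hv x hx1 hx2
      have hx : x ∈ S := by
        rw [hS, mem_filter]
        exact ⟨mem_univ _, hx1, hx2⟩
      have := hv x
      rw [if_pos hx, mem_singleton] at this
      exact this
  have h2 : R + 1 ≤ S.card := by
    have : (range (R + 1)).card ≤ S.card := by
      apply card_le_card_of_injOn (fun j => (⟨i + min j R, by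
        have := min_le_right j R
        omega⟩ : Fin n))
      · intro j hj
        simp only [coe_range, Set.mem_Iio] at hj
        rw [hS]
        simp only [coe_filter, mem_univ, true_and, Set.mem_setOf_eq]
        constructor
        · omega
        · have := min_le_right j R
          omega
      · intro j hj k hk hjk
        simp only [coe_range, Set.mem_Iio] at hj hk
        simp only [Fin.mk.injEq] at hjk
        have e1 : min j R = j := min_eq_left (by omega)
        have e2 : min k R = k := min_eq_left (by omega)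
        omega
    rwa [card_range] at this
  have h3 : S.card + (univ.filter (fun x : Fin n => x ∉ S)).card = n := by
    have := card_filter_add_card_filter_not (s := (univ : Finset (Fin n))) (fun x => x ∈ S)
    rw [card_univ, Fintype.card_fin] at this
    have e : (univ.filter (fun x : Fin n => x ∈ S)) = S := by
      ext x
      simp
    rwa [e] at this
  rw [h1, Fintype.card_piFinset]
  have h4 : ∏ x : Fin n, (if x ∈ S then ({c} : Finset Bool) else univ).card =
      2 ^ (univ.filter (fun x : Fin n => x ∉ S)).card := by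
    have e : ∀ x ∈ (univ : Finset (Fin n)), (if x ∈ S then ({c} : Finset Bool) else univ).card =
        if x ∈ S then 1 else 2 := by
      intro x _
      split_ifs <;> simp
    rw [prod_congr rfl e, prod_ite]
    simp
  rw [h4, ← pow_add]
  exact Nat.pow_le_pow_right (by norm_num) (by omega)

theorem not_short {n R : ℕ} (v : Fin n → Bool) (hv : ¬ Short R (List.ofFn v)) :
    ∃ i : ℕ, i + R < n ∧ ∃ c : Bool, ∀ x : Fin n, i ≤ x.val → x.val ≤ i + R → v x = c := by
  unfold Short at hv
  push Not at hv
  obtain ⟨c, u, t, a, hw, ha⟩ := hv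
  have hlen : n = u.length + a + t.length := by
    have := congrArg List.length hw
    simpa [Nat.add_assoc] using this
  refine ⟨u.length, by omega, c, fun x hx1 hx2 => ?_⟩
  have h1 : (List.ofFn v)[x.val]? = some (v x) := by
    rw [List.getElem?_ofFn]
    simp
  rw [hw, List.append_assoc, List.getElem?_append_right hx1,
    List.getElem?_append_left (by rw [List.length_replicate]; omega),
    List.getElem?_replicate] at h1
  rw [if_pos (by omega)] at h1
  exact (Option.some.inj h1).symm

/-- few words have long runs -/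
theorem bad_card (n R : ℕ) :
    (open Classical in (univ.filter (fun v : Fin n → Bool => ¬ Short R (List.ofFn v))).card) * 2 ^ R ≤
      n * 2 ^ n := by
  classical
  have h1 : (univ.filter (fun v : Fin n → Bool => ¬ Short R (List.ofFn v))) ⊆
      ((range n).filter (fun i => i + R < n)).biUnion (fun i => (univ : Finset Bool).biUnion (fun c =>
        univ.filter (fun v : Fin n → Bool => ∀ x : Fin n, i ≤ x.val → x.val ≤ i + R → v x = c))) := by
    intro v hv
    rw [mem_filter] at hv
    obtain ⟨i, hi, c, hc⟩ := not_short v hv.2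
    rw [mem_biUnion]
    refine ⟨i, ?_, ?_⟩
    · rw [mem_filter, mem_range]
      omega
    · rw [mem_biUnion]
      refine ⟨c, mem_univ _, ?_⟩
      rw [mem_filter]
      exact ⟨mem_univ _, hc⟩
  have h2 := card_le_card h1
  have h3 : (((range n).filter (fun i => i + R < n)).biUnion (fun i =>
      (univ : Finset Bool).biUnion (fun c =>
        univ.filter (fun v : Fin n → Bool => ∀ x : Fin n, i ≤ x.val → x.val ≤ i + R → v x = c)))).card *
      2 ^ (R + 1) ≤ n * (2 * 2 ^ n) := by
    calc _ ≤ (∑ i ∈ (range n).filter (fun i => i + R < n), ∑ c : Bool,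
          (univ.filter (fun v : Fin n → Bool =>
            ∀ x : Fin n, i ≤ x.val → x.val ≤ i + R → v x = c)).card) * 2 ^ (R + 1) := by
          apply Nat.mul_le_mul_right
          refine card_biUnion_le.trans (sum_le_sum (fun i _ => card_biUnion_le))
      _ = ∑ i ∈ (range n).filter (fun i => i + R < n), ∑ c : Bool,
          ((univ.filter (fun v : Fin n → Bool =>
            ∀ x : Fin n, i ≤ x.val → x.val ≤ i + R → v x = c)).card * 2 ^ (R + 1)) := by
          rw [sum_mul]
          exact sum_congr rfl (fun i _ => sum_mul _ _ _)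
      _ ≤ ∑ _i ∈ (range n).filter (fun i => i + R < n), ∑ _c : Bool, 2 ^ n := by
          apply sum_le_sum
          intro i hi
          rw [mem_filter] at hi
          exact sum_le_sum (fun c _ => win_card c hi.2)
      _ ≤ ∑ _i ∈ range n, ∑ _c : Bool, 2 ^ n := by
          apply sum_le_sum_of_subset_of_nonneg (filter_subset _ _)
          intros
          exact Nat.zero_le _
      _ = n * (2 * 2 ^ n) := by simp
  have h4 : (univ.filter (fun v : Fin n → Bool => ¬ Short R (List.ofFn v))).card * 2 ^ (R + 1) ≤
      n * (2 * 2 ^ n) := (Nat.mul_le_mul_right _ h2).trans h3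
  rw [pow_succ] at h4
  have e1 : (univ.filter (fun v : Fin n → Bool => ¬ Short R (List.ofFn v))).card * (2 ^ R * 2) =
      2 * ((univ.filter (fun v : Fin n → Bool => ¬ Short R (List.ofFn v))).card * 2 ^ R) := by ring
  have e2 : n * (2 * 2 ^ n) = 2 * (n * 2 ^ n) := by ring
  rw [e1, e2] at h4
  have h5 := Nat.le_of_mul_le_mul_left h4 (by norm_num)
  exact h5

theorem almost_aux (K0 E : ℕ) (hE : 1 ≤ E) (hK0 : ∀ (R : ℕ) (w : List Bool), 1 ≤ R → Short R w →
    K0 * (R + 1) ^ E ≤ w.length → RR (w.length + 1) (fun i => w.getD i false)) :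
    Tendsto (fun n : ℕ =>
      (Nat.card {v : Fin n → Bool // RR (n + 1) (ext v)} : ℝ) / 2 ^ n) atTop (𝓝 1) := by
  classical
  set K : ℕ := K0 + 1 with hK
  have hKpos : 0 < K := Nat.succ_pos _
  -- the greatest admissible bound for the runs
  set ρ : ℕ → ℕ := fun n => Nat.findGreatest (fun R => K * (R + 1) ^ E ≤ n) n with hρ
  have hmono : ∀ R n : ℕ, K * (R + 1) ^ E ≤ n → R ≤ ρ n := by
    intro R n h
    refine Nat.le_findGreatest (P := fun R => K * (R + 1) ^ E ≤ n) ?_ h
    calc R ≤ R + 1 := Nat.le_succ R
      _ = (R + 1) ^ 1 := (pow_one _).symm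
      _ ≤ (R + 1) ^ E := Nat.pow_le_pow_right (Nat.succ_pos R) hE
      _ ≤ K * (R + 1) ^ E := Nat.le_mul_of_pos_left _ hKpos
      _ ≤ n := h
  have hspec : ∀ n : ℕ, K ≤ n → K * (ρ n + 1) ^ E ≤ n := by
    intro n h
    have : K * (0 + 1) ^ E ≤ n := by simpa using h
    exact Nat.findGreatest_spec (P := fun R => K * (R + 1) ^ E ≤ n) (Nat.zero_le n) this
  have hlt : ∀ n : ℕ, n < K * (ρ n + 2) ^ E := by
    intro n
    by_contra hcon
    push Not at hcon
    have := hmono (ρ n + 1) n hcon
    omega
  have hρt : Tendsto ρ atTop atTop := by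
    apply tendsto_atTop.mpr
    intro R
    filter_upwards [eventually_ge_atTop (K * (R + 1) ^ E)] with n hn
    exact hmono R n hn
  have hf : Tendsto (fun R : ℕ => (K : ℝ) * ((R : ℝ) + 2) ^ E / 2 ^ R) atTop (𝓝 0) := by
    have h1 : Tendsto (fun m : ℕ => (m : ℝ) ^ E / (2 : ℝ) ^ m) atTop (𝓝 0) :=
      tendsto_pow_const_div_const_pow_of_one_lt E (by norm_num)
    have h2 := (h1.comp (tendsto_add_atTop_nat 2)).const_mul ((K : ℝ) * 4)
    rw [mul_zero] at h2
    refine h2.congr (fun R => ?_)
    simp only [Function.comp]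
    push_cast
    rw [pow_add (2 : ℝ) R 2]
    have h3 : (2 : ℝ) ^ R ≠ 0 := by positivity
    field_simp
    ring
  have hg := hf.comp hρt
  have hcount : ∀ n : ℕ, 1 ≤ ρ n → K ≤ n →
      1 - (K : ℝ) * ((ρ n : ℝ) + 2) ^ E / 2 ^ (ρ n) ≤
        (Nat.card {v : Fin n → Bool // RR (n + 1) (ext v)} : ℝ) / 2 ^ n := by
    intro n h1 hKn
    have hgood : ∀ v : Fin n → Bool, Short (ρ n) (List.ofFn v) → RR (n + 1) (ext v) := by
      intro v hv
      have h2 := hK0 (ρ n) (List.ofFn v) h1 hv (by
        rw [List.length_ofFn]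
        refine le_trans ?_ (hspec n hKn)
        exact Nat.mul_le_mul_right _ (Nat.le_succ K0))
      rw [ext_ofFn, List.length_ofFn] at h2
      exact h2
    have hc1 : (univ.filter (fun v : Fin n → Bool => Short (ρ n) (List.ofFn v))).card ≤
        Nat.card {v : Fin n → Bool // RR (n + 1) (ext v)} := by
      rw [Nat.card_eq_fintype_card, Fintype.card_subtype]
      apply card_le_card
      intro v hv
      rw [mem_filter] at hv ⊢
      exact ⟨mem_univ _, hgood v hv.2⟩
    have hc2 : (univ.filter (fun v : Fin n → Bool => Short (ρ n) (List.ofFn v))).card +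
        (univ.filter (fun v : Fin n → Bool => ¬ Short (ρ n) (List.ofFn v))).card = 2 ^ n := by
      rw [card_filter_add_card_filter_not, card_univ, Fintype.card_fun, Fintype.card_bool,
        Fintype.card_fin]
    have hc3 := bad_card n (ρ n)
    have hb : ((univ.filter (fun v : Fin n → Bool => ¬ Short (ρ n) (List.ofFn v))).card : ℝ) ≤
        (K : ℝ) * ((ρ n : ℝ) + 2) ^ E / 2 ^ (ρ n) * 2 ^ n := by
      have h5 : ((univ.filter (fun v : Fin n → Bool => ¬ Short (ρ n) (List.ofFn v))).card : ℝ) *
          2 ^ (ρ n) ≤ n * 2 ^ n := by exact_mod_cast hc3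
      have h6 : (n : ℝ) ≤ (K : ℝ) * ((ρ n : ℝ) + 2) ^ E := by
        have := (hlt n).le
        exact_mod_cast this
      have h7 : (0 : ℝ) < 2 ^ (ρ n) := by positivity
      have h8 : (0 : ℝ) < 2 ^ n := by positivity
      rw [div_mul_eq_mul_div, le_div_iff₀ h7]
      exact h5.trans (mul_le_mul_of_nonneg_right h6 h8.le)
    have h8 : (0 : ℝ) < 2 ^ n := by positivity
    rw [le_div_iff₀ h8]
    have hc1' : ((univ.filter (fun v : Fin n → Bool => Short (ρ n) (List.ofFn v))).card : ℝ) ≤
        (Nat.card {v : Fin n → Bool // RR (n + 1) (ext v)} : ℝ) := by exact_mod_cast hc1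
    have hc2' : ((univ.filter (fun v : Fin n → Bool => Short (ρ n) (List.ofFn v))).card : ℝ) +
        ((univ.filter (fun v : Fin n → Bool => ¬ Short (ρ n) (List.ofFn v))).card : ℝ) = 2 ^ n := by
      exact_mod_cast hc2
    nlinarith
  have hup : ∀ n : ℕ, (Nat.card {v : Fin n → Bool // RR (n + 1) (ext v)} : ℝ) / 2 ^ n ≤ 1 := by
    intro n
    have h8 : (0 : ℝ) < 2 ^ n := by positivity
    rw [div_le_one h8]
    have : Nat.card {v : Fin n → Bool // RR (n + 1) (ext v)} ≤ 2 ^ n := by
      rw [Nat.card_eq_fintype_card]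
      refine (Fintype.card_subtype_le _).trans ?_
      rw [Fintype.card_fun, Fintype.card_bool, Fintype.card_fin]
    exact_mod_cast this
  have hlow : Tendsto (fun n : ℕ => 1 - (K : ℝ) * ((ρ n : ℝ) + 2) ^ E / 2 ^ (ρ n)) atTop (𝓝 1) := by
    have := hg.const_sub 1
    rw [sub_zero] at this
    exact this
  refine tendsto_of_tendsto_of_tendsto_of_le_of_le' hlow tendsto_const_nhds ?_
    (Eventually.of_forall hup)
  filter_upwards [hρt.eventually (eventually_ge_atTop 1), eventually_ge_atTop K] with n h1 h2
  exact hcount n h1 h2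

/-- **almost all fences**: the proportion of the fences on `n + 1` elements whose h*-polynomial has
only real zeros tends to one -/
theorem almost_all : Tendsto (fun n : ℕ =>
    (Nat.card {v : Fin n → Bool // RR (n + 1) (ext v)} : ℝ) / 2 ^ n) atTop (𝓝 1) := by
  obtain ⟨K0, hK0⟩ := short_main
  exact almost_aux K0 140 (by norm_num) hK0

end Pool.Agent.Lib.FenceAF
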