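import Pool.Agent.Lib.MP_7d55f0_co.AF.Defs

set_option autoImplicit false

namespace Pool.Agent.Lib.FenceAF

open Polynomial Finset Pool.Agent.Lib.FenceGlue

theorem bn_eval_nat (k m : ℕ) : (bn k).eval (m : ℝ) = (m.choose k : ℝ) := by
  have hk : (k.factorial : ℝ) ≠ 0 := by exact_mod_cast k.factorial_ne_zero
  unfold bn
  rw [eval_mul, eval_C, eval_prod]
  simp only [eval_sub, eval_X, eval_C]
  have h1 : ∏ i ∈ range k, ((m : ℝ) - i) = (m.descFactorial k : ℝ) := by
    rw [← descPochhammer_eval_eq_descFactorial, descPochhammer_eval_eq_prod_range]
  rw [h1, Nat.descFactorial_eq_factorial_mul_choose]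
  push_cast
  field_simp

theorem bn_eval_neg (k m : ℕ) : (bn k).eval (-(m : ℝ)) = (-1) ^ k * ((m + k - 1).choose k : ℝ) := by
  have hk : (k.factorial : ℝ) ≠ 0 := by exact_mod_cast k.factorial_ne_zero
  unfold bn
  rw [eval_mul, eval_C, eval_prod]
  simp only [eval_sub, eval_X, eval_C]
  have h1 : ∏ i ∈ range k, (-(m : ℝ) - i) = (-1) ^ k * (m.ascFactorial k : ℝ) := by
    rw [Nat.ascFactorial_eq_prod_range]
    push_cast
    rw [← Finset.card_range k, ← Finset.prod_const, Finset.card_range, ← Finset.prod_mul_distrib]
    apply Finset.prod_congr rfl
    intro i _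
    ring
  rw [h1, Nat.ascFactorial_eq_factorial_mul_choose']
  push_cast
  field_simp

theorem bn_natDegree (k : ℕ) : (bn k).natDegree = k := by
  have hk : ((k.factorial : ℝ)⁻¹) ≠ 0 := inv_ne_zero (by exact_mod_cast k.factorial_ne_zero)
  unfold bn
  rw [natDegree_C_mul hk, natDegree_finsetProd_X_sub_C_eq_card, Finset.card_range]

theorem co_zero (w : List Bool) (k : ℕ) (hk : w.length < k) : co w k = 0 := by
  induction w generalizing k with
  | nil =>
    simp only [List.length_nil] at hk
    simp [co, hk.ne']
  | cons c w ih =>
    simp only [List.length_cons] at hk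
    have hk0 : k ≠ 0 := by omega
    cases c
    · simp only [co, hk0, if_false]
      rw [ih k (by omega), ih (k - 1) (by omega), add_zero]
    · simp only [co, hk0, if_false]
      rw [ih (k - 1) (by omega), neg_zero]

theorem co_natDegree (w : List Bool) (k : ℕ) (hk : k ≤ w.length) :
    (co w k).natDegree ≤ w.length - k := by
  induction w generalizing k with
  | nil =>
    simp only [List.length_nil, Nat.le_zero] at hk
    subst hk
    simp [co]
  | cons c w ih =>
    simp only [List.length_cons] at hk ⊢
    cases c
    · simp only [co]
      apply natDegree_add_le_of_degree_le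
      · rcases Nat.lt_or_ge w.length k with h | h
        · rw [co_zero w k h]; simp
        · exact (ih k h).trans (by omega)
      · split_ifs with h0
        · simp
        · exact (ih (k - 1) (by omega)).trans (by omega)
    · simp only [co]
      split_ifs with h0
      · subst h0
        apply natDegree_sum_le_of_forall_le
        intro j hj
        have hj' : j ≤ w.length := by
          have := Finset.mem_range.mp hj
          omega
        refine natDegree_mul_le.trans ?_
        rw [bn_natDegree]
        have := ih j hj'
        omega
      · rw [natDegree_neg]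
        exact (ih (k - 1) (by omega)).trans (by omega)

end Pool.Agent.Lib.FenceAF
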