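import Pool.Agent.Lib.MP_7d55f0_co.AF.CountA

set_option autoImplicit false

namespace Pool.Agent.Lib.FenceAF

open Polynomial Finset Pool.Agent.Lib.FenceGlue

theorem cb_hockey (A B k : ℕ) :
    ∑ p ∈ antidiagonal B, ((A + p.1).choose k : ℝ) =
      ((A + B + 1).choose (k + 1) : ℝ) - (A.choose (k + 1) : ℝ) := by
  rw [Finset.Nat.sum_antidiagonal_eq_sum_range_succ_mk]
  induction B with
  | zero =>
    simp only [Finset.sum_range_one, add_zero]
    rw [Nat.choose_succ_succ]
    push_cast
    ring
  | succ B ih =>
    rw [Finset.sum_range_succ, ih]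
    have h : (A + (B + 1) + 1).choose (k + 1) =
        (A + (B + 1)).choose k + (A + (B + 1)).choose (k + 1) := Nat.choose_succ_succ _ _
    rw [h]
    push_cast
    have h2 : A + B + 1 = A + (B + 1) := by ring
    rw [h2]
    ring

theorem cb_hockey0 (A k : ℕ) :
    ∑ p ∈ antidiagonal A, ((p.1).choose k : ℝ) = ((A + 1).choose (k + 1) : ℝ) := by
  have h := cb_hockey 0 A k
  simp only [zero_add] at h
  rw [h]
  simp

theorem cb_eval_zero_case (w : List Bool) (T : ℝ) :
    (co (true :: w) 0).eval T = ∑ j ∈ range (w.length + 1), (co w j).eval T * (bn (j + 1)).eval T := by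
  simp [co, eval_finsetSum]

theorem rc_eq (w : List Bool) (A B : ℕ) :
    (rc w A B : ℝ) = ∑ k ∈ range (w.length + 1),
      (co w k).eval ((A : ℝ) + B + 1) * (A.choose k : ℝ) := by
  induction w generalizing A B with
  | nil => simp [rc, co]
  | cons c w ih =>
    cases c
    · -- false
      have h1 : rc (false :: w) A B = ∑ p ∈ antidiagonal A, rc w p.1 (p.2 + B) := rfl
      rw [h1, Nat.cast_sum]
      have h2 : ∀ p ∈ antidiagonal A, ((rc w p.1 (p.2 + B) : ℕ) : ℝ) =
          ∑ k ∈ range (w.length + 1), (co w k).eval ((A : ℝ) + B + 1) * (p.1.choose k : ℝ) := by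
        intro p hp
        have hp' : p.1 + p.2 = A := mem_antidiagonal.mp hp
        rw [ih]
        apply Finset.sum_congr rfl
        intro k _
        congr 2
        rw [← hp']
        push_cast
        ring
      rw [Finset.sum_congr rfl h2, Finset.sum_comm]
      simp_rw [← Finset.mul_sum, cb_hockey0]
      rw [List.length_cons]
      have h3 : ∀ k ∈ range (w.length + 1 + 1),
          (co (false :: w) k).eval ((A : ℝ) + B + 1) * (A.choose k : ℝ) =
          (co w k).eval ((A : ℝ) + B + 1) * (A.choose k : ℝ) +
          (if k = 0 then 0 else (co w (k - 1)).eval ((A : ℝ) + B + 1) * (A.choose k : ℝ)) := by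
        intro k _
        simp only [co, eval_add]
        split_ifs with h
        · simp
        · ring
      rw [Finset.sum_congr rfl h3, Finset.sum_add_distrib,
        Finset.sum_range_succ (n := w.length + 1),
        co_zero w (w.length + 1) (by omega), Finset.sum_range_succ' (n := w.length + 1)]
      simp only [Nat.add_sub_cancel, Nat.succ_ne_zero, if_false, if_true, eval_zero, zero_mul,
        add_zero]
      rw [← Finset.sum_add_distrib]
      apply Finset.sum_congr rfl
      intro k _
      rw [Nat.choose_succ_succ]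
      push_cast
      ring
    · -- true
      have h1 : rc (true :: w) A B = ∑ p ∈ antidiagonal B, rc w (A + p.1) p.2 := rfl
      rw [h1, Nat.cast_sum]
      have h2 : ∀ p ∈ antidiagonal B, ((rc w (A + p.1) p.2 : ℕ) : ℝ) =
          ∑ k ∈ range (w.length + 1), (co w k).eval ((A : ℝ) + B + 1) *
            ((A + p.1).choose k : ℝ) := by
        intro p hp
        have hp' : p.1 + p.2 = B := mem_antidiagonal.mp hp
        rw [ih]
        apply Finset.sum_congr rfl
        intro k _
        congr 2
        rw [← hp']
        push_cast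
        ring
      rw [Finset.sum_congr rfl h2, Finset.sum_comm]
      simp_rw [← Finset.mul_sum, cb_hockey]
      rw [List.length_cons, Finset.sum_range_succ' (n := w.length + 1), cb_eval_zero_case]
      have h3 : ∀ k ∈ range (w.length + 1),
          (co (true :: w) (k + 1)).eval ((A : ℝ) + B + 1) * (A.choose (k + 1) : ℝ) =
          -((co w k).eval ((A : ℝ) + B + 1) * (A.choose (k + 1) : ℝ)) := by
        intro k _
        simp only [co, Nat.add_sub_cancel, Nat.succ_ne_zero, if_false, eval_neg]
        ring
      rw [Finset.sum_congr rfl h3]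
      have h4 : ∀ k ∈ range (w.length + 1), (bn (k + 1)).eval ((A : ℝ) + B + 1) =
          ((A + B + 1).choose (k + 1) : ℝ) := by
        intro k _
        rw [← bn_eval_nat]
        push_cast
        rfl
      rw [Nat.choose_zero_right, Nat.cast_one, mul_one, ← Finset.sum_add_distrib]
      apply Finset.sum_congr rfl
      intro k hk
      rw [h4 k hk]
      ring

theorem PP_eval (w : List Bool) (m : ℕ) : (PP w).eval ((m : ℝ) + 1) = (Om w m : ℝ) := by
  unfold PP Om
  rw [Nat.cast_sum, eval_finsetSum]
  have h2 : ∀ p ∈ antidiagonal m, ((rc w p.1 p.2 : ℕ) : ℝ) =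
      ∑ k ∈ range (w.length + 1), (co w k).eval ((m : ℝ) + 1) * (p.1.choose k : ℝ) := by
    intro p hp
    have hp' : p.1 + p.2 = m := mem_antidiagonal.mp hp
    rw [rc_eq]
    apply Finset.sum_congr rfl
    intro k _
    congr 2
    rw [← hp']
    push_cast
    ring
  rw [Finset.sum_congr rfl h2, Finset.sum_comm]
  simp_rw [← Finset.mul_sum, cb_hockey0]
  apply Finset.sum_congr rfl
  intro k _
  rw [eval_mul, ← bn_eval_nat]
  push_cast
  rfl

theorem PP_zero (w : List Bool) : (PP w).eval 0 = 0 := by
  unfold PP
  rw [eval_finsetSum]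
  apply Finset.sum_eq_zero
  intro k _
  have h := bn_eval_nat (k + 1) 0
  rw [Nat.cast_zero] at h
  rw [eval_mul, h]
  simp

theorem PP_natDegree_le (w : List Bool) : (PP w).natDegree ≤ w.length + 1 := by
  unfold PP
  apply natDegree_sum_le_of_forall_le
  intro j hj
  have hj' : j ≤ w.length := by
    have := Finset.mem_range.mp hj
    omega
  refine natDegree_mul_le.trans ?_
  rw [bn_natDegree]
  have := co_natDegree w j hj'
  omega

end Pool.Agent.Lib.FenceAF
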