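import Pool.Agent.Lib.MP_7d55f0_co.AF.CountA

set_option autoImplicit false

namespace Pool.Agent.Lib.FenceAF

open Polynomial Finset Pool.Agent.Lib.FenceGlue

theorem cc_pascal (k : ℕ) (z : ℝ) :
    (bn (k + 1)).eval (z + 1) = (bn (k + 1)).eval z + (bn k).eval z := by
  have hk : (k.factorial : ℝ) ≠ 0 := by exact_mod_cast k.factorial_ne_zero
  have hk1 : ((k + 1).factorial : ℝ) ≠ 0 := by exact_mod_cast (k + 1).factorial_ne_zero
  unfold bn
  simp only [eval_mul, eval_C, eval_prod, eval_sub, eval_X]
  have h1 : ∏ i ∈ range (k + 1), (z + 1 - (i : ℝ)) = (z + 1) * ∏ i ∈ range k, (z - (i : ℝ)) := by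
    rw [Finset.prod_range_succ']
    rw [mul_comm]
    congr 1
    · simp
    · apply Finset.prod_congr rfl
      intro i _
      push_cast
      ring
  have h2 : ∏ i ∈ range (k + 1), (z - (i : ℝ)) = (z - k) * ∏ i ∈ range k, (z - (i : ℝ)) := by
    rw [Finset.prod_range_succ]
    ring
  rw [h1, h2, Nat.factorial_succ]
  push_cast
  have hk3 : ((k : ℝ) + 1) ≠ 0 := by positivity
  field_simp
  ring

theorem cc_zero (k : ℕ) : (bn (k + 1)).eval (0 : ℝ) = 0 := by
  have h := bn_eval_nat (k + 1) 0
  rw [Nat.cast_zero] at h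
  rw [h]
  simp

/-- sum over the values above -/
theorem cc_up (A B k : ℕ) :
    ∑ p ∈ antidiagonal B, (bn k).eval (-((A : ℝ) + 1 + p.1 + 1)) =
      (bn (k + 1)).eval (-((A : ℝ) + 1)) - (bn (k + 1)).eval (-((A : ℝ) + 1 + B + 1)) := by
  rw [Finset.Nat.sum_antidiagonal_eq_sum_range_succ_mk]
  induction B with
  | zero =>
    rw [Finset.sum_range_one]
    have h := cc_pascal k (-((A : ℝ) + 1 + ((0 : ℕ) : ℝ) + 1))
    have h2 : -((A : ℝ) + 1 + ((0 : ℕ) : ℝ) + 1) + 1 = -((A : ℝ) + 1) := by push_cast; ring
    rw [h2] at h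
    linarith
  | succ B ih =>
    rw [Finset.sum_range_succ, ih]
    have h := cc_pascal k (-((A : ℝ) + 1 + ((B + 1 : ℕ) : ℝ) + 1))
    have h2 : -((A : ℝ) + 1 + ((B + 1 : ℕ) : ℝ) + 1) + 1 = -((A : ℝ) + 1 + B + 1) := by
      push_cast; ring
    rw [h2] at h
    linarith

theorem cc_down (A k : ℕ) :
    ∑ p ∈ antidiagonal A, (bn k).eval (-((p.1 : ℝ) + 1)) =
      - (bn (k + 1)).eval (-((A : ℝ) + 1)) := by
  rw [Finset.Nat.sum_antidiagonal_eq_sum_range_succ_mk]
  induction A with
  | zero =>
    rw [Finset.sum_range_one]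
    have h := cc_pascal k (-(((0 : ℕ) : ℝ) + 1))
    have h2 : -(((0 : ℕ) : ℝ) + 1) + 1 = 0 := by push_cast; ring
    rw [h2, cc_zero] at h
    linarith
  | succ A ih =>
    rw [Finset.sum_range_succ, ih]
    have h := cc_pascal k (-(((A + 1 : ℕ) : ℝ) + 1))
    have h2 : -(((A + 1 : ℕ) : ℝ) + 1) + 1 = -((A : ℝ) + 1) := by
      push_cast; ring
    rw [h2] at h
    linarith

theorem cc_co_zero (w : List Bool) (T : ℝ) :
    (co (true :: w) 0).eval T = ∑ j ∈ range (w.length + 1), (co w j).eval T * (bn (j + 1)).eval T := by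
  simp [co, eval_finsetSum]

/-- the right side for `true :: w` -/
theorem cc_true (w : List Bool) (T z : ℝ) :
    ∑ k ∈ range ((true :: w).length + 1), (co (true :: w) k).eval T * (bn k).eval z =
      ∑ k ∈ range (w.length + 1), (co w k).eval T * ((bn (k + 1)).eval T - (bn (k + 1)).eval z) := by
  rw [List.length_cons, Finset.sum_range_succ' (n := w.length + 1), cc_co_zero]
  have h3 : ∀ k ∈ range (w.length + 1),
      (co (true :: w) (k + 1)).eval T * (bn (k + 1)).eval z =
      -((co w k).eval T * (bn (k + 1)).eval z) := by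
    intro k _
    simp only [co, Nat.add_sub_cancel, Nat.succ_ne_zero, if_false, eval_neg]
    ring
  have h0 : (bn 0).eval z = 1 := by simp [bn]
  rw [Finset.sum_congr rfl h3, h0, mul_one, ← Finset.sum_add_distrib]
  apply Finset.sum_congr rfl
  intro k _
  ring

/-- the right side for `false :: w` -/
theorem cc_false (w : List Bool) (T z : ℝ) :
    ∑ k ∈ range ((false :: w).length + 1), (co (false :: w) k).eval T * (bn k).eval z =
      ∑ k ∈ range (w.length + 1), (co w k).eval T * (bn (k + 1)).eval (z + 1) := by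
  rw [List.length_cons]
  have h3 : ∀ k ∈ range (w.length + 1 + 1),
      (co (false :: w) k).eval T * (bn k).eval z =
      (co w k).eval T * (bn k).eval z +
      (if k = 0 then 0 else (co w (k - 1)).eval T * (bn k).eval z) := by
    intro k _
    simp only [co, eval_add]
    split_ifs with h
    · simp
    · ring
  rw [Finset.sum_congr rfl h3, Finset.sum_add_distrib, Finset.sum_range_succ (n := w.length + 1),
    co_zero w (w.length + 1) (by omega), Finset.sum_range_succ' (n := w.length + 1)]
  simp only [Nat.add_sub_cancel, Nat.succ_ne_zero, if_false, if_true, eval_zero, zero_mul,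
    add_zero]
  rw [← Finset.sum_add_distrib]
  apply Finset.sum_congr rfl
  intro k _
  rw [cc_pascal]
  ring

theorem rs_eq (w : List Bool) (A B : ℕ) :
    (rs w A B : ℝ) = (-1) ^ w.length * ∑ k ∈ range (w.length + 1),
      (co w k).eval (-((A : ℝ) + B + 1)) * (bn k).eval (-((A : ℝ) + 1)) := by
  induction w generalizing A B with
  | nil => simp [rs, co, bn]
  | cons c w ih =>
    cases c
    · -- false
      rw [cc_false, List.length_cons]
      cases A with
      | zero =>
        have h1 : rs (false :: w) 0 B = 0 := by simp [rs]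
        rw [h1]
        have h2 : -(((0 : ℕ) : ℝ) + 1) + 1 = 0 := by push_cast; ring
        rw [h2]
        simp [cc_zero]
      | succ A =>
        have h1 : rs (false :: w) (A + 1) B = ∑ p ∈ antidiagonal A, rs w p.1 (p.2 + 1 + B) := by
          simp [rs]
        rw [h1, Nat.cast_sum]
        have h2 : ∀ p ∈ antidiagonal A, ((rs w p.1 (p.2 + 1 + B) : ℕ) : ℝ) =
            (-1) ^ w.length * ∑ k ∈ range (w.length + 1),
              (co w k).eval (-(((A + 1 : ℕ) : ℝ) + B + 1)) * (bn k).eval (-((p.1 : ℝ) + 1)) := by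
          intro p hp
          have hp' : p.1 + p.2 = A := mem_antidiagonal.mp hp
          rw [ih]
          congr 1
          apply Finset.sum_congr rfl
          intro k _
          congr 3
          rw [← hp']
          push_cast
          ring
        rw [Finset.sum_congr rfl h2, ← Finset.mul_sum, Finset.sum_comm]
        simp_rw [← Finset.mul_sum, cc_down]
        have h4 : -(((A + 1 : ℕ) : ℝ) + 1) + 1 = -((A : ℝ) + 1) := by push_cast; ring
        rw [h4, pow_succ, mul_assoc, neg_one_mul, ← Finset.sum_neg_distrib]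
        congr 1
        apply Finset.sum_congr rfl
        intro k _
        ring
    · -- true
      rw [cc_true, List.length_cons]
      cases B with
      | zero =>
        have h1 : rs (true :: w) A 0 = 0 := by simp [rs]
        rw [h1]
        simp
      | succ B =>
        have h1 : rs (true :: w) A (B + 1) = ∑ p ∈ antidiagonal B, rs w (A + 1 + p.1) p.2 := by
          simp [rs]
        rw [h1, Nat.cast_sum]
        have h2 : ∀ p ∈ antidiagonal B, ((rs w (A + 1 + p.1) p.2 : ℕ) : ℝ) =
            (-1) ^ w.length * ∑ k ∈ range (w.length + 1),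
              (co w k).eval (-((A : ℝ) + ((B + 1 : ℕ) : ℝ) + 1)) *
                (bn k).eval (-((A : ℝ) + 1 + p.1 + 1)) := by
          intro p hp
          have hp' : p.1 + p.2 = B := mem_antidiagonal.mp hp
          rw [ih]
          congr 1
          apply Finset.sum_congr rfl
          intro k _
          congr 2
          · congr 2
            rw [← hp']
            push_cast
            ring
          · push_cast
            ring
        rw [Finset.sum_congr rfl h2, ← Finset.mul_sum, Finset.sum_comm]
        simp_rw [← Finset.mul_sum, cc_up]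
        rw [pow_succ, mul_assoc, neg_one_mul, ← Finset.sum_neg_distrib]
        congr 1
        apply Finset.sum_congr rfl
        intro k _
        have h5 : -((A : ℝ) + ((B + 1 : ℕ) : ℝ) + 1) = -((A : ℝ) + 1 + B + 1) := by
          push_cast; ring
        rw [h5]
        ring

theorem PP_neg (w : List Bool) (m : ℕ) :
    (PP w).eval (-((m : ℝ) + 1)) = (-1) ^ (w.length + 1) * (Os w m : ℝ) := by
  unfold PP Os
  rw [Nat.cast_sum, eval_finsetSum]
  have h2 : ∀ p ∈ antidiagonal m, ((rs w p.1 p.2 : ℕ) : ℝ) =
      (-1) ^ w.length * ∑ k ∈ range (w.length + 1), (co w k).eval (-((m : ℝ) + 1)) *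
        (bn k).eval (-((p.1 : ℝ) + 1)) := by
    intro p hp
    have hp' : p.1 + p.2 = m := mem_antidiagonal.mp hp
    rw [rs_eq]
    congr 1
    apply Finset.sum_congr rfl
    intro k _
    congr 3
    rw [← hp']
    push_cast
    ring
  rw [Finset.sum_congr rfl h2, ← Finset.mul_sum, Finset.sum_comm]
  simp_rw [← Finset.mul_sum, cc_down]
  rw [← mul_assoc, pow_succ]
  have h6 : ((-1 : ℝ) ^ w.length * -1 * (-1) ^ w.length) = -1 := by
    have : ((-1 : ℝ) ^ w.length) * (-1) ^ w.length = 1 := by
      rw [← mul_pow]; simp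
    linear_combination -this
  rw [h6, neg_one_mul, ← Finset.sum_neg_distrib]
  apply Finset.sum_congr rfl
  intro k _
  rw [eval_mul]
  ring

end Pool.Agent.Lib.FenceAF
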