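import Pool.Agent.Lib.MP_7d55f0_co.GLConv

set_option autoImplicit false

namespace Pool.Agent.Lib.FenceAF

open Polynomial Finset

/-- the polynomial `C(T, k)` -/
noncomputable def bn (k : ℕ) : ℝ[X] :=
  C ((k.factorial : ℝ)⁻¹) * ∏ i ∈ range k, (X - C (i : ℝ))

/-- the number of maps of the fence `w` to a chain with `T` elements whose first value has `x`
elements below it is `∑ k, (co w k)(T) * C(x, k)` -/
noncomputable def co : List Bool → ℕ → ℝ[X]
  | [], k => if k = 0 then 1 else 0
  | false :: w, k => co w k + (if k = 0 then 0 else co w (k - 1))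
  | true :: w, k => if k = 0 then ∑ j ∈ range (w.length + 1), co w j * bn (j + 1)
      else - co w (k - 1)

/-- the order polynomial of the fence `w` -/
noncomputable def PP (w : List Bool) : ℝ[X] :=
  ∑ j ∈ range (w.length + 1), co w j * bn (j + 1)

/-- number of strict maps of a fence with given first value (`A` values below, `B` above) -/
def rs : List Bool → ℕ → ℕ → ℕ
  | [], _, _ => 1
  | true :: _, _, 0 => 0
  | true :: w, A, B + 1 => ∑ p ∈ antidiagonal B, rs w (A + 1 + p.1) p.2
  | false :: _, 0, _ => 0
  | false :: w, A + 1, B => ∑ p ∈ antidiagonal A, rs w p.1 (p.2 + 1 + B)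

/-- number of strict maps of the fence `w` to a chain with `m + 1` elements -/
def Os (w : List Bool) (m : ℕ) : ℕ := ∑ p ∈ antidiagonal m, rs w p.1 p.2

/-- all runs of the word have length at most `R` -/
def Short (R : ℕ) (w : List Bool) : Prop :=
  ∀ (c : Bool) (u v : List Bool) (a : ℕ), w = u ++ List.replicate a c ++ v → a ≤ R

end Pool.Agent.Lib.FenceAF
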