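import Pool.Agent.Lib.MP_7d55f0_co.AF.GpDefs

set_option autoImplicit false

namespace Pool.Agent.Lib.FenceAF

open Finset

theorem add_le_of_mul_le {u v p q : ℝ} (hu : 0 ≤ u) (_hv : 0 ≤ v) (hq : 0 ≤ q)
    (h1 : u ≤ p) (h2 : v ≤ p) (h3 : u * v ≤ p * q) : u + v ≤ p + q := by
  rcases eq_or_lt_of_le (hu.trans h1) with hp | hp
  · rw [← hp] at h1 h2 ⊢
    linarith
  · have h4 : 0 ≤ (p - u) * (p - v) := mul_nonneg (by linarith) (by linarith)
    have h5 : p * (u + v) ≤ p * (p + q) := by nlinarith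
    exact le_of_mul_le_mul_left h5 hp

/-- the four functions theorem for a chain -/
theorem four_chain {N : ℕ} {θ : ℝ} {F G H K : ℕ → ℝ} (hθ : 0 ≤ θ) (F0 : ∀ x, 0 ≤ F x)
    (G0 : ∀ x, 0 ≤ G x) (H0 : ∀ x, 0 ≤ H x) (K0 : ∀ x, 0 ≤ K x)
    (h : ∀ x y, x ≤ N → y ≤ N → F x * G y ≤ θ * (H (min x y) * K (max x y))) :
    (∑ x ∈ range (N + 1), F x) * (∑ x ∈ range (N + 1), G x) ≤
      θ * ((∑ x ∈ range (N + 1), H x) * (∑ x ∈ range (N + 1), K x)) := by
  induction N with
  | zero =>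
    have := h 0 0 le_rfl le_rfl
    simpa using this
  | succ N ih =>
    have ih' := ih (fun x y hx hy => h x y (by omega) (by omega))
    have h4 := h (N + 1) (N + 1) le_rfl le_rfl
    rw [min_self, max_self] at h4
    have hs : ∑ x ∈ range (N + 1), (F x * G (N + 1) + F (N + 1) * G x) ≤
        ∑ x ∈ range (N + 1), (θ * (H x * K (N + 1)) + θ * (H (N + 1) * K x)) := by
      apply sum_le_sum
      intro x hx
      rw [mem_range] at hx
      have a1 := h x (N + 1) (by omega) le_rfl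
      have a2 := h (N + 1) x le_rfl (by omega)
      have a3 := h x x (by omega) (by omega)
      rw [min_eq_left (by omega), max_eq_right (by omega)] at a1
      rw [min_eq_right (by omega), max_eq_left (by omega)] at a2
      rw [min_self, max_self] at a3
      apply add_le_of_mul_le (mul_nonneg (F0 _) (G0 _)) (mul_nonneg (F0 _) (G0 _))
        (mul_nonneg hθ (mul_nonneg (H0 _) (K0 _))) a1 a2
      calc F x * G (N + 1) * (F (N + 1) * G x) = (F x * G x) * (F (N + 1) * G (N + 1)) := by ring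
        _ ≤ (θ * (H x * K x)) * (θ * (H (N + 1) * K (N + 1))) :=
          mul_le_mul a3 h4 (mul_nonneg (F0 _) (G0 _))
            (mul_nonneg hθ (mul_nonneg (H0 _) (K0 _)))
        _ = _ := by ring
    rw [sum_add_distrib, sum_add_distrib, ← sum_mul, ← mul_sum, ← mul_sum, ← mul_sum,
      ← sum_mul, ← mul_sum] at hs
    rw [sum_range_succ F, sum_range_succ G, sum_range_succ H, sum_range_succ K]
    nlinarith [hs, ih', h4]

/-- the four functions theorem for a product of two chains -/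
theorem four_chain₂ {N : ℕ} {θ : ℝ} {F G H K : ℕ → ℕ → ℝ} (hθ : 0 ≤ θ)
    (F0 : ∀ x y, 0 ≤ F x y) (G0 : ∀ x y, 0 ≤ G x y) (H0 : ∀ x y, 0 ≤ H x y)
    (K0 : ∀ x y, 0 ≤ K x y)
    (h : ∀ x y x' y', x ≤ N → y ≤ N → x' ≤ N → y' ≤ N →
      F x y * G x' y' ≤ θ * (H (min x x') (min y y') * K (max x x') (max y y'))) :
    (∑ x ∈ range (N + 1), ∑ y ∈ range (N + 1), F x y) *
      (∑ x ∈ range (N + 1), ∑ y ∈ range (N + 1), G x y) ≤
      θ * ((∑ x ∈ range (N + 1), ∑ y ∈ range (N + 1), H x y) *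
        (∑ x ∈ range (N + 1), ∑ y ∈ range (N + 1), K x y)) := by
  apply four_chain (F := fun x => ∑ y ∈ range (N + 1), F x y)
    (G := fun x => ∑ y ∈ range (N + 1), G x y) (H := fun x => ∑ y ∈ range (N + 1), H x y)
    (K := fun x => ∑ y ∈ range (N + 1), K x y) hθ
    (fun x => sum_nonneg fun y _ => F0 x y) (fun x => sum_nonneg fun y _ => G0 x y)
    (fun x => sum_nonneg fun y _ => H0 x y) (fun x => sum_nonneg fun y _ => K0 x y)
  intro x x' hx hx'
  exact four_chain (F := F x) (G := G x') (H := H (min x x')) (K := K (max x x')) hθ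
    (F0 x) (G0 x') (H0 _) (K0 _) (fun y y' hy hy' => h x y x' y' hx hy hx' hy')

/-- the inequality passes through one step -/
theorem stp_four {N e : ℕ} (c : Bool) {θ : ℝ} {F G H K : ℕ → ℝ} (hθ : 0 ≤ θ)
    (F0 : ∀ x, 0 ≤ F x) (G0 : ∀ x, 0 ≤ G x) (H0 : ∀ x, 0 ≤ H x) (K0 : ∀ x, 0 ≤ K x)
    (h : ∀ x y, F x * G y ≤ θ * (H (min x y) * K (max x y))) (x y : ℕ) :
    stp N e c F x * stp N e c G y ≤ θ * (stp N e c H (min x y) * stp N e c K (max x y)) := by
  unfold stp
  apply four_chain hθ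
  · intro z; split_ifs <;> first | exact F0 z | exact le_rfl
  · intro z; split_ifs <;> first | exact G0 z | exact le_rfl
  · intro z; split_ifs <;> first | exact H0 z | exact le_rfl
  · intro z; split_ifs <;> first | exact K0 z | exact le_rfl
  · intro z z' _ _
    by_cases h1 : (if c then x + e ≤ z else z + e ≤ x)
    · by_cases h2 : (if c then y + e ≤ z' else z' + e ≤ y)
      · have h3 : (if c then min x y + e ≤ min z z' else min z z' + e ≤ min x y) := by
          cases c <;> simp only [Bool.false_eq_true, if_true, if_false] at h1 h2 ⊢ <;> omega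
        have h4 : (if c then max x y + e ≤ max z z' else max z z' + e ≤ max x y) := by
          cases c <;> simp only [Bool.false_eq_true, if_true, if_false] at h1 h2 ⊢ <;> omega
        rw [if_pos h1, if_pos h2, if_pos h3, if_pos h4]
        exact h z z'
      · rw [if_neg h2, mul_zero]
        apply mul_nonneg hθ
        apply mul_nonneg <;> split_ifs <;> first | exact H0 _ | exact K0 _ | exact le_rfl
    · rw [if_neg h1, zero_mul]
      apply mul_nonneg hθ
      apply mul_nonneg <;> split_ifs <;> first | exact H0 _ | exact K0 _ | exact le_rfl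

theorem stp_nonneg {N e : ℕ} (c : Bool) {F : ℕ → ℝ} (F0 : ∀ x, 0 ≤ F x) (x : ℕ) :
    0 ≤ stp N e c F x := by
  unfold stp
  apply sum_nonneg
  intro z _
  split_ifs <;> first | exact F0 z | exact le_rfl

theorem win_nonneg {lo hi : ℕ} {F : ℕ → ℝ} (F0 : ∀ x, 0 ≤ F x) (x : ℕ) :
    0 ≤ win lo hi F x := by
  unfold win
  split_ifs <;> first | exact F0 x | exact le_rfl

/-- cutting to the four windows -/
theorem Inv.of_win {N : ℕ} {θ : ℝ} {F G H K : ℕ → ℝ} (hN : 1 ≤ N) (hθ : 0 ≤ θ)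
    (F0 : ∀ x, 0 ≤ F x) (G0 : ∀ x, 0 ≤ G x) (H0 : ∀ x, 0 ≤ H x) (K0 : ∀ x, 0 ≤ K x)
    (h : ∀ x y, x ≤ N → 1 ≤ y → y ≤ N - 1 → F x * G y ≤ θ * (H (min x y) * K (max x y))) :
    Inv N θ (win 0 N F) (win 1 (N - 1) G) (win 0 (N - 1) H) (win 1 N K) := by
  refine ⟨win_nonneg F0, win_nonneg G0, win_nonneg H0, win_nonneg K0, ?_, ?_, ?_, ?_, ?_⟩
  · intro x hx; unfold win; rw [if_neg (by omega)]
  · intro x hx; unfold win; rw [if_neg (by omega)]
  · intro x hx; unfold win; rw [if_neg (by omega)]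
  · intro x hx; unfold win; rw [if_neg (by omega)]
  · intro x y
    by_cases hx : 0 ≤ x ∧ x ≤ N
    · by_cases hy : 1 ≤ y ∧ y ≤ N - 1
      · simp only [win]
        rw [if_pos hx, if_pos hy, if_pos (by omega), if_pos (by omega)]
        exact h x y hx.2 hy.1 hy.2
      · have : win 1 (N - 1) G y = 0 := by unfold win; rw [if_neg hy]
        rw [this, mul_zero]
        exact mul_nonneg hθ (mul_nonneg (win_nonneg H0 _) (win_nonneg K0 _))
    · have : win 0 N F x = 0 := by unfold win; rw [if_neg hx]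
      rw [this, zero_mul]
      exact mul_nonneg hθ (mul_nonneg (win_nonneg H0 _) (win_nonneg K0 _))

theorem Inv.step {N e : ℕ} (c : Bool) {θ : ℝ} {F G H K : ℕ → ℝ} (hN : 1 ≤ N) (hθ : 0 ≤ θ)
    (h : Inv N θ F G H K) :
    Inv N θ (win 0 N (stp N e c F)) (win 1 (N - 1) (stp N e c G)) (win 0 (N - 1) (stp N e c H))
      (win 1 N (stp N e c K)) :=
  Inv.of_win hN hθ (stp_nonneg c h.F0) (stp_nonneg c h.G0) (stp_nonneg c h.H0)
    (stp_nonneg c h.K0) (fun x y _ _ _ => stp_four c hθ h.F0 h.G0 h.H0 h.K0 h.le x y)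

theorem Inv.start {N : ℕ} (hN : 1 ≤ N) :
    Inv N 1 (win 0 N fun _ => 1) (win 1 (N - 1) fun _ => 1) (win 0 (N - 1) fun _ => 1)
      (win 1 N fun _ => 1) :=
  Inv.of_win hN zero_le_one (fun _ => zero_le_one) (fun _ => zero_le_one) (fun _ => zero_le_one)
    (fun _ => zero_le_one) (fun x y _ _ _ => by norm_num)

end Pool.Agent.Lib.FenceAF
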