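import Pool.Agent.Lib.MP_7d55f0_co.AF.GpA

set_option autoImplicit false

namespace Pool.Agent.Lib.FenceAF

open Finset

/-- part of a double sum: `y` restricted by `P`, `q` restricted by `Q` -/
noncomputable def part (N e x : ℕ) (P Q : ℕ → Prop) [DecidablePred P] [DecidablePred Q]
    (k : ℕ → ℕ → ℝ) (F : ℕ → ℝ) : ℝ :=
  ∑ y ∈ range (N + 1), ∑ q ∈ range (N + 1),
    if P y ∧ Q q ∧ q + e ≤ x then k y q * F y else 0

/-- four functions for parts -/
theorem part_four {N e x x' : ℕ} {θ : ℝ} {F G H K : ℕ → ℝ} {kF kG kH kK : ℕ → ℕ → ℝ}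
    (PF PG PH PK QF QG QH QK : ℕ → Prop) [DecidablePred PF] [DecidablePred PG]
    [DecidablePred PH] [DecidablePred PK] [DecidablePred QF] [DecidablePred QG]
    [DecidablePred QH] [DecidablePred QK]
    (hθ : 0 ≤ θ) (F0 : ∀ x, 0 ≤ F x) (G0 : ∀ x, 0 ≤ G x) (H0 : ∀ x, 0 ≤ H x)
    (K0 : ∀ x, 0 ≤ K x)
    (kF0 : ∀ y q, 0 ≤ kF y q) (kG0 : ∀ y q, 0 ≤ kG y q) (kH0 : ∀ y q, 0 ≤ kH y q)
    (kK0 : ∀ y q, 0 ≤ kK y q) {κ : ℝ} (hκ : 0 ≤ κ)
    (hk : ∀ y q y' q', y ≤ N → q ≤ N → y' ≤ N → q' ≤ N → PF y → QF q → PG y' → QG q' →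
      kF y q * kG y' q' ≤ κ * (kH (min y y') (min q q') * kK (max y y') (max q q')))
    (hP : ∀ y y', y ≤ N → y' ≤ N → PF y → PG y' → PH (min y y') ∧ PK (max y y'))
    (hQ : ∀ y y', y ≤ N → y' ≤ N → QF y → QG y' → QH (min y y') ∧ QK (max y y'))
    (hF : ∀ x y, F x * G y ≤ θ * (H (min x y) * K (max x y))) :
    part N e x PF QF kF F * part N e x' PG QG kG G ≤
      θ * κ * (part N e (min x x') PH QH kH H * part N e (max x x') PK QK kK K) := by
  unfold part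
  apply four_chain₂ (mul_nonneg hθ hκ)
  · intro y q; split_ifs <;> first | exact mul_nonneg (kF0 _ _) (F0 _) | exact le_rfl
  · intro y q; split_ifs <;> first | exact mul_nonneg (kG0 _ _) (G0 _) | exact le_rfl
  · intro y q; split_ifs <;> first | exact mul_nonneg (kH0 _ _) (H0 _) | exact le_rfl
  · intro y q; split_ifs <;> first | exact mul_nonneg (kK0 _ _) (K0 _) | exact le_rfl
  · intro y q y' q' hy hq hy' hq'
    by_cases h1 : PF y ∧ QF q ∧ q + e ≤ x
    · by_cases h2 : PG y' ∧ QG q' ∧ q' + e ≤ x'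
      · have hp := hP y y' hy hy' h1.1 h2.1
        have hq2 := hQ q q' hq hq' h1.2.1 h2.2.1
        rw [if_pos h1, if_pos h2, if_pos ⟨hp.1, hq2.1, by omega⟩,
          if_pos ⟨hp.2, hq2.2, by omega⟩]
        have a1 := hk y q y' q' hy hq hy' hq' h1.1 h1.2.1 h2.1 h2.2.1
        have a2 := hF y y'
        calc kF y q * F y * (kG y' q' * G y') = (kF y q * kG y' q') * (F y * G y') := by ring
          _ ≤ (κ * (kH (min y y') (min q q') * kK (max y y') (max q q'))) *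
              (θ * (H (min y y') * K (max y y'))) :=
            mul_le_mul a1 a2 (mul_nonneg (F0 _) (G0 _))
              (mul_nonneg hκ (mul_nonneg (kH0 _ _) (kK0 _ _)))
          _ = _ := by ring
      · rw [if_neg h2, mul_zero]
        apply mul_nonneg (mul_nonneg hθ hκ)
        apply mul_nonneg <;> split_ifs <;>
          first
          | exact mul_nonneg (kH0 _ _) (H0 _)
          | exact mul_nonneg (kK0 _ _) (K0 _)
          | exact le_rfl
    · rw [if_neg h1, zero_mul]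
      apply mul_nonneg (mul_nonneg hθ hκ)
      apply mul_nonneg <;> split_ifs <;>
        first
        | exact mul_nonneg (kH0 _ _) (H0 _)
        | exact mul_nonneg (kK0 _ _) (K0 _)
        | exact le_rfl

theorem part_nonneg {N e x : ℕ} (P Q : ℕ → Prop) [DecidablePred P] [DecidablePred Q]
    {k : ℕ → ℕ → ℝ} {F : ℕ → ℝ} (k0 : ∀ y q, 0 ≤ k y q) (F0 : ∀ y, 0 ≤ F y) :
    0 ≤ part N e x P Q k F := by
  unfold part
  apply sum_nonneg
  intro y _
  apply sum_nonneg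
  intro q _
  split_ifs <;> first | exact mul_nonneg (k0 _ _) (F0 _) | exact le_rfl

/-- decomposition according to a predicate on `y` -/
theorem part_split_y {N e x : ℕ} (P P' Q : ℕ → Prop) [DecidablePred P] [DecidablePred P']
    [DecidablePred Q] (k : ℕ → ℕ → ℝ) (F : ℕ → ℝ) :
    part N e x P Q k F = part N e x (fun y => P y ∧ P' y) Q k F +
      part N e x (fun y => P y ∧ ¬ P' y) Q k F := by
  unfold part
  rw [← sum_add_distrib]
  apply sum_congr rfl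
  intro y _
  rw [← sum_add_distrib]
  apply sum_congr rfl
  intro q _
  by_cases h1 : P y <;> by_cases h2 : P' y <;> simp [h1, h2]

theorem part_split_q {N e x : ℕ} (P Q Q' : ℕ → Prop) [DecidablePred P] [DecidablePred Q']
    [DecidablePred Q] (k : ℕ → ℕ → ℝ) (F : ℕ → ℝ) :
    part N e x P Q k F = part N e x P (fun y => Q y ∧ Q' y) k F +
      part N e x P (fun y => Q y ∧ ¬ Q' y) k F := by
  unfold part
  rw [← sum_add_distrib]
  apply sum_congr rfl
  intro y _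
  rw [← sum_add_distrib]
  apply sum_congr rfl
  intro q _
  by_cases h1 : Q q <;> by_cases h2 : Q' q <;> simp [h1, h2]

/-- the transfer through the block is a part -/
theorem stp_block {N e : ℕ} (lo hi lo' hi' : ℕ) (k : ℕ → ℕ → ℝ) (F : ℕ → ℝ)
    (x : ℕ) :
    stp N e false (win lo hi fun q => ∑ y ∈ range (N + 1), k y q * win lo' hi' F y) x =
      part N e x (fun _ => True) (fun q => lo ≤ q ∧ q ≤ hi) k (win lo' hi' F) := by
  unfold stp part
  rw [sum_comm]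
  apply sum_congr rfl
  intro q _
  simp only [Bool.false_eq_true, if_false, true_and, win]
  by_cases h1 : q + e ≤ x
  · by_cases h2 : lo ≤ q ∧ q ≤ hi
    · simp [h1, h2]
    · simp [h1, h2]
  · simp [h1]

/-- restriction to the support -/
theorem part_supp {N e x : ℕ} (P P' Q : ℕ → Prop) [DecidablePred P] [DecidablePred P']
    [DecidablePred Q] (k : ℕ → ℕ → ℝ) (F : ℕ → ℝ)
    (h : ∀ y, y ≤ N → ((P y ↔ P' y) ∨ F y = 0)) :
    part N e x P Q k F = part N e x P' Q k F := by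
  unfold part
  apply sum_congr rfl
  intro y hy
  rw [mem_range] at hy
  apply sum_congr rfl
  intro q _
  rcases h y (by omega) with h1 | h1
  · simp only [h1]
  · rw [h1, mul_zero]
    simp

theorem part_le_of_q {N e x n : ℕ} (P Q Q' : ℕ → Prop) [DecidablePred P] [DecidablePred Q]
    [DecidablePred Q'] {k : ℕ → ℕ → ℝ} {F : ℕ → ℝ} (k0 : ∀ y q, 0 ≤ k y q)
    (F0 : ∀ y, 0 ≤ F y) (hQ : ∀ q, q ≤ N → Q q → q ∈ range n) (hQ' : Q' 0)
    (hk : ∀ y q, y ≤ N → q ≤ N → P y → Q q → k y q ≤ k y 0) :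
    part N e x P Q k F ≤ n * part N e x P Q' k F := by
  unfold part
  rw [mul_sum]
  apply sum_le_sum
  intro y hy
  rw [mem_range] at hy
  have h1 : ∑ q ∈ range (N + 1), (if P y ∧ Q q ∧ q + e ≤ x then k y q * F y else 0) ≤
      ∑ q ∈ range (N + 1), (if q ∈ range n then
        (if P y ∧ Q' 0 ∧ 0 + e ≤ x then k y 0 * F y else 0) else 0) := by
    apply sum_le_sum
    intro q hq
    rw [mem_range] at hq
    by_cases h : P y ∧ Q q ∧ q + e ≤ x
    · rw [if_pos h, if_pos (hQ q (by omega) h.2.1), if_pos ⟨h.1, hQ', by omega⟩]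
      exact mul_le_mul_of_nonneg_right (hk y q (by omega) (by omega) h.1 h.2.1) (F0 y)
    · rw [if_neg h]
      split_ifs <;> first | exact mul_nonneg (k0 _ _) (F0 _) | exact le_rfl
  refine h1.trans ?_
  have h2 : ∑ q ∈ range (N + 1), (if q ∈ range n then
        (if P y ∧ Q' 0 ∧ 0 + e ≤ x then k y 0 * F y else 0) else 0) ≤
      n * (if P y ∧ Q' 0 ∧ 0 + e ≤ x then k y 0 * F y else 0) := by
    rw [← sum_filter, sum_const, nsmul_eq_mul]
    apply mul_le_mul_of_nonneg_right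
    · have : ((range (N + 1)).filter (fun q => q ∈ range n)).card ≤ (range n).card := by
        apply card_le_card
        intro q hq
        rw [mem_filter] at hq
        exact hq.2
      rw [card_range] at this
      exact_mod_cast this
    · split_ifs <;> first | exact mul_nonneg (k0 _ _) (F0 _) | exact le_rfl
  refine h2.trans ?_
  apply mul_le_mul_of_nonneg_left _ (Nat.cast_nonneg n)
  exact single_le_sum (f := fun q => if P y ∧ Q' q ∧ q + e ≤ x then k y q * F y else 0)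
    (fun q _ => by split_ifs <;> first | exact mul_nonneg (k0 _ _) (F0 _) | exact le_rfl)
    (mem_range.2 (by omega))

theorem part_le_of_y {N e x : ℕ} (P P' Q : ℕ → Prop) [DecidablePred P] [DecidablePred P']
    [DecidablePred Q] {k : ℕ → ℕ → ℝ} {F : ℕ → ℝ} (k0 : ∀ y q, 0 ≤ k y q)
    (F0 : ∀ y, 0 ≤ F y) (hP0 : ¬ P 0) (hP' : P' N)
    (hk : ∀ y q, y ≤ N → q ≤ N → P y → Q q → k y q ≤ k N q)
    (hF : ∀ y, y ≤ N → P y → F y ≤ F N) :
    part N e x P Q k F ≤ N * part N e x P' Q k F := by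
  unfold part
  rw [sum_comm, sum_comm (s := range (N + 1)) (t := range (N + 1)) (f := fun y q =>
    if P' y ∧ Q q ∧ q + e ≤ x then k y q * F y else 0), mul_sum]
  apply sum_le_sum
  intro q hq
  rw [mem_range] at hq
  have h1 : ∑ y ∈ range (N + 1), (if P y ∧ Q q ∧ q + e ≤ x then k y q * F y else 0) ≤
      ∑ y ∈ range (N + 1), (if y ≠ 0 then
        (if P' N ∧ Q q ∧ q + e ≤ x then k N q * F N else 0) else 0) := by
    apply sum_le_sum
    intro y hy
    rw [mem_range] at hy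
    by_cases h : P y ∧ Q q ∧ q + e ≤ x
    · have hy0 : y ≠ 0 := by rintro rfl; exact hP0 h.1
      rw [if_pos h, if_pos hy0, if_pos ⟨hP', h.2⟩]
      exact mul_le_mul (hk y q (by omega) (by omega) h.1 h.2.1) (hF y (by omega) h.1) (F0 y)
        (k0 _ _)
    · rw [if_neg h]
      split_ifs <;> first | exact mul_nonneg (k0 _ _) (F0 _) | exact le_rfl
  refine h1.trans ?_
  have h2 : ∑ y ∈ range (N + 1), (if y ≠ 0 then
        (if P' N ∧ Q q ∧ q + e ≤ x then k N q * F N else 0) else 0) =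
      N * (if P' N ∧ Q q ∧ q + e ≤ x then k N q * F N else 0) := by
    rw [sum_range_succ']
    simp
  rw [h2]
  apply mul_le_mul_of_nonneg_left _ (Nat.cast_nonneg N)
  exact single_le_sum (f := fun y => if P' y ∧ Q q ∧ q + e ≤ x then k y q * F y else 0)
    (fun q _ => by split_ifs <;> first | exact mul_nonneg (k0 _ _) (F0 _) | exact le_rfl)
    (mem_range.2 (by omega))

theorem stp_false_mono {N e : ℕ} {K : ℕ → ℝ} (K0 : ∀ x, 0 ≤ K x) {y y' : ℕ} (h : y ≤ y') :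
    stp N e false K y ≤ stp N e false K y' := by
  unfold stp
  apply sum_le_sum
  intro z _
  simp only [Bool.false_eq_true, if_false]
  by_cases h1 : z + e ≤ y
  · rw [if_pos h1, if_pos (by omega)]
  · rw [if_neg h1]
    split_ifs <;> first | exact K0 _ | exact le_rfl

/-- **abstract block**: kernels between a local maximum `y` and a local minimum `q` -/
theorem block {N e : ℕ} {θ δ : ℝ} {F G H K : ℕ → ℝ} {kF kG kH kK : ℕ → ℕ → ℝ} (hN : 2 ≤ N)
    (hθ : 0 ≤ θ) (hδ : 0 ≤ δ) (hδ1 : δ ≤ 1) (h : Inv N θ F G H K)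
    (kF0 : ∀ y q, 0 ≤ kF y q) (kG0 : ∀ y q, 0 ≤ kG y q) (kH0 : ∀ y q, 0 ≤ kH y q)
    (kK0 : ∀ y q, 0 ≤ kK y q)
    (k1 : ∀ y q y' q', y ≤ N → q ≤ N → 1 ≤ y' → y' ≤ N - 1 → 1 ≤ q' → q' ≤ N - 1 →
      kF y q * kG y' q' ≤ kH (min y y') (min q q') * kK (max y y') (max q q'))
    (k2 : ∀ y q, 1 ≤ y → y ≤ N - 1 → 1 ≤ q → q ≤ N - 1 →
      kF N 0 * kG y q ≤ (1 - δ) * (kH y 0 * kK N q))
    (k3 : ∀ y q, y ≤ N - 1 → q ≤ N - 1 → kH y q ≤ kH y 0)
    (k4 : ∀ y q, 1 ≤ y → y ≤ N → 1 ≤ q → q ≤ N → kK y q ≤ kK N q) :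
    Inv N (θ * (1 - δ / N ^ 2))
      (win 0 N (stp N e false (win 0 N fun q => ∑ y ∈ range (N + 1),
        kF y q * win 0 N (stp N e false F) y)))
      (win 1 (N - 1) (stp N e false (win 1 (N - 1) fun q => ∑ y ∈ range (N + 1),
        kG y q * win 1 (N - 1) (stp N e false G) y)))
      (win 0 (N - 1) (stp N e false (win 0 (N - 1) fun q => ∑ y ∈ range (N + 1),
        kH y q * win 0 (N - 1) (stp N e false H) y)))
      (win 1 N (stp N e false (win 1 N fun q => ∑ y ∈ range (N + 1),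
        kK y q * win 1 N (stp N e false K) y))) := by
  have hN' : (2 : ℝ) ≤ N := by exact_mod_cast hN
  have hδN : δ / (N : ℝ) ^ 2 ≤ 1 := by
    rw [div_le_one (by positivity)]
    nlinarith
  have hθ' : 0 ≤ θ * (1 - δ / (N : ℝ) ^ 2) := mul_nonneg hθ (by linarith)
  have hI := h.step (e := e) false (by omega) hθ
  have hint : ∀ (k : ℕ → ℕ → ℝ) (F' : ℕ → ℝ) (lo hi : ℕ), (∀ y q, 0 ≤ k y q) →
      (∀ y, 0 ≤ F' y) → ∀ x, 0 ≤ stp N e false
        (win lo hi fun q => ∑ y ∈ range (N + 1), k y q * F' y) x := by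
    intro k F' lo hi k0 F0 x
    apply stp_nonneg
    apply win_nonneg
    intro q
    exact sum_nonneg fun y _ => mul_nonneg (k0 _ _) (F0 _)
  apply Inv.of_win (by omega) hθ' (hint _ _ _ _ kF0 hI.F0) (hint _ _ _ _ kG0 hI.G0)
    (hint _ _ _ _ kH0 hI.H0) (hint _ _ _ _ kK0 hI.K0)
  intro x x' hx hx1 hx2
  rw [stp_block, stp_block, stp_block, stp_block]
  set F1 := win 0 N (stp N e false F) with hF1
  set G1 := win 1 (N - 1) (stp N e false G) with hG1
  set H1 := win 0 (N - 1) (stp N e false H) with hH1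
  set K1 := win 1 N (stp N e false K) with hK1
  -- decomposition of the `F` part
  rw [part_split_y (fun _ => True) (fun y => y < N) (fun q => 0 ≤ q ∧ q ≤ N) kF F1,
    part_split_q (fun y => True ∧ y < N) (fun q => 0 ≤ q ∧ q ≤ N) (fun q => 1 ≤ q) kF F1,
    part_split_q (fun y => True ∧ ¬ y < N) (fun q => 0 ≤ q ∧ q ≤ N) (fun q => 1 ≤ q) kF F1]
  -- the `G` part
  rw [part_supp (fun _ => True) (fun y => 1 ≤ y ∧ y ≤ N - 1) (fun q => 1 ≤ q ∧ q ≤ N - 1) kG G1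
    (fun y _ => by
      by_cases hy : 1 ≤ y ∧ y ≤ N - 1
      · left; simp [hy]
      · right; rw [hG1]; unfold win; rw [if_neg hy])]
  -- the `H` part
  rw [part_supp (fun _ => True) (fun y => y ≤ N - 1) (fun q => 0 ≤ q ∧ q ≤ N - 1) kH H1
    (fun y _ => by
      by_cases hy : y ≤ N - 1
      · left; simp [hy]
      · right; rw [hH1]; unfold win; rw [if_neg (by omega)])]
  -- the `K` part
  rw [part_supp (fun _ => True) (fun y => 1 ≤ y ∧ y ≤ N) (fun q => 1 ≤ q ∧ q ≤ N) kK K1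
    (fun y _ => by
      by_cases hy : 1 ≤ y ∧ y ≤ N
      · left; simp [hy]
      · right; rw [hK1]; unfold win; rw [if_neg hy])]
  set z := min x x' with hz
  set z' := max x x' with hz'
  have hQH : part N e z (fun y => y ≤ N - 1) (fun q => 0 ≤ q ∧ q ≤ N - 1) kH H1 ≤
      N * part N e z (fun y => y ≤ N - 1) (fun q => (0 ≤ q ∧ q ≤ N - 1) ∧ ¬ 1 ≤ q) kH H1 := by
    apply part_le_of_q _ _ _ kH0 hI.H0
    · intro q _ hq
      rw [mem_range]
      omega
    · exact ⟨⟨le_rfl, by omega⟩, by omega⟩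
    · intro y q _ _ hy hq
      exact k3 y q hy hq.2
  have hYK : part N e z' (fun y => 1 ≤ y ∧ y ≤ N) (fun q => 1 ≤ q ∧ q ≤ N) kK K1 ≤
      N * part N e z' (fun y => (1 ≤ y ∧ y ≤ N) ∧ ¬ y < N) (fun q => 1 ≤ q ∧ q ≤ N) kK K1 := by
    apply part_le_of_y _ _ _ kK0 hI.K0
    · omega
    · exact ⟨⟨by omega, le_rfl⟩, by omega⟩
    · intro y q _ _ hy hq
      exact k4 y q hy.1 hy.2 hq.1 hq.2
    · intro y _ hy
      rw [hK1]
      unfold win
      rw [if_pos hy, if_pos ⟨by omega, le_rfl⟩]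
      exact stp_false_mono h.K0 hy.2
  have eH := part_split_q (N := N) (e := e) (x := z) (fun y => y ≤ N - 1)
    (fun q => 0 ≤ q ∧ q ≤ N - 1) (fun q => 1 ≤ q) kH H1
  have eK := part_split_y (N := N) (e := e) (x := z') (fun y => 1 ≤ y ∧ y ≤ N) (fun y => y < N)
    (fun q => 1 ≤ q ∧ q ≤ N) kK K1
  rw [eH] at hQH ⊢
  rw [eK] at hYK ⊢
  -- the four inequalities
  have iS : part N e x (fun y => True ∧ y < N) (fun q => (0 ≤ q ∧ q ≤ N) ∧ 1 ≤ q) kF F1 *
      part N e x' (fun y => 1 ≤ y ∧ y ≤ N - 1) (fun q => 1 ≤ q ∧ q ≤ N - 1) kG G1 ≤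
      θ * 1 * (part N e z (fun y => y ≤ N - 1) (fun q => (0 ≤ q ∧ q ≤ N - 1) ∧ 1 ≤ q) kH H1 *
        part N e z' (fun y => (1 ≤ y ∧ y ≤ N) ∧ y < N) (fun q => 1 ≤ q ∧ q ≤ N) kK K1) := by
    apply part_four _ _ _ _ _ _ _ _ hθ hI.F0 hI.G0 hI.H0 hI.K0 kF0 kG0 kH0 kK0 zero_le_one
    · intro y q y' q' hy hq hy' hq' _ _ h3 h4
      rw [one_mul]
      exact k1 y q y' q' hy hq h3.1 h3.2 h4.1 h4.2
    · intro y y' hy hy' h1 h2
      constructor
      · omega
      · omega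
    · intro y y' hy hy' h1 h2
      constructor
      · omega
      · omega
    · exact hI.le
  have iQ : part N e x (fun y => True ∧ y < N) (fun q => (0 ≤ q ∧ q ≤ N) ∧ ¬ 1 ≤ q) kF F1 *
      part N e x' (fun y => 1 ≤ y ∧ y ≤ N - 1) (fun q => 1 ≤ q ∧ q ≤ N - 1) kG G1 ≤
      θ * 1 * (part N e z (fun y => y ≤ N - 1) (fun q => (0 ≤ q ∧ q ≤ N - 1) ∧ ¬ 1 ≤ q) kH H1 *
        part N e z' (fun y => (1 ≤ y ∧ y ≤ N) ∧ y < N) (fun q => 1 ≤ q ∧ q ≤ N) kK K1) := by
    apply part_four _ _ _ _ _ _ _ _ hθ hI.F0 hI.G0 hI.H0 hI.K0 kF0 kG0 kH0 kK0 zero_le_one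
    · intro y q y' q' hy hq hy' hq' _ _ h3 h4
      rw [one_mul]
      exact k1 y q y' q' hy hq h3.1 h3.2 h4.1 h4.2
    · intro y y' hy hy' h1 h2
      constructor
      · omega
      · omega
    · intro y y' hy hy' h1 h2
      constructor
      · omega
      · omega
    · exact hI.le
  have iY : part N e x (fun y => True ∧ ¬ y < N) (fun q => (0 ≤ q ∧ q ≤ N) ∧ 1 ≤ q) kF F1 *
      part N e x' (fun y => 1 ≤ y ∧ y ≤ N - 1) (fun q => 1 ≤ q ∧ q ≤ N - 1) kG G1 ≤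
      θ * 1 * (part N e z (fun y => y ≤ N - 1) (fun q => (0 ≤ q ∧ q ≤ N - 1) ∧ 1 ≤ q) kH H1 *
        part N e z' (fun y => (1 ≤ y ∧ y ≤ N) ∧ ¬ y < N) (fun q => 1 ≤ q ∧ q ≤ N) kK K1) := by
    apply part_four _ _ _ _ _ _ _ _ hθ hI.F0 hI.G0 hI.H0 hI.K0 kF0 kG0 kH0 kK0 zero_le_one
    · intro y q y' q' hy hq hy' hq' _ _ h3 h4
      rw [one_mul]
      exact k1 y q y' q' hy hq h3.1 h3.2 h4.1 h4.2
    · intro y y' hy hy' h1 h2
      constructor
      · omega
      · omega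
    · intro y y' hy hy' h1 h2
      constructor
      · omega
      · omega
    · exact hI.le
  have iX : part N e x (fun y => True ∧ ¬ y < N) (fun q => (0 ≤ q ∧ q ≤ N) ∧ ¬ 1 ≤ q) kF F1 *
      part N e x' (fun y => 1 ≤ y ∧ y ≤ N - 1) (fun q => 1 ≤ q ∧ q ≤ N - 1) kG G1 ≤
      θ * (1 - δ) *
      (part N e z (fun y => y ≤ N - 1) (fun q => (0 ≤ q ∧ q ≤ N - 1) ∧ ¬ 1 ≤ q) kH H1 *
        part N e z' (fun y => (1 ≤ y ∧ y ≤ N) ∧ ¬ y < N) (fun q => 1 ≤ q ∧ q ≤ N) kK K1) := by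
    apply part_four _ _ _ _ _ _ _ _ hθ hI.F0 hI.G0 hI.H0 hI.K0 kF0 kG0 kH0 kK0 (by linarith)
    · intro y q y' q' hy hq hy' hq' h1 h2 h3 h4
      obtain rfl : y = N := by omega
      obtain rfl : q = 0 := by omega
      rw [min_eq_right hy', Nat.zero_min, max_eq_left hy', Nat.zero_max]
      exact k2 y' q' h3.1 h3.2 h4.1 h4.2
    · intro y y' hy hy' h1 h2
      constructor
      · omega
      · omega
    · intro y y' hy hy' h1 h2
      constructor
      · omega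
      · omega
    · exact hI.le
  have nSH := part_nonneg (N := N) (e := e) (x := z) (fun y => y ≤ N - 1)
    (fun q => (0 ≤ q ∧ q ≤ N - 1) ∧ 1 ≤ q) kH0 hI.H0
  have nQH := part_nonneg (N := N) (e := e) (x := z) (fun y => y ≤ N - 1)
    (fun q => (0 ≤ q ∧ q ≤ N - 1) ∧ ¬ 1 ≤ q) kH0 hI.H0
  have nSK := part_nonneg (N := N) (e := e) (x := z') (fun y => (1 ≤ y ∧ y ≤ N) ∧ y < N)
    (fun q => 1 ≤ q ∧ q ≤ N) kK0 hI.K0
  have nYK := part_nonneg (N := N) (e := e) (x := z') (fun y => (1 ≤ y ∧ y ≤ N) ∧ ¬ y < N)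
    (fun q => 1 ≤ q ∧ q ≤ N) kK0 hI.K0
  set SF := part N e x (fun y => True ∧ y < N) (fun q => (0 ≤ q ∧ q ≤ N) ∧ 1 ≤ q) kF F1
  set QF := part N e x (fun y => True ∧ y < N) (fun q => (0 ≤ q ∧ q ≤ N) ∧ ¬ 1 ≤ q) kF F1
  set YF := part N e x (fun y => True ∧ ¬ y < N) (fun q => (0 ≤ q ∧ q ≤ N) ∧ 1 ≤ q) kF F1
  set XF := part N e x (fun y => True ∧ ¬ y < N) (fun q => (0 ≤ q ∧ q ≤ N) ∧ ¬ 1 ≤ q) kF F1
  set GG := part N e x' (fun y => 1 ≤ y ∧ y ≤ N - 1) (fun q => 1 ≤ q ∧ q ≤ N - 1) kG G1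
  set SH := part N e z (fun y => y ≤ N - 1) (fun q => (0 ≤ q ∧ q ≤ N - 1) ∧ 1 ≤ q) kH H1
  set QH := part N e z (fun y => y ≤ N - 1) (fun q => (0 ≤ q ∧ q ≤ N - 1) ∧ ¬ 1 ≤ q) kH H1
  set SK := part N e z' (fun y => (1 ≤ y ∧ y ≤ N) ∧ y < N) (fun q => 1 ≤ q ∧ q ≤ N) kK K1
  set YK := part N e z' (fun y => (1 ≤ y ∧ y ≤ N) ∧ ¬ y < N) (fun q => 1 ≤ q ∧ q ≤ N) kK K1
  have hprod : (SH + QH) * (SK + YK) ≤ N ^ 2 * (QH * YK) := by
    calc (SH + QH) * (SK + YK) ≤ (N * QH) * (N * YK) :=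
          mul_le_mul hQH hYK (add_nonneg nSK nYK) (mul_nonneg (by positivity) nQH)
      _ = _ := by ring
  have hgain : δ / (N : ℝ) ^ 2 * ((SH + QH) * (SK + YK)) ≤ δ * (QH * YK) := by
    rw [div_mul_eq_mul_div, div_le_iff₀ (by positivity)]
    nlinarith [mul_le_mul_of_nonneg_left hprod hδ]
  have hθg := mul_le_mul_of_nonneg_left hgain hθ
  nlinarith [iS, iQ, iY, iX, hθg]

end Pool.Agent.Lib.FenceAF
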