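import Pool.Agent.Lib.MP_7d55f0_co.AF.GpDefs

set_option autoImplicit false

namespace Pool.Agent.Lib.FenceAF

open Finset

namespace GpC

/-- the binomial coefficient `C(d + n, n)` -/
def cc (n d : ℕ) : ℝ := ((d + n).choose n : ℝ)

theorem cc_pos (n d : ℕ) : 0 < cc n d := by
  unfold cc
  exact_mod_cast Nat.choose_pos (by omega)

theorem cc_succ (n d : ℕ) : ((d : ℝ) + 1) * cc n (d + 1) = ((d : ℝ) + 1 + n) * cc n d := by
  unfold cc
  have h := Nat.add_one_mul_choose_eq (d + n) d
  have h1 : (d + 1 + n).choose n = (d + n + 1).choose (d + 1) := by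
    rw [← Nat.choose_symm_add, show d + 1 + n = d + n + 1 by ring]
  have h2 : (d + n).choose n = (d + n).choose d := by
    rw [← Nat.choose_symm_add]
  rw [h1, h2]
  have h3 : ((d + n + 1 : ℕ) : ℝ) * ((d + n).choose d : ℝ) =
      ((d + n + 1).choose (d + 1) : ℝ) * ((d + 1 : ℕ) : ℝ) := by
    exact_mod_cast h
  push_cast at h3
  linarith

/-- the ratios decrease -/
theorem cc_ratio (n d i : ℕ) :
    cc n (d + i + 1) * cc n d ≤ cc n (d + i) * cc n (d + 1) := by
  have h1 := cc_succ n (d + i)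
  have h2 := cc_succ n d
  have p1 := cc_pos n (d + i)
  have p2 := cc_pos n d
  have a1 : (0 : ℝ) < (d : ℝ) + i + 1 := by positivity
  have a2 : (0 : ℝ) < (d : ℝ) + 1 := by positivity
  push_cast at h1
  have e1 : cc n (d + i + 1) = ((d : ℝ) + i + 1 + n) / ((d : ℝ) + i + 1) * cc n (d + i) := by
    rw [div_mul_eq_mul_div, eq_div_iff a1.ne']
    linarith
  have e2 : cc n (d + 1) = ((d : ℝ) + 1 + n) / ((d : ℝ) + 1) * cc n d := by
    rw [div_mul_eq_mul_div, eq_div_iff a2.ne']
    linarith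
  rw [e1, e2]
  have e3 : ((d : ℝ) + i + 1 + n) / ((d : ℝ) + i + 1) ≤ ((d : ℝ) + 1 + n) / ((d : ℝ) + 1) := by
    rw [div_le_div_iff₀ a1 a2]
    have : (0 : ℝ) ≤ (n : ℝ) * i := by positivity
    nlinarith
  have e4 : 0 ≤ cc n (d + i) * cc n d := by positivity
  calc ((d : ℝ) + i + 1 + n) / ((d : ℝ) + i + 1) * cc n (d + i) * cc n d
      = ((d : ℝ) + i + 1 + n) / ((d : ℝ) + i + 1) * (cc n (d + i) * cc n d) := by ring
    _ ≤ ((d : ℝ) + 1 + n) / ((d : ℝ) + 1) * (cc n (d + i) * cc n d) :=
        mul_le_mul_of_nonneg_right e3 e4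
    _ = cc n (d + i) * (((d : ℝ) + 1 + n) / ((d : ℝ) + 1) * cc n d) := by ring

/-- gain at the first step -/
theorem cc_ratio_gain (n d i : ℕ) (hi : 1 ≤ i) :
    cc n (d + i + 1) * cc n d ≤
      (1 - (n : ℝ) / (((d : ℝ) + 2) * ((d : ℝ) + 1 + n))) * (cc n (d + i) * cc n (d + 1)) := by
  obtain ⟨j, rfl⟩ := Nat.exists_eq_add_of_le hi
  have h0 := cc_ratio n (d + 1) j
  have e0 : d + 1 + j = d + (1 + j) := by ring
  rw [e0] at h0
  -- `cc (d + (1 + j) + 1) * cc (d + 1) ≤ cc (d + (1 + j)) * cc (d + 2)`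
  have h1 := cc_succ n (d + 1)
  have h2 := cc_succ n d
  have p0 := cc_pos n (d + (1 + j))
  have p1 := cc_pos n (d + 1)
  have p2 := cc_pos n d
  have a1 : (0 : ℝ) < (d : ℝ) + 2 := by positivity
  have a2 : (0 : ℝ) < (d : ℝ) + 1 := by positivity
  have a3 : (0 : ℝ) < (d : ℝ) + 1 + n := by positivity
  push_cast at h1
  have e1 : cc n (d + 1 + 1) = ((d : ℝ) + 2 + n) / ((d : ℝ) + 2) * cc n (d + 1) := by
    rw [div_mul_eq_mul_div, eq_div_iff a1.ne']
    linarith
  have e2 : cc n d = ((d : ℝ) + 1) / ((d : ℝ) + 1 + n) * cc n (d + 1) := by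
    rw [div_mul_eq_mul_div, eq_div_iff a3.ne']
    linarith
  have h3 : cc n (d + (1 + j) + 1) * cc n (d + 1) ≤
      (((d : ℝ) + 2 + n) / ((d : ℝ) + 2) * cc n (d + (1 + j))) * cc n (d + 1) := by
    rw [e1] at h0
    linarith
  have h4 : cc n (d + (1 + j) + 1) ≤ ((d : ℝ) + 2 + n) / ((d : ℝ) + 2) * cc n (d + (1 + j)) :=
    le_of_mul_le_mul_right h3 p1
  have e5 : 1 - (n : ℝ) / (((d : ℝ) + 2) * ((d : ℝ) + 1 + n)) =
      ((d : ℝ) + 2 + n) / ((d : ℝ) + 2) * (((d : ℝ) + 1) / ((d : ℝ) + 1 + n)) := by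
    field_simp
    ring
  rw [e5]
  calc cc n (d + (1 + j) + 1) * cc n d
      ≤ (((d : ℝ) + 2 + n) / ((d : ℝ) + 2) * cc n (d + (1 + j))) * cc n d :=
        mul_le_mul_of_nonneg_right h4 p2.le
    _ = (((d : ℝ) + 2 + n) / ((d : ℝ) + 2) * cc n (d + (1 + j))) *
        (((d : ℝ) + 1) / ((d : ℝ) + 1 + n) * cc n (d + 1)) := by rw [← e2]
    _ = ((d : ℝ) + 2 + n) / ((d : ℝ) + 2) * (((d : ℝ) + 1) / ((d : ℝ) + 1 + n)) *
        (cc n (d + (1 + j)) * cc n (d + 1)) := by ring

/-- from one step to `j` steps -/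
theorem cc_steps (n d i : ℕ) {θ : ℝ} (hθ : 0 ≤ θ)
    (h : cc n (d + i + 1) * cc n d ≤ θ * (cc n (d + i) * cc n (d + 1))) (j : ℕ) :
    cc n (d + i + (j + 1)) * cc n d ≤ θ * (cc n (d + i) * cc n (d + (j + 1))) := by
  induction j with
  | zero => simpa using h
  | succ j ih =>
    have h1 := cc_ratio n (d + (j + 1)) i
    have e1 : d + (j + 1) + i + 1 = d + i + (j + 1 + 1) := by ring
    have e2 : d + (j + 1) + i = d + i + (j + 1) := by ring
    have e3 : d + (j + 1) + 1 = d + (j + 1 + 1) := by ring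
    rw [e1, e2, e3] at h1
    have p := cc_pos n (d + (j + 1))
    have p2 := cc_pos n d
    have p3 := cc_pos n (d + (j + 1 + 1))
    refine le_of_mul_le_mul_right ?_ p
    calc cc n (d + i + (j + 1 + 1)) * cc n d * cc n (d + (j + 1))
        = (cc n (d + i + (j + 1 + 1)) * cc n (d + (j + 1))) * cc n d := by ring
      _ ≤ (cc n (d + i + (j + 1)) * cc n (d + (j + 1 + 1))) * cc n d :=
          mul_le_mul_of_nonneg_right h1 p2.le
      _ = (cc n (d + i + (j + 1)) * cc n d) * cc n (d + (j + 1 + 1)) := by ring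
      _ ≤ (θ * (cc n (d + i) * cc n (d + (j + 1)))) * cc n (d + (j + 1 + 1)) :=
          mul_le_mul_of_nonneg_right ih p3.le
      _ = θ * (cc n (d + i) * cc n (d + (j + 1 + 1))) * cc n (d + (j + 1)) := by ring

/-- log-concavity -/
theorem cc_lc (n d i j : ℕ) : cc n (d + i + j) * cc n d ≤ cc n (d + i) * cc n (d + j) := by
  cases j with
  | zero => simp
  | succ j =>
    have := cc_steps n d i (θ := 1) zero_le_one (by rw [one_mul]; exact cc_ratio n d i) j
    rwa [one_mul] at this

/-- log-concavity with a gain -/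
theorem cc_lc_gain (n d i j : ℕ) (hi : 1 ≤ i) (hj : 1 ≤ j) :
    cc n (d + i + j) * cc n d ≤
      (1 - (n : ℝ) / (((d : ℝ) + 2) * ((d : ℝ) + 1 + n))) * (cc n (d + i) * cc n (d + j)) := by
  obtain ⟨j, rfl⟩ := Nat.exists_eq_add_of_le' hj
  refine cc_steps n d i ?_ (cc_ratio_gain n d i hi) j
  have a1 : (0 : ℝ) < ((d : ℝ) + 2) * ((d : ℝ) + 1 + n) := by positivity
  rw [sub_nonneg, div_le_one a1]
  have : (0 : ℝ) ≤ (d : ℝ) := by positivity
  have : (0 : ℝ) ≤ (n : ℝ) := by positivity
  nlinarith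

theorem cc_mono (n : ℕ) {d d' : ℕ} (h : d ≤ d') : cc n d ≤ cc n d' := by
  unfold cc
  exact_mod_cast Nat.choose_le_choose n (by omega)

theorem uu_eq {e b : ℕ} (hb : 1 ≤ b) {y q : ℕ} (h : q + e * b ≤ y) :
    uu e b y q = cc (b - 1) (y - q - e * b) := by
  unfold uu cc
  rw [if_pos h]
  congr 2
  omega

theorem uu_eq_add {e b : ℕ} (hb : 1 ≤ b) (q d : ℕ) :
    uu e b (q + e * b + d) q = cc (b - 1) d := by
  rw [uu_eq hb (by omega)]
  congr 1
  omega

theorem uu_zero {e b : ℕ} {y q : ℕ} (h : ¬ q + e * b ≤ y) : uu e b y q = 0 := by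
  unfold uu
  rw [if_neg h]

theorem uu_nonneg (e b y q : ℕ) : 0 ≤ uu e b y q := by
  unfold uu
  split_ifs
  · positivity
  · exact le_rfl

/-- hockey stick -/
theorem cc_sum (n M : ℕ) : ∑ j ∈ range (M + 1), cc n j = cc (n + 1) M := by
  induction M with
  | zero => simp [cc]
  | succ M ih =>
    rw [sum_range_succ, ih]
    unfold cc
    have h1 : (M + 1 + (n + 1)).choose (n + 1) =
        (M + (n + 1)).choose (n + 1) + (M + 1 + n).choose n := by
      rw [show M + 1 + (n + 1) = (M + 1 + n) + 1 by ring, Nat.choose_succ_succ',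
        show M + (n + 1) = M + 1 + n by ring, add_comm]
    rw [h1]
    push_cast
    ring

/-- one more step -/
theorem uu_step (N e b x y : ℕ) (hb : 1 ≤ b) (hy : y ≤ N) :
    (∑ z ∈ range (N + 1), if x + e ≤ z then uu e b y z else 0) = uu e (b + 1) y x := by
  by_cases h : x + e * (b + 1) ≤ y
  · obtain ⟨M, rfl⟩ := Nat.exists_eq_add_of_le h
    have e1 : x + e * (b + 1) + M = x + e + e * b + M := by ring
    rw [uu_eq_add (by omega : 1 ≤ b + 1) x M, Nat.add_sub_cancel]
    have hbb : b = (b - 1) + 1 := by omega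
    rw [show cc b M = cc (b - 1 + 1) M by rw [← hbb], ← cc_sum,
      ← Finset.sum_range_reflect (fun j => cc (b - 1) j) (M + 1), ← Finset.sum_filter]
    symm
    refine Finset.sum_of_injOn (fun j => x + e + j) ?_ ?_ ?_ ?_
    · intro a _ b _ h
      simpa using h
    · intro j hj
      simp only [coe_range, Set.mem_Iio, coe_filter, mem_range, Set.mem_ofPred_eq] at hj ⊢
      have : e * b ≤ N := by
        have : e * (b + 1) = e * b + e := by ring
        omega
      have h2 : e * (b + 1) = e * b + e := by ring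
      omega
    · intro z hz hz'
      simp only [mem_filter, mem_range] at hz
      simp only [coe_range, Set.mem_image, Set.mem_Iio, not_exists, not_and] at hz'
      apply uu_zero
      intro h3
      have h2 : e * (b + 1) = e * b + e := by ring
      exact hz' (z - (x + e)) (by omega) (by omega)
    · intro j hj
      simp only [mem_range] at hj
      have h2 : e * (b + 1) = e * b + e := by ring
      rw [uu_eq hb (by omega)]
      congr 1
      omega
  · rw [uu_zero h]
    apply Finset.sum_eq_zero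
    intro z _
    split_ifs with h1
    · apply uu_zero
      have h2 : e * (b + 1) = e * b + e := by ring
      omega
    · rfl

end GpC

open GpC

/-- `b` descending steps -/
theorem stp_iter {N e : ℕ} (he : e ≤ 1) (lo hi b : ℕ) (hb : 1 ≤ b) (hhi : hi ≤ N) (F : ℕ → ℝ) :
    ((fun E => win lo hi (stp N e true E))^[b]) (win lo hi F) =
      win lo hi (fun q => ∑ y ∈ range (N + 1), uu e b y q * win lo hi F y) := by
  induction b, hb using Nat.le_induction with
  | base =>
    rw [Function.iterate_one]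
    funext x
    by_cases h : lo ≤ x ∧ x ≤ hi
    · unfold win stp
      simp only [if_pos h, if_true]
      apply Finset.sum_congr rfl
      intro y _
      by_cases h1 : x + e ≤ y
      · have : uu e 1 y x = 1 := by
          rw [uu_eq le_rfl (by omega)]
          simp [cc]
        simp [h1, this]
      · have : uu e 1 y x = 0 := uu_zero (by omega)
        simp [h1, this]
    · unfold win
      simp only [if_neg h]
  | succ b hb ih =>
    rw [Function.iterate_succ_apply', ih]
    funext x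
    by_cases h : lo ≤ x ∧ x ≤ hi
    · unfold win stp
      simp only [if_pos h]
      have : ∀ y ∈ range (N + 1), uu e (b + 1) y x * (if lo ≤ y ∧ y ≤ hi then F y else 0) =
          ∑ z ∈ range (N + 1), (if x + e ≤ z then
            (if lo ≤ z ∧ z ≤ hi then uu e b y z * (if lo ≤ y ∧ y ≤ hi then F y else 0) else 0)
            else 0) := by
        intro y hy
        rw [mem_range] at hy
        rw [← uu_step N e b x y hb (by omega), Finset.sum_mul]
        apply Finset.sum_congr rfl
        intro z _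
        by_cases h1 : x + e ≤ z
        · rw [if_pos h1, if_pos h1]
          by_cases h2 : lo ≤ z ∧ z ≤ hi
          · rw [if_pos h2]
          · rw [if_neg h2]
            by_cases h3 : lo ≤ y ∧ y ≤ hi
            · rw [uu_zero (by
                intro h4
                apply h2
                have : 0 ≤ e * b := Nat.zero_le _
                omega), zero_mul]
            · rw [if_neg h3, mul_zero]
        · rw [if_neg h1, if_neg h1, zero_mul]
      rw [Finset.sum_congr rfl this, Finset.sum_comm]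
      apply Finset.sum_congr rfl
      intro z _
      simp only [if_true]
      by_cases h1 : x + e ≤ z
      · simp only [if_pos h1]
        by_cases h2 : lo ≤ z ∧ z ≤ hi
        · simp only [if_pos h2]
        · simp only [if_neg h2]
          simp
      · simp only [if_neg h1]
        simp
    · unfold win
      simp only [if_neg h]

theorem uu_k1 (e b : ℕ) (he : e ≤ 1) (hb : 1 ≤ b) (y q y' q' : ℕ) :
    uu e b y q * uu e b y' q' ≤ uu e b (min y y') (min q q') * uu e b (max y y') (max q q') := by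
  have key : ∀ y q y' q' : ℕ, q ≤ q' →
      uu e b y q * uu e b y' q' ≤
        uu e b (min y y') (min q q') * uu e b (max y y') (max q q') := by
    intro y q y' q' hq
    rw [min_eq_left hq, max_eq_right hq]
    rcases le_total y y' with hy | hy
    · rw [min_eq_left hy, max_eq_right hy]
    · rw [min_eq_right hy, max_eq_left hy]
      by_cases g1 : q + e * b ≤ y
      · by_cases g2 : q' + e * b ≤ y'
        · obtain ⟨d, rfl⟩ := Nat.exists_eq_add_of_le g2
          obtain ⟨i, rfl⟩ := Nat.exists_eq_add_of_le hq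
          obtain ⟨j, rfl⟩ := Nat.exists_eq_add_of_le hy
          have := cc_lc (b - 1) d i j
          rw [uu_eq hb (by omega), uu_eq hb (by omega), uu_eq hb (by omega), uu_eq hb (by omega)]
          rw [show q + i + e * b + d + j - q - e * b = d + i + j by omega,
            show q + i + e * b + d - (q + i) - e * b = d by omega,
            show q + i + e * b + d - q - e * b = d + i by omega,
            show q + i + e * b + d + j - (q + i) - e * b = d + j by omega]
          exact this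
        · rw [uu_zero g2, mul_zero]
          exact mul_nonneg (uu_nonneg _ _ _ _) (uu_nonneg _ _ _ _)
      · rw [uu_zero g1, zero_mul]
        exact mul_nonneg (uu_nonneg _ _ _ _) (uu_nonneg _ _ _ _)
  rcases le_total q q' with hq | hq
  · exact key y q y' q' hq
  · have := key y' q' y q hq
    rw [mul_comm, min_comm y, min_comm q, max_comm y, max_comm q]
    exact this

theorem uu_k2 (N e b : ℕ) (he : e ≤ 1) (hb : 2 ≤ b) (y q : ℕ) (hN : 2 ≤ N) (hy : y ≤ N - 1)
    (hq : 1 ≤ q) :
    uu e b N 0 * uu e b y q ≤ (1 - 1 / ((N : ℝ) + b) ^ 2) * (uu e b y 0 * uu e b N q) := by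
  have hNb : (1 : ℝ) ≤ ((N : ℝ) + b) ^ 2 := by
    have : (2 : ℝ) ≤ (N : ℝ) := by exact_mod_cast hN
    have : (0 : ℝ) ≤ (b : ℝ) := by positivity
    nlinarith
  have h0 : (0 : ℝ) ≤ 1 - 1 / ((N : ℝ) + b) ^ 2 := by
    rw [sub_nonneg, div_le_one (by linarith)]
    exact hNb
  by_cases g : q + e * b ≤ y
  · obtain ⟨d, rfl⟩ := Nat.exists_eq_add_of_le g
    obtain ⟨j, hj⟩ : ∃ j, N = q + e * b + d + (j + 1) := ⟨N - (q + e * b + d) - 1, by omega⟩
    have h1 : 1 ≤ b := by omega
    rw [uu_eq h1 (by omega : 0 + e * b ≤ N), uu_eq h1 (by omega : q + e * b ≤ q + e * b + d),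
      uu_eq h1 (by omega : 0 + e * b ≤ q + e * b + d), uu_eq h1 (by omega : q + e * b ≤ N)]
    rw [show N - 0 - e * b = d + q + (j + 1) by omega,
      show q + e * b + d - q - e * b = d by omega,
      show q + e * b + d - 0 - e * b = d + q by omega,
      show N - q - e * b = d + (j + 1) by omega]
    refine (cc_lc_gain (b - 1) d q (j + 1) hq (by omega)).trans ?_
    refine mul_le_mul_of_nonneg_right ?_ (mul_nonneg (cc_pos _ _).le (cc_pos _ _).le)
    have hb1 : ((b - 1 : ℕ) : ℝ) = (b : ℝ) - 1 := by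
      rw [Nat.cast_sub h1, Nat.cast_one]
    rw [hb1]
    have hb2 : (2 : ℝ) ≤ (b : ℝ) := by exact_mod_cast hb
    have hd : (0 : ℝ) ≤ (d : ℝ) := by positivity
    have hNd : (d : ℝ) + 2 ≤ (N : ℝ) := by
      have : d + 2 ≤ N := by omega
      exact_mod_cast this
    have a1 : (0 : ℝ) < ((d : ℝ) + 2) * ((d : ℝ) + 1 + ((b : ℝ) - 1)) := by
      apply mul_pos <;> linarith
    have a2 : ((d : ℝ) + 2) * ((d : ℝ) + 1 + ((b : ℝ) - 1)) ≤ ((N : ℝ) + b) ^ 2 := by
      rw [pow_two]
      apply mul_le_mul <;> linarith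
    have a3 : 1 / ((N : ℝ) + b) ^ 2 ≤ ((b : ℝ) - 1) / (((d : ℝ) + 2) * ((d : ℝ) + 1 + ((b : ℝ) - 1))) := by
      rw [div_le_div_iff₀ (by linarith) a1]
      nlinarith
    linarith
  · rw [uu_zero g, mul_zero]
    exact mul_nonneg h0 (mul_nonneg (uu_nonneg _ _ _ _) (uu_nonneg _ _ _ _))

theorem uu_mono_q (e b : ℕ) (he : e ≤ 1) (hb : 1 ≤ b) (y q : ℕ) : uu e b y q ≤ uu e b y 0 := by
  by_cases g : q + e * b ≤ y
  · rw [uu_eq hb g, uu_eq hb (by omega)]
    exact cc_mono _ (by omega)
  · rw [uu_zero g]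
    exact uu_nonneg _ _ _ _

theorem uu_mono_y (e b : ℕ) (he : e ≤ 1) (hb : 1 ≤ b) (y y' q : ℕ) (h : y ≤ y') :
    uu e b y q ≤ uu e b y' q := by
  by_cases g : q + e * b ≤ y
  · rw [uu_eq hb g, uu_eq hb (by omega)]
    exact cc_mono _ (by omega)
  · rw [uu_zero g]
    exact uu_nonneg _ _ _ _

end Pool.Agent.Lib.FenceAF
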