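import Pool.Agent.Lib.MP_7d55f0_co.AF.GpA

set_option autoImplicit false

namespace Pool.Agent.Lib.FenceAF

open Finset

theorem stp_zz {N e : ℕ} (lo hi : ℕ) (hhi : hi ≤ N) (F : ℕ → ℝ) :
    win lo hi (stp N e true (win lo hi (stp N e false (win lo hi (stp N e true (win lo hi F)))))) =
      win lo hi (fun q => ∑ y ∈ range (N + 1), zz N e lo hi y q * win lo hi F y) := by
  funext q
  set Fw := win lo hi F with hFw
  by_cases hq : lo ≤ q ∧ q ≤ hi
  · have hR : win lo hi (fun q => ∑ y ∈ range (N + 1), zz N e lo hi y q * Fw y) q =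
        ∑ z' ∈ range (N + 1), ∑ z ∈ range (N + 1), ∑ y ∈ range (N + 1),
          (if lo ≤ z ∧ z' ≤ hi ∧ z + e ≤ y ∧ z + e ≤ z' ∧ q + e ≤ z' then Fw y else 0) := by
      have e0 : win lo hi (fun q => ∑ y ∈ range (N + 1), zz N e lo hi y q * Fw y) q =
          ∑ y ∈ range (N + 1), zz N e lo hi y q * Fw y := by
        unfold win
        rw [if_pos hq]
      rw [e0]
      have e1 : ∀ y, zz N e lo hi y q * Fw y =
          ∑ z' ∈ range (N + 1), ∑ z ∈ range (N + 1),
            (if lo ≤ z ∧ z' ≤ hi ∧ z + e ≤ y ∧ z + e ≤ z' ∧ q + e ≤ z' then Fw y else 0) := by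
        intro y
        unfold zz
        rw [sum_comm, sum_mul]
        apply sum_congr rfl
        intro z' _
        rw [sum_mul]
        apply sum_congr rfl
        intro z _
        rw [ite_mul, one_mul, zero_mul]
      rw [sum_congr rfl fun y _ => e1 y, sum_comm]
      apply sum_congr rfl
      intro z' _
      rw [sum_comm]
    rw [hR]
    have hL : win lo hi (stp N e true (win lo hi (stp N e false (win lo hi
        (stp N e true Fw))))) q = stp N e true (win lo hi (stp N e false (win lo hi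
        (stp N e true Fw)))) q := by
      conv_lhs => unfold win
      rw [if_pos hq]
      rfl
    rw [hL]
    unfold stp
    apply sum_congr rfl
    intro z' _
    simp only [if_true, Bool.false_eq_true, if_false]
    by_cases h1 : q + e ≤ z'
    · rw [if_pos h1]
      unfold win
      by_cases h2 : lo ≤ z' ∧ z' ≤ hi
      · rw [if_pos h2]
        apply sum_congr rfl
        intro z _
        by_cases h3 : z + e ≤ z'
        · rw [if_pos h3]
          by_cases h4 : lo ≤ z ∧ z ≤ hi
          · rw [if_pos h4]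
            apply sum_congr rfl
            intro y _
            by_cases h5 : z + e ≤ y
            · rw [if_pos h5, if_pos (by omega)]
            · rw [if_neg h5, if_neg (by omega)]
          · rw [if_neg h4]
            symm
            apply sum_eq_zero
            intro y _
            rw [if_neg (by omega)]
        · rw [if_neg h3]
          symm
          apply sum_eq_zero
          intro y _
          rw [if_neg (by omega)]
      · rw [if_neg h2]
        symm
        apply sum_eq_zero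
        intro z _
        apply sum_eq_zero
        intro y _
        rw [if_neg (by omega)]
    · rw [if_neg h1]
      symm
      apply sum_eq_zero
      intro z _
      apply sum_eq_zero
      intro y _
      rw [if_neg (by omega)]
  · unfold win
    rw [if_neg hq, if_neg hq]

theorem zz_k1 (N e : ℕ) (he : e ≤ 1) (y q y' q' : ℕ) (hN : 2 ≤ N) :
    zz N e 0 N y q * zz N e 1 (N - 1) y' q' ≤
      zz N e 0 (N - 1) (min y y') (min q q') * zz N e 1 N (max y y') (max q q') := by
  have h := four_chain₂ (N := N) (θ := 1)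
    (F := fun z z' => if 0 ≤ z ∧ z' ≤ N ∧ z + e ≤ y ∧ z + e ≤ z' ∧ q + e ≤ z' then (1 : ℝ) else 0)
    (G := fun z z' => if 1 ≤ z ∧ z' ≤ N - 1 ∧ z + e ≤ y' ∧ z + e ≤ z' ∧ q' + e ≤ z' then
      (1 : ℝ) else 0)
    (H := fun z z' => if 0 ≤ z ∧ z' ≤ N - 1 ∧ z + e ≤ min y y' ∧ z + e ≤ z' ∧
      min q q' + e ≤ z' then (1 : ℝ) else 0)
    (K := fun z z' => if 1 ≤ z ∧ z' ≤ N ∧ z + e ≤ max y y' ∧ z + e ≤ z' ∧
      max q q' + e ≤ z' then (1 : ℝ) else 0)
    zero_le_one
    (fun x y => by split_ifs <;> norm_num) (fun x y => by split_ifs <;> norm_num)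
    (fun x y => by split_ifs <;> norm_num) (fun x y => by split_ifs <;> norm_num)
    (by
      intro z w z' w' _ _ _ _
      by_cases h1 : 0 ≤ z ∧ w ≤ N ∧ z + e ≤ y ∧ z + e ≤ w ∧ q + e ≤ w
      · by_cases h2 : 1 ≤ z' ∧ w' ≤ N - 1 ∧ z' + e ≤ y' ∧ z' + e ≤ w' ∧ q' + e ≤ w'
        · rw [if_pos h1, if_pos h2, if_pos (by omega), if_pos (by omega)]
          norm_num
        · rw [if_neg h2, mul_zero]
          apply mul_nonneg zero_le_one
          apply mul_nonneg <;> split_ifs <;> norm_num
      · rw [if_neg h1, zero_mul]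
        apply mul_nonneg zero_le_one
        apply mul_nonneg <;> split_ifs <;> norm_num)
  rw [one_mul] at h
  exact h

theorem zz_mono_q (N e lo hi : ℕ) (y q : ℕ) : zz N e lo hi y q ≤ zz N e lo hi y 0 := by
  unfold zz
  apply sum_le_sum
  intro z _
  apply sum_le_sum
  intro z' _
  by_cases h : lo ≤ z ∧ z' ≤ hi ∧ z + e ≤ y ∧ z + e ≤ z' ∧ q + e ≤ z'
  · rw [if_pos h, if_pos (by omega)]
  · rw [if_neg h]
    split_ifs <;> norm_num

theorem zz_mono_y (N e lo hi : ℕ) (y y' q : ℕ) (h : y ≤ y') :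
    zz N e lo hi y q ≤ zz N e lo hi y' q := by
  unfold zz
  apply sum_le_sum
  intro z _
  apply sum_le_sum
  intro z' _
  by_cases h : lo ≤ z ∧ z' ≤ hi ∧ z + e ≤ y ∧ z + e ≤ z' ∧ q + e ≤ z'
  · rw [if_pos h, if_pos (by omega)]
  · rw [if_neg h]
    split_ifs <;> norm_num

/-- the counts are natural numbers -/
def zn (N e lo hi : ℕ) (y q : ℕ) : ℕ :=
  ∑ z ∈ range (N + 1), ∑ z' ∈ range (N + 1),
    if lo ≤ z ∧ z' ≤ hi ∧ z + e ≤ y ∧ z + e ≤ z' ∧ q + e ≤ z' then 1 else 0

theorem zz_eq_zn (N e lo hi : ℕ) (y q : ℕ) : zz N e lo hi y q = (zn N e lo hi y q : ℝ) := by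
  unfold zz zn
  push_cast
  rfl

/-- the inner sum -/
noncomputable def zi (N e hi : ℕ) (q z : ℕ) : ℝ :=
  ∑ z' ∈ range (N + 1), if z' ≤ hi ∧ z + e ≤ z' ∧ q + e ≤ z' then 1 else 0

theorem zi_nonneg (N e hi q z : ℕ) : 0 ≤ zi N e hi q z := by
  unfold zi
  apply sum_nonneg
  intro z' _
  split_ifs <;> norm_num

theorem zz_eq_zi (N e lo hi : ℕ) (y q : ℕ) :
    zz N e lo hi y q = ∑ z ∈ range (N + 1), if lo ≤ z ∧ z + e ≤ y then zi N e hi q z else 0 := by
  unfold zz zi
  apply sum_congr rfl
  intro z _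
  by_cases h : lo ≤ z ∧ z + e ≤ y
  · rw [if_pos h]
    apply sum_congr rfl
    intro z' _
    simp only [h.1, h.2, true_and]
  · rw [if_neg h]
    apply sum_eq_zero
    intro z' _
    rw [if_neg (by omega)]

theorem zi_four (N e : ℕ) (q q' z z' : ℕ) (hN : 2 ≤ N) :
    zi N e N q z * zi N e (N - 1) q' z' ≤
      zi N e (N - 1) (min q q') (min z z') * zi N e N (max q q') (max z z') := by
  have h := four_chain (N := N) (θ := 1)
    (F := fun w => if w ≤ N ∧ z + e ≤ w ∧ q + e ≤ w then (1 : ℝ) else 0)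
    (G := fun w => if w ≤ N - 1 ∧ z' + e ≤ w ∧ q' + e ≤ w then (1 : ℝ) else 0)
    (H := fun w => if w ≤ N - 1 ∧ min z z' + e ≤ w ∧ min q q' + e ≤ w then (1 : ℝ) else 0)
    (K := fun w => if w ≤ N ∧ max z z' + e ≤ w ∧ max q q' + e ≤ w then (1 : ℝ) else 0)
    zero_le_one
    (fun x => by split_ifs <;> norm_num) (fun x => by split_ifs <;> norm_num)
    (fun x => by split_ifs <;> norm_num) (fun x => by split_ifs <;> norm_num)
    (by
      intro w w' _ _
      by_cases h1 : w ≤ N ∧ z + e ≤ w ∧ q + e ≤ w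
      · by_cases h2 : w' ≤ N - 1 ∧ z' + e ≤ w' ∧ q' + e ≤ w'
        · rw [if_pos h1, if_pos h2, if_pos (by omega), if_pos (by omega)]
          norm_num
        · rw [if_neg h2, mul_zero]
          apply mul_nonneg zero_le_one
          apply mul_nonneg <;> split_ifs <;> norm_num
      · rw [if_neg h1, zero_mul]
        apply mul_nonneg zero_le_one
        apply mul_nonneg <;> split_ifs <;> norm_num)
  rw [one_mul] at h
  exact h

/-- value of the inner sum -/
theorem zi_eq (N e hi q z : ℕ) (hhi : hi ≤ N) :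
    zi N e hi q z = ((hi + 1 - (max z q + e) : ℕ) : ℝ) := by
  unfold zi
  rw [← sum_filter, sum_const, nsmul_eq_mul, mul_one]
  congr 1
  have : (range (N + 1)).filter (fun z' => z' ≤ hi ∧ z + e ≤ z' ∧ q + e ≤ z') =
      Finset.Ico (max z q + e) (hi + 1) := by
    ext w
    simp only [mem_filter, mem_range, mem_Ico]
    omega
  rw [this, Nat.card_Ico]

theorem zn_le (N e lo hi : ℕ) (y q n : ℕ) (A : Finset ℕ) (hA : A.card ≤ n)
    (h : ∀ z z', lo ≤ z → z' ≤ hi → z + e ≤ y → z + e ≤ z' → q + e ≤ z' → z ∈ A ∧ z' ∈ A) :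
    zn N e lo hi y q ≤ n ^ 2 := by
  unfold zn
  rw [← sum_product' (range (N + 1)) (range (N + 1))
    (fun z z' => if lo ≤ z ∧ z' ≤ hi ∧ z + e ≤ y ∧ z + e ≤ z' ∧ q + e ≤ z' then 1 else 0),
    ← sum_filter, sum_const, smul_eq_mul, mul_one]
  calc _ ≤ (A ×ˢ A).card := by
        apply card_le_card
        intro p hp
        rw [mem_filter] at hp
        obtain ⟨_, h1, h2, h3, h4, h5⟩ := hp
        rw [mem_product]
        exact h _ _ h1 h2 h3 h4 h5
    _ = A.card ^ 2 := by rw [card_product, sq]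
    _ ≤ n ^ 2 := Nat.pow_le_pow_left hA 2

theorem zz_k2 (N e : ℕ) (he : e ≤ 1) (y q : ℕ) (hN : 2 ≤ N) (hy1 : 1 ≤ y) (hy : y ≤ N - 1)
    (hq1 : 1 ≤ q) (hq : q ≤ N - 1) :
    zz N e 0 N N 0 * zz N e 1 (N - 1) y q ≤
      (1 - 1 / (N : ℝ) ^ 4) * (zz N e 0 (N - 1) y 0 * zz N e 1 N N q) := by
  have hN' : (2 : ℝ) ≤ N := by exact_mod_cast hN
  have key : (zz N e 0 N N 0 + 1 / N) * zz N e 1 (N - 1) y q ≤
      zz N e 0 (N - 1) y 0 * zz N e 1 N N q := by
    have h := four_chain (N := N) (θ := 1)
      (F := fun z => (if 0 ≤ z ∧ z + e ≤ N then zi N e N 0 z else 0) +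
        (if z = 0 then 1 / (N : ℝ) else 0))
      (G := fun z => if 1 ≤ z ∧ z + e ≤ y then zi N e (N - 1) q z else 0)
      (H := fun z => if 0 ≤ z ∧ z + e ≤ y then zi N e (N - 1) 0 z else 0)
      (K := fun z => if 1 ≤ z ∧ z + e ≤ N then zi N e N q z else 0)
      zero_le_one
      (fun z => by
        apply add_nonneg
        · split_ifs
          · exact zi_nonneg _ _ _ _ _
          · exact le_rfl
        · split_ifs
          · positivity
          · exact le_rfl)
      (fun z => by
        split_ifs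
        · exact zi_nonneg _ _ _ _ _
        · exact le_rfl)
      (fun z => by
        split_ifs
        · exact zi_nonneg _ _ _ _ _
        · exact le_rfl)
      (fun z => by
        split_ifs
        · exact zi_nonneg _ _ _ _ _
        · exact le_rfl)
      (by
        intro z w hz hw
        rw [one_mul]
        by_cases hw1 : 1 ≤ w ∧ w + e ≤ y
        · by_cases hz0 : z = 0
          · subst hz0
            rw [if_pos hw1, if_pos (by omega), if_pos rfl, if_pos (by omega), if_pos (by omega)]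
            rw [zi_eq _ _ _ _ _ le_rfl, zi_eq _ _ _ _ _ (by omega), zi_eq _ _ _ _ _ (by omega),
              zi_eq _ _ _ _ _ le_rfl]
            have e1 : N + 1 - (max 0 0 + e) = (N - e) + 1 := by omega
            have e2 : N - 1 + 1 - (max (min 0 w) 0 + e) = N - e := by omega
            have e3 : N + 1 - (max (max 0 w) q + e) = (N - (max w q + e)) + 1 := by omega
            have e4 : N - 1 + 1 - (max w q + e) = N - (max w q + e) := by omega
            rw [e1, e2, e3, e4]
            have g1 : N - (max w q + e) + 1 ≤ N - e := by omega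
            have g2 : N - e ≤ N := by omega
            have g1' : ((N - (max w q + e) : ℕ) : ℝ) + 1 ≤ ((N - e : ℕ) : ℝ) := by exact_mod_cast g1
            have g2' : ((N - e : ℕ) : ℝ) ≤ N := by exact_mod_cast g2
            push_cast
            set A : ℝ := ((N - e : ℕ) : ℝ)
            set B : ℝ := ((N - (max w q + e) : ℕ) : ℝ)
            have hB : 0 ≤ B := Nat.cast_nonneg _
            have g3 : 1 / (N : ℝ) * B ≤ 1 := by
              rw [one_div, inv_mul_le_iff₀ (by linarith)]
              linarith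
            nlinarith
          · rw [if_neg hz0, add_zero]
            by_cases hz1 : 0 ≤ z ∧ z + e ≤ N
            · rw [if_pos hz1, if_pos hw1, if_pos (by omega), if_pos (by omega)]
              have := zi_four N e 0 q z w hN
              rw [min_eq_left (Nat.zero_le q), max_eq_right (Nat.zero_le q)] at this
              exact this
            · rw [if_neg hz1, zero_mul]
              apply mul_nonneg <;> split_ifs <;>
                first | exact zi_nonneg _ _ _ _ _ | exact le_rfl
        · rw [if_neg hw1, mul_zero]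
          apply mul_nonneg <;> split_ifs <;>
            first | exact zi_nonneg _ _ _ _ _ | exact le_rfl)
    rw [one_mul, sum_add_distrib, sum_ite_eq' (range (N + 1)) 0, if_pos (mem_range.2 (by omega)),
      ← zz_eq_zi, ← zz_eq_zi, ← zz_eq_zi, ← zz_eq_zi] at h
    exact h
  rw [zz_eq_zn, zz_eq_zn, zz_eq_zn, zz_eq_zn] at key ⊢
  set a := zn N e 0 N N 0
  set b := zn N e 1 (N - 1) y q
  have hc : zn N e 0 (N - 1) y 0 ≤ N ^ 2 := by
    apply zn_le _ _ _ _ _ _ _ (range N)
    · rw [card_range]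
    · intro z z' h1 h2 h3 h4 h5
      rw [mem_range, mem_range]
      omega
  have hd : zn N e 1 N N q ≤ N ^ 2 := by
    apply zn_le _ _ _ _ _ _ _ (Finset.Icc 1 N)
    · rw [Nat.card_Icc]
      omega
    · intro z z' h1 h2 h3 h4 h5
      rw [mem_Icc, mem_Icc]
      omega
  set c := zn N e 0 (N - 1) y 0
  set d := zn N e 1 N N q
  have hcd : c * d ≤ N ^ 4 := by
    calc c * d ≤ N ^ 2 * N ^ 2 := Nat.mul_le_mul hc hd
      _ = N ^ 4 := by ring
  have hcd' : (c : ℝ) * d ≤ (N : ℝ) ^ 4 := by exact_mod_cast hcd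
  have hN4 : (0 : ℝ) < (N : ℝ) ^ 4 := by positivity
  have h1N : 1 / (N : ℝ) ^ 4 * ((c : ℝ) * d) ≤ 1 := by
    rw [one_div, inv_mul_le_iff₀ hN4]
    linarith
  by_cases hb : b = 0
  · rw [hb]
    push_cast
    rw [mul_zero]
    apply mul_nonneg
    · have : 1 / (N : ℝ) ^ 4 ≤ 1 := by
        rw [div_le_one hN4]
        exact one_le_pow₀ (by linarith)
      linarith
    · positivity
  · have hb' : (1 : ℝ) ≤ b := by exact_mod_cast Nat.one_le_iff_ne_zero.2 hb
    have hlt : (a : ℝ) * b < c * d := by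
      have : (0 : ℝ) < 1 / N * b := by positivity
      nlinarith
    have hlt' : a * b < c * d := by exact_mod_cast hlt
    have h3 : a * b + 1 ≤ c * d := hlt'
    have h4 : (a : ℝ) * b + 1 ≤ c * d := by exact_mod_cast h3
    have : (1 - 1 / (N : ℝ) ^ 4) * ((c : ℝ) * d) = c * d - 1 / (N : ℝ) ^ 4 * (c * d) := by ring
    rw [this]
    linarith

end Pool.Agent.Lib.FenceAF
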