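import Pool.Agent.Lib.MP_7d55f0_co.AF.Defs

set_option autoImplicit false

namespace Pool.Agent.Lib.FenceAF

open Finset

/-- one step: the new value is `x`, the old one `y`; `c = true`: `x + e ≤ y`, `c = false`:
`y + e ≤ x`; all values at most `N` -/
def stp (N e : ℕ) (c : Bool) (F : ℕ → ℝ) (x : ℕ) : ℝ :=
  ∑ y ∈ range (N + 1), if (if c then x + e ≤ y else y + e ≤ x) then F y else 0

/-- restriction to the window `[lo, hi]` -/
def win (lo hi : ℕ) (F : ℕ → ℝ) (x : ℕ) : ℝ := if lo ≤ x ∧ x ≤ hi then F x else 0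

/-- numbers of maps of the fence `w` (weak for `e = 0`, strict for `e = 1`) with values in
`[lo, hi]` and given first value -/
def cw (N e lo hi : ℕ) : List Bool → ℕ → ℝ
  | [] => win lo hi (fun _ => 1)
  | c :: w => win lo hi (stp N e c (cw N e lo hi w))

def tot (N e lo hi : ℕ) (w : List Bool) : ℝ := ∑ x ∈ range (N + 1), cw N e lo hi w x

/-- `F` (window `[0, N]`) and `G` (window `[1, N - 1]`) against `H` (window `[0, N - 1]`) and
`K` (window `[1, N]`) -/
structure Inv (N : ℕ) (θ : ℝ) (F G H K : ℕ → ℝ) : Prop where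
  F0 : ∀ x, 0 ≤ F x
  G0 : ∀ x, 0 ≤ G x
  H0 : ∀ x, 0 ≤ H x
  K0 : ∀ x, 0 ≤ K x
  F1 : ∀ x, N < x → F x = 0
  G1 : ∀ x, x < 1 ∨ N < x + 1 → G x = 0
  H1 : ∀ x, N < x + 1 → H x = 0
  K1 : ∀ x, x < 1 ∨ N < x → K x = 0
  le : ∀ x y, F x * G y ≤ θ * (H (min x y) * K (max x y))

/-- number of chains `q = z_0, z_1, ..., z_b = y` with steps at least `e` -/
def uu (e b : ℕ) (y q : ℕ) : ℝ :=
  if q + e * b ≤ y then ((y - q - e * b + b - 1).choose (b - 1) : ℝ) else 0

/-- number of zigzags `y, z, z', q` (down, up, down) with `z, z'` in `[lo, hi]` -/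
def zz (N e lo hi : ℕ) (y q : ℕ) : ℝ :=
  ∑ z ∈ range (N + 1), ∑ z' ∈ range (N + 1),
    if lo ≤ z ∧ z' ≤ hi ∧ z + e ≤ y ∧ z + e ≤ z' ∧ q + e ≤ z' then 1 else 0

/-- the four counting functions of a word satisfy the inequality with the constant `θ` -/
def Gd (N e : ℕ) (θ : ℝ) (w : List Bool) : Prop :=
  Inv N θ (cw N e 0 N w) (cw N e 1 (N - 1) w) (cw N e 0 (N - 1) w) (cw N e 1 N w)

/-- segments with a gain -/
def Seg (R : ℕ) (s : List Bool) : Prop :=
  s = [false, true, false, true, false] ∨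
    ∃ (c : Bool) (b : ℕ), 2 ≤ b ∧ b ≤ R ∧ s = c :: (List.replicate b (!c) ++ [c])

end Pool.Agent.Lib.FenceAF
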