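import Pool.Agent.Lib.MP_7d55f0_co.AF.GpB
import Pool.Agent.Lib.MP_7d55f0_co.AF.GpC
import Pool.Agent.Lib.MP_7d55f0_co.AF.GpD

set_option autoImplicit false

namespace Pool.Agent.Lib.FenceAF

open Finset

theorem Inv.mono {N : ℕ} {θ θ' : ℝ} {F G H K : ℕ → ℝ} (h : Inv N θ F G H K) (hθ : θ ≤ θ') :
    Inv N θ' F G H K :=
  ⟨h.F0, h.G0, h.H0, h.K0, h.F1, h.G1, h.H1, h.K1, fun x y =>
    (h.le x y).trans (mul_le_mul_of_nonneg_right hθ (mul_nonneg (h.H0 _) (h.K0 _)))⟩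

theorem cw_rep (N e lo hi : ℕ) (c : Bool) (w : List Bool) : ∀ b : ℕ,
    cw N e lo hi (List.replicate b c ++ w) =
      (fun E => win lo hi (stp N e c E))^[b] (cw N e lo hi w)
  | 0 => by simp
  | b + 1 => by
    rw [List.replicate_succ, List.cons_append, cw, Function.iterate_succ_apply',
      cw_rep N e lo hi c w b]

theorem Gd_cons {N e : ℕ} {θ : ℝ} (hN : 1 ≤ N) (hθ : 0 ≤ θ) (c : Bool) {w : List Bool}
    (h : Gd N e θ w) : Gd N e θ (c :: w) :=
  Inv.step c hN hθ h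

theorem uu_nonneg (e b y q : ℕ) : 0 ≤ uu e b y q := by
  unfold uu
  split_ifs
  · exact Nat.cast_nonneg _
  · exact le_rfl

theorem zz_nonneg (N e lo hi y q : ℕ) : 0 ≤ zz N e lo hi y q := by
  unfold zz
  apply sum_nonneg
  intro z _
  apply sum_nonneg
  intro z' _
  split_ifs <;> norm_num

/-- gain, a descending run of length at least two -/
theorem Gd_down {N e R b : ℕ} {θ : ℝ} (he : e ≤ 1) (hN : 2 ≤ N) (hθ : 0 ≤ θ) (hb : 2 ≤ b)
    (hbR : b ≤ R) {w : List Bool} (h : Gd N e θ w) :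
    Gd N e (θ * (1 - 1 / ((N : ℝ) + R) ^ 6)) (false :: (List.replicate b true ++ false :: w)) := by
  have hN' : (2 : ℝ) ≤ N := by exact_mod_cast hN
  have hb' : (2 : ℝ) ≤ b := by exact_mod_cast hb
  have hR' : (b : ℝ) ≤ R := by exact_mod_cast hbR
  have hδ1 : 1 / ((N : ℝ) + b) ^ 2 ≤ 1 := by
    rw [div_le_one (by positivity)]
    nlinarith
  have key := block (e := e) (θ := θ) (δ := 1 / ((N : ℝ) + b) ^ 2)
    (kF := uu e b) (kG := uu e b) (kH := uu e b) (kK := uu e b) hN hθ (by positivity) hδ1 h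
    (uu_nonneg e b) (uu_nonneg e b) (uu_nonneg e b) (uu_nonneg e b)
    (fun y q y' q' _ _ _ _ _ _ => uu_k1 e b he (by omega) y q y' q')
    (fun y q _ hy hq _ => uu_k2 N e b he hb y q hN hy hq)
    (fun y q _ _ => uu_mono_q e b he (by omega) y q)
    (fun y q _ hy _ _ => uu_mono_y e b he (by omega) y N q hy)
  unfold Gd
  have e1 : ∀ lo hi, hi ≤ N →
      cw N e lo hi (false :: (List.replicate b true ++ false :: w)) =
      win lo hi (stp N e false (win lo hi fun q => ∑ y ∈ range (N + 1),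
        uu e b y q * win lo hi (stp N e false (cw N e lo hi w)) y)) := by
    intro lo hi hhi
    rw [cw, cw_rep, cw, stp_iter he lo hi b (by omega) hhi]
  rw [e1 0 N le_rfl, e1 1 (N - 1) (by omega), e1 0 (N - 1) (by omega), e1 1 N le_rfl]
  refine Inv.mono key ?_
  apply mul_le_mul_of_nonneg_left _ hθ
  have h1 : 1 / ((N : ℝ) + R) ^ 6 ≤ 1 / ((N : ℝ) + b) ^ 2 / N ^ 2 := by
    rw [div_div]
    apply one_div_le_one_div_of_le (by positivity)
    have hNR : (1 : ℝ) ≤ (N : ℝ) + R := by linarith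
    calc ((N : ℝ) + b) ^ 2 * N ^ 2 ≤ ((N : ℝ) + R) ^ 2 * ((N : ℝ) + R) ^ 2 := by
          apply mul_le_mul
          · exact pow_le_pow_left₀ (by positivity) (by linarith) 2
          · exact pow_le_pow_left₀ (by positivity) (by linarith) 2
          · positivity
          · positivity
      _ = ((N : ℝ) + R) ^ 4 := by ring
      _ ≤ ((N : ℝ) + R) ^ 6 := pow_le_pow_right₀ hNR (by norm_num)
  linarith

/-- gain, a zigzag -/
theorem Gd_zig {N e R : ℕ} {θ : ℝ} (he : e ≤ 1) (hN : 2 ≤ N) (hθ : 0 ≤ θ)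
    {w : List Bool} (h : Gd N e θ w) :
    Gd N e (θ * (1 - 1 / ((N : ℝ) + R) ^ 6)) (false :: true :: false :: true :: false :: w) := by
  have hN' : (2 : ℝ) ≤ N := by exact_mod_cast hN
  have hR' : (0 : ℝ) ≤ R := Nat.cast_nonneg R
  have hδ1 : 1 / (N : ℝ) ^ 4 ≤ 1 := by
    rw [div_le_one (by positivity)]
    exact one_le_pow₀ (by linarith)
  have key := block (e := e) (θ := θ) (δ := 1 / (N : ℝ) ^ 4)
    (kF := zz N e 0 N) (kG := zz N e 1 (N - 1)) (kH := zz N e 0 (N - 1)) (kK := zz N e 1 N)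
    hN hθ (by positivity) hδ1 h
    (zz_nonneg N e _ _) (zz_nonneg N e _ _) (zz_nonneg N e _ _) (zz_nonneg N e _ _)
    (fun y q y' q' _ _ _ _ _ _ => zz_k1 N e he y q y' q' hN)
    (fun y q hy1 hy hq1 hq => zz_k2 N e he y q hN hy1 hy hq1 hq)
    (fun y q _ _ => zz_mono_q N e _ _ y q)
    (fun y q _ hy _ _ => zz_mono_y N e _ _ y N q hy)
  unfold Gd
  have e1 : ∀ lo hi, hi ≤ N →
      cw N e lo hi (false :: true :: false :: true :: false :: w) =
      win lo hi (stp N e false (win lo hi fun q => ∑ y ∈ range (N + 1),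
        zz N e lo hi y q * win lo hi (stp N e false (cw N e lo hi w)) y)) := by
    intro lo hi hhi
    rw [cw, cw, cw, cw, cw, stp_zz lo hi hhi]
  rw [e1 0 N le_rfl, e1 1 (N - 1) (by omega), e1 0 (N - 1) (by omega), e1 1 N le_rfl]
  refine Inv.mono key ?_
  apply mul_le_mul_of_nonneg_left _ hθ
  have h1 : 1 / ((N : ℝ) + R) ^ 6 ≤ 1 / (N : ℝ) ^ 4 / N ^ 2 := by
    rw [div_div]
    apply one_div_le_one_div_of_le (by positivity)
    calc (N : ℝ) ^ 4 * N ^ 2 = (N : ℝ) ^ 6 := by ring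
      _ ≤ ((N : ℝ) + R) ^ 6 := pow_le_pow_left₀ (by positivity) (by linarith) 6
  linarith

end Pool.Agent.Lib.FenceAF
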