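import Pool.Agent.Lib.MP_7d55f0_co.AF.GpE

set_option autoImplicit false

namespace Pool.Agent.Lib.FenceAF

open Finset

theorem cw_nonneg (N e lo hi : ℕ) : ∀ (w : List Bool) (x : ℕ), 0 ≤ cw N e lo hi w x
  | [] => win_nonneg fun _ => zero_le_one
  | c :: w => win_nonneg (stp_nonneg c (cw_nonneg N e lo hi w))

theorem cw_out (N e lo hi : ℕ) (w : List Bool) (x : ℕ) (h : ¬ (lo ≤ x ∧ x ≤ hi)) :
    cw N e lo hi w x = 0 := by
  cases w with
  | nil => simp only [cw, win]; rw [if_neg h]
  | cons c w => simp only [cw, win]; rw [if_neg h]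

theorem stp_rev {N e : ℕ} (c : Bool) (F F' : ℕ → ℝ) (h : ∀ y, y ≤ N → F (N - y) = F' y)
    (x : ℕ) (hx : x ≤ N) : stp N e c F (N - x) = stp N e (!c) F' x := by
  unfold stp
  refine sum_bij' (fun y _ => N - y) (fun y _ => N - y) ?_ ?_ ?_ ?_ ?_
  · intro y hy; rw [mem_range] at hy ⊢; omega
  · intro y hy; rw [mem_range] at hy ⊢; omega
  · intro y hy; rw [mem_range] at hy; omega
  · intro y hy; rw [mem_range] at hy; omega
  · intro y hy
    rw [mem_range] at hy
    have h1 := h (N - y) (by omega)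
    rw [show N - (N - y) = y by omega] at h1
    rw [← h1]
    cases c
    · simp only [Bool.false_eq_true, if_false, Bool.not_false, if_true]
      have : (y + e ≤ N - x) ↔ (x + e ≤ N - y) := by omega
      simp only [this]
    · simp only [Bool.false_eq_true, if_false, Bool.not_true, if_true]
      have : (N - x + e ≤ y) ↔ (N - y + e ≤ x) := by omega
      simp only [this]

theorem cw_rev {N e : ℕ} : ∀ (w : List Bool) (lo hi : ℕ), lo ≤ N → hi ≤ N → ∀ x, x ≤ N →
    cw N e lo hi w (N - x) = cw N e (N - hi) (N - lo) (w.map (!·)) x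
  | [], lo, hi, h1, h2, x, hx => by
    simp only [cw, win, List.map_nil]
    have : (lo ≤ N - x ∧ N - x ≤ hi) ↔ (N - hi ≤ x ∧ x ≤ N - lo) := by omega
    simp only [this]
  | c :: w, lo, hi, h1, h2, x, hx => by
    simp only [cw, win, List.map_cons]
    have : (lo ≤ N - x ∧ N - x ≤ hi) ↔ (N - hi ≤ x ∧ x ≤ N - lo) := by omega
    simp only [this]
    rw [stp_rev c (cw N e lo hi w) (cw N e (N - hi) (N - lo) (w.map (!·)))
      (fun y hy => cw_rev w lo hi h1 h2 y hy) x hx]

theorem Gd_rev {N e : ℕ} {θ : ℝ} (hN : 1 ≤ N) (hθ : 0 ≤ θ) {w : List Bool}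
    (h : Gd N e θ w) : Gd N e θ (w.map (!·)) := by
  refine ⟨cw_nonneg _ _ _ _ _, cw_nonneg _ _ _ _ _, cw_nonneg _ _ _ _ _, cw_nonneg _ _ _ _ _,
    fun x hx => cw_out N e 0 N _ x (by omega), fun x hx => cw_out N e 1 (N - 1) _ x (by omega),
    fun x hx => cw_out N e 0 (N - 1) _ x (by omega), fun x hx => cw_out N e 1 N _ x (by omega),
    ?_⟩
  intro x y
  have hnn : 0 ≤ θ * (cw N e 0 (N - 1) (w.map (!·)) (min x y) *
      cw N e 1 N (w.map (!·)) (max x y)) :=
    mul_nonneg hθ (mul_nonneg (cw_nonneg _ _ _ _ _ _) (cw_nonneg _ _ _ _ _ _))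
  by_cases hx : x ≤ N
  · by_cases hy : y ≤ N
    · have e1 := cw_rev (N := N) (e := e) w 0 N (by omega) le_rfl x hx
      have e2 := cw_rev (N := N) (e := e) w 1 (N - 1) (by omega) (by omega) y hy
      have e3 := cw_rev (N := N) (e := e) w 1 N (by omega) le_rfl (min x y) (by omega)
      have e4 := cw_rev (N := N) (e := e) w 0 (N - 1) (by omega) (by omega) (max x y) (by omega)
      rw [Nat.sub_self, Nat.sub_zero] at e1
      rw [Nat.sub_sub_self hN] at e2
      rw [Nat.sub_self] at e3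
      rw [Nat.sub_sub_self hN, Nat.sub_zero] at e4
      have hle := h.le (N - x) (N - y)
      rw [show min (N - x) (N - y) = N - max x y by omega,
        show max (N - x) (N - y) = N - min x y by omega, e1, e2, e3, e4] at hle
      rw [mul_comm (cw N e 0 (N - 1) _ _)]
      exact hle
    · rw [cw_out N e 1 (N - 1) _ y (by omega), mul_zero]
      exact hnn
  · rw [cw_out N e 0 N _ x (by omega), zero_mul]
    exact hnn

/-- gain, an ascending run of length at least two -/
theorem Gd_up {N e R b : ℕ} {θ : ℝ} (he : e ≤ 1) (hN : 2 ≤ N) (hθ : 0 ≤ θ) (hb : 2 ≤ b)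
    (hbR : b ≤ R) {w : List Bool} (h : Gd N e θ w) :
    Gd N e (θ * (1 - 1 / ((N : ℝ) + R) ^ 6)) (true :: (List.replicate b false ++ true :: w)) := by
  have h1 := Gd_down he hN hθ hb hbR (Gd_rev (by omega) hθ h)
  have hN' : (2 : ℝ) ≤ N := by exact_mod_cast hN
  have hR' : (0 : ℝ) ≤ R := Nat.cast_nonneg R
  have h6 : 1 / ((N : ℝ) + R) ^ 6 ≤ 1 := by
    rw [div_le_one (by positivity)]
    exact one_le_pow₀ (by linarith)
  have h2 := Gd_rev (by omega) (mul_nonneg hθ (by linarith)) h1
  have e1 : (false :: (List.replicate b true ++ false :: w.map (!·))).map (!·) =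
      true :: (List.replicate b false ++ true :: w) := by
    simp [List.map_map, Function.comp_def]
  rw [e1] at h2
  exact h2

end Pool.Agent.Lib.FenceAF
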