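import Pool.Agent.Lib.MP_7d55f0_co.AF.GpDefs

set_option autoImplicit false

namespace Pool.Agent.Lib.FenceAF

open Finset

theorem Short.suffix {R : ℕ} {u v : List Bool} (h : Short R (u ++ v)) : Short R v := by
  intro c u' v' a hv
  exact h c (u ++ u') v' a (by rw [hv]; simp [List.append_assoc])

theorem exists_run (c : Bool) : ∀ v : List Bool,
    (∃ a, v = List.replicate a c) ∨ ∃ a v', v = List.replicate a c ++ (!c) :: v'
  | [] => Or.inl ⟨0, rfl⟩
  | d :: v => by
    by_cases hd : d = c
    · subst hd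
      rcases exists_run d v with ⟨a, ha⟩ | ⟨a, v', ha⟩
      · left
        exact ⟨a + 1, by rw [ha, List.replicate_succ]⟩
      · right
        refine ⟨a + 1, v', ?_⟩
        rw [List.replicate_succ, List.cons_append, ← ha]
    · right
      refine ⟨0, v, ?_⟩
      have : d = !c := by
        cases d <;> cases c <;> simp_all
      rw [this]
      rfl

theorem peel {R : ℕ} {c : Bool} {v : List Bool} (h : Short R (c :: v))
    (hl : R < (c :: v).length) :
    ∃ a v', 1 ≤ a ∧ a ≤ R ∧ c :: v = List.replicate a c ++ (!c) :: v' := by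
  rcases exists_run c v with ⟨a, ha⟩ | ⟨a, v', ha⟩
  · exfalso
    have h1 := h c [] [] (a + 1) (by rw [ha]; simp [List.replicate_succ])
    rw [ha] at hl
    simp at hl
    omega
  · have h1 := h c [] ((!c) :: v') (a + 1) (by rw [ha]; simp [List.replicate_succ])
    exact ⟨a + 1, v', by omega, h1, by rw [ha]; simp [List.replicate_succ]⟩

theorem rep_pred (c : Bool) {a : ℕ} (h : 1 ≤ a) :
    List.replicate a c = List.replicate (a - 1) c ++ [c] := by
  obtain ⟨b, rfl⟩ : ∃ b, a = b + 1 := ⟨a - 1, by omega⟩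
  rw [Nat.add_sub_cancel, ← List.replicate_succ']

theorem exists_seg {R : ℕ} (hR : 1 ≤ R) (w : List Bool) (hw : Short R w)
    (hl : 7 * R ≤ w.length) :
    ∃ u s w' : List Bool, w = u ++ s ++ w' ∧ Seg R s ∧ (u ++ s).length ≤ 7 * R := by
  cases w with
  | nil => simp at hl; omega
  | cons c v0 =>
    obtain ⟨a0, v1, ha0, ha0', e0⟩ := peel hw (by omega)
    have l0 : (c :: v0).length = a0 + ((!c) :: v1).length := by
      rw [e0]; simp
    have s1 : Short R ((!c) :: v1) := by rw [e0] at hw; exact hw.suffix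
    obtain ⟨a1, v2, ha1, ha1', e1⟩ := peel s1 (by omega)
    have l1 : ((!c) :: v1).length = a1 + ((!!c) :: v2).length := by
      rw [e1]; simp
    have s2 : Short R ((!!c) :: v2) := by rw [e1] at s1; exact s1.suffix
    obtain ⟨a2, v3, ha2, ha2', e2⟩ := peel s2 (by omega)
    have l2 : ((!!c) :: v2).length = a2 + ((!!!c) :: v3).length := by
      rw [e2]; simp
    have s3 : Short R ((!!!c) :: v3) := by rw [e2] at s2; exact s2.suffix
    obtain ⟨a3, v4, ha3, ha3', e3⟩ := peel s3 (by omega)
    have l3 : ((!!!c) :: v3).length = a3 + ((!!!!c) :: v4).length := by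
      rw [e3]; simp
    have s4 : Short R ((!!!!c) :: v4) := by rw [e3] at s3; exact s3.suffix
    obtain ⟨a4, v5, ha4, ha4', e4⟩ := peel s4 (by omega)
    simp only [Bool.not_not] at e1 e2 e3 e4
    by_cases h1 : 2 ≤ a1
    · refine ⟨List.replicate (a0 - 1) c, c :: (List.replicate a1 (!c) ++ [c]), v2, ?_,
        Or.inr ⟨c, a1, h1, ha1', rfl⟩, ?_⟩
      · rw [e0, e1, rep_pred c ha0]
        simp
      · simp
        omega
    obtain rfl : a1 = 1 := by omega
    by_cases h2 : 2 ≤ a2
    · refine ⟨List.replicate a0 c, (!c) :: (List.replicate a2 c ++ [!c]), v3, ?_,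
        Or.inr ⟨!c, a2, h2, ha2', by simp⟩, ?_⟩
      · rw [e0, e1, e2]
        simp
      · simp
        omega
    obtain rfl : a2 = 1 := by omega
    by_cases h3 : 2 ≤ a3
    · refine ⟨List.replicate a0 c ++ [!c], c :: (List.replicate a3 (!c) ++ [c]), v4, ?_,
        Or.inr ⟨c, a3, h3, ha3', rfl⟩, ?_⟩
      · rw [e0, e1, e2, e3]
        simp
      · simp
        omega
    obtain rfl : a3 = 1 := by omega
    by_cases h4 : 2 ≤ a4
    · refine ⟨List.replicate a0 c ++ [!c, c], (!c) :: (List.replicate a4 c ++ [!c]), v5, ?_,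
        Or.inr ⟨!c, a4, h4, ha4', by simp⟩, ?_⟩
      · rw [e0, e1, e2, e3, e4]
        simp
      · simp
        omega
    obtain rfl : a4 = 1 := by omega
    cases c
    · refine ⟨List.replicate (a0 - 1) false, [false, true, false, true, false], true :: v5, ?_,
        Or.inl rfl, ?_⟩
      · rw [e0, e1, e2, e3, e4, rep_pred false ha0]
        simp
      · simp
        omega
    · refine ⟨List.replicate a0 true, [false, true, false, true, false], v5, ?_,
        Or.inl rfl, ?_⟩
      · rw [e0, e1, e2, e3, e4]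
        simp
      · simp
        omega

end Pool.Agent.Lib.FenceAF
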