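import Pool.Agent.Lib.MP_7d55f0_co.AF.GpF
import Pool.Agent.Lib.MP_7d55f0_co.AF.GpG

set_option autoImplicit false

namespace Pool.Agent.Lib.FenceAF

open Finset Pool.Agent.Lib.FenceGlue

theorem Gd_append {N e : ℕ} {θ : ℝ} (hN : 1 ≤ N) (hθ : 0 ≤ θ) {w : List Bool}
    (h : Gd N e θ w) : ∀ u : List Bool, Gd N e θ (u ++ w)
  | [] => h
  | c :: u => Gd_cons hN hθ c (Gd_append hN hθ h u)

theorem Gd_nil {N e : ℕ} (hN : 1 ≤ N) : Gd N e 1 [] := Inv.start hN

theorem Gd_main {N e R : ℕ} (he : e ≤ 1) (hN : 2 ≤ N) (hR : 1 ≤ R) :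
    ∀ (L : ℕ) (w : List Bool), Short R w → 7 * R * L ≤ w.length →
      Gd N e ((1 - 1 / ((N : ℝ) + R) ^ 6) ^ L) w := by
  have hN' : (2 : ℝ) ≤ N := by exact_mod_cast hN
  have hR' : (0 : ℝ) ≤ R := Nat.cast_nonneg R
  have h6 : 0 ≤ 1 - 1 / ((N : ℝ) + R) ^ 6 := by
    have : 1 / ((N : ℝ) + R) ^ 6 ≤ 1 := by
      rw [div_le_one (by positivity)]
      exact one_le_pow₀ (by linarith)
    linarith
  intro L
  induction L with
  | zero =>
    intro w _ _
    rw [pow_zero]
    have := Gd_append (N := N) (e := e) (θ := 1) (by omega) zero_le_one (Gd_nil (by omega)) w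
    rwa [List.append_nil] at this
  | succ L ih =>
    intro w hw hl
    have hl7 : 7 * R ≤ w.length := le_trans (by nlinarith) hl
    obtain ⟨u, s, w', e1, hs, hlen⟩ := exists_seg hR w hw hl7
    have hw' : Short R w' := by
      rw [e1] at hw
      exact hw.suffix
    have hlw : 7 * R * L ≤ w'.length := by
      rw [e1, List.length_append] at hl
      have : 7 * R * (L + 1) = 7 * R * L + 7 * R := by ring
      omega
    have hG := ih w' hw' hlw
    have hθ : 0 ≤ (1 - 1 / ((N : ℝ) + R) ^ 6) ^ L := pow_nonneg h6 L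
    rw [e1, List.append_assoc]
    apply Gd_append (by omega) (pow_nonneg h6 _)
    rw [pow_succ]
    rcases hs with rfl | ⟨c, b, hb, hbR, rfl⟩
    · exact Gd_zig he hN hθ hG
    · cases c
      · have := Gd_down he hN hθ hb hbR hG
        simpa using this
      · have := Gd_up he hN hθ hb hbR hG
        simpa using this

/-- a sum over a window as a sum over an antidiagonal -/
theorem sum_window {N lo B : ℕ} (h : lo + B ≤ N) (G : ℕ → ℝ)
    (hG : ∀ y, y ≤ N → ¬ (lo ≤ y ∧ y ≤ lo + B) → G y = 0) :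
    ∑ y ∈ range (N + 1), G y = ∑ p ∈ antidiagonal B, G (lo + p.1) := by
  rw [Finset.Nat.sum_antidiagonal_eq_sum_range_succ_mk]
  have h1 : ∑ y ∈ Ico lo (lo + B + 1), G y = ∑ y ∈ range (N + 1), G y := by
    apply sum_subset
    · intro y hy
      rw [mem_Ico] at hy
      rw [mem_range]
      omega
    · intro y hy hy'
      rw [mem_range] at hy
      rw [mem_Ico] at hy'
      exact hG y (by omega) (by omega)
  rw [← h1, sum_Ico_eq_sum_range]
  rw [show lo + B + 1 - lo = B.succ by omega]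

theorem cw_rc {N lo m : ℕ} (h : lo + m ≤ N) : ∀ (w : List Bool) (A B : ℕ), A + B = m →
    cw N 0 lo (lo + m) w (lo + A) = (rc w A B : ℝ)
  | [], A, B, hAB => by
    simp only [cw, win, rc]
    rw [if_pos (by omega)]
    simp
  | true :: w, A, B, hAB => by
    simp only [cw, win, rc]
    rw [if_pos (by omega)]
    simp only [stp, if_true]
    rw [sum_window (lo := lo + A) (B := B) (by omega)
      (fun y => if lo + A + 0 ≤ y then cw N 0 lo (lo + m) w y else 0)]
    · push_cast
      apply sum_congr rfl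
      intro p hp
      rw [HasAntidiagonal.mem_antidiagonal] at hp
      rw [if_pos (by omega), add_assoc, cw_rc h w (A + p.1) p.2 (by omega)]
    · intro y _ hy
      by_cases h1 : lo + A + 0 ≤ y
      · rw [if_pos h1]
        exact cw_out _ _ _ _ _ _ (by omega)
      · rw [if_neg h1]
  | false :: w, A, B, hAB => by
    simp only [cw, win, rc]
    rw [if_pos (by omega)]
    simp only [stp, Bool.false_eq_true, if_false]
    rw [sum_window (lo := lo) (B := A) (by omega)
      (fun y => if y + 0 ≤ lo + A then cw N 0 lo (lo + m) w y else 0)]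
    · push_cast
      apply sum_congr rfl
      intro p hp
      rw [HasAntidiagonal.mem_antidiagonal] at hp
      rw [if_pos (by omega), cw_rc h w p.1 (p.2 + B) (by omega)]
    · intro y _ hy
      by_cases h1 : y + 0 ≤ lo + A
      · rw [if_pos h1]
        exact cw_out _ _ _ _ _ _ (by omega)
      · rw [if_neg h1]

theorem cw_rs {N lo m : ℕ} (h : lo + m ≤ N) : ∀ (w : List Bool) (A B : ℕ), A + B = m →
    cw N 1 lo (lo + m) w (lo + A) = (rs w A B : ℝ)
  | [], A, B, hAB => by
    simp only [cw, win, rs]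
    rw [if_pos (by omega)]
    simp
  | true :: w, A, 0, hAB => by
    simp only [cw, win, rs]
    rw [if_pos (by omega)]
    simp only [stp, if_true]
    push_cast
    apply sum_eq_zero
    intro y _
    by_cases h1 : lo + A + 1 ≤ y
    · rw [if_pos h1]
      exact cw_out _ _ _ _ _ _ (by omega)
    · rw [if_neg h1]
  | true :: w, A, B + 1, hAB => by
    simp only [cw, win, rs]
    rw [if_pos (by omega)]
    simp only [stp, if_true]
    rw [sum_window (lo := lo + (A + 1)) (B := B) (by omega)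
      (fun y => if lo + A + 1 ≤ y then cw N 1 lo (lo + m) w y else 0)]
    · push_cast
      apply sum_congr rfl
      intro p hp
      rw [HasAntidiagonal.mem_antidiagonal] at hp
      rw [if_pos (by omega), add_assoc, cw_rs h w (A + 1 + p.1) p.2 (by omega)]
    · intro y _ hy
      by_cases h1 : lo + A + 1 ≤ y
      · rw [if_pos h1]
        exact cw_out _ _ _ _ _ _ (by omega)
      · rw [if_neg h1]
  | false :: w, 0, B, hAB => by
    simp only [cw, win, rs]
    rw [if_pos (by omega)]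
    simp only [stp, Bool.false_eq_true, if_false]
    push_cast
    apply sum_eq_zero
    intro y _
    by_cases h1 : y + 1 ≤ lo + 0
    · rw [if_pos h1]
      exact cw_out _ _ _ _ _ _ (by omega)
    · rw [if_neg h1]
  | false :: w, A + 1, B, hAB => by
    simp only [cw, win, rs]
    rw [if_pos (by omega)]
    simp only [stp, Bool.false_eq_true, if_false]
    rw [sum_window (lo := lo) (B := A) (by omega)
      (fun y => if y + 1 ≤ lo + (A + 1) then cw N 1 lo (lo + m) w y else 0)]
    · push_cast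
      apply sum_congr rfl
      intro p hp
      rw [HasAntidiagonal.mem_antidiagonal] at hp
      rw [if_pos (by omega), cw_rs h w p.1 (p.2 + 1 + B) (by omega)]
    · intro y _ hy
      by_cases h1 : y + 1 ≤ lo + (A + 1)
      · rw [if_pos h1]
        exact cw_out _ _ _ _ _ _ (by omega)
      · rw [if_neg h1]

theorem tot_Om (N lo m : ℕ) (h : lo + m ≤ N) (w : List Bool) :
    tot N 0 lo (lo + m) w = (Om w m : ℝ) := by
  unfold tot Om
  rw [sum_window h _ (fun y _ hy => cw_out _ _ _ _ _ _ hy)]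
  push_cast
  apply sum_congr rfl
  intro p hp
  rw [HasAntidiagonal.mem_antidiagonal] at hp
  exact cw_rc h w p.1 p.2 hp

theorem tot_Os (N lo m : ℕ) (h : lo + m ≤ N) (w : List Bool) :
    tot N 1 lo (lo + m) w = (Os w m : ℝ) := by
  unfold tot Os
  rw [sum_window h _ (fun y _ hy => cw_out _ _ _ _ _ _ hy)]
  push_cast
  apply sum_congr rfl
  intro p hp
  rw [HasAntidiagonal.mem_antidiagonal] at hp
  exact cw_rs h w p.1 p.2 hp

theorem tot_gap {R e : ℕ} (he : e ≤ 1) (hR : 1 ≤ R) (w : List Bool) (hw : Short R w) (L m : ℕ)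
    (hL : 7 * R * L ≤ w.length) :
    tot (m + 2) e 0 (m + 2) w * tot (m + 2) e 1 (m + 1) w ≤
      (1 - 1 / ((m : ℝ) + 2 + R) ^ 6) ^ L *
        (tot (m + 2) e 0 (m + 1) w * tot (m + 2) e 1 (m + 2) w) := by
  have hG := Gd_main he (N := m + 2) (by omega) hR L w hw hL
  have hR' : (0 : ℝ) ≤ R := Nat.cast_nonneg R
  have hm' : (0 : ℝ) ≤ m := Nat.cast_nonneg m
  have h6 : 0 ≤ 1 - 1 / ((m : ℝ) + 2 + R) ^ 6 := by
    have : 1 / ((m : ℝ) + 2 + R) ^ 6 ≤ 1 := by
      rw [div_le_one (by positivity)]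
      exact one_le_pow₀ (by linarith)
    linarith
  have e0 : (((m + 2 : ℕ) : ℝ) + R) = (m : ℝ) + 2 + R := by push_cast; ring
  rw [e0] at hG
  unfold tot
  exact four_chain (N := m + 2) (pow_nonneg h6 L) hG.F0 hG.G0 hG.H0 hG.K0
    (fun x y _ _ => hG.le x y)

/-- **log-concavity with gain**, weak maps -/
theorem Om_gap {R : ℕ} (hR : 1 ≤ R) (w : List Bool) (hw : Short R w) (L m : ℕ)
    (hL : 7 * R * L ≤ w.length) :
    (Om w (m + 2) : ℝ) * Om w m ≤
      (1 - 1 / ((m : ℝ) + 2 + R) ^ 6) ^ L * (Om w (m + 1) : ℝ) ^ 2 := by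
  have h := tot_gap (e := 0) (by omega) hR w hw L m hL
  have e1 := tot_Om (m + 2) 0 (m + 2) (by omega) w
  have e2 := tot_Om (m + 2) 1 m (by omega) w
  have e3 := tot_Om (m + 2) 0 (m + 1) (by omega) w
  have e4 := tot_Om (m + 2) 1 (m + 1) (by omega) w
  rw [zero_add] at e1 e3
  rw [add_comm 1 m] at e2
  rw [show 1 + (m + 1) = m + 2 by ring] at e4
  rw [e1, e2, e3, e4] at h
  rw [pow_two]
  exact h

/-- **log-concavity with gain**, strict maps -/
theorem Os_gap {R : ℕ} (hR : 1 ≤ R) (w : List Bool) (hw : Short R w) (L m : ℕ)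
    (hL : 7 * R * L ≤ w.length) :
    (Os w (m + 2) : ℝ) * Os w m ≤
      (1 - 1 / ((m : ℝ) + 2 + R) ^ 6) ^ L * (Os w (m + 1) : ℝ) ^ 2 := by
  have h := tot_gap (e := 1) (by omega) hR w hw L m hL
  have e1 := tot_Os (m + 2) 0 (m + 2) (by omega) w
  have e2 := tot_Os (m + 2) 1 m (by omega) w
  have e3 := tot_Os (m + 2) 0 (m + 1) (by omega) w
  have e4 := tot_Os (m + 2) 1 (m + 1) (by omega) w
  rw [zero_add] at e1 e3
  rw [add_comm 1 m] at e2
  rw [show 1 + (m + 1) = m + 2 by ring] at e4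
  rw [e1, e2, e3, e4] at h
  rw [pow_two]
  exact h

end Pool.Agent.Lib.FenceAF
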