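import Pool.Agent.Lib.MP_7d55f0_co.AF.MnDefs

set_option autoImplicit false

namespace Pool.Agent.Lib.FenceAF

open Polynomial Finset Real Pool.Agent.Lib.FenceGlue

namespace MnA

theorem rs_mono (w : List Bool) : ∀ A B : ℕ, rs w A B ≤ rs w (A + 1) B ∧
    rs w A B ≤ rs w A (B + 1) := by
  induction w with
  | nil => intro A B; simp [rs]
  | cons c w ih =>
    intro A B
    cases c with
    | true =>
      cases B with
      | zero => simp [rs]
      | succ B =>
        constructor
        · simp only [rs]
          refine Finset.sum_le_sum fun p _ => ?_
          rw [show A + 1 + 1 + p.1 = (A + 1 + p.1) + 1 by ring]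
          exact (ih _ _).1
        · simp only [rs]
          rw [Finset.Nat.sum_antidiagonal_succ']
          refine le_trans ?_ (Nat.le_add_left _ _)
          refine Finset.sum_le_sum fun p _ => ?_
          exact (ih _ _).2
    | false =>
      cases A with
      | zero => simp [rs]
      | succ A =>
        constructor
        · simp only [rs]
          rw [Finset.Nat.sum_antidiagonal_succ]
          refine le_trans ?_ (Nat.le_add_left _ _)
          refine Finset.sum_le_sum fun p _ => ?_
          exact (ih _ _).1
        · simp only [rs]
          refine Finset.sum_le_sum fun p _ => ?_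
          rw [show p.2 + 1 + (B + 1) = (p.2 + 1 + B) + 1 by ring]
          exact (ih _ _).2

theorem Os_mono_succ (w : List Bool) (m : ℕ) : Os w m ≤ Os w (m + 1) := by
  unfold Os
  rw [Finset.Nat.sum_antidiagonal_succ]
  refine le_trans ?_ (Nat.le_add_left _ _)
  refine Finset.sum_le_sum fun p _ => ?_
  exact (rs_mono w _ _).1

theorem Os_mono (w : List Bool) {m m' : ℕ} (h : m ≤ m') : Os w m ≤ Os w m' :=
  monotone_nat_of_le_succ (Os_mono_succ w) h

theorem Short.tail {R : ℕ} {c : Bool} {w : List Bool} (h : Short R (c :: w)) : Short R w := by
  intro c' u v a hw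
  exact h c' (c :: u) v a (by rw [hw]; simp)

theorem rep_ne {c : Bool} {w v : List Bool} {a : ℕ} (h : (!c) :: w = List.replicate a c ++ v) :
    a = 0 := by
  cases a with
  | zero => rfl
  | succ a =>
    rw [List.replicate_succ, List.cons_append] at h
    have := (List.cons.inj h).1
    cases c <;> simp at this

theorem rs_pos {R : ℕ} (w : List Bool) : ∀ A B : ℕ, Short R w → R ≤ A + B →
    (∀ a v, w = List.replicate a true ++ v → a ≤ B) →
    (∀ a v, w = List.replicate a false ++ v → a ≤ A) → 0 < rs w A B := by
  induction w with
  | nil => intro A B _ _ _ _; simp [rs]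
  | cons c w ih =>
    intro A B hw hAB hT hF
    have hw' := Short.tail hw
    cases c with
    | true =>
      have h1 : 1 ≤ B := hT 1 w (by simp)
      obtain ⟨B, rfl⟩ : ∃ b, B = b + 1 := ⟨B - 1, by omega⟩
      simp only [rs]
      cases w with
      | nil =>
        apply Finset.sum_pos
        · intro p _; simp [rs]
        · exact ⟨(0, B), by simp⟩
      | cons d w =>
        cases d with
        | true =>
          refine Finset.sum_pos' (fun _ _ => Nat.zero_le _) ⟨(0, B), by simp, ?_⟩
          apply ih _ _ hw' (by simp only; omega)
          · intro a v h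
            have := hT (a + 1) v (by rw [h, List.replicate_succ]; rfl)
            simp only; omega
          · intro a v h
            have := rep_ne (c := false) h
            omega
        | false =>
          refine Finset.sum_pos' (fun _ _ => Nat.zero_le _) ⟨(B, 0), by simp, ?_⟩
          apply ih _ _ hw' (by simp only; omega)
          · intro a v h
            have := rep_ne (c := true) h
            omega
          · intro a v h
            have := hw' false [] v a (by simpa using h)
            simp only; omega
    | false =>
      have h1 : 1 ≤ A := hF 1 w (by simp)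
      obtain ⟨A, rfl⟩ : ∃ b, A = b + 1 := ⟨A - 1, by omega⟩
      simp only [rs]
      cases w with
      | nil =>
        apply Finset.sum_pos
        · intro p _; simp [rs]
        · exact ⟨(0, A), by simp⟩
      | cons d w =>
        cases d with
        | false =>
          refine Finset.sum_pos' (fun _ _ => Nat.zero_le _) ⟨(A, 0), by simp, ?_⟩
          apply ih _ _ hw' (by simp only; omega)
          · intro a v h
            have := rep_ne (c := true) h
            omega
          · intro a v h
            have := hF (a + 1) v (by rw [h, List.replicate_succ]; rfl)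
            simp only; omega
        | true =>
          refine Finset.sum_pos' (fun _ _ => Nat.zero_le _) ⟨(0, A), by simp, ?_⟩
          apply ih _ _ hw' (by simp only; omega)
          · intro a v h
            have := hw' true [] v a (by simpa using h)
            simp only; omega
          · intro a v h
            have := rep_ne (c := false) h
            omega

theorem Os_pos {R : ℕ} (w : List Bool) (hw : Short R w) : 0 < Os w R := by
  unfold Os
  cases w with
  | nil =>
    apply Finset.sum_pos
    · intro p _; simp [rs]
    · exact ⟨(0, R), by simp⟩
  | cons c w =>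
    cases c with
    | true =>
      refine Finset.sum_pos' (fun _ _ => Nat.zero_le _) ⟨(0, R), by simp, ?_⟩
      apply rs_pos _ _ _ hw (by simp)
      · intro a v h
        exact hw true [] v a (by simpa using h)
      · intro a v h
        have := rep_ne (c := false) h
        omega
    | false =>
      refine Finset.sum_pos' (fun _ _ => Nat.zero_le _) ⟨(R, 0), by simp, ?_⟩
      apply rs_pos _ _ _ hw (by simp)
      · intro a v h
        have := rep_ne (c := true) h
        omega
      · intro a v h
        exact hw false [] v a (by simpa using h)

end MnA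

theorem longest_spec {R : ℕ} (hR : 1 ≤ R) (w : List Bool) (hw : Short R w) :
    1 ≤ longest w ∧ longest w ≤ R + 1 ∧ (∀ m, m + 1 < longest w → Os w m = 0) ∧
      (∀ m, longest w ≤ m + 1 → 0 < Os w m) := by
  have _ := hR
  have hmem : R + 1 ∈ {m : ℕ | 1 ≤ m ∧ 0 < Os w (m - 1)} :=
    ⟨by omega, by simpa using MnA.Os_pos w hw⟩
  have h1 : longest w ∈ {m : ℕ | 1 ≤ m ∧ 0 < Os w (m - 1)} := Nat.sInf_mem ⟨_, hmem⟩
  have h2 : longest w ≤ R + 1 := Nat.sInf_le hmem
  refine ⟨h1.1, h2, ?_, ?_⟩
  · intro m hm
    have h3 : m + 1 ∉ {m : ℕ | 1 ≤ m ∧ 0 < Os w (m - 1)} := Nat.notMem_of_lt_sInf hm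
    by_contra h4
    exact h3 ⟨by omega, by simpa using Nat.pos_of_ne_zero h4⟩
  · intro m hm
    exact lt_of_lt_of_le h1.2 (MnA.Os_mono w (by omega))

end Pool.Agent.Lib.FenceAF
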