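import Pool.Agent.Lib.MP_7d55f0_co.AF.CountB
import Pool.Agent.Lib.MP_7d55f0_co.AF.CountC
import Pool.Agent.Lib.MP_7d55f0_co.AF.MnA

set_option autoImplicit false

namespace Pool.Agent.Lib.FenceAF

open Polynomial Finset Real Pool.Agent.Lib.FenceGlue

theorem mnB_refl (n a : ℕ) (hn : 1 ≤ n) :
    (bn n).eval ((n : ℝ) - 1 - a) = (-1) ^ n * (a.choose n : ℝ) := by
  rcases Nat.lt_or_ge a n with h | h
  · have e : (n : ℝ) - 1 - a = ((n - 1 - a : ℕ) : ℝ) := by
      rw [Nat.cast_sub (by omega), Nat.cast_sub (by omega)]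
      push_cast
      ring
    rw [e, bn_eval_nat, Nat.choose_eq_zero_of_lt (by omega), Nat.choose_eq_zero_of_lt h]
    simp
  · have e : (n : ℝ) - 1 - a = -((a - n + 1 : ℕ) : ℝ) := by
      push_cast [Nat.cast_sub h]
      ring
    rw [e, bn_eval_neg]
    congr 3
    omega

/-- the coefficients of the counting series -/
theorem mnB_coeff {w : List Bool} {h : ℤ[X]}
    (hh : PowerSeries.mk (fun m : ℕ => ((Om w m : ℕ) : ℤ)) *
      (1 - PowerSeries.X) ^ (w.length + 1 + 1) = (↑h : PowerSeries ℤ)) (m : ℕ) :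
    (Om w m : ℝ) = ∑ j ∈ range (m + 1),
      (h.coeff j : ℝ) * ((w.length + 1 + (m - j)).choose (w.length + 1) : ℝ) := by
  have h1 : PowerSeries.mk (fun m : ℕ => ((Om w m : ℕ) : ℤ)) =
      (↑h : PowerSeries ℤ) *
        PowerSeries.mk (fun i : ℕ => (((w.length + 1 + i).choose (w.length + 1) : ℕ) : ℤ)) := by
    rw [← hh, mul_assoc, mul_comm ((1 - PowerSeries.X) ^ (w.length + 1 + 1)),
      PowerSeries.mk_add_choose_mul_one_sub_pow_eq_one, mul_one]
  have h2 := congrArg (PowerSeries.coeff m) h1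
  rw [PowerSeries.coeff_mk, PowerSeries.coeff_mul,
    Finset.Nat.sum_antidiagonal_eq_sum_range_succ_mk] at h2
  have h3 : ((Om w m : ℤ) : ℝ) = _ := congrArg (fun z : ℤ => (z : ℝ)) h2
  rw [Int.cast_natCast] at h3
  rw [h3]
  push_cast
  refine Finset.sum_congr rfl (fun j _ => ?_)
  rw [PowerSeries.coeff_mk]
  push_cast
  rfl

/-- the polynomial identity -/
theorem mnB_poly {w : List Bool} {h : ℤ[X]}
    (hh : PowerSeries.mk (fun m : ℕ => ((Om w m : ℕ) : ℤ)) *
      (1 - PowerSeries.X) ^ (w.length + 1 + 1) = (↑h : PowerSeries ℤ)) (x : ℝ) :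
    (PP w).eval (x + 1) = ∑ j ∈ range (h.natDegree + 1),
      (h.coeff j : ℝ) * (bn (w.length + 1)).eval (x - j + (w.length + 1 : ℕ)) := by
  set n := w.length + 1 with hn
  have hpoly : (PP w).comp (X + C 1) = ∑ j ∈ range (h.natDegree + 1),
      C (h.coeff j : ℝ) * (bn n).comp (X - C (j : ℝ) + C ((n : ℕ) : ℝ)) := by
    apply Polynomial.eq_of_infinite_eval_eq
    have hinf : Set.Infinite ((fun m : ℕ => (m : ℝ)) '' {m : ℕ | h.natDegree ≤ m}) := by
      apply Set.Infinite.image
      · exact fun a _ b _ hab => by exact_mod_cast hab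
      · exact Set.infinite_of_not_bddAbove (by
          rintro ⟨b, hb⟩
          have := hb (show h.natDegree ≤ max (b + 1) h.natDegree from le_max_right _ _)
          omega)
    refine hinf.mono ?_
    rintro _ ⟨m, hm, rfl⟩
    simp only [Set.mem_ofPred_eq] at hm ⊢
    rw [Polynomial.eval_comp, Polynomial.eval_add, Polynomial.eval_X, Polynomial.eval_C, PP_eval,
      mnB_coeff hh m, Polynomial.eval_finsetSum]
    have hsub : range (h.natDegree + 1) ⊆ range (m + 1) := by
      intro j hj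
      rw [Finset.mem_range] at hj ⊢
      omega
    rw [← Finset.sum_subset hsub]
    · refine Finset.sum_congr rfl (fun j hj => ?_)
      rw [Finset.mem_range] at hj
      rw [Polynomial.eval_mul, Polynomial.eval_C, Polynomial.eval_comp, Polynomial.eval_add,
        Polynomial.eval_sub, Polynomial.eval_X, Polynomial.eval_C, Polynomial.eval_C]
      have e : (m : ℝ) - j + ((n : ℕ) : ℝ) = ((n + (m - j) : ℕ) : ℝ) := by
        push_cast [Nat.cast_sub (show j ≤ m by omega)]
        ring
      rw [e, bn_eval_nat]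
    · intro j _ hj
      rw [Finset.mem_range, not_lt] at hj
      rw [Polynomial.coeff_eq_zero_of_natDegree_lt (by omega)]
      simp
  have h2 := congrArg (Polynomial.eval x) hpoly
  rw [Polynomial.eval_comp, Polynomial.eval_add, Polynomial.eval_X, Polynomial.eval_C,
    Polynomial.eval_finsetSum] at h2
  rw [h2]
  refine Finset.sum_congr rfl (fun j _ => ?_)
  rw [Polynomial.eval_mul, Polynomial.eval_C, Polynomial.eval_comp, Polynomial.eval_add,
    Polynomial.eval_sub, Polynomial.eval_X, Polynomial.eval_C, Polynomial.eval_C]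

theorem mnB_rc_zero : ∀ w : List Bool, rc w 0 0 = 1
  | [] => rfl
  | true :: w => by simp [rc, mnB_rc_zero w]
  | false :: w => by simp [rc, mnB_rc_zero w]

theorem mnB_ne_zero {w : List Bool} {h : ℤ[X]}
    (hh : PowerSeries.mk (fun m : ℕ => ((Om w m : ℕ) : ℤ)) *
      (1 - PowerSeries.X) ^ (w.length + 1 + 1) = (↑h : PowerSeries ℤ)) : h ≠ 0 := by
  rintro rfl
  have h1 := mnB_coeff hh 0
  have h2 : Om w 0 = 1 := by
    unfold Om
    rw [Finset.Nat.antidiagonal_zero, Finset.sum_singleton]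
    exact mnB_rc_zero w
  rw [h2] at h1
  simp at h1

theorem mnB_deg_le {w : List Bool} {h : ℤ[X]}
    (hh : PowerSeries.mk (fun m : ℕ => ((Om w m : ℕ) : ℤ)) *
      (1 - PowerSeries.X) ^ (w.length + 1 + 1) = (↑h : PowerSeries ℤ)) :
    h.natDegree ≤ w.length + 1 := by
  by_contra hcon
  push Not at hcon
  set n := w.length + 1 with hn
  obtain ⟨m, hm⟩ : ∃ m, h.natDegree = m + n + 1 := ⟨h.natDegree - n - 1, by omega⟩
  have h1 := mnB_poly hh (m : ℝ)
  rw [PP_eval, mnB_coeff hh m] at h1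
  have hsub : range (m + 1) ⊆ range (h.natDegree + 1) := by
    intro j hj
    rw [Finset.mem_range] at hj ⊢
    omega
  rw [← Finset.sum_sdiff hsub, ← hn] at h1
  have h2 : ∑ j ∈ range (m + 1), (h.coeff j : ℝ) * ((n + (m - j)).choose n : ℝ) =
      ∑ j ∈ range (m + 1), (h.coeff j : ℝ) * (bn n).eval ((m : ℝ) - j + (n : ℕ)) := by
    refine Finset.sum_congr rfl (fun j hj => ?_)
    rw [Finset.mem_range] at hj
    have e : (m : ℝ) - j + ((n : ℕ) : ℝ) = ((n + (m - j) : ℕ) : ℝ) := by
      push_cast [Nat.cast_sub (show j ≤ m by omega)]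
      ring
    rw [e, bn_eval_nat]
  rw [h2] at h1
  have h3 : ∑ j ∈ range (h.natDegree + 1) \ range (m + 1),
      (h.coeff j : ℝ) * (bn n).eval ((m : ℝ) - j + (n : ℕ)) = 0 := by linarith
  rw [Finset.sum_eq_single (h.natDegree)] at h3
  · have e : (m : ℝ) - (h.natDegree : ℕ) + ((n : ℕ) : ℝ) = (n : ℝ) - 1 - (n : ℕ) := by
      rw [hm]
      push_cast
      ring
    rw [e, mnB_refl n n (by omega), Nat.choose_self, Nat.cast_one, mul_one] at h3
    have h4 : (h.coeff h.natDegree : ℝ) = 0 := by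
      rcases mul_eq_zero.1 h3 with h5 | h5
      · exact h5
      · exact absurd h5 (pow_ne_zero _ (by norm_num))
    have h6 : h.coeff h.natDegree = 0 := by exact_mod_cast h4
    exact mnB_ne_zero hh (Polynomial.leadingCoeff_eq_zero.1 h6)
  · intro j hj hjd
    rw [Finset.mem_sdiff, Finset.mem_range, Finset.mem_range] at hj
    have e : (m : ℝ) - j + ((n : ℕ) : ℝ) = ((m + n - j : ℕ) : ℝ) := by
      rw [Nat.cast_sub (by omega)]
      push_cast
      ring
    rw [e, bn_eval_nat, Nat.choose_eq_zero_of_lt (by omega)]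
    simp
  · intro hnot
    exfalso
    apply hnot
    rw [Finset.mem_sdiff, Finset.mem_range, Finset.mem_range]
    omega

theorem mnB_deg_lt {w : List Bool} {h : ℤ[X]}
    (hh : PowerSeries.mk (fun m : ℕ => ((Om w m : ℕ) : ℤ)) *
      (1 - PowerSeries.X) ^ (w.length + 1 + 1) = (↑h : PowerSeries ℤ)) :
    h.natDegree ≤ w.length := by
  have hle := mnB_deg_le hh
  rcases Nat.lt_or_ge w.length h.natDegree with hlt | hge
  · exfalso
    have heq : h.natDegree = w.length + 1 := by omega
    have h1 := mnB_poly hh (-1)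
    rw [neg_add_cancel, PP_zero] at h1
    rw [Finset.sum_range_succ, Finset.sum_eq_zero] at h1
    · rw [heq] at h1
      have e : (-1 : ℝ) - ((w.length + 1 : ℕ) : ℝ) + ((w.length + 1 : ℕ) : ℝ) =
          ((w.length + 1 : ℕ) : ℝ) - 1 - ((w.length + 1 : ℕ) : ℝ) := by ring
      rw [e, mnB_refl _ _ (by omega), Nat.choose_self, Nat.cast_one, mul_one, zero_add] at h1
      have h4 : (h.coeff (w.length + 1) : ℝ) = 0 := by
        rcases mul_eq_zero.1 h1.symm with h5 | h5
        · exact h5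
        · exact absurd h5 (pow_ne_zero _ (by norm_num))
      have h6 : h.coeff h.natDegree = 0 := by rw [heq]; exact_mod_cast h4
      exact mnB_ne_zero hh (Polynomial.leadingCoeff_eq_zero.1 h6)
    · intro j hj
      rw [Finset.mem_range] at hj
      have e : (-1 : ℝ) - (j : ℝ) + ((w.length + 1 : ℕ) : ℝ) =
          ((w.length + 1 : ℕ) : ℝ) - 1 - (j : ℝ) := by ring
      rw [e, mnB_refl _ _ (by omega), Nat.choose_eq_zero_of_lt (by omega)]
      simp
  · exact hge

/-- strict maps in terms of the coefficients of `h` -/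
theorem mnB_Os {w : List Bool} {h : ℤ[X]}
    (hh : PowerSeries.mk (fun m : ℕ => ((Om w m : ℕ) : ℤ)) *
      (1 - PowerSeries.X) ^ (w.length + 1 + 1) = (↑h : PowerSeries ℤ)) (m : ℕ) :
    (Os w m : ℝ) = ∑ j ∈ range (h.natDegree + 1),
      (h.coeff j : ℝ) * ((m + 1 + j).choose (w.length + 1) : ℝ) := by
  have h1 := mnB_poly hh (-((m : ℝ) + 1) - 1)
  rw [sub_add_cancel, PP_neg] at h1
  have h2 : ∀ j ∈ range (h.natDegree + 1), (h.coeff j : ℝ) *
      (bn (w.length + 1)).eval (-((m : ℝ) + 1) - 1 - j + (w.length + 1 : ℕ)) =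
      (-1) ^ (w.length + 1) * ((h.coeff j : ℝ) * ((m + 1 + j).choose (w.length + 1) : ℝ)) := by
    intro j _
    have e : (-((m : ℝ) + 1) - 1 - j + ((w.length + 1 : ℕ) : ℝ)) =
        ((w.length + 1 : ℕ) : ℝ) - 1 - ((m + 1 + j : ℕ) : ℝ) := by
      push_cast
      ring
    rw [e, mnB_refl _ _ (by omega)]
    ring
  rw [Finset.sum_congr rfl h2, ← Finset.mul_sum] at h1
  exact mul_left_cancel₀ (pow_ne_zero _ (by norm_num)) h1

theorem mnB_eval (h : ℤ[X]) (x : ℝ) : (h.map (Int.castRingHom ℝ)).eval x =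
    ∑ j ∈ range (h.natDegree + 1), (h.coeff j : ℝ) * x ^ j := by
  rw [Polynomial.eval_map, Polynomial.eval₂_eq_sum_range]
  rfl

theorem h_inside {w : List Bool} {h : ℤ[X]}
    (hh : PowerSeries.mk (fun m : ℕ => ((Om w m : ℕ) : ℤ)) *
      (1 - PowerSeries.X) ^ (w.length + 1 + 1) = (↑h : PowerSeries ℤ)) (r : ℝ) (h0 : 0 < r)
    (h1 : r < 1) :
    (-r) * (h.map (Int.castRingHom ℝ)).eval (-r) = (1 + r) ^ (w.length + 2) * AS (PP w) r := by
  have hr : ‖(-r)‖ < 1 := by
    rw [norm_neg, Real.norm_of_nonneg h0.le]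
    exact h1
  have hpos : (1 + r) ≠ 0 := by linarith
  -- one column
  have hcol : ∀ j : ℕ, HasSum (fun m : ℕ => if j ≤ m then
      (((w.length + 1 + (m - j)).choose (w.length + 1) : ℕ) : ℝ) * (-r) ^ (m + 1) else 0)
      ((-r) ^ (j + 1) / (1 + r) ^ (w.length + 2)) := by
    intro j
    rw [← hasSum_nat_add_iff' j]
    rw [Finset.sum_eq_zero (fun i hi => by
      rw [Finset.mem_range] at hi
      rw [if_neg (by omega)]), sub_zero]
    have h2 := (hasSum_choose_mul_geometric_of_norm_lt_one (w.length + 1) hr).mul_left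
      ((-r) ^ (j + 1))
    rw [mul_one_div, show (1 - -r) = 1 + r by ring] at h2
    refine h2.congr_fun (fun m => ?_)
    rw [if_pos (by omega), Nat.add_sub_cancel, add_comm (w.length + 1) m]
    ring
  have hsum := hasSum_sum (s := range (h.natDegree + 1)) (fun j (_ : j ∈ range (h.natDegree + 1)) =>
    (hcol j).mul_left (h.coeff j : ℝ))
  have hAS : AS (PP w) r = ∑ j ∈ range (h.natDegree + 1), (h.coeff j : ℝ) *
      ((-r) ^ (j + 1) / (1 + r) ^ (w.length + 2)) := by
    unfold AS
    rw [← hsum.tsum_eq]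
    refine tsum_congr (fun m => ?_)
    rw [PP_eval, mnB_coeff hh m]
    have e : (-1 : ℝ) ^ (m + 1) * (∑ j ∈ range (m + 1), (h.coeff j : ℝ) *
        ((w.length + 1 + (m - j)).choose (w.length + 1) : ℝ)) * r ^ (m + 1) =
        ∑ j ∈ range (m + 1), (h.coeff j : ℝ) *
        (if j ≤ m then ((w.length + 1 + (m - j)).choose (w.length + 1) : ℝ) * (-r) ^ (m + 1)
          else 0) := by
      rw [Finset.mul_sum, Finset.sum_mul]
      refine Finset.sum_congr rfl (fun j hj => ?_)
      rw [Finset.mem_range] at hj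
      rw [if_pos (by omega), neg_pow r]
      ring
    rw [e]
    -- compare the two ranges
    rcases Nat.le_total m h.natDegree with hm | hm
    · refine Finset.sum_subset (fun j hj => by rw [Finset.mem_range] at hj ⊢; omega) ?_
      intro j _ hj
      rw [Finset.mem_range, not_lt] at hj
      rw [if_neg (by omega), mul_zero]
    · refine (Finset.sum_subset (fun j hj => by rw [Finset.mem_range] at hj ⊢; omega) ?_).symm
      intro j _ hj
      rw [Finset.mem_range, not_lt] at hj
      rw [Polynomial.coeff_eq_zero_of_natDegree_lt (by omega)]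
      simp
  rw [hAS, mnB_eval, Finset.mul_sum, Finset.mul_sum]
  refine Finset.sum_congr rfl (fun j _ => ?_)
  field_simp
  ring

theorem h_outside {w : List Bool} {h : ℤ[X]}
    (hh : PowerSeries.mk (fun m : ℕ => ((Om w m : ℕ) : ℤ)) *
      (1 - PowerSeries.X) ^ (w.length + 1 + 1) = (↑h : PowerSeries ℤ)) (r : ℝ) (h0 : 0 < r)
    (h1 : r < 1) :
    (-r) ^ (w.length + 1) * (h.map (Int.castRingHom ℝ)).eval (-(1 / r)) =
      (1 + r) ^ (w.length + 2) * AS (PS w) r := by
  have hr : ‖(-r)‖ < 1 := by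
    rw [norm_neg, Real.norm_of_nonneg h0.le]
    exact h1
  have hpos : (1 + r) ≠ 0 := by linarith
  have hdeg := mnB_deg_lt hh
  have hcol : ∀ j ∈ range (h.natDegree + 1), HasSum (fun m : ℕ =>
      (((m + 1 + j).choose (w.length + 1) : ℕ) : ℝ) * (-r) ^ (m + 1))
      ((-r) ^ (w.length + 1 - j) / (1 + r) ^ (w.length + 2)) := by
    intro j hj
    rw [Finset.mem_range] at hj
    rw [← hasSum_nat_add_iff' (w.length - j)]
    rw [Finset.sum_eq_zero (fun i hi => by
      rw [Finset.mem_range] at hi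
      rw [Nat.choose_eq_zero_of_lt (by omega)]
      simp), sub_zero]
    have h2 := (hasSum_choose_mul_geometric_of_norm_lt_one (w.length + 1) hr).mul_left
      ((-r) ^ (w.length + 1 - j))
    rw [mul_one_div, show (1 - -r) = 1 + r by ring] at h2
    refine h2.congr_fun (fun m => ?_)
    have e1 : m + (w.length - j) + 1 + j = m + (w.length + 1) := by omega
    have e2 : m + (w.length - j) + 1 = (w.length + 1 - j) + m := by omega
    rw [e1, e2, pow_add]
    ring
  have hsum := hasSum_sum (s := range (h.natDegree + 1))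
    (fun j (hj : j ∈ range (h.natDegree + 1)) => (hcol j hj).mul_left (h.coeff j : ℝ))
  have hAS : AS (PS w) r = ∑ j ∈ range (h.natDegree + 1), (h.coeff j : ℝ) *
      ((-r) ^ (w.length + 1 - j) / (1 + r) ^ (w.length + 2)) := by
    unfold AS
    rw [← hsum.tsum_eq]
    refine tsum_congr (fun m => ?_)
    have e : (PS w).eval ((m : ℝ) + 1) = (Os w m : ℝ) := by
      unfold PS
      rw [Polynomial.eval_mul, Polynomial.eval_C, Polynomial.eval_comp, Polynomial.eval_neg,
        Polynomial.eval_X, PP_neg, ← mul_assoc, ← pow_add, ← two_mul, pow_mul]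
      norm_num
    rw [e, mnB_Os hh m, Finset.mul_sum, Finset.sum_mul]
    refine Finset.sum_congr rfl (fun j _ => ?_)
    rw [neg_pow r]
    ring
  rw [hAS, mnB_eval, Finset.mul_sum, Finset.mul_sum]
  refine Finset.sum_congr rfl (fun j hj => ?_)
  rw [Finset.mem_range] at hj
  have e3 : (-r) ^ (w.length + 1) = (-r) ^ (w.length + 1 - j) * (-r) ^ j := by
    rw [← pow_add]
    congr 1
    omega
  have e4 : (-r) ^ j * (-(1 / r)) ^ j = 1 := by
    rw [← mul_pow, show (-r) * (-(1 / r)) = 1 by field_simp, one_pow]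
  rw [e3]
  calc (-r) ^ (w.length + 1 - j) * (-r) ^ j * ((h.coeff j : ℝ) * (-(1 / r)) ^ j) =
      (-r) ^ (w.length + 1 - j) * (h.coeff j : ℝ) * ((-r) ^ j * (-(1 / r)) ^ j) := by ring
    _ = (-r) ^ (w.length + 1 - j) * (h.coeff j : ℝ) := by rw [e4, mul_one]
    _ = _ := by field_simp

theorem h_degree {w : List Bool} {h : ℤ[X]} {R : ℕ} (hR : 1 ≤ R) (hw : Short R w)
    (hh : PowerSeries.mk (fun m : ℕ => ((Om w m : ℕ) : ℤ)) *
      (1 - PowerSeries.X) ^ (w.length + 1 + 1) = (↑h : PowerSeries ℤ)) :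
    h.natDegree + longest w ≤ w.length + 1 := by
  obtain ⟨_, _, h3, _⟩ := longest_spec hR w hw
  have hdeg := mnB_deg_lt hh
  by_contra hcon
  push Not at hcon
  have h4 := h3 (w.length - h.natDegree) (by omega)
  have h5 := mnB_Os hh (w.length - h.natDegree)
  rw [h4, Finset.sum_range_succ, Finset.sum_eq_zero] at h5
  · have e : w.length - h.natDegree + 1 + h.natDegree = w.length + 1 := by omega
    rw [e, Nat.choose_self] at h5
    simp only [Nat.cast_zero, Nat.cast_one, mul_one, zero_add] at h5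
    have h6 : h.coeff h.natDegree = 0 := by exact_mod_cast h5.symm
    exact mnB_ne_zero hh (Polynomial.leadingCoeff_eq_zero.1 h6)
  · intro j hj
    rw [Finset.mem_range] at hj
    rw [Nat.choose_eq_zero_of_lt (by omega)]
    simp

end Pool.Agent.Lib.FenceAF
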