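import Pool.Agent.Lib.MP_7d55f0_co.AF.SDefs
import Pool.Agent.Lib.MP_7d55f0_co.AF.Defs

set_option autoImplicit false

namespace Pool.Agent.Lib.FenceAF

open Polynomial Finset Real Pool.Agent.Lib.FenceGlue

/-- the strict order polynomial -/
noncomputable def PS (w : List Bool) : ℝ[X] :=
  C ((-1) ^ (w.length + 1)) * (PP w).comp (-X)

/-- length of a longest run plus one: the number of elements of a longest chain -/
noncomputable def longest (w : List Bool) : ℕ :=
  sInf {m : ℕ | 1 ≤ m ∧ 0 < Os w (m - 1)}

end Pool.Agent.Lib.FenceAF
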