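import Pool.Agent.Lib.MP_7d55f0_co.AF.ZMain
import Pool.Agent.Lib.MP_7d55f0_co.AF.MnDefs

set_option autoImplicit false

namespace Pool.Agent.Lib.FenceAF

open Polynomial Finset Real Pool.Agent.Lib.FenceGlue

/-- data for the weak side -/
theorem dat_weak {R : ℕ} (hR : 1 ≤ R) (w : List Bool) (hw : Short R w) :
    ∃ (c : ℝ) (t : Fin (w.length + 1) → ℂ) (a : ℝ),
      Dat (PP w) (w.length + 1) (2 ^ 14 * ((R : ℝ) + 1) ^ 7) c t a ∧
      Dat (PS w) (w.length + 1) (2 ^ 14 * ((R : ℝ) + 1) ^ 7) c (fun i => - t i) (-a) := by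
  set n := w.length + 1 with hn
  clear_value n
  set M : ℝ := 2 ^ 14 * ((R : ℝ) + 1) ^ 7 with hM
  set p : ℂ[X] := (PP w).map Complex.ofRealHom with hp
  have hinj : Function.Injective Complex.ofRealHom := Complex.ofRealHom.injective
  have hsp : Splits p := IsAlgClosed.splits p
  have hdeg : p.natDegree = n := by
    rw [hp, natDegree_map_eq_of_injective hinj, PP_degree, hn]
  have hcard : p.roots.card = n := by rw [← hsp.natDegree_eq_card_roots, hdeg]
  have hlc : p.leadingCoeff = ((PP w).leadingCoeff : ℂ) := by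
    rw [hp, leadingCoeff_map_of_injective hinj]; rfl
  have hc := PP_lead_pos w
  have hlen : p.roots.toList.length = n := by rw [Multiset.length_toList, hcard]
  let t : Fin n → ℂ := fun i => p.roots.toList.get (Fin.cast hlen.symm i)
  have hprod : ∀ f : ℂ → ℂ[X], ∏ i, f (t i) = (p.roots.map f).prod := by
    intro f
    have h1 : (List.ofFn fun i => f (t i)) = p.roots.toList.map f := by
      apply List.ext_getElem
      · rw [List.length_ofFn, List.length_map, hlen]
      · intro i h1 h2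
        rw [List.getElem_ofFn, List.getElem_map]
        rfl
    rw [← List.prod_ofFn, h1]
    conv_rhs => rw [← Multiset.coe_toList p.roots, Multiset.map_coe, Multiset.prod_coe]
  have hsum : ∑ i, t i = p.roots.sum := by
    have h1 : (List.ofFn fun i => t i) = p.roots.toList := by
      apply List.ext_getElem
      · rw [List.length_ofFn, hlen]
      · intro i h1 h2
        rw [List.getElem_ofFn]
        rfl
    rw [← List.sum_ofFn, h1]
    conv_rhs => rw [← Multiset.coe_toList p.roots, Multiset.sum_coe]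
  have hroot : ∀ i, p.eval (t i) = 0 := by
    intro i
    have h1 : t i ∈ p.roots.toList := List.get_mem _ _
    rw [Multiset.mem_toList] at h1
    exact (mem_roots'.1 h1).2
  have ht : ∀ i, ‖t i‖ ≤ M := by
    intro i
    by_contra h
    exact PP_ne hR w hw (t i) (not_le.1 h).le (hroot i)
  have hM1 : 1 ≤ M := by
    have h1 : (1:ℝ) ≤ (R : ℝ) + 1 := by
      have : (0:ℝ) ≤ R := Nat.cast_nonneg R
      linarith
    have h2 : (1:ℝ) ≤ ((R : ℝ) + 1) ^ 7 := one_le_pow₀ h1
    rw [hM]
    nlinarith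
  have hP : p = C (((PP w).leadingCoeff : ℝ) : ℂ) * ∏ i, (X - C (t i)) := by
    rw [hprod (fun z => X - C z), ← hlc]
    exact hsp.eq_prod_roots
  have hnpos : (0:ℝ) < (n:ℝ) := by rw [hn]; positivity
  set a : ℝ := -(PP w).nextCoeff / ((PP w).leadingCoeff * n) with ha
  have haeq : (n : ℂ) * (a : ℂ) = ∑ i, t i := by
    have h1 := hsp.nextCoeff_eq_neg_sum_roots_mul_leadingCoeff
    rw [hlc, hp, nextCoeff_map hinj] at h1
    rw [hsum, ha]
    have hcC : (((PP w).leadingCoeff : ℝ) : ℂ) ≠ 0 := by exact_mod_cast hc.ne'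
    have hnC : (n : ℂ) ≠ 0 := by exact_mod_cast hnpos.ne'
    have h2 : ((PP w).nextCoeff : ℂ) = -((PP w).leadingCoeff : ℂ) * p.roots.sum := h1
    push_cast
    rw [h2]
    field_simp
  refine ⟨(PP w).leadingCoeff, t, a, ⟨hM1, hc, ht, hP, haeq⟩, ⟨hM1, hc, ?_, ?_, ?_⟩⟩
  · intro i; rw [norm_neg]; exact ht i
  · unfold PS
    rw [Polynomial.map_mul, Polynomial.map_comp, ← hp, hP]
    simp only [map_C, Polynomial.map_neg, map_X, mul_comp, C_comp, Polynomial.prod_comp, sub_comp, X_comp]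
    have h1 : ∏ i, (-X - C (t i)) = (-1 : ℂ[X]) ^ n * ∏ i, (X - C (-t i)) := by
      have : ∀ i, (-X - C (t i) : ℂ[X]) = (-1) * (X - C (-t i)) := by
        intro i; rw [map_neg]; ring
      rw [Finset.prod_congr rfl fun i _ => this i, Finset.prod_mul_distrib]
      simp
    rw [h1]
    have h2 : (C (Complex.ofRealHom ((-1) ^ (w.length + 1))) : ℂ[X]) = (-1) ^ n := by
      rw [map_pow, map_neg, map_one, C_pow, C_neg, C_1, hn]
    rw [h2]
    have h3 : ((-1 : ℂ[X]) ^ n) * (-1) ^ n = 1 := by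
      rw [← mul_pow]; simp
    calc (-1 : ℂ[X]) ^ n * (C (((PP w).leadingCoeff : ℝ) : ℂ) * ((-1) ^ n * ∏ i, (X - C (-t i))))
        = ((-1 : ℂ[X]) ^ n * (-1) ^ n) * (C (((PP w).leadingCoeff : ℝ) : ℂ) *
            ∏ i, (X - C (-t i))) := by ring
      _ = _ := by rw [h3, one_mul]
  · rw [Complex.ofReal_neg, mul_neg, haeq, Finset.sum_neg_distrib]

end Pool.Agent.Lib.FenceAF
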