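import Pool.Agent.Lib.MP_7d55f0_co.AF.GpH
import Pool.Agent.Lib.MP_7d55f0_co.AF.CountB
import Pool.Agent.Lib.MP_7d55f0_co.AF.CountC
import Pool.Agent.Lib.MP_7d55f0_co.AF.MnA

set_option autoImplicit false

namespace Pool.Agent.Lib.FenceAF

open Polynomial Finset Real Pool.Agent.Lib.FenceGlue

theorem mnD_pow {x : ℝ} (hx : 1 ≤ x) {L : ℕ} (hL : 4 * x ≤ L) : (1 - 1 / x) ^ L ≤ 1 / 20 := by
  have hx0 : 0 < x := by linarith
  have h1 : 0 ≤ 1 - 1 / x := by
    have : 1 / x ≤ 1 := by rw [div_le_one hx0]; exact hx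
    linarith
  have h2 : (1 - 1 / x) ^ L ≤ Real.exp (-4) := by
    calc (1 - 1 / x) ^ L ≤ (Real.exp (-(1 / x))) ^ L :=
          pow_le_pow_left₀ h1 (Real.one_sub_le_exp_neg _) L
      _ = Real.exp (L * (-(1 / x))) := by rw [← Real.exp_nat_mul]
      _ ≤ Real.exp (-4) := by
          apply Real.exp_le_exp.2
          have : 4 ≤ (L : ℝ) / x := by rw [le_div_iff₀ hx0]; linarith
          have h3 : (L : ℝ) * (-(1 / x)) = -((L : ℝ) / x) := by ring
          rw [h3]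
          linarith
  have h4 : (20 : ℝ) ≤ Real.exp 4 := by
    have h5 : Real.exp 4 = (Real.exp 1) ^ 4 := by
      rw [← Real.exp_nat_mul]
      norm_num
    have h6 : (2.7 : ℝ) ≤ Real.exp 1 := by
      have := Real.exp_one_gt_d9
      linarith
    rw [h5]
    calc (20 : ℝ) ≤ 2.7 ^ 4 := by norm_num
      _ ≤ _ := pow_le_pow_left₀ (by norm_num) h6 4
  refine h2.trans ?_
  rw [Real.exp_neg, inv_eq_one_div]
  exact one_div_le_one_div_of_le (by norm_num) h4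

theorem mnD_gap {R : ℕ} (hR : 1 ≤ R) {P : ℝ[X]} {f : ℕ → ℕ} {n : ℕ} (h0 : P.eval 0 = 0)
    (hf : ∀ m : ℕ, P.eval ((m : ℝ) + 1) = (f m : ℝ))
    (hg : ∀ L m : ℕ, 7 * R * L ≤ n → (f (m + 2) : ℝ) * f m ≤
      (1 - 1 / ((m : ℝ) + 2 + R) ^ 6) ^ L * (f (m + 1) : ℝ) ^ 2)
    {Cn : ℕ} (hC : (21 * 2 ^ 14 : ℝ) ^ 6 ≤ Cn) (hn : 28 * Cn * (R + 1) ^ 140 ≤ n) :
    (∀ m : ℕ, P.eval (m : ℝ) * P.eval ((m : ℝ) + 2) ≤ P.eval ((m : ℝ) + 1) ^ 2) ∧
    (∀ m : ℕ, (m : ℝ) ≤ 20 * (2 ^ 14 * ((R : ℝ) + 1) ^ 7) →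
      20 * (P.eval (m : ℝ) * P.eval ((m : ℝ) + 2)) ≤ P.eval ((m : ℝ) + 1) ^ 2) := by
  have ev1 : ∀ m : ℕ, P.eval (((m + 1 : ℕ) : ℝ)) = (f m : ℝ) := by
    intro m
    rw [← hf m]
    push_cast
    rfl
  have ev2 : ∀ m : ℕ, P.eval (((m + 1 : ℕ) : ℝ) + 1) = (f (m + 1) : ℝ) := by
    intro m
    rw [← hf (m + 1)]
  have ev3 : ∀ m : ℕ, P.eval (((m + 1 : ℕ) : ℝ) + 2) = (f (m + 2) : ℝ) := by
    intro m
    rw [← hf (m + 2)]
    congr 1
    push_cast
    ring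
  constructor
  · intro m
    cases m with
    | zero =>
      rw [Nat.cast_zero, h0, zero_mul]
      positivity
    | succ m =>
      rw [ev1, ev2, ev3]
      have := hg 0 m (by omega)
      rw [pow_zero, one_mul] at this
      linarith [mul_comm (f m : ℝ) (f (m + 2))]
  · intro m hm
    cases m with
    | zero =>
      rw [Nat.cast_zero, h0, zero_mul, mul_zero]
      positivity
    | succ m =>
      rw [ev1, ev2, ev3]
      have hR1 : (1 : ℝ) ≤ R := by exact_mod_cast hR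
      obtain ⟨L, hL⟩ : ∃ L : ℕ, L = 4 * (Cn * (R + 1) ^ 42) := ⟨_, rfl⟩
      have hLn : 7 * R * L ≤ n := by
        refine le_trans ?_ hn
        calc 7 * R * L = 28 * Cn * (R * (R + 1) ^ 42) := by rw [hL]; ring
          _ ≤ 28 * Cn * (R + 1) ^ 140 := by
            apply Nat.mul_le_mul_left
            calc R * (R + 1) ^ 42 ≤ (R + 1) * (R + 1) ^ 42 :=
                  Nat.mul_le_mul_right _ (by omega)
              _ = (R + 1) ^ 43 := by ring
              _ ≤ (R + 1) ^ 140 := Nat.pow_le_pow_right (by omega) (by norm_num)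
      have hgg := hg L m hLn
      clear hn hLn
      have hx : ((m : ℝ) + 2 + R) ≤ 21 * 2 ^ 14 * ((R : ℝ) + 1) ^ 7 := by
        push_cast at hm
        have h7 : (R : ℝ) + 1 ≤ ((R : ℝ) + 1) ^ 7 := by
          calc (R : ℝ) + 1 = ((R : ℝ) + 1) ^ 1 := by ring
            _ ≤ ((R : ℝ) + 1) ^ 7 := pow_le_pow_right₀ (by linarith) (by norm_num)
        have h8 : (0 : ℝ) ≤ ((R : ℝ) + 1) ^ 7 := by positivity
        generalize ((R : ℝ) + 1) ^ 7 = X at hm h7 h8 ⊢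
        norm_num at hm ⊢
        linarith
      have hx0 : (1 : ℝ) ≤ (m : ℝ) + 2 + R := by
        have : (0 : ℝ) ≤ m := Nat.cast_nonneg m
        linarith
      have hpw : (1 - 1 / ((m : ℝ) + 2 + R) ^ 6) ^ L ≤ 1 / 20 := by
        apply mnD_pow (one_le_pow₀ hx0)
        rw [hL]
        push_cast
        have : ((m : ℝ) + 2 + R) ^ 6 ≤ (21 * 2 ^ 14 * ((R : ℝ) + 1) ^ 7) ^ 6 :=
          pow_le_pow_left₀ (by linarith) hx 6
        have h42 : (0 : ℝ) ≤ ((R : ℝ) + 1) ^ 42 := by positivity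
        calc 4 * ((m : ℝ) + 2 + R) ^ 6 ≤ 4 * (21 * 2 ^ 14 * ((R : ℝ) + 1) ^ 7) ^ 6 := by linarith
          _ = 4 * ((21 * 2 ^ 14) ^ 6 * ((R : ℝ) + 1) ^ 42) := by ring
          _ ≤ 4 * ((Cn : ℝ) * ((R : ℝ) + 1) ^ 42) := by
            have := mul_le_mul_of_nonneg_right hC h42
            linarith
      clear hL
      have h2 : (0 : ℝ) ≤ (f (m + 1) : ℝ) ^ 2 := sq_nonneg _
      have h3 := mul_le_mul_of_nonneg_right hpw h2
      have h4 := hgg.trans h3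
      rw [mul_comm (f m : ℝ)]
      linarith

theorem mnD_rc_pos : ∀ (w : List Bool) (A B : ℕ), 0 < rc w A B
  | [], _, _ => by simp [rc]
  | true :: w, A, B => by
    simp only [rc]
    apply sum_pos (fun p _ => mnD_rc_pos w _ _)
    exact ⟨(0, B), by simp⟩
  | false :: w, A, B => by
    simp only [rc]
    apply sum_pos (fun p _ => mnD_rc_pos w _ _)
    exact ⟨(0, A), by simp⟩

theorem mnD_Om_pos (w : List Bool) (m : ℕ) : 0 < Om w m := by
  unfold Om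
  apply sum_pos (fun p _ => mnD_rc_pos w _ _)
  exact ⟨(0, m), by simp⟩

theorem mnD_PS_eval (w : List Bool) (m : ℕ) : (PS w).eval ((m : ℝ) + 1) = (Os w m : ℝ) := by
  unfold PS
  rw [Polynomial.eval_mul, Polynomial.eval_C, Polynomial.eval_comp, Polynomial.eval_neg,
    Polynomial.eval_X, PP_neg, ← mul_assoc, ← pow_add, ← two_mul, pow_mul]
  norm_num

theorem mnD_PS_zero (w : List Bool) : (PS w).eval 0 = 0 := by
  unfold PS
  rw [Polynomial.eval_mul, Polynomial.eval_C, Polynomial.eval_comp, Polynomial.eval_neg,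
    Polynomial.eval_X, neg_zero, PP_zero, mul_zero]

theorem vals_weak : ∃ K : ℕ, ∀ (R : ℕ) (w : List Bool), 1 ≤ R → Short R w →
    K * (R + 1) ^ 140 ≤ w.length →
    Vals (PP w) (2 ^ 14 * ((R : ℝ) + 1) ^ 7) 1 ∧
    Vals (PS w) (2 ^ 14 * ((R : ℝ) + 1) ^ 7) (longest w) := by
  obtain ⟨Cn, hC⟩ : ∃ Cn : ℕ, (21 * 2 ^ 14 : ℝ) ^ 6 ≤ Cn := exists_nat_ge _
  refine ⟨28 * Cn, ?_⟩
  intro R w hR hw hn
  have hR1 : (1 : ℝ) ≤ R := by exact_mod_cast hR
  have h7 : (R : ℝ) + 1 ≤ ((R : ℝ) + 1) ^ 7 := by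
    calc (R : ℝ) + 1 = ((R : ℝ) + 1) ^ 1 := by ring
      _ ≤ ((R : ℝ) + 1) ^ 7 := pow_le_pow_right₀ (by linarith) (by norm_num)
  obtain ⟨l1, l2, l3, l4⟩ := longest_spec hR w hw
  constructor
  · obtain ⟨g1, g2⟩ := mnD_gap hR (PP_zero w) (PP_eval w)
      (fun L m h => Om_gap hR w hw L m h) hC hn
    refine ⟨le_rfl, ?_, ?_, ?_, g1, g2⟩
    · push_cast
      nlinarith
    · intro m hm
      obtain rfl : m = 0 := by omega
      rw [Nat.cast_zero]
      exact PP_zero w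
    · intro m hm
      obtain ⟨k, rfl⟩ : ∃ k, m = k + 1 := ⟨m - 1, by omega⟩
      have := PP_eval w k
      push_cast
      rw [this]
      exact_mod_cast mnD_Om_pos w k
  · obtain ⟨g1, g2⟩ := mnD_gap hR (mnD_PS_zero w) (mnD_PS_eval w)
      (fun L m h => Os_gap hR w hw L m h) hC hn
    refine ⟨l1, ?_, ?_, ?_, g1, g2⟩
    · have : (longest w : ℝ) ≤ R + 1 := by exact_mod_cast l2
      nlinarith
    · intro m hm
      cases m with
      | zero =>
        rw [Nat.cast_zero]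
        exact mnD_PS_zero w
      | succ k =>
        have := mnD_PS_eval w k
        push_cast
        rw [this, l3 k hm]
        simp
    · intro m hm
      obtain ⟨k, rfl⟩ : ∃ k, m = k + 1 := ⟨m - 1, by omega⟩
      have := mnD_PS_eval w k
      push_cast
      rw [this]
      exact_mod_cast l4 k hm

end Pool.Agent.Lib.FenceAF
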