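import Mathlib

set_option autoImplicit false

namespace Pool.Agent.Lib.FenceAF

open Polynomial Finset Real

/-- counting sign changes -/
theorem count_roots (q : ℝ[X]) (d : ℕ) (z : ℕ → ℝ) (hz : ∀ i, i < d → z i < z (i + 1))
    (hs : ∀ i, i < d → q.eval (z i) * q.eval (z (i + 1)) < 0) (hd : q.natDegree ≤ d) :
    q.roots.card = q.natDegree := by
  apply le_antisymm (Polynomial.card_roots' q)
  rcases Nat.eq_zero_or_pos d with h0 | hdpos
  · omega
  have hq : q ≠ 0 := by
    rintro rfl
    have := hs 0 hdpos
    simp at this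
  -- zeros between the points
  have hy : ∀ i, i < d → ∃ y, z i < y ∧ y < z (i + 1) ∧ q.eval y = 0 := by
    intro i hi
    have hc : ContinuousOn (fun x => q.eval x) (Set.Icc (z i) (z (i + 1))) :=
      q.continuous.continuousOn
    have h1 := hs i hi
    rcases mul_neg_iff.mp h1 with ⟨h2, h3⟩ | ⟨h2, h3⟩
    · obtain ⟨y, hy, hy0⟩ := intermediate_value_Ioo' (hz i hi).le hc ⟨h3, h2⟩
      exact ⟨y, hy.1, hy.2, hy0⟩
    · obtain ⟨y, hy, hy0⟩ := intermediate_value_Ioo (hz i hi).le hc ⟨h2, h3⟩
      exact ⟨y, hy.1, hy.2, hy0⟩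
  choose! y hy1 hy2 hy3 using hy
  have hmono : ∀ j, ∀ i, i < j → j < d → y i < y j := by
    intro j
    induction j with
    | zero => intro i hi; omega
    | succ j ih =>
      intro i hi hj
      have h1 : y j < y (j + 1) := lt_trans (hy2 j (by omega)) (hy1 (j + 1) hj)
      rcases Nat.lt_succ_iff_lt_or_eq.mp hi with h | h
      · exact lt_trans (ih i h (by omega)) h1
      · rw [h]; exact h1
  have hinj : Set.InjOn y (Finset.range d : Set ℕ) := by
    intro i hi j hj hij
    have hi' : i < d := by simpa using hi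
    have hj' : j < d := by simpa using hj
    rcases lt_trichotomy i j with h | h | h
    · exact absurd hij (hmono j i h hj').ne
    · exact h
    · exact absurd hij.symm (hmono i j h hi').ne
  have hsub : (Finset.range d).image y ⊆ q.roots.toFinset := by
    intro x hx
    obtain ⟨i, hi, rfl⟩ := Finset.mem_image.mp hx
    rw [Multiset.mem_toFinset, Polynomial.mem_roots hq]
    exact hy3 i (Finset.mem_range.mp hi)
  have h1 := Finset.card_le_card hsub
  rw [Finset.card_image_of_injOn hinj, Finset.card_range] at h1
  have h2 := Multiset.toFinset_card_le q.roots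
  omega

end Pool.Agent.Lib.FenceAF
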