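import Pool.Agent.Lib.MP_7d55f0_co.AF.Side
import Pool.Agent.Lib.MP_7d55f0_co.AF.MnB
import Pool.Agent.Lib.MP_7d55f0_co.AF.MnC
import Pool.Agent.Lib.MP_7d55f0_co.AF.MnD
import Pool.Agent.Lib.MP_7d55f0_co.AF.MnE

set_option autoImplicit false

namespace Pool.Agent.Lib.FenceAF

open Polynomial Finset Real Pool.Agent.Lib.FenceGlue

private theorem mnF_mean {P : ℝ[X]} {n : ℕ} {M c : ℝ} {t : Fin n → ℂ} {a : ℝ}
    (h : Dat P n M c t a) (hn : 1 ≤ n) : |a| ≤ M := by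
  have h1 : (n : ℝ) * |a| ≤ n * M := by
    have h2 : ‖(n : ℂ) * (a : ℂ)‖ ≤ ∑ i : Fin n, M := by
      rw [h.ha]
      exact (norm_sum_le _ _).trans (Finset.sum_le_sum fun i _ => h.ht i)
    rw [norm_mul, Complex.norm_natCast, Complex.norm_real, Real.norm_eq_abs] at h2
    simpa using h2
  have h3 : (0 : ℝ) < n := by exact_mod_cast hn
  exact le_of_mul_le_mul_left h1 h3

private theorem mnF_sgn {A : ℕ} {p q : ℝ} (hA : 0 < (-1 : ℝ) ^ A * p)
    (hB : 0 < (-1 : ℝ) ^ (A + 1) * q) : p * q < 0 := by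
  have h1 : 0 < ((-1 : ℝ) ^ A * p) * ((-1 : ℝ) ^ (A + 1) * q) := mul_pos hA hB
  have h2 : ((-1 : ℝ) ^ A * p) * ((-1 : ℝ) ^ (A + 1) * q) = -(((-1 : ℝ) ^ A) ^ 2 * (p * q)) := by
    rw [pow_succ]
    ring
  rw [h2, ← pow_mul, mul_comm A 2, pow_mul, neg_one_sq, one_pow, one_mul] at h1
  linarith

private theorem mnF_par {m k : ℕ} {p : ℝ} (h : (m + k) % 2 = 0) (hp : 0 < (-1 : ℝ) ^ m * p) :
    0 < (-1 : ℝ) ^ k * p := by
  rcases Nat.even_or_odd m with hm | hm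
  · have hk : Even k := by
      rw [Nat.even_iff] at *
      omega
    rw [hm.neg_one_pow] at hp
    rwa [hk.neg_one_pow]
  · have hk : Odd k := by
      rw [Nat.odd_iff] at *
      omega
    rw [hm.neg_one_pow] at hp
    rwa [hk.neg_one_pow]

/-- **all fences with short runs** -/
theorem short_main : ∃ K : ℕ, ∀ (R : ℕ) (w : List Bool), 1 ≤ R → Short R w →
    K * (R + 1) ^ 140 ≤ w.length →
    RR (w.length + 1) (fun i => w.getD i false) := by
  obtain ⟨K0, hK0⟩ := side_points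
  obtain ⟨K1, hK1⟩ := vals_weak
  refine ⟨K0 * 2 ^ 280 + K1 + 2 ^ 20, ?_⟩
  intro R w hR hw hl h hh
  rw [glc_Om] at hh
  have hl1 : K1 * (R + 1) ^ 140 ≤ w.length := by
    refine le_trans (Nat.mul_le_mul_right _ ?_) hl
    omega
  have hl0 : K0 * 2 ^ 280 * (R + 1) ^ 140 ≤ w.length := by
    refine le_trans (Nat.mul_le_mul_right _ ?_) hl
    omega
  have hl2 : 2 ^ 20 * (R + 1) ^ 140 ≤ w.length := by
    refine le_trans (Nat.mul_le_mul_right _ ?_) hl
    omega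
  obtain ⟨n, hn⟩ : ∃ n : ℕ, n = w.length + 1 := ⟨_, rfl⟩
  obtain ⟨M, hM⟩ : ∃ M : ℝ, M = 2 ^ 14 * ((R : ℝ) + 1) ^ 7 := ⟨_, rfl⟩
  have hdat : ∃ (c : ℝ) (t : Fin n → ℂ) (a : ℝ), Dat (PP w) n M c t a ∧
      Dat (PS w) n M c (fun i => - t i) (-a) := by
    subst hn
    subst hM
    exact dat_weak hR w hw
  obtain ⟨c, t, a, hdw, hds⟩ := hdat
  obtain ⟨hvw, hvs⟩ := hK1 R w hR hw hl1
  rw [← hM] at hvw hvs
  have hn1 : 1 ≤ n := by omega
  have hKM : (K0 : ℝ) * M ^ 20 ≤ n := by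
    have h1 : ((K0 * 2 ^ 280 * (R + 1) ^ 140 : ℕ) : ℝ) ≤ ((w.length : ℕ) : ℝ) := by
      exact_mod_cast hl0
    have h2 : (K0 : ℝ) * M ^ 20 = ((K0 * 2 ^ 280 * (R + 1) ^ 140 : ℕ) : ℝ) := by
      rw [hM]
      push_cast
      generalize ((R : ℝ) + 1) = y
      rw [mul_pow, ← pow_mul, ← pow_mul, ← mul_assoc]
    rw [h2]
    refine h1.trans ?_
    rw [hn]
    push_cast
    linarith
  obtain ⟨rW, hW1, hW2⟩ := hK0 n M c t (PP w) a 1 hdw hvw hKM
  obtain ⟨rS, hS1, hS2⟩ := hK0 n M c (fun i => -t i) (PS w) (-a) (longest w) hds hvs hKM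
  have ha : |a| ≤ M := mnF_mean hdw hn1
  have hMn : 8 * M ≤ n := by
    have h1 : ((2 ^ 20 * (R + 1) ^ 140 : ℕ) : ℝ) ≤ ((w.length : ℕ) : ℝ) := by
      exact_mod_cast hl2
    have h2 : 8 * M ≤ ((2 ^ 20 * (R + 1) ^ 140 : ℕ) : ℝ) := by
      rw [hM]
      push_cast
      have h3 : ((R : ℝ) + 1) ^ 7 ≤ ((R : ℝ) + 1) ^ 140 :=
        pow_le_pow_right₀ (by linarith [Nat.cast_nonneg (α := ℝ) R]) (by norm_num)
      have h4 : 0 < ((R : ℝ) + 1) ^ 7 := by positivity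
      generalize ((R : ℝ) + 1) ^ 140 = u at h3 ⊢
      generalize ((R : ℝ) + 1) ^ 7 = v at h3 h4 ⊢
      norm_num
      linarith
    refine h2.trans (h1.trans ?_)
    rw [hn]
    push_cast
    linarith
  have hM1 : 1 ≤ M := hdw.hM
  obtain ⟨a1, a2⟩ := abs_le.1 ha
  have hb0 : (0 : ℝ) ≤ ((n : ℝ) + 1) / 2 + a := by linarith
  have hb1 : (0 : ℝ) ≤ ((n : ℝ) + 1) / 2 + -a := by linarith
  obtain ⟨Kw, hKw⟩ : ∃ k : ℕ, k = ⌊((n : ℝ) + 1) / 2 + a⌋₊ := ⟨_, rfl⟩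
  obtain ⟨Ks, hKs⟩ : ∃ k : ℕ, k = ⌊((n : ℝ) + 1) / 2 + -a⌋₊ := ⟨_, rfl⟩
  have w1 : (Kw : ℝ) ≤ ((n : ℝ) + 1) / 2 + a := by rw [hKw]; exact Nat.floor_le hb0
  have w2 : ((n : ℝ) + 1) / 2 + a < Kw + 1 := by rw [hKw]; exact Nat.lt_floor_add_one _
  have s1 : (Ks : ℝ) ≤ ((n : ℝ) + 1) / 2 + -a := by rw [hKs]; exact Nat.floor_le hb1
  have s2 : ((n : ℝ) + 1) / 2 + -a < Ks + 1 := by rw [hKs]; exact Nat.lt_floor_add_one _
  have e1 : Kw + Ks ≤ n + 1 := by
    have : ((Kw + Ks : ℕ) : ℝ) ≤ ((n + 1 : ℕ) : ℝ) := by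
      push_cast
      linarith
    exact_mod_cast this
  have e2 : n ≤ Kw + Ks := by
    have : ((n + 1 : ℕ) : ℝ) < ((Kw + Ks + 2 : ℕ) : ℝ) := by
      push_cast
      linarith
    have h3 : n + 1 < Kw + Ks + 2 := by exact_mod_cast this
    omega
  obtain ⟨l, hl'⟩ : ∃ l : ℕ, l = longest w := ⟨_, rfl⟩
  rw [← hl'] at hvs hS1 hS2
  have hlM : (l : ℝ) ≤ M := hvs.lM
  have hl1' : 1 ≤ l := hvs.l1
  have e3 : l ≤ Ks := by
    have : (l : ℝ) < ((Ks + 1 : ℕ) : ℝ) := by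
      push_cast
      linarith
    have h3 : l < Ks + 1 := by exact_mod_cast this
    omega
  have e4 : 2 ≤ Kw := by
    have : (2 : ℝ) < ((Kw + 1 : ℕ) : ℝ) := by
      push_cast
      linarith
    have h3 : 2 < Kw + 1 := by exact_mod_cast this
    omega
  -- signs
  obtain ⟨q, hq⟩ : ∃ q : ℝ[X], q = h.map (Int.castRingHom ℝ) := ⟨_, rfl⟩
  have hin : ∀ k : ℕ, 1 ≤ k → k ≤ Kw → 0 < rW k ∧ rW k < 1 ∧
      0 < (-1 : ℝ) ^ (k + 1) * q.eval (-(rW k)) := by
    intro k hk1 hk2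
    have hk3 : (k : ℝ) ≤ ((n : ℝ) + 1) / 2 + a := by
      have : (k : ℝ) ≤ Kw := by exact_mod_cast hk2
      linarith
    obtain ⟨r0, r1, r2⟩ := hW1 k hk1 hk3
    refine ⟨r0, r1, ?_⟩
    have h1 := h_inside (w := w) (h := h) hh (rW k) r0 r1
    rw [← hq] at h1
    have h2 : 0 < (1 + rW k) ^ (w.length + 2) := by positivity
    have h3 : 0 < (-1 : ℝ) ^ k * ((1 + rW k) ^ (w.length + 2) * AS (PP w) (rW k)) := by
      have := mul_pos h2 r2
      linarith [mul_comm ((-1 : ℝ) ^ k) ((1 + rW k) ^ (w.length + 2) * AS (PP w) (rW k)),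
        mul_assoc ((1 + rW k) ^ (w.length + 2)) (AS (PP w) (rW k)) ((-1 : ℝ) ^ k),
        mul_comm (AS (PP w) (rW k)) ((-1 : ℝ) ^ k)]
    rw [← h1] at h3
    have h4 : (-1 : ℝ) ^ k * (-(rW k) * q.eval (-(rW k))) =
        rW k * ((-1 : ℝ) ^ (k + 1) * q.eval (-(rW k))) := by
      rw [pow_succ]
      ring
    rw [h4] at h3
    exact (mul_pos_iff_of_pos_left r0).1 h3
  have hout : ∀ k : ℕ, l ≤ k → k ≤ Ks → 0 < rS k ∧ rS k < 1 ∧
      0 < (-1 : ℝ) ^ (n + k) * q.eval (-(1 / rS k)) := by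
    intro k hk1 hk2
    have hk3 : (k : ℝ) ≤ ((n : ℝ) + 1) / 2 + -a := by
      have : (k : ℝ) ≤ Ks := by exact_mod_cast hk2
      linarith
    obtain ⟨r0, r1, r2⟩ := hS1 k hk1 hk3
    refine ⟨r0, r1, ?_⟩
    have h1 := h_outside (w := w) (h := h) hh (rS k) r0 r1
    rw [← hq] at h1
    have h2 : 0 < (1 + rS k) ^ (w.length + 2) := by positivity
    have h3 : 0 < (-1 : ℝ) ^ k * ((1 + rS k) ^ (w.length + 2) * AS (PS w) (rS k)) := by
      have := mul_pos h2 r2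
      linarith [mul_comm ((-1 : ℝ) ^ k) ((1 + rS k) ^ (w.length + 2) * AS (PS w) (rS k)),
        mul_assoc ((1 + rS k) ^ (w.length + 2)) (AS (PS w) (rS k)) ((-1 : ℝ) ^ k),
        mul_comm (AS (PS w) (rS k)) ((-1 : ℝ) ^ k)]
    rw [← h1, ← hn] at h3
    have h4 : (-1 : ℝ) ^ k * ((-(rS k)) ^ n * q.eval (-(1 / rS k))) =
        (rS k) ^ n * ((-1 : ℝ) ^ (n + k) * q.eval (-(1 / rS k))) := by
      rw [neg_pow (rS k) n, pow_add]
      ring
    rw [h4] at h3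
    exact (mul_pos_iff_of_pos_left (pow_pos r0 n)).1 h3
  obtain ⟨z, hz⟩ : ∃ z : ℕ → ℝ, z = fun i => if i ≤ Ks - l then -(1 / rS (l + i))
    else -(rW (n - l + 1 - i)) := ⟨_, rfl⟩
  have hdeg : h.natDegree + l ≤ n := by
    have := h_degree (w := w) (h := h) hR hw hh
    rw [← hl', ← hn] at this
    exact this
  have hzs : ∀ i, i ≤ n - l → 0 < (-1 : ℝ) ^ (n + l + i) * q.eval (z i) := by
    intro i hi
    rw [hz]
    simp only
    split_ifs with hc
    · have := (hout (l + i) (by omega) (by omega)).2.2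
      rwa [← add_assoc] at this
    · have := (hin (n - l + 1 - i) (by omega) (by omega)).2.2
      exact mnF_par (by omega) this
  have hzm : ∀ i, i < n - l → z i < z (i + 1) := by
    intro i hi
    rw [hz]
    simp only
    by_cases hc1 : i + 1 ≤ Ks - l
    · rw [if_pos (by omega), if_pos hc1]
      have h1 := hout (l + i) (by omega) (by omega)
      have h2 := hS2 (l + i) (by omega) (by
        have : ((l + i + 1 : ℕ) : ℝ) ≤ Ks := by
          have h5 : l + i + 1 ≤ Ks := by omega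
          exact_mod_cast h5
        push_cast at this ⊢
        linarith)
      rw [← add_assoc]
      apply neg_lt_neg
      exact one_div_lt_one_div_of_lt h1.1 h2
    · by_cases hc2 : i ≤ Ks - l
      · rw [if_pos hc2, if_neg hc1]
        have h1 := hout (l + i) (by omega) (by omega)
        have h2 := hin (n - l + 1 - (i + 1)) (by omega) (by omega)
        have h3 : 1 < 1 / rS (l + i) := by
          rw [lt_div_iff₀ h1.1]
          linarith [h1.2.1]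
        linarith [h2.2.1]
      · rw [if_neg hc2, if_neg hc1]
        obtain ⟨k, hk⟩ : ∃ k : ℕ, k = n - l - i := ⟨_, rfl⟩
        rw [show n - l + 1 - i = k + 1 by omega, show n - l + 1 - (i + 1) = k by omega]
        apply neg_lt_neg
        apply hW2 k (by omega)
        have : ((k + 1 : ℕ) : ℝ) ≤ Kw := by
          have h5 : k + 1 ≤ Kw := by omega
          exact_mod_cast h5
        push_cast at this
        linarith
  have hnat : q.natDegree = h.natDegree := by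
    rw [hq]
    exact natDegree_map_eq_of_injective (Int.castRingHom ℝ).injective_int _
  have hfin := count_roots q (n - l) z hzm (fun i hi => by
    have h1 := hzs i hi.le
    have h2 := hzs (i + 1) hi
    rw [← add_assoc] at h2
    exact mnF_sgn h1 h2) (by rw [hnat]; omega)
  rw [← hq, hfin, hnat]

end Pool.Agent.Lib.FenceAF
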