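import Pool.Agent.Lib.MP_7d55f0_co.AF.MnF

set_option autoImplicit false

namespace Pool.Agent.Lib.FenceAF

open Finset Pool.Agent.Lib.FenceGlue

/-- the word of the first `L` steps of a pattern -/
def wd (L : ℕ) (s : ℕ → Bool) : List Bool := (List.range L).map s

theorem wd_length (L : ℕ) (s : ℕ → Bool) : (wd L s).length = L := by
  simp [wd]

theorem wd_getD (L : ℕ) (s : ℕ → Bool) (i : ℕ) (hi : i < L) : (wd L s).getD i false = s i := by
  simp [wd, List.getD_eq_getElem?_getD, hi]

theorem wd_short (L R : ℕ) (s : ℕ → Bool)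
    (h : ∀ i, i + R < L → ∃ j, j ≤ R ∧ s (i + j) ≠ s i) : Short R (wd L s) := by
  intro c u v a he
  by_contra hcon
  push Not at hcon
  have hlen : L = u.length + a + v.length := by
    have := congrArg List.length he
    rw [wd_length, List.length_append, List.length_append, List.length_replicate] at this
    exact this
  have hc : ∀ j, j < a → s (u.length + j) = c := by
    intro j hj
    have h1 := wd_getD L s (u.length + j) (by omega)
    rw [he] at h1
    rw [← h1, List.append_assoc, List.getD_append_right _ _ _ _ (by omega),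
      Nat.add_sub_cancel_left, List.getD_append _ _ _ _ (by simpa using hj)]
    simp [List.getD_eq_getElem?_getD, hj]
  obtain ⟨j, hj, hne⟩ := h u.length (by omega)
  apply hne
  rw [hc j (by omega)]
  have := hc 0 (by omega)
  rw [add_zero] at this
  exact this.symm

theorem short_pattern : ∃ K : ℕ, ∀ (n R : ℕ) (s : ℕ → Bool), K * (R + 1) ^ 140 ≤ n →
    (∀ i, i + R + 1 < n → ∃ j, j ≤ R ∧ s (i + j) ≠ s i) → RR n s := by
  obtain ⟨K, hK⟩ := short_main
  refine ⟨K + 2, ?_⟩
  intro n R s hn hs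
  have h1 : 1 ≤ (R + 1) ^ 140 := Nat.one_le_pow _ _ (by omega)
  have h2 : K * (R + 1) ^ 140 + 2 * (R + 1) ^ 140 ≤ n := by
    rw [← add_mul]
    exact hn
  have hR : 1 ≤ R := by
    by_contra hcon
    have hR0 : R = 0 := by omega
    subst hR0
    obtain ⟨j, hj, hne⟩ := hs 0 (by omega)
    apply hne
    rw [show j = 0 by omega]
  obtain ⟨L, rfl⟩ : ∃ L, n = L + 1 := ⟨n - 1, by omega⟩
  have h3 : Short R (wd L s) := wd_short L R s fun i hi => hs i (by omega)
  have h4 := hK R (wd L s) hR h3 (by rw [wd_length]; omega)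
  rw [wd_length] at h4
  exact RR_congr (fun i hi => wd_getD L s i (by omega)) h4

/-- extension of a finite pattern -/
def ex {L : ℕ} (s : Fin L → Bool) : ℕ → Bool := fun i => if h : i < L then s ⟨i, h⟩ else false

theorem ex_apply {L : ℕ} (s : Fin L → Bool) (i : ℕ) (h : i < L) : ex s i = s ⟨i, h⟩ := by
  unfold ex
  rw [dif_pos h]

theorem card_run (L R i : ℕ) (hi : i + R < L) :
    ((univ : Finset (Fin L → Bool)).filter
      (fun s => ∀ j, j ≤ R → ex s (i + j) = ex s i)).card ≤ 2 ^ (L - R) := by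
  have h1 : (univ : Finset (Fin (L - R) → Bool)).card = 2 ^ (L - R) := by
    simp
  rw [← h1]
  apply Finset.card_le_card_of_injOn
    (fun s => fun k : Fin (L - R) => if k.val ≤ i then ex s k.val else ex s (k.val + R))
  · intro s _
    simp
  · intro s hs t ht hst
    rw [coe_filter] at hs ht
    have hs' := hs.2
    have ht' := ht.2
    have key : ∀ x, x < L → ex s x = ex t x := by
      intro x hx
      have hlow : ∀ x, x ≤ i → ex s x = ex t x := by
        intro x hx
        have := congrFun hst ⟨x, by omega⟩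
        simpa [hx] using this
      by_cases h2 : x ≤ i
      · exact hlow x h2
      · by_cases h3 : x ≤ i + R
        · obtain ⟨j, rfl⟩ : ∃ j, x = i + j := ⟨x - i, by omega⟩
          rw [hs' j (by omega), ht' j (by omega)]
          exact hlow i le_rfl
        · have := congrFun hst ⟨x - R, by omega⟩
          have h4 : ¬ (x - R ≤ i) := by omega
          simpa [h4, show x - R + R = x by omega] using this
    funext x
    have := key x.val x.isLt
    rw [ex_apply _ _ x.isLt, ex_apply _ _ x.isLt] at this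
    exact this

theorem card_bad (K : ℕ) (hK : ∀ (n R : ℕ) (s : ℕ → Bool), K * (R + 1) ^ 140 ≤ n →
    (∀ i, i + R + 1 < n → ∃ j, j ≤ R ∧ s (i + j) ≠ s i) → RR n s) (L R : ℕ)
    (h : K * (R + 1) ^ 140 ≤ L + 1) :
    (Nat.card {s : Fin L → Bool // ¬ RR (L + 1) (ex s)} : ℝ) / 2 ^ L ≤ (L : ℝ) / 2 ^ R := by
  classical
  have h0 : Nat.card {s : Fin L → Bool // ¬ RR (L + 1) (ex s)} =
      ((univ : Finset (Fin L → Bool)).filter (fun s => ¬ RR (L + 1) (ex s))).card := by
    rw [Nat.card_eq_fintype_card, Fintype.card_subtype]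
  have h1 : ((univ : Finset (Fin L → Bool)).filter (fun s => ¬ RR (L + 1) (ex s))) ⊆
      (range (L - R)).biUnion (fun i => (univ : Finset (Fin L → Bool)).filter
        (fun s => ∀ j, j ≤ R → ex s (i + j) = ex s i)) := by
    intro s hs
    rw [mem_filter] at hs
    rw [mem_biUnion]
    by_contra hcon
    push Not at hcon
    apply hs.2
    apply hK (L + 1) R (ex s) h
    intro i hi
    have h2 := hcon i (by rw [mem_range]; omega)
    rw [mem_filter] at h2
    push Not at h2
    exact h2 (mem_univ _)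
  have h2 : ((univ : Finset (Fin L → Bool)).filter (fun s => ¬ RR (L + 1) (ex s))).card ≤
      (L - R) * 2 ^ (L - R) := by
    refine (card_le_card h1).trans ?_
    refine (card_biUnion_le).trans ?_
    refine (Finset.sum_le_sum (g := fun _ => 2 ^ (L - R)) ?_).trans ?_
    · intro i hi
      rw [mem_range] at hi
      exact card_run L R i (by omega)
    · simp
  rw [h0, div_le_div_iff₀ (by positivity) (by positivity)]
  have h3 : (L - R) * 2 ^ (L - R) * 2 ^ R ≤ L * 2 ^ L := by
    rcases le_or_gt R L with h4 | h4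
    · rw [mul_assoc, ← pow_add, Nat.sub_add_cancel h4]
      exact Nat.mul_le_mul_right _ (by omega)
    · rw [Nat.sub_eq_zero_of_le h4.le, zero_mul, zero_mul]
      exact Nat.zero_le _
  have h5 := (Nat.mul_le_mul_right (2 ^ R) h2).trans h3
  exact_mod_cast h5

theorem almost_all : Filter.Tendsto
    (fun L : ℕ => (Nat.card {s : Fin L → Bool // ¬ RR (L + 1) (ex s)} : ℝ) / 2 ^ L)
    Filter.atTop (nhds 0) := by
  obtain ⟨K', hK'⟩ := short_pattern
  obtain ⟨K, hK1, hK⟩ : ∃ K : ℕ, 1 ≤ K ∧ ∀ (n R : ℕ) (s : ℕ → Bool), K * (R + 1) ^ 140 ≤ n →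
      (∀ i, i + R + 1 < n → ∃ j, j ≤ R ∧ s (i + j) ≠ s i) → RR n s := by
    refine ⟨K' + 1, by omega, fun n R s hn hs => hK' n R s ?_ hs⟩
    exact le_trans (Nat.mul_le_mul_right _ (by omega)) hn
  have hlim : Filter.Tendsto (fun R : ℕ => (K : ℝ) * ((R : ℝ) + 2) ^ 140 / 2 ^ R) Filter.atTop
      (nhds 0) := by
    have h1 := tendsto_pow_const_div_const_pow_of_one_lt 140 (r := 2) (by norm_num)
    have h2 : Filter.Tendsto (fun R : ℕ => (((R + 2 : ℕ) : ℝ)) ^ 140 / 2 ^ (R + 2)) Filter.atTop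
        (nhds 0) := h1.comp (Filter.tendsto_add_atTop_nat 2)
    have h3 := h2.const_mul ((K : ℝ) * 4)
    rw [mul_zero] at h3
    refine h3.congr fun R => ?_
    push_cast
    rw [pow_add]
    generalize ((R : ℝ) + 2) ^ 140 = y
    field_simp
    ring
  rw [Metric.tendsto_atTop] at hlim ⊢
  intro ε hε
  obtain ⟨R0, hR0⟩ := hlim ε hε
  refine ⟨K * (R0 + 1) ^ 140, fun L hL => ?_⟩
  obtain ⟨R, hR1, hR2, hR3⟩ : ∃ R, R0 ≤ R ∧ K * (R + 1) ^ 140 ≤ L ∧ L < K * (R + 1 + 1) ^ 140 := by
    have hex : ∃ R, L < K * (R + 1 + 1) ^ 140 := by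
      refine ⟨L, ?_⟩
      have h1 : L + 1 + 1 ≤ (L + 1 + 1) ^ 140 := Nat.le_self_pow (by norm_num) _
      calc L < 1 * (L + 1 + 1) := by omega
        _ ≤ K * (L + 1 + 1) ^ 140 := Nat.mul_le_mul hK1 h1
    classical
    have hf := Nat.find_spec hex
    have hmin := fun m (hm : m < Nat.find hex) => Nat.find_min hex hm
    generalize Nat.find hex = R at hf hmin
    have hge : R0 ≤ R := by
      by_contra hcon
      push Not at hcon
      have h1 : (R + 1 + 1) ^ 140 ≤ (R0 + 1) ^ 140 := Nat.pow_le_pow_left (by omega) _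
      have h2 := Nat.mul_le_mul_left K h1
      omega
    refine ⟨R, hge, ?_, hf⟩
    rcases Nat.eq_zero_or_pos R with h0 | h0
    · subst h0
      have h00 : R0 = 0 := by omega
      subst h00
      exact hL
    · have h1 := hmin (R - 1) (by omega)
      rw [Nat.sub_add_cancel h0] at h1
      omega
  have h1 := card_bad K hK L R (by omega)
  have h2 := hR0 R hR1
  rw [Real.dist_0_eq_abs] at h2 ⊢
  have h3 : 0 ≤ (Nat.card {s : Fin L → Bool // ¬ RR (L + 1) (ex s)} : ℝ) / 2 ^ L :=
    div_nonneg (Nat.cast_nonneg _) (by positivity)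
  rw [abs_of_nonneg h3]
  refine lt_of_le_of_lt h1 (lt_of_le_of_lt ?_ (lt_of_le_of_lt (le_abs_self _) h2))
  have h4 : (L : ℝ) ≤ K * ((R : ℝ) + 2) ^ 140 := by
    have h5 : ((L : ℕ) : ℝ) ≤ ((K * (R + 1 + 1) ^ 140 : ℕ) : ℝ) := Nat.cast_le.2 hR3.le
    have h6 : ((K * (R + 1 + 1) ^ 140 : ℕ) : ℝ) = K * ((R : ℝ) + 2) ^ 140 := by
      rw [Nat.cast_mul, Nat.cast_pow]
      congr 2
      push_cast
      ring
    rw [h6] at h5
    exact h5
  exact div_le_div_of_nonneg_right h4 (by positivity)

end Pool.Agent.Lib.FenceAF
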