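import Pool.Agent.Lib.MP_7d55f0_co.AF.ZDefs

set_option autoImplicit false

namespace Pool.Agent.Lib.FenceAF

open Polynomial Finset

theorem V_coeff_zero (g : ℂ[X]) : (V g).coeff 0 = 0 := by
  unfold V
  rw [finsetSum_coeff]
  apply Finset.sum_eq_zero
  intro i _
  rw [coeff_monomial, if_neg (by omega)]

theorem V_coeff_succ (g : ℂ[X]) (k : ℕ) : (V g).coeff (k + 1) = g.coeff k / ((k : ℂ) + 1) := by
  unfold V
  rw [finsetSum_coeff]
  simp only [coeff_monomial, add_left_inj]
  rw [Finset.sum_ite_eq']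
  split_ifs with h
  · rfl
  · have : g.coeff k = 0 := coeff_eq_zero_of_natDegree_lt (by
      rw [Finset.mem_range] at h
      omega)
    rw [this, zero_div]

theorem V_add (g h : ℂ[X]) : V (g + h) = V g + V h := by
  ext k
  cases k with
  | zero => rw [coeff_add, V_coeff_zero, V_coeff_zero, V_coeff_zero, add_zero]
  | succ k => rw [coeff_add, V_coeff_succ, V_coeff_succ, V_coeff_succ, coeff_add, add_div]

theorem V_smul (c : ℂ) (g : ℂ[X]) : V (C c * g) = C c * V g := by
  ext k
  cases k with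
  | zero => rw [coeff_C_mul, V_coeff_zero, V_coeff_zero, mul_zero]
  | succ k => rw [coeff_C_mul, V_coeff_succ, V_coeff_succ, coeff_C_mul, mul_div_assoc]

theorem derivative_V (g : ℂ[X]) : derivative (V g) = g := by
  ext k
  rw [coeff_derivative, V_coeff_succ]
  have : ((k : ℂ) + 1) ≠ 0 := by exact_mod_cast k.succ_ne_zero
  field_simp

theorem V_eval_zero (g : ℂ[X]) : (V g).eval 0 = 0 := by
  rw [← coeff_zero_eq_eval_zero, V_coeff_zero]

theorem V_derivative (g : ℂ[X]) : V (derivative g) = g - C (g.eval 0) := by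
  ext k
  cases k with
  | zero => rw [V_coeff_zero, coeff_sub, coeff_C_zero, coeff_zero_eq_eval_zero, sub_self]
  | succ k =>
    rw [V_coeff_succ, coeff_derivative, coeff_sub, coeff_C_succ, sub_zero]
    have : ((k : ℂ) + 1) ≠ 0 := by exact_mod_cast k.succ_ne_zero
    field_simp

theorem V_eval (g : ℂ[X]) (x : ℝ) : (V g).eval (x : ℂ) = ∫ t in (0 : ℝ)..x, g.eval (t : ℂ) := by
  have h : ∀ t ∈ Set.uIcc (0 : ℝ) x, HasDerivAt (fun t : ℝ => (V g).eval (t : ℂ)) (g.eval (t : ℂ)) t := by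
    intro t _
    have h1 := (V g).hasDerivAt (t : ℂ)
    rw [derivative_V] at h1
    exact h1.comp_ofReal
  rw [intervalIntegral.integral_eq_sub_of_hasDerivAt h]
  · rw [Complex.ofReal_zero, V_eval_zero, sub_zero]
  · apply Continuous.intervalIntegrable
    exact g.continuous.comp Complex.continuous_ofReal

theorem oa_Vr_coeff_zero (g : ℝ[X]) : (Vr g).coeff 0 = 0 := by
  unfold Vr
  rw [finsetSum_coeff]
  apply Finset.sum_eq_zero
  intro i _
  rw [coeff_monomial, if_neg (by omega)]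

theorem oa_Vr_coeff_succ (g : ℝ[X]) (k : ℕ) : (Vr g).coeff (k + 1) = g.coeff k / ((k : ℝ) + 1) := by
  unfold Vr
  rw [finsetSum_coeff]
  simp only [coeff_monomial, add_left_inj]
  rw [Finset.sum_ite_eq']
  split_ifs with h
  · rfl
  · have : g.coeff k = 0 := coeff_eq_zero_of_natDegree_lt (by
      rw [Finset.mem_range] at h
      omega)
    rw [this, zero_div]

theorem oa_derivative_Vr (g : ℝ[X]) : derivative (Vr g) = g := by
  ext k
  rw [coeff_derivative, oa_Vr_coeff_succ]
  have : ((k : ℝ) + 1) ≠ 0 := by exact_mod_cast k.succ_ne_zero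
  field_simp

theorem Vr_eval (g : ℝ[X]) (x : ℝ) : (Vr g).eval x = ∫ t in (0 : ℝ)..x, g.eval t := by
  have h : ∀ t ∈ Set.uIcc (0 : ℝ) x, HasDerivAt (fun t : ℝ => (Vr g).eval t) (g.eval t) t := by
    intro t _
    have h1 := (Vr g).hasDerivAt t
    rw [oa_derivative_Vr] at h1
    exact h1
  rw [intervalIntegral.integral_eq_sub_of_hasDerivAt h]
  · rw [← coeff_zero_eq_eval_zero, oa_Vr_coeff_zero, sub_zero]
  · exact g.continuous.intervalIntegrable _ _

theorem cx_Vr (g : ℝ[X]) : cx (Vr g) = V (cx g) := by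
  ext k
  unfold cx
  rw [coeff_map]
  cases k with
  | zero => rw [V_coeff_zero, oa_Vr_coeff_zero, map_zero]
  | succ k =>
    rw [V_coeff_succ, oa_Vr_coeff_succ, coeff_map]
    simp

theorem cx_Rr (g : ℝ[X]) : cx (Rr g) = Rf (cx g) := by
  unfold cx Rr Rf
  rw [map_comp]
  simp

theorem cx_eval (g : ℝ[X]) (x : ℝ) : (cx g).eval (x : ℂ) = ((g.eval x : ℝ) : ℂ) := by
  unfold cx
  rw [eval_map]
  have h := eval₂_at_apply (p := g) Complex.ofRealHom x
  simpa using h

end Pool.Agent.Lib.FenceAF
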