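import Pool.Agent.Lib.MP_7d55f0_co.AF.ZDefs

set_option autoImplicit false

namespace Pool.Agent.Lib.FenceAF

open Polynomial Finset

theorem ph_zero : ph 0 = 1 := by
  simp [ph]

/-- `φ (z) (1 - exp (-z)) / z = 1` -/
theorem ph_conv (n : ℕ) : ∑ k ∈ range (n + 1), ph k * (-1) ^ (n - k) / ((n + 1 - k).factorial : ℂ)
    = if n = 0 then 1 else 0 := by
  have h1 : ∀ k ∈ range (n + 1), ph k * (-1) ^ (n - k) / ((n + 1 - k).factorial : ℂ) =
      ((-1) ^ n / ((n + 1).factorial : ℂ)) * (((((n + 1).choose k : ℚ) * _root_.bernoulli k : ℚ)) : ℂ) := by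
    intro k hk
    have hk' : k ≤ n := by
      have := Finset.mem_range.mp hk
      omega
    have e1 : ((k.factorial : ℕ) : ℂ) ≠ 0 := by exact_mod_cast k.factorial_ne_zero
    have e2 : (((n + 1 - k).factorial : ℕ) : ℂ) ≠ 0 := by exact_mod_cast (n + 1 - k).factorial_ne_zero
    have e3 : (((n + 1).factorial : ℕ) : ℂ) ≠ 0 := by exact_mod_cast (n + 1).factorial_ne_zero
    have e4 : (((n + 1).choose k : ℕ) : ℂ) * (k.factorial : ℂ) * ((n + 1 - k).factorial : ℂ) =
        ((n + 1).factorial : ℂ) := by
      have := Nat.choose_mul_factorial_mul_factorial (n := n + 1) (k := k) (by omega)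
      exact_mod_cast this
    have e5 : ((-1 : ℂ)) ^ (n - k) * (-1) ^ k = (-1) ^ n := by
      rw [← pow_add]
      congr 1
      omega
    unfold ph
    rw [bernoulli'_eq_bernoulli]
    push_cast
    rw [← e5, ← e4]
    have e6 : (((n + 1).choose k : ℕ) : ℂ) ≠ 0 := by
      intro h0
      rw [h0] at e4
      simp only [zero_mul] at e4
      exact e3 e4.symm
    field_simp
  rw [Finset.sum_congr rfl h1, ← Finset.mul_sum, ← Rat.cast_sum, _root_.sum_bernoulli]
  rcases Nat.eq_zero_or_pos n with h | h
  · subst h
    simp
  · rw [if_neg (by omega), if_neg (by omega)]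
    rw [Rat.cast_zero, mul_zero]

theorem ob_fact (m : ℕ) : 2 ^ m ≤ (m + 1).factorial := by
  induction m with
  | zero => simp
  | succ m ih =>
    rw [pow_succ, Nat.factorial_succ]
    nlinarith

theorem ph_norm_le (k : ℕ) : ‖ph k‖ ≤ 1 := by
  induction k using Nat.strong_induction_on with
  | _ n ih =>
    rcases Nat.eq_zero_or_pos n with h | h
    · subst h
      rw [ph_zero]
      simp
    · have h1 := ph_conv n
      rw [if_neg (by omega), Finset.sum_range_succ] at h1
      have h2 : ph n = -∑ k ∈ range n, ph k * (-1) ^ (n - k) / ((n + 1 - k).factorial : ℂ) := by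
        have e : ph n * (-1) ^ (n - n) / ((n + 1 - n).factorial : ℂ) = ph n := by
          have : n + 1 - n = 1 := by omega
          rw [this]
          simp
        rw [e] at h1
        linear_combination h1
      rw [h2, norm_neg]
      refine (norm_sum_le _ _).trans ?_
      have h3 : ∀ k ∈ range n, ‖ph k * (-1) ^ (n - k) / ((n + 1 - k).factorial : ℂ)‖ ≤
          (1 / 2 : ℝ) ^ (n - k) := by
        intro k hk
        have hk' := Finset.mem_range.mp hk
        rw [norm_div, norm_mul, norm_pow, norm_neg, norm_one, one_pow, mul_one,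
          Complex.norm_natCast]
        have h4 : (2 : ℝ) ^ (n - k) ≤ ((n + 1 - k).factorial : ℝ) := by
          have : 2 ^ (n - k) ≤ (n + 1 - k).factorial := by
            have h5 := ob_fact (n - k)
            have h6 : n - k + 1 = n + 1 - k := by omega
            rw [h6] at h5
            exact h5
          exact_mod_cast this
        rw [one_div, inv_pow]
        rw [div_le_iff₀ (by positivity)]
        have h7 : (0 : ℝ) < 2 ^ (n - k) := by positivity
        have h8 : 1 ≤ ((2 : ℝ) ^ (n - k))⁻¹ * ((n + 1 - k).factorial : ℝ) := by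
          rw [← div_eq_inv_mul, le_div_iff₀ h7]
          linarith
        linarith [ih k hk']
      refine (Finset.sum_le_sum h3).trans ?_
      have h9 : ∀ m : ℕ, ∑ k ∈ range m, (1 / 2 : ℝ) ^ (m - k) = 1 - (1 / 2) ^ m := by
        intro m
        induction m with
        | zero => simp
        | succ m ihm =>
          rw [Finset.sum_range_succ]
          have h10 : ∀ k ∈ range m, (1 / 2 : ℝ) ^ (m + 1 - k) = 1 / 2 * (1 / 2) ^ (m - k) := by
            intro k hk
            have hk' := Finset.mem_range.mp hk
            have : m + 1 - k = (m - k) + 1 := by omega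
            rw [this, pow_succ]
            ring
          rw [Finset.sum_congr rfl h10, ← Finset.mul_sum, ihm]
          have : m + 1 - m = 1 := by omega
          rw [this, pow_succ]
          ring
      rw [h9]
      have : (0 : ℝ) < (1 / 2) ^ n := by positivity
      linarith

end Pool.Agent.Lib.FenceAF
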