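import Pool.Agent.Lib.MP_7d55f0_co.AF.OpsA
import Pool.Agent.Lib.MP_7d55f0_co.AF.OpsB

set_option autoImplicit false

namespace Pool.Agent.Lib.FenceAF

open Polynomial Finset

/-- the sum may be extended -/
theorem Ph_eq_of_le (ε : ℂ) (g : ℂ[X]) (N : ℕ) (hN : g.natDegree < N) :
    Ph ε g = ∑ k ∈ range N, C (ph k * ε ^ k) * derivative^[k] g := by
  unfold Ph
  apply Finset.sum_subset
  · intro k hk
    rw [Finset.mem_range] at hk ⊢
    omega
  · intro k _ hk
    rw [Finset.mem_range] at hk
    rw [iterate_derivative_eq_zero (by omega), mul_zero]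

theorem Ph_add (ε : ℂ) (g h : ℂ[X]) : Ph ε (g + h) = Ph ε g + Ph ε h := by
  have h1 : (g + h).natDegree < max g.natDegree h.natDegree + 1 :=
    Nat.lt_succ_of_le (natDegree_add_le g h)
  rw [Ph_eq_of_le ε (g + h) _ h1, Ph_eq_of_le ε g (max g.natDegree h.natDegree + 1) (by
    have := le_max_left g.natDegree h.natDegree
    omega), Ph_eq_of_le ε h (max g.natDegree h.natDegree + 1) (by
    have := le_max_right g.natDegree h.natDegree
    omega), ← Finset.sum_add_distrib]
  apply Finset.sum_congr rfl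
  intro k _
  rw [iterate_map_add]
  ring

theorem Ph_smul (ε c : ℂ) (g : ℂ[X]) : Ph ε (C c * g) = C c * Ph ε g := by
  rw [Ph_eq_of_le ε (C c * g) (g.natDegree + 1) (Nat.lt_succ_of_le (natDegree_C_mul_le c g)),
    Ph_eq_of_le ε g (g.natDegree + 1) (Nat.lt_succ_self _), Finset.mul_sum]
  apply Finset.sum_congr rfl
  intro k _
  rw [iterate_derivative_C_mul]
  ring

theorem oc_der_Rf (g : ℂ[X]) : derivative (Rf g) = -Rf (derivative g) := by
  unfold Rf
  rw [derivative_comp]
  simp

theorem oc_iter_Rf (g : ℂ[X]) (k : ℕ) :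
    derivative^[k] (Rf g) = C ((-1) ^ k) * Rf (derivative^[k] g) := by
  induction k with
  | zero => simp
  | succ k ih =>
    rw [Function.iterate_succ_apply', ih, derivative_C_mul, oc_der_Rf,
      Function.iterate_succ_apply', pow_succ, C_mul]
    simp

theorem Rf_V (g : ℂ[X]) : Rf (C ((V g).eval 1) - V g) = V (Rf g) := by
  have h1 : derivative (Rf (C ((V g).eval 1) - V g)) = Rf g := by
    rw [oc_der_Rf, derivative_sub, derivative_C, derivative_V, zero_sub]
    unfold Rf
    simp
  have h2 : (Rf (C ((V g).eval 1) - V g)).eval 0 = 0 := by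
    unfold Rf
    simp
  have h3 := V_derivative (Rf (C ((V g).eval 1) - V g))
  rw [h1, h2, C_0, sub_zero] at h3
  exact h3.symm

theorem oc_natDegree_Rf (g : ℂ[X]) : (Rf g).natDegree ≤ g.natDegree := by
  unfold Rf
  refine natDegree_comp_le.trans ?_
  have : (1 - X : ℂ[X]).natDegree ≤ 1 := by
    refine (natDegree_sub_le _ _).trans ?_
    simp
  calc g.natDegree * (1 - X : ℂ[X]).natDegree ≤ g.natDegree * 1 := Nat.mul_le_mul_left _ this
    _ = g.natDegree := mul_one _

theorem Ph_Rf (ε : ℂ) (g : ℂ[X]) : Ph ε (Rf g) = Rf (Ph (-ε) g) := by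
  rw [Ph_eq_of_le ε (Rf g) (g.natDegree + 1) (Nat.lt_succ_of_le (oc_natDegree_Rf g)),
    Ph_eq_of_le (-ε) g (g.natDegree + 1) (Nat.lt_succ_self _)]
  have h : ∀ (s : Finset ℕ) (f : ℕ → ℂ[X]), Rf (∑ k ∈ s, f k) = ∑ k ∈ s, Rf (f k) := by
    intro s f
    unfold Rf
    simp
  rw [h]
  apply Finset.sum_congr rfl
  intro k _
  rw [oc_iter_Rf]
  have h2 : Rf (C (ph k * (-ε) ^ k) * derivative^[k] g) =
      C (ph k * (-ε) ^ k) * Rf (derivative^[k] g) := by
    unfold Rf
    rw [mul_comp, C_comp]
  rw [h2, ← mul_assoc, ← C_mul]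
  congr 2
  rw [neg_pow ε k]
  ring

/-- Taylor expansion -/
theorem oc_taylor (f : ℂ[X]) (r : ℂ) (N : ℕ) (hN : f.natDegree < N) :
    f.comp (X + C r) = ∑ j ∈ range N, C (r ^ j / (j.factorial : ℂ)) * derivative^[j] f := by
  apply Polynomial.funext
  intro x
  rw [eval_comp, eval_add, eval_X, eval_C, eval_finsetSum]
  have h1 : f.eval (x + r) = (taylor x f).eval r := by
    rw [taylor_eval, add_comm]
  rw [h1, eval_eq_sum_range' (n := N) (by rw [natDegree_taylor]; exact hN)]
  apply Finset.sum_congr rfl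
  intro j _
  rw [taylor_coeff, eval_mul, eval_C]
  have h2 := congrFun (factorial_smul_hasseDeriv (R := ℂ) (k := j)) f
  have h3 : (j.factorial : ℂ) ≠ 0 := by exact_mod_cast j.factorial_ne_zero
  have h4 : (derivative^[j] f).eval x = (j.factorial : ℂ) * (hasseDeriv j f).eval x := by
    rw [← h2, LinearMap.smul_apply, eval_smul, nsmul_eq_mul]
  rw [h4]
  field_simp

/-- the double sum -/
theorem oc_double (g : ℂ[X]) (a b : ℕ → ℂ) (N : ℕ) (hN : g.natDegree < N) :
    ∑ k ∈ range N, ∑ j ∈ range N, C (a j * b k) * derivative^[k + j] g =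
      ∑ n ∈ range N, C (∑ k ∈ range (n + 1), a (n - k) * b k) * derivative^[n] g := by
  have h1 : ∀ n ∈ range N, C (∑ k ∈ range (n + 1), a (n - k) * b k) * derivative^[n] g =
      ∑ k ∈ range (n + 1), (fun k j => C (a j * b k) * derivative^[k + j] g) k (n - k) := by
    intro n _
    rw [map_sum, Finset.sum_mul]
    apply Finset.sum_congr rfl
    intro k hk
    have hk' := Finset.mem_range.mp hk
    have : k + (n - k) = n := by omega
    simp only [this]
  rw [Finset.sum_congr rfl h1,
    Finset.sum_range_diag_flip N (fun k j => C (a j * b k) * derivative^[k + j] g)]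
  apply Finset.sum_congr rfl
  intro k hk
  symm
  apply Finset.sum_subset
  · intro j hj
    rw [Finset.mem_range] at hj ⊢
    omega
  · intro j _ hj
    rw [Finset.mem_range] at hj
    rw [iterate_derivative_eq_zero (by omega), mul_zero]

theorem oc_natDegree_Ph (ε : ℂ) (g : ℂ[X]) : (Ph ε g).natDegree ≤ g.natDegree := by
  unfold Ph
  apply natDegree_sum_le_of_forall_le
  intro k _
  refine (natDegree_C_mul_le _ _).trans ?_
  exact (natDegree_iterate_derivative g k).trans (Nat.sub_le _ _)

theorem oc_natDegree_V (g : ℂ[X]) : (V g).natDegree ≤ g.natDegree + 1 := by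
  unfold V
  apply natDegree_sum_le_of_forall_le
  intro k hk
  have := Finset.mem_range.mp hk
  exact (natDegree_monomial_le _).trans (by omega)

/-- the difference equation for `V (Ph ε g)` -/
theorem VPh_diff (ε : ℂ) (g : ℂ[X]) :
    V (Ph ε g) - (V (Ph ε g)).comp (X - C ε) = C ε * g := by
  set N := g.natDegree + 1 with hNdef
  have hN : g.natDegree < N := Nat.lt_succ_self _
  have hf : (V (Ph ε g)).natDegree < N + 1 := by
    have h1 := oc_natDegree_V (Ph ε g)
    have h2 := oc_natDegree_Ph ε g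
    omega
  have h1 : (X - C ε : ℂ[X]) = X + C (-ε) := by rw [C_neg, sub_eq_add_neg]
  rw [h1, oc_taylor _ _ _ hf, Finset.sum_range_succ']
  have h2 : ∀ j ∈ range N, C ((-ε) ^ (j + 1) / ((j + 1).factorial : ℂ)) *
      derivative^[j + 1] (V (Ph ε g)) =
      ∑ k ∈ range N, C ((-ε) ^ (j + 1) / ((j + 1).factorial : ℂ) * (ph k * ε ^ k)) *
        derivative^[k + j] g := by
    intro j _
    rw [Function.iterate_succ_apply, derivative_V, Ph_eq_of_le ε g N hN,
      iterate_derivative_sum, Finset.mul_sum]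
    apply Finset.sum_congr rfl
    intro k _
    rw [iterate_derivative_C_mul, ← mul_assoc, ← C_mul, add_comm k j, Function.iterate_add_apply]
  rw [Finset.sum_congr rfl h2, Finset.sum_comm, oc_double g _ _ N hN]
  have h3 : ∀ n ∈ range N, C (∑ k ∈ range (n + 1), (-ε) ^ (n - k + 1) /
      ((n - k + 1).factorial : ℂ) * (ph k * ε ^ k)) * derivative^[n] g =
      if n = 0 then - (C ε * g) else 0 := by
    intro n _
    have h4 : ∑ k ∈ range (n + 1), (-ε) ^ (n - k + 1) /
        ((n - k + 1).factorial : ℂ) * (ph k * ε ^ k) = - ε ^ (n + 1) *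
        ∑ k ∈ range (n + 1), ph k * (-1) ^ (n - k) / ((n + 1 - k).factorial : ℂ) := by
      rw [Finset.mul_sum]
      apply Finset.sum_congr rfl
      intro k hk
      have hk' := Finset.mem_range.mp hk
      have e1 : n - k + 1 = n + 1 - k := by omega
      have e2 : ε ^ (n + 1) = ε ^ (n - k) * ε * ε ^ k := by
        rw [← pow_succ, ← pow_add]
        congr 1
        omega
      rw [neg_pow ε (n - k + 1), pow_succ, pow_succ, e1, e2]
      ring
    rw [h4, ph_conv]
    split_ifs with h5
    · subst h5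
      simp
    · simp
  rw [Finset.sum_congr rfl h3, Finset.sum_ite_eq' (range N) 0, if_pos (Finset.mem_range.mpr (by omega))]
  simp

/-- uniqueness for the difference equation -/
theorem diff_unique (ε c : ℂ) (hε : ε ≠ 0) (f : ℂ[X]) (hf : f - f.comp (X - C ε) = 0)
    (h0 : f.eval c = 0) : f = 0 := by
  have h1 : ∀ n : ℕ, f.eval (c + n * ε) = 0 := by
    intro n
    induction n with
    | zero => simpa using h0
    | succ n ih =>
      have h2 := congrArg (fun p => Polynomial.eval (c + ((n + 1 : ℕ) : ℂ) * ε) p) hf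
      simp only [eval_sub, eval_comp, eval_X, eval_C, eval_zero] at h2
      have h3 : c + ((n + 1 : ℕ) : ℂ) * ε - ε = c + n * ε := by push_cast; ring
      rw [h3, ih, sub_zero] at h2
      exact h2
  apply Polynomial.eq_zero_of_infinite_isRoot
  have hinj : Function.Injective (fun n : ℕ => c + (n : ℂ) * ε) := by
    intro m n hmn
    simp only [add_right_inj] at hmn
    have := mul_right_cancel₀ hε hmn
    exact_mod_cast this
  exact (Set.infinite_range_of_injective hinj).mono (by
    rintro x ⟨n, rfl⟩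
    exact h1 n)

end Pool.Agent.Lib.FenceAF
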