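import Pool.Agent.Lib.MP_7d55f0_co.AF.OpsC
import Pool.Agent.Lib.MP_7d55f0_co.AF.CountA
import Pool.Agent.Lib.MP_7d55f0_co.AF.CountC

set_option autoImplicit false

namespace Pool.Agent.Lib.FenceAF

open Polynomial Finset Pool.Agent.Lib.FenceGlue

theorem od_pascal_poly (k : ℕ) : (bn (k + 1)).comp (X + 1) = bn (k + 1) + bn k := by
  apply Polynomial.funext
  intro z
  rw [eval_comp, eval_add, eval_add, eval_X, eval_one]
  exact cc_pascal k z

/-- complex binomials -/
noncomputable def cb (k : ℕ) (z : ℂ) : ℂ := ((bn k).map Complex.ofRealHom).eval z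

/-- complex values of the coefficients -/
noncomputable def cco (w : List Bool) (k : ℕ) (t : ℂ) : ℂ := ((co w k).map Complex.ofRealHom).eval t

theorem cb_pascal (k : ℕ) (z : ℂ) : cb (k + 1) (z + 1) = cb (k + 1) z + cb k z := by
  have h := congrArg (fun p => (p.map Complex.ofRealHom).eval z) (od_pascal_poly k)
  simp only [Polynomial.map_comp, Polynomial.map_add, Polynomial.map_X, Polynomial.map_one,
    eval_comp, eval_add, eval_X, eval_one] at h
  exact h

theorem cb_zero (k : ℕ) : cb (k + 1) 0 = 0 := by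
  have h := cc_zero k
  unfold cb
  rw [← Polynomial.coeff_zero_eq_eval_zero] at h ⊢
  rw [coeff_map, h]
  simp

theorem cb_zero' (z : ℂ) : cb 0 z = 1 := by
  simp [cb, bn]

theorem cco_true (w : List Bool) (t z : ℂ) :
    ∑ k ∈ range ((true :: w).length + 1), cco (true :: w) k t * cb k z =
      ∑ k ∈ range (w.length + 1), cco w k t * (cb (k + 1) t - cb (k + 1) z) := by
  rw [List.length_cons, Finset.sum_range_succ' (n := w.length + 1)]
  have h3 : ∀ k ∈ range (w.length + 1), cco (true :: w) (k + 1) t * cb (k + 1) z =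
      -(cco w k t * cb (k + 1) z) := by
    intro k _
    simp only [cco, co, Nat.add_sub_cancel, Nat.succ_ne_zero, if_false, Polynomial.map_neg, eval_neg]
    ring
  have h0 : cco (true :: w) 0 t = ∑ j ∈ range (w.length + 1), cco w j t * cb (j + 1) t := by
    simp only [cco, cb, co, if_true]
    rw [Polynomial.map_sum, eval_finsetSum]
    apply Finset.sum_congr rfl
    intro j _
    rw [Polynomial.map_mul, eval_mul]
  rw [Finset.sum_congr rfl h3, cb_zero', mul_one, h0, ← Finset.sum_add_distrib]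
  apply Finset.sum_congr rfl
  intro k _
  ring

theorem cco_false (w : List Bool) (t z : ℂ) :
    ∑ k ∈ range ((false :: w).length + 1), cco (false :: w) k t * cb k z =
      ∑ k ∈ range (w.length + 1), cco w k t * cb (k + 1) (z + 1) := by
  rw [List.length_cons]
  have h3 : ∀ k ∈ range (w.length + 1 + 1), cco (false :: w) k t * cb k z =
      cco w k t * cb k z + (if k = 0 then 0 else cco w (k - 1) t * cb k z) := by
    intro k _
    simp only [cco, co, Polynomial.map_add, eval_add]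
    split_ifs with h
    · simp
    · ring
  have h4 : cco w (w.length + 1) t = 0 := by
    unfold cco
    rw [co_zero w (w.length + 1) (by omega)]
    simp
  rw [Finset.sum_congr rfl h3, Finset.sum_add_distrib, Finset.sum_range_succ (n := w.length + 1),
    h4, Finset.sum_range_succ' (n := w.length + 1)]
  simp only [Nat.add_sub_cancel, Nat.succ_ne_zero, if_false, if_true, zero_mul, add_zero]
  rw [← Finset.sum_add_distrib]
  apply Finset.sum_congr rfl
  intro k _
  rw [cb_pascal]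
  ring

/-- the scaled counting function as a polynomial -/
noncomputable def GG (ε : ℂ) (w : List Bool) : ℂ[X] :=
  ∑ k ∈ range (w.length + 1), C (ε ^ w.length * cco w k ε⁻¹) *
    ((bn k).map Complex.ofRealHom).comp (C ε⁻¹ * X - 1)

theorem GG_eval (ε : ℂ) (w : List Bool) (y : ℂ) : (GG ε w).eval y =
    ε ^ w.length * ∑ k ∈ range (w.length + 1), cco w k ε⁻¹ * cb k (ε⁻¹ * y - 1) := by
  unfold GG
  rw [eval_finsetSum, Finset.mul_sum]
  apply Finset.sum_congr rfl
  intro k _
  rw [eval_mul, eval_C, eval_comp, eval_sub, eval_mul, eval_C, eval_X, eval_one]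
  unfold cb
  ring

theorem GG_false_eval (ε : ℂ) (w : List Bool) (y : ℂ) : (GG ε (false :: w)).eval y =
    ε ^ (w.length + 1) * ∑ k ∈ range (w.length + 1), cco w k ε⁻¹ * cb (k + 1) (ε⁻¹ * y) := by
  rw [GG_eval, cco_false, List.length_cons]
  have : ε⁻¹ * y - 1 + 1 = ε⁻¹ * y := by ring
  rw [this]

theorem GG_true_eval (ε : ℂ) (w : List Bool) (y : ℂ) : (GG ε (true :: w)).eval y =
    ε ^ (w.length + 1) * ∑ k ∈ range (w.length + 1),
      cco w k ε⁻¹ * (cb (k + 1) ε⁻¹ - cb (k + 1) (ε⁻¹ * y - 1)) := by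
  rw [GG_eval, cco_true, List.length_cons]

theorem GG_false_diff (ε : ℂ) (hε : ε ≠ 0) (w : List Bool) (y : ℂ) :
    (GG ε (false :: w)).eval y - (GG ε (false :: w)).eval (y - ε) = ε * (GG ε w).eval y := by
  rw [GG_false_eval, GG_false_eval, GG_eval, ← mul_sub, ← Finset.sum_sub_distrib]
  have h1 : ε⁻¹ * (y - ε) = ε⁻¹ * y - 1 := by
    rw [mul_sub, inv_mul_cancel₀ hε]
  rw [h1, pow_succ]
  have h2 : ∀ k ∈ range (w.length + 1), cco w k ε⁻¹ * cb (k + 1) (ε⁻¹ * y) -
      cco w k ε⁻¹ * cb (k + 1) (ε⁻¹ * y - 1) = cco w k ε⁻¹ * cb k (ε⁻¹ * y - 1) := by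
    intro k _
    have h3 := cb_pascal k (ε⁻¹ * y - 1)
    have h4 : ε⁻¹ * y - 1 + 1 = ε⁻¹ * y := by ring
    rw [h4] at h3
    rw [h3]
    ring
  rw [Finset.sum_congr rfl h2]
  ring

theorem GG_true_diff (ε : ℂ) (hε : ε ≠ 0) (w : List Bool) (y : ℂ) :
    (GG ε (true :: w)).eval y - (GG ε (true :: w)).eval (y + ε) = ε * (GG ε w).eval y := by
  rw [GG_true_eval, GG_true_eval, GG_eval, ← mul_sub, ← Finset.sum_sub_distrib]
  have h1 : ε⁻¹ * (y + ε) - 1 = ε⁻¹ * y - 1 + 1 := by
    rw [mul_add, inv_mul_cancel₀ hε]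
    ring
  rw [h1, pow_succ]
  have h2 : ∀ k ∈ range (w.length + 1),
      cco w k ε⁻¹ * (cb (k + 1) ε⁻¹ - cb (k + 1) (ε⁻¹ * y - 1)) -
      cco w k ε⁻¹ * (cb (k + 1) ε⁻¹ - cb (k + 1) (ε⁻¹ * y - 1 + 1)) =
      cco w k ε⁻¹ * cb k (ε⁻¹ * y - 1) := by
    intro k _
    rw [cb_pascal]
    ring
  rw [Finset.sum_congr rfl h2]
  ring

theorem GG_false_zero (ε : ℂ) (w : List Bool) : (GG ε (false :: w)).eval 0 = 0 := by
  rw [GG_false_eval, mul_zero]
  simp [cb_zero]

theorem GG_true_one (ε : ℂ) (hε : ε ≠ 0) (w : List Bool) :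
    (GG ε (true :: w)).eval 1 = ε * (GG ε w).eval 1 := by
  rw [GG_true_eval, GG_eval, pow_succ, mul_one]
  have h2 : ∀ k ∈ range (w.length + 1),
      cco w k ε⁻¹ * (cb (k + 1) ε⁻¹ - cb (k + 1) (ε⁻¹ - 1)) =
      cco w k ε⁻¹ * cb k (ε⁻¹ - 1) := by
    intro k _
    have h3 := cb_pascal k (ε⁻¹ - 1)
    have h4 : ε⁻¹ - 1 + 1 = ε⁻¹ := by ring
    rw [h4] at h3
    rw [h3]
    ring
  rw [Finset.sum_congr rfl h2]
  ring

/-- `V (Ph ε (GG ε w))` -/
theorem GG_false (ε : ℂ) (hε : ε ≠ 0) (w : List Bool) :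
    GG ε (false :: w) = V (Ph ε (GG ε w)) := by
  rw [← sub_eq_zero]
  apply diff_unique ε 0 hε
  · have h := VPh_diff ε (GG ε w)
    have h2 : GG ε (false :: w) - (GG ε (false :: w)).comp (X - C ε) = C ε * GG ε w := by
      apply Polynomial.funext
      intro y
      rw [eval_sub, eval_comp, eval_sub, eval_X, eval_C, eval_mul, eval_C]
      exact GG_false_diff ε hε w y
    rw [sub_comp]
    linear_combination h2 - h
  · rw [eval_sub, GG_false_zero, V_eval_zero, sub_zero]

theorem GG_true (ε : ℂ) (hε : ε ≠ 0) (w : List Bool) :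
    GG ε (true :: w) = C ((V (Ph (-ε) (GG ε w))).eval 1) - V (Ph (-ε) (GG ε w))
      + C (ε * (GG ε w).eval 1) := by
  rw [← sub_eq_zero]
  apply diff_unique (-ε) 1 (neg_ne_zero.mpr hε)
  · have h := VPh_diff (-ε) (GG ε w)
    have h2 : GG ε (true :: w) - (GG ε (true :: w)).comp (X - C (-ε)) = C ε * GG ε w := by
      apply Polynomial.funext
      intro y
      rw [eval_sub, eval_comp, eval_sub, eval_X, eval_C, eval_mul, eval_C, sub_neg_eq_add]
      exact GG_true_diff ε hε w y
    rw [C_neg] at h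
    rw [sub_comp, add_comp, sub_comp, C_comp, C_comp]
    rw [C_neg] at h2 ⊢
    linear_combination h2 + h
  · rw [eval_sub, eval_add, eval_sub, eval_C, eval_C, GG_true_one ε hε]
    ring

theorem vw_eq (ε : ℂ) (hε : ε ≠ 0) (w : List Bool) : vw ε w = GG ε w := by
  induction w with
  | nil =>
    simp only [vw, GG]
    simp [cco, co, bn]
  | cons c w ih =>
    cases c
    · rw [GG_false ε hε w, ← ih]
      rfl
    · rw [GG_true ε hε w, ← ih]
      rfl

/-- **the order polynomial in terms of `vw`** -/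
theorem PP_link (w : List Bool) (ε : ℂ) (hε : ε ≠ 0) :
    ((PP w).map Complex.ofRealHom).eval ε⁻¹ * ε ^ (w.length + 1) = (V (Ph ε (vw ε w))).eval 1 := by
  rw [vw_eq ε hε, ← GG_false ε hε, GG_false_eval, mul_one, mul_comm]
  congr 1
  unfold PP
  rw [Polynomial.map_sum, eval_finsetSum]
  apply Finset.sum_congr rfl
  intro k _
  rw [Polynomial.map_mul, eval_mul]
  rfl

end Pool.Agent.Lib.FenceAF
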