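import Pool.Agent.Lib.MP_7d55f0_co.AF.OpsC

set_option autoImplicit false

namespace Pool.Agent.Lib.FenceAF

open Polynomial Finset Pool.Agent.Lib.FenceGlue

theorem oe_Rf_Rf (g : ℂ[X]) : Rf (Rf g) = g := by
  unfold Rf
  rw [comp_assoc]
  simp

theorem oe_Rf_C (c : ℂ) : Rf (C c) = C c := by
  unfold Rf
  simp

theorem oe_Rf_add (g h : ℂ[X]) : Rf (g + h) = Rf g + Rf h := by
  unfold Rf
  simp

/-- the step `true` is the reflected oriented step -/
theorem oe_step (ε : ℂ) (g : ℂ[X]) :
    Rf (T true ε (Rf g)) = C ((V (Ph (-ε) g)).eval 1) - V (Ph (-ε) g) + C (ε * g.eval 1) := by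
  unfold T
  rw [Ph_Rf, ← Rf_V, oe_Rf_add, oe_Rf_Rf, oe_Rf_C, if_pos rfl]
  have : (Rf g).eval 0 = g.eval 1 := by
    unfold Rf
    simp
  rw [this]

theorem oe_false (ε : ℂ) (a : ℕ) (w : List Bool) :
    vw ε (List.replicate a false ++ w) = (T false ε)^[a] (vw ε w) := by
  induction a with
  | zero => rfl
  | succ a ih =>
    rw [List.replicate_succ, List.cons_append, Function.iterate_succ_apply', ← ih]
    simp [vw, T]

theorem oe_true (ε : ℂ) (a : ℕ) (w : List Bool) :
    vw ε (List.replicate a true ++ w) = Rf ((T true ε)^[a] (Rf (vw ε w))) := by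
  induction a with
  | zero => simp [oe_Rf_Rf]
  | succ a ih =>
    rw [List.replicate_succ, List.cons_append, Function.iterate_succ_apply']
    have h : (T true ε)^[a] (Rf (vw ε w)) = Rf (vw ε (List.replicate a true ++ w)) := by
      rw [ih, oe_Rf_Rf]
    rw [h, oe_step]
    rfl

/-- **run form of `vw`** -/
theorem vw_runs (ε : ℂ) : ∀ (α : List ℕ) (σ : Bool),
    vw ε (runs σ α) = if σ then Rf (vo ε σ α) else vo ε σ α := by
  intro α
  induction α with
  | nil =>
    intro σ
    have h : Rf (1 : ℂ[X]) = 1 := by unfold Rf; simp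
    cases σ
    · simp [runs, vw, vo]
    · simp [runs, vw, vo, h]
  | cons a as ih =>
    intro σ
    cases σ
    · have h1 : runs false (a :: as) = List.replicate a false ++ runs true as := rfl
      rw [h1, oe_false, ih true]
      rfl
    · have h1 : runs true (a :: as) = List.replicate a true ++ runs false as := rfl
      rw [h1, oe_true, ih false]
      rfl

/-- the final functional in the oriented coordinate -/
theorem final_runs (ε : ℂ) (α : List ℕ) (σ : Bool) :
    (V (Ph ε (vw ε (runs σ α)))).eval 1 = (V (Ph (if σ then -ε else ε) (vo ε σ α))).eval 1 := by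
  rw [vw_runs]
  cases σ
  · rfl
  · simp only [if_true]
    rw [Ph_Rf, ← Rf_V]
    have h : ∀ q : ℂ[X], (Rf q).eval 1 = q.eval 0 := by
      intro q
      unfold Rf
      simp
    rw [h, eval_sub, eval_C, V_eval_zero, sub_zero]

end Pool.Agent.Lib.FenceAF
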