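import Pool.Agent.Lib.MP_7d55f0_co.AF.SDefs

set_option autoImplicit false

namespace Pool.Agent.Lib.FenceAF

open Polynomial Finset Real

/-- the sum of the squares of the zeros is real -/
theorem Dat.sq_real {P : ℝ[X]} {n : ℕ} {M c : ℝ} {t : Fin n → ℂ} {a : ℝ} (h : Dat P n M c t a) :
    ∃ β : ℝ, 2 * (n : ℂ) * (β : ℂ) = ∑ i, (t i) ^ 2 := by
  have hc : (c : ℂ) ≠ 0 := by exact_mod_cast h.hc.ne'
  have hconj : (P.map Complex.ofRealHom).map (starRingEnd ℂ) = P.map Complex.ofRealHom := by
    rw [Polynomial.map_map]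
    congr 1
    ext x
    simp
  have h1 : (P.map Complex.ofRealHom).roots = Finset.univ.val.map t := by
    rw [h.hP, Polynomial.roots_C_mul _ hc]
    have : (∏ i, (X - C (t i)) : ℂ[X]) = ((Finset.univ.val.map t).map fun a => X - C a).prod := by
      rw [Multiset.map_map]
      rfl
    rw [this, Polynomial.roots_multiset_prod_X_sub_C]
  have h2 : (P.map Complex.ofRealHom).roots =
      Finset.univ.val.map (fun i => (starRingEnd ℂ) (t i)) := by
    rw [← hconj, h.hP, Polynomial.map_mul, Polynomial.map_C, Polynomial.map_prod]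
    have h3 : (starRingEnd ℂ) (c : ℂ) = (c : ℂ) := Complex.conj_ofReal c
    rw [h3, Polynomial.roots_C_mul _ hc]
    have : (∏ i, ((X - C (t i)).map (starRingEnd ℂ)) : ℂ[X]) =
        ((Finset.univ.val.map (fun i => (starRingEnd ℂ) (t i))).map fun a => X - C a).prod := by
      rw [Multiset.map_map]
      simp only [Polynomial.map_sub, Polynomial.map_X, Polynomial.map_C]
      rfl
    rw [this, Polynomial.roots_multiset_prod_X_sub_C]
  have h3 : (∑ i, (t i) ^ 2) = ∑ i, ((starRingEnd ℂ) (t i)) ^ 2 := by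
    have h4 := congrArg (fun s : Multiset ℂ => (s.map (fun z => z ^ 2)).sum) (h1.symm.trans h2)
    simp only [Multiset.map_map] at h4
    exact h4
  have h5 : (starRingEnd ℂ) (∑ i, (t i) ^ 2) = ∑ i, (t i) ^ 2 := by
    rw [map_sum]
    simp only [map_pow]
    exact h3.symm
  obtain ⟨r, hr⟩ := Complex.conj_eq_iff_real.mp h5
  rcases Nat.eq_zero_or_pos n with hn | hn
  · subst hn
    exact ⟨0, by simp⟩
  · refine ⟨r / (2 * n), ?_⟩
    rw [hr]
    have : (n : ℂ) ≠ 0 := by exact_mod_cast hn.ne'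
    push_cast
    field_simp

end Pool.Agent.Lib.FenceAF
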