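import Pool.Agent.Lib.MP_7d55f0_co.AF.SDefs

set_option autoImplicit false

namespace Pool.Agent.Lib.FenceAF

open Polynomial Finset Real

theorem plB_int (k : ℕ) :
    MeasureTheory.IntegrableOn (fun u : ℝ => u ^ k * Real.exp (-u)) (Set.Ioi 0) := by
  have h := Real.GammaIntegral_convergent (s := (k : ℝ) + 1) (by positivity)
  refine h.congr_fun (fun u hu => ?_) measurableSet_Ioi
  simp only [add_sub_cancel_right]
  rw [Real.rpow_natCast]
  ring

theorem plB_val (k : ℕ) : ∫ u in Set.Ioi (0 : ℝ), u ^ k * Real.exp (-u) = (k.factorial : ℝ) := by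
  rw [← Real.Gamma_nat_eq_factorial, Real.Gamma_eq_integral (by positivity)]
  refine MeasureTheory.setIntegral_congr_fun measurableSet_Ioi (fun u hu => ?_)
  simp only [add_sub_cancel_right]
  rw [Real.rpow_natCast]
  ring

theorem plB_intC (k : ℕ) :
    MeasureTheory.IntegrableOn (fun u : ℝ => (u : ℂ) ^ k * (Real.exp (-u) : ℂ)) (Set.Ioi 0) := by
  have h := (plB_int k).ofReal (𝕜 := ℂ)
  refine MeasureTheory.IntegrableOn.congr_fun h (fun u _ => ?_) measurableSet_Ioi
  push_cast
  simp

theorem plB_valC (k : ℕ) :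
    ∫ u in Set.Ioi (0 : ℝ), (u : ℂ) ^ k * (Real.exp (-u) : ℂ) = (k.factorial : ℂ) := by
  have h : (((∫ u in Set.Ioi (0 : ℝ), u ^ k * Real.exp (-u)) : ℝ) : ℂ) =
      (((k.factorial : ℝ)) : ℂ) := by rw [plB_val k]
  rw [← integral_complex_ofReal] at h
  rw [show ((k.factorial : ℂ)) = (((k.factorial : ℝ)) : ℂ) by push_cast; rfl, ← h]
  refine MeasureTheory.integral_congr_ae (Filter.Eventually.of_forall fun u => ?_)
  simp only
  push_cast
  rfl

theorem LQ_GI {n : ℕ} (c : ℂ) (τ : Fin n → ℂ) (s : ℂ) (hs : s ≠ 0) (Q : ℂ[X])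
    (hQ : Q = C c * ∏ i, (X - C (τ i))) :
    LQ Q s = c * GI τ s / s ^ (n + 1) - Q.coeff 0 / s := by
  have hpt : ∀ u : ℝ, c * ((∏ i, ((u : ℂ) - s * τ i)) * (Real.exp (-u) : ℂ)) =
      ∑ k ∈ range (Q.natDegree + 1), (s ^ n * Q.coeff k / s ^ k) *
        ((u : ℂ) ^ k * (Real.exp (-u) : ℂ)) := by
    intro u
    have h1 : c * ∏ i, ((u : ℂ) - s * τ i) = s ^ n * Q.eval ((u : ℂ) / s) := by
      rw [hQ, Polynomial.eval_mul, Polynomial.eval_C, Polynomial.eval_prod]
      simp only [Polynomial.eval_sub, Polynomial.eval_X, Polynomial.eval_C]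
      have h2 : s ^ n = ∏ _i : Fin n, s := by simp
      rw [h2, mul_left_comm, ← Finset.prod_mul_distrib]
      congr 1
      refine Finset.prod_congr rfl (fun i _ => ?_)
      field_simp
    rw [← mul_assoc, h1, Polynomial.eval_eq_sum_range, Finset.mul_sum, Finset.sum_mul]
    refine Finset.sum_congr rfl (fun k _ => ?_)
    rw [div_pow]
    ring
  have hG : c * GI τ s = ∑ k ∈ range (Q.natDegree + 1),
      (s ^ n * Q.coeff k / s ^ k) * (k.factorial : ℂ) := by
    unfold GI
    rw [← MeasureTheory.integral_const_mul]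
    rw [MeasureTheory.integral_congr_ae (Filter.Eventually.of_forall hpt)]
    rw [MeasureTheory.integral_finsetSum]
    · refine Finset.sum_congr rfl (fun k _ => ?_)
      rw [MeasureTheory.integral_const_mul, plB_valC]
    · intro k _
      exact (plB_intC k).const_mul _
  rw [hG, Finset.sum_div]
  unfold LQ
  rw [Finset.sum_range_succ', Finset.sum_range_succ']
  simp only [if_true, add_zero, pow_zero, Nat.factorial_zero, Nat.cast_one, mul_one, div_one]
  have h0 : s ^ n * Q.coeff 0 / s ^ (n + 1) = Q.coeff 0 / s := by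
    rw [pow_succ]
    field_simp
  rw [h0, add_sub_cancel_right]
  refine Finset.sum_congr rfl (fun k _ => ?_)
  rw [if_neg (Nat.succ_ne_zero k)]
  have h1 : s ^ (n + 1) = s ^ n * s := pow_succ _ _
  have h2 : s ^ (k + 1 + 1) = s ^ (k + 1) * s := pow_succ _ _
  rw [h1, h2]
  field_simp

/-- crude bound -/
theorem GI_le {n : ℕ} (τ : Fin n → ℂ) (s : ℂ) (B : ℝ) (hB0 : 0 ≤ B) (hB : ∀ i, ‖τ i‖ ≤ B) :
    ‖GI τ s‖ ≤ n.factorial * Real.exp (B * ‖s‖) := by
  set b : ℝ := B * ‖s‖ with hb
  have hb0 : 0 ≤ b := mul_nonneg hB0 (norm_nonneg _)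
  have hbin : ∀ u : ℝ, (u + b) ^ n * Real.exp (-u) =
      ∑ j ∈ range (n + 1), (b ^ (n - j) * (n.choose j : ℝ)) * (u ^ j * Real.exp (-u)) := by
    intro u
    rw [add_pow, Finset.sum_mul]
    refine Finset.sum_congr rfl (fun j _ => ?_)
    ring
  have hval : ∫ u in Set.Ioi (0 : ℝ), (u + b) ^ n * Real.exp (-u) =
      ∑ j ∈ range (n + 1), (b ^ (n - j) * (n.choose j : ℝ)) * (j.factorial : ℝ) := by
    rw [MeasureTheory.integral_congr_ae (Filter.Eventually.of_forall hbin)]
    rw [MeasureTheory.integral_finsetSum]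
    · refine Finset.sum_congr rfl (fun k _ => ?_)
      rw [MeasureTheory.integral_const_mul, plB_val]
    · intro k _
      exact (plB_int k).const_mul _
  have hint : MeasureTheory.IntegrableOn (fun u : ℝ => (u + b) ^ n * Real.exp (-u))
      (Set.Ioi 0) := by
    have h1 : MeasureTheory.IntegrableOn (fun u : ℝ => ∑ j ∈ range (n + 1),
        (b ^ (n - j) * (n.choose j : ℝ)) * (u ^ j * Real.exp (-u))) (Set.Ioi 0) :=
      MeasureTheory.integrable_finsetSum _ (fun k _ => (plB_int k).const_mul _)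
    exact MeasureTheory.IntegrableOn.congr_fun h1 (fun u _ => (hbin u).symm) measurableSet_Ioi
  have hsum : ∑ j ∈ range (n + 1), (b ^ (n - j) * (n.choose j : ℝ)) * (j.factorial : ℝ) ≤
      n.factorial * Real.exp b := by
    have h1 : ∑ j ∈ range (n + 1), (b ^ (n - j) * (n.choose j : ℝ)) * (j.factorial : ℝ) =
        n.factorial * ∑ j ∈ range (n + 1), b ^ j / (j.factorial : ℝ) := by
      rw [← Finset.sum_range_reflect (fun j => b ^ j / (j.factorial : ℝ)), Finset.mul_sum]
      refine Finset.sum_congr rfl (fun j hj => ?_)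
      have hj' : j ≤ n := Nat.lt_succ_iff.1 (Finset.mem_range.1 hj)
      have h2 : n + 1 - 1 - j = n - j := by omega
      rw [h2]
      have h3 : ((n.choose j : ℝ)) * (j.factorial : ℝ) * ((n - j).factorial : ℝ) =
          (n.factorial : ℝ) := by
        exact_mod_cast Nat.choose_mul_factorial_mul_factorial hj'
      have h4 : ((n - j).factorial : ℝ) ≠ 0 := by exact_mod_cast (n - j).factorial_ne_zero
      rw [← h3]
      field_simp
    rw [h1]
    exact mul_le_mul_of_nonneg_left (Real.sum_le_exp_of_nonneg hb0 (n + 1)) (by positivity)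
  calc ‖GI τ s‖ ≤ ∫ u in Set.Ioi (0 : ℝ), ‖(∏ i, ((u : ℂ) - s * τ i)) * (Real.exp (-u) : ℂ)‖ :=
        MeasureTheory.norm_integral_le_integral_norm _
    _ ≤ ∫ u in Set.Ioi (0 : ℝ), (u + b) ^ n * Real.exp (-u) := by
        refine MeasureTheory.integral_mono_of_nonneg
          (Filter.Eventually.of_forall fun u => norm_nonneg _) hint ?_
        filter_upwards [MeasureTheory.ae_restrict_mem measurableSet_Ioi] with u hu
        have hu0 : (0 : ℝ) ≤ u := le_of_lt hu
        rw [norm_mul, Complex.norm_real, Real.norm_of_nonneg (Real.exp_pos _).le]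
        refine mul_le_mul_of_nonneg_right ?_ (Real.exp_pos _).le
        rw [norm_prod]
        calc ∏ i, ‖(u : ℂ) - s * τ i‖ ≤ ∏ _i : Fin n, (u + b) := by
              refine Finset.prod_le_prod (fun i _ => norm_nonneg _) (fun i _ => ?_)
              refine (norm_sub_le _ _).trans ?_
              rw [Complex.norm_real, Real.norm_of_nonneg hu0, norm_mul]
              have := mul_le_mul_of_nonneg_left (hB i) (norm_nonneg s)
              rw [hb]
              linarith [mul_comm B ‖s‖]
          _ = (u + b) ^ n := by simp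
    _ ≤ n.factorial * Real.exp b := by rw [hval]; exact hsum

end Pool.Agent.Lib.FenceAF
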