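import Pool.Agent.Lib.MP_7d55f0_co.AF.SDefs

set_option autoImplicit false

namespace Pool.Agent.Lib.FenceAF

open Polynomial Finset Real MeasureTheory

namespace PlC


theorem integ_pow (k : ℕ) (b : ℝ) (hb : 0 < b) :
    IntegrableOn (fun u : ℝ => u ^ k * Real.exp (-(b * u))) (Set.Ioi 0) := by
  have hk : (0 : ℝ) < (k : ℝ) + 1 := by positivity
  have key := Real.integral_rpow_mul_exp_neg_mul_Ioi hk hb
  have hint : IntegrableOn (fun x : ℝ ↦ x ^ (((k : ℝ) + 1) - 1) * Real.exp (-(b * x)))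
      (Set.Ioi 0) :=
    .of_integral_ne_zero (by rw [key]; positivity)
  refine hint.congr_fun (fun x _ => ?_) measurableSet_Ioi
  simp [add_sub_cancel_right, rpow_natCast]

theorem int_pow (k : ℕ) (b : ℝ) (hb : 0 < b) :
    ∫ u in Set.Ioi (0:ℝ), u ^ k * Real.exp (-(b * u)) = k.factorial / b ^ (k+1) := by
  have hk : (0 : ℝ) < (k : ℝ) + 1 := by positivity
  have key := Real.integral_rpow_mul_exp_neg_mul_Ioi hk hb
  have h1 : ∫ u in Set.Ioi (0:ℝ), u ^ k * Real.exp (-(b * u)) =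
      ∫ x in Set.Ioi (0:ℝ), x ^ (((k : ℝ) + 1) - 1) * Real.exp (-(b * x)) := by
    simp [add_sub_cancel_right, rpow_natCast]
  rw [h1, key, Gamma_nat_eq_factorial, div_eq_mul_inv, one_mul, mul_comm, inv_rpow hb.le]
  rw [div_eq_mul_inv]
  congr 2
  rw [← rpow_natCast]; push_cast; rfl

theorem integ_pow1 (k : ℕ) :
    IntegrableOn (fun u : ℝ => u ^ k * Real.exp (-u)) (Set.Ioi 0) := by
  have := integ_pow k 1 one_pos
  simpa using this

theorem int_pow1 (k : ℕ) :
    ∫ u in Set.Ioi (0:ℝ), u ^ k * Real.exp (-u) = k.factorial := by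
  have := int_pow k 1 one_pos
  simpa using this

/-- second moment -/
theorem integ_sq (n : ℕ) :
    IntegrableOn (fun u : ℝ => u ^ n * (u - n) ^ 2 * Real.exp (-u)) (Set.Ioi 0) := by
  have h := ((integ_pow1 (n+2)).sub ((integ_pow1 (n+1)).const_mul (2 * (n:ℝ)))).add
    ((integ_pow1 n).const_mul ((n:ℝ)^2))
  refine h.congr_fun (fun u _ => ?_) measurableSet_Ioi
  simp only [Pi.add_apply, Pi.sub_apply]
  ring

theorem int_sq (n : ℕ) :
    ∫ u in Set.Ioi (0:ℝ), u ^ n * (u - n) ^ 2 * Real.exp (-u) = (n + 2) * n.factorial := by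
  have h2 := integ_pow1 (n+2)
  have h1 := (integ_pow1 (n+1)).const_mul (2 * (n:ℝ))
  have h0 := (integ_pow1 n).const_mul ((n:ℝ)^2)
  have e : ∀ u : ℝ, u ^ n * (u - n) ^ 2 * Real.exp (-u) =
      (u ^ (n+2) * Real.exp (-u) - 2 * (n:ℝ) * (u ^ (n+1) * Real.exp (-u))) +
        (n:ℝ)^2 * (u ^ n * Real.exp (-u)) := by intro u; ring
  simp_rw [e]
  have h21 : Integrable (fun u : ℝ => u ^ (n+2) * Real.exp (-u) -
      2 * (n:ℝ) * (u ^ (n+1) * Real.exp (-u))) (volume.restrict (Set.Ioi 0)) := h2.sub h1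
  rw [integral_add h21 h0, integral_sub h2 h1, integral_const_mul, integral_const_mul,
    int_pow1, int_pow1, int_pow1]
  rw [Nat.factorial_succ (n+1), Nat.factorial_succ n]
  push_cast
  ring

/-- polynomials times exp are integrable -/
theorem integ_poly (p : ℂ[X]) :
    IntegrableOn (fun u : ℝ => p.eval (u : ℂ) * (Real.exp (-u) : ℂ)) (Set.Ioi 0) := by
  induction p using Polynomial.induction_on' with
  | add p q hp hq =>
    refine (hp.add hq).congr_fun (fun u _ => ?_) measurableSet_Ioi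
    simp only [Pi.add_apply, eval_add]; ring
  | monomial k a =>
    have h : IntegrableOn (fun x : ℝ => a * ((x ^ k * Real.exp (-x) : ℝ) : ℂ)) (Set.Ioi 0) :=
      ((integ_pow1 k).ofReal (𝕜 := ℂ)).const_mul a
    refine h.congr_fun (fun u _ => ?_) measurableSet_Ioi
    simp only [eval_monomial, Complex.ofReal_mul, Complex.ofReal_pow]
    ring



theorem log_one_sub (w : ℂ) (hw : ‖w‖ ≤ 1/2) :
    ∃ r : ℂ, ‖r‖ ≤ ‖w‖^3 ∧ 1 - w = Complex.exp (-w - w^2/2 + r) := by
  refine ⟨Complex.log (1 - w) + w + w^2/2, ?_, ?_⟩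
  · have h := Complex.norm_log_sub_logTaylor_le 2 (z := -w) (by rw [norm_neg]; linarith)
    have e : Complex.log (1 + -w) - Complex.logTaylor (2 + 1) (-w) =
        Complex.log (1 - w) + w + w^2/2 := by
      simp only [Complex.logTaylor, Finset.sum_range_succ, Finset.sum_range_zero]
      norm_num
      ring_nf
    rw [e, norm_neg] at h
    refine h.trans ?_
    have h1 : (1 - ‖w‖)⁻¹ ≤ 2 := by
      rw [inv_le_comm₀ (by linarith) (by norm_num)]
      norm_num; linarith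
    have h2 : 0 ≤ ‖w‖^3 := by positivity
    calc ‖w‖^(2+1) * (1 - ‖w‖)⁻¹ / ((2:ℕ) + 1) ≤ ‖w‖^3 * 2 / 3 := by
          norm_num
          gcongr
      _ ≤ ‖w‖^3 := by linarith
  · have hne : 1 - w ≠ 0 := by
      intro h
      have : w = 1 := by linear_combination -h
      rw [this] at hw; norm_num at hw
    rw [show -w - w^2/2 + (Complex.log (1 - w) + w + w^2/2) = Complex.log (1 - w) by ring,
      Complex.exp_log hne]

theorem exp_sub_one_le (z : ℂ) : ‖Complex.exp z - 1‖ ≤ Real.exp ‖z‖ - 1 := by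
  have := Complex.norm_exp_sub_sum_le_exp_norm_sub_sum z 1
  simpa using this

theorem beta_le {n : ℕ} {x : ℝ} {τ : Fin n → ℂ} {β : ℂ} (hn0 : (0:ℝ) < n)
    (hτ : ∀ i, ‖τ i‖ ≤ x) (hβ : 2 * (n:ℂ) * β = ∑ i, (τ i)^2) : ‖β‖ ≤ x^2/2 := by
  have h1 : ‖2 * (n:ℂ) * β‖ ≤ n * x^2 := by
    rw [hβ]
    refine (norm_sum_le _ _).trans ?_
    calc ∑ i, ‖(τ i)^2‖ ≤ ∑ i : Fin n, x^2 := by
          refine Finset.sum_le_sum fun i _ => ?_
          rw [norm_pow]
          exact pow_le_pow_left₀ (norm_nonneg _) (hτ i) 2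
      _ = n * x^2 := by simp
  rw [norm_mul, norm_mul, Complex.norm_natCast, Complex.norm_ofNat] at h1
  have : (n:ℝ) * (2 * ‖β‖) ≤ n * x^2 := by linarith
  have := le_of_mul_le_mul_left this hn0
  linarith

theorem main_pt {n : ℕ} {x : ℝ} {τ : Fin n → ℂ} {s α β : ℂ} (hx : 10 ≤ x) (hn : x^20 = n)
    (hτ : ∀ i, ‖τ i‖ ≤ x) (hα : (n:ℂ) * α = ∑ i, τ i) (hα1 : ‖α‖ ≤ 1/2)
    (hβ : 2 * (n:ℂ) * β = ∑ i, (τ i)^2) (hs : ‖s‖ ≤ x^10/7) (u : ℝ) (hu : x^20/2 ≤ u) :
    ‖(∏ i, ((u:ℂ) - s * τ i)) * Complex.exp (α * s + β * s^2/n) - (u:ℂ)^n‖ ≤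
      u^n * (Real.exp (|u - x^20|/x^10/6 + 1/100) - 1) := by
  have hx0 : 0 < x := by linarith
  have hn0 : (0:ℝ) < n := by rw [← hn]; positivity
  have hu0 : 0 < u := lt_of_lt_of_le (by positivity) hu
  have huC : (u:ℂ) ≠ 0 := by exact_mod_cast hu0.ne'
  have hnC : (n:ℂ) ≠ 0 := by exact_mod_cast hn0.ne'
  have hβ1 := beta_le hn0 hτ hβ
  -- the arguments
  have hw : ∀ i, ‖s * τ i / u‖ ≤ 2/7 / x^9 := by
    intro i
    rw [norm_div, norm_mul, Complex.norm_real, Real.norm_eq_abs, abs_of_pos hu0]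
    rw [div_le_div_iff₀ hu0 (by positivity)]
    calc ‖s‖ * ‖τ i‖ * x^9 ≤ x^10/7 * x * x^9 := by
          gcongr
          exact hτ i
      _ = 2/7 * (x^20/2) := by ring
      _ ≤ 2/7 * u := by gcongr
  have hx9 : (10:ℝ)^9 ≤ x^9 := pow_le_pow_left₀ (by norm_num) hx 9
  have hw2 : ∀ i, ‖s * τ i / u‖ ≤ 1/2 := by
    intro i
    refine (hw i).trans ?_
    rw [div_le_iff₀ (by positivity)]
    nlinarith
  choose r hr1 hr2 using fun i => log_one_sub (s * τ i / u) (hw2 i)
  -- the product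
  have hprod : (∏ i, ((u:ℂ) - s * τ i)) =
      (u:ℂ)^n * Complex.exp (∑ i, (-(s * τ i / u) - (s * τ i / u)^2/2 + r i)) := by
    rw [Complex.exp_sum]
    have : ∀ i, (u:ℂ) - s * τ i = u * Complex.exp (-(s * τ i / u) - (s * τ i / u)^2/2 + r i) := by
      intro i
      rw [← hr2 i]
      field_simp
    rw [Finset.prod_congr rfl (fun i _ => this i), Finset.prod_mul_distrib]
    simp
  have hsum : ∑ i, (-(s * τ i / u) - (s * τ i / u)^2/2 + r i) =
      -(s / u * (n * α)) - (s / u)^2 * (n * β) + ∑ i, r i := by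
    rw [Finset.sum_add_distrib, Finset.sum_sub_distrib]
    congr 1
    congr 1
    · rw [hα, Finset.mul_sum, ← Finset.sum_neg_distrib]
      refine Finset.sum_congr rfl fun i _ => by ring
    · rw [show (s / (u:ℂ))^2 * (n * β) = (s/(u:ℂ))^2/2 * (2 * n * β) by ring, hβ, Finset.mul_sum]
      refine Finset.sum_congr rfl fun i _ => by ring
  set z : ℂ := α * s * ((u - n)/u) + β * s^2 * ((u - n) * (u + n)/(n * u^2)) + ∑ i, r i with hz
  have hexp : (∏ i, ((u:ℂ) - s * τ i)) * Complex.exp (α * s + β * s^2/n) - (u:ℂ)^n =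
      (u:ℂ)^n * (Complex.exp z - 1) := by
    rw [hprod, hsum, mul_assoc, ← Complex.exp_add]
    have : -(s / u * (n * α)) - (s / u)^2 * (n * β) + ∑ i, r i + (α * s + β * s^2/n) = z := by
      rw [hz]
      field_simp
      ring
    rw [this]; ring
  rw [hexp, norm_mul, norm_pow, Complex.norm_real, Real.norm_eq_abs, abs_of_pos hu0]
  gcongr
  refine (exp_sub_one_le z).trans ?_
  gcongr
  -- the norm of z
  have hcast1 : ‖((u:ℂ) - n)‖ = |u - x^20| := by
    rw [hn, show ((u:ℂ) - n) = ((u - n : ℝ) : ℂ) by push_cast; rfl, Complex.norm_real,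
      Real.norm_eq_abs]
  have h1 : ‖α * s * (((u:ℂ) - n)/u)‖ ≤ |u - x^20|/x^10 * (1/7) := by
    rw [norm_mul, norm_mul, norm_div, hcast1, Complex.norm_real, Real.norm_eq_abs,
      abs_of_pos hu0]
    have : |u - x^20| / u ≤ |u - x^20| / (x^20/2) := by gcongr
    calc ‖α‖ * ‖s‖ * (|u - x^20| / u) ≤ 1/2 * (x^10/7) * (|u - x^20| / (x^20/2)) := by
          gcongr
      _ = |u - x^20|/x^10 * (1/7) := by field_simp
  have h2 : ‖β * s^2 * (((u:ℂ) - n) * (u + n)/(n * u^2))‖ ≤ |u - x^20|/x^10 * (1/100) := by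
    have hcast2 : ‖((u:ℂ) + n)‖ = u + x^20 := by
      rw [hn, show ((u:ℂ) + n) = ((u + n : ℝ) : ℂ) by push_cast; rfl, Complex.norm_real,
        Real.norm_eq_abs, abs_of_pos (by positivity)]
    rw [norm_mul, norm_mul, norm_div, norm_mul, norm_mul, norm_pow, norm_pow, hcast1, hcast2,
      Complex.norm_real, Real.norm_eq_abs, abs_of_pos hu0, Complex.norm_natCast, ← hn]
    have h3 : (u + x^20) / u^2 ≤ 6 / x^20 := by
      rw [div_le_div_iff₀ (by positivity) (by positivity)]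
      nlinarith [mul_self_nonneg (2 * u - x^20), mul_nonneg (sub_nonneg.2 hu) hu0.le,
        mul_nonneg (sub_nonneg.2 hu) (by positivity : (0:ℝ) ≤ x^20)]
    calc ‖β‖ * ‖s‖^2 * (|u - x^20| * (u + x^20) / (x^20 * u^2))
        = ‖β‖ * ‖s‖^2 * (|u - x^20| / x^20) * ((u + x^20) / u^2) := by
          field_simp
      _ ≤ x^2/2 * (x^10/7)^2 * (|u - x^20| / x^20) * (6 / x^20) := by gcongr
      _ = |u - x^20|/x^10 * (3/49 / x^8) := by field_simp; ring
      _ ≤ |u - x^20|/x^10 * (1/100) := by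
          refine mul_le_mul_of_nonneg_left ?_ (by positivity)
          rw [div_le_iff₀ (by positivity)]
          have : (10:ℝ)^8 ≤ x^8 := pow_le_pow_left₀ (by norm_num) hx 8
          nlinarith
  have h3 : ‖∑ i, r i‖ ≤ 1/100 := by
    refine (norm_sum_le _ _).trans ?_
    calc ∑ i, ‖r i‖ ≤ ∑ i : Fin n, (2/7 / x^9)^3 := by
          refine Finset.sum_le_sum fun i _ => (hr1 i).trans ?_
          exact pow_le_pow_left₀ (norm_nonneg _) (hw i) 3
      _ = x^20 * (2/7 / x^9)^3 := by simp [hn]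
      _ = (8/343) / x^7 := by field_simp; norm_num
      _ ≤ 1/100 := by
          rw [div_le_iff₀ (by positivity)]
          have : (10:ℝ)^7 ≤ x^7 := pow_le_pow_left₀ (by norm_num) hx 7
          nlinarith
  have h4 : 0 ≤ |u - x^20|/x^10 := by positivity
  calc ‖z‖ ≤ |u - x^20|/x^10 * (1/7) + |u - x^20|/x^10 * (1/100) + 1/100 := by
        rw [hz]
        exact (norm_add_le _ _).trans (add_le_add ((norm_add_le _ _).trans (add_le_add h1 h2)) h3)
    _ ≤ |u - x^20|/x^10/6 + 1/100 := by linarith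

theorem exp_abs_le (y : ℝ) : Real.exp (|y|/6 + 1/100) - 1 ≤
    Real.exp (1/100) * ((1 + y^2)/12 + Real.exp (y/6) + Real.exp (-(y/6)) - 1) - 1 := by
  have h1 : Real.exp (|y|/6) ≤ |y|/6 + Real.exp (y/6) + Real.exp (-(y/6)) - 1 := by
    rcases abs_cases y with ⟨h, h'⟩ | ⟨h, h'⟩
    · rw [h]; have := Real.add_one_le_exp (-(y/6)); linarith
    · rw [h]; have := Real.add_one_le_exp (y/6)
      rw [show -y/6 = -(y/6) by ring]; linarith
  have h2 : |y|/6 ≤ (1 + y^2)/12 := by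
    nlinarith [sq_nonneg (|y| - 1), sq_abs y]
  rw [Real.exp_add, mul_comm]
  have h3 := Real.exp_pos (1/100)
  nlinarith

/-- bound near zero -/
theorem tail_pt {n : ℕ} {x : ℝ} {τ : Fin n → ℂ} {s α β : ℂ} (hx : 10 ≤ x) (hn : x^20 = n)
    (hτ : ∀ i, ‖τ i‖ ≤ x) (hα1 : ‖α‖ ≤ 1/2)
    (hβ : 2 * (n:ℂ) * β = ∑ i, (τ i)^2) (hs : ‖s‖ ≤ x^10/7) (u : ℝ) (hu0 : 0 < u)
    (hu : u ≤ x^20/2) :
    ‖(∏ i, ((u:ℂ) - s * τ i)) * Complex.exp (α * s + β * s^2/n) - (u:ℂ)^n‖ * Real.exp (-u) ≤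
      n.factorial * (1/(100 * x^20)) := by
  have hx0 : 0 < x := by linarith
  have hn0 : (0:ℝ) < n := by rw [← hn]; positivity
  have hβ1 := beta_le hn0 hτ hβ
  have h1 : ‖∏ i, ((u:ℂ) - s * τ i)‖ ≤ (u + x^11)^n := by
    rw [norm_prod]
    calc ∏ i, ‖(u:ℂ) - s * τ i‖ ≤ ∏ i : Fin n, (u + x^11) := by
          refine Finset.prod_le_prod (fun i _ => norm_nonneg _) fun i _ => ?_
          refine (norm_sub_le _ _).trans ?_
          rw [Complex.norm_real, Real.norm_eq_abs, abs_of_pos hu0, norm_mul]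
          have : ‖s‖ * ‖τ i‖ ≤ x^10/7 * x := by gcongr; exact hτ i
          have h11 : x^10/7 * x = x^11/7 := by ring
          have h0 : 0 < x^11 := by positivity
          linarith
      _ = (u + x^11)^n := by simp
  have h2 : ‖Complex.exp (α * s + β * s^2/n)‖ ≤ Real.exp (x^10) := by
    refine (Complex.norm_exp_le_exp_norm _).trans ?_
    refine Real.exp_le_exp.2 ?_
    refine (norm_add_le _ _).trans ?_
    rw [norm_mul, norm_div, norm_mul, norm_pow, Complex.norm_natCast, ← hn]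
    have e1 : ‖α‖ * ‖s‖ ≤ 1/2 * (x^10/7) := by gcongr
    have e2 : ‖β‖ * ‖s‖^2 / x^20 ≤ x^2/2 * (x^10/7)^2 / x^20 := by gcongr
    have e3 : x^2/2 * (x^10/7)^2 / x^20 = x^2/98 := by field_simp; norm_num
    have e4 : x^2 ≤ x^10 := pow_le_pow_right₀ (by linarith) (by norm_num)
    have e5 : 0 < x^10 := by positivity
    rw [e3] at e2
    linarith
  have h3 : (u + x^11)^n ≤ n.factorial * (Real.exp (2 * (u + x^11)) / 2^n) := by
    have h := Real.pow_div_factorial_le_exp (2 * (u + x^11)) (by positivity) n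
    rw [div_le_iff₀ (by positivity), mul_pow] at h
    rw [← mul_div_assoc, le_div_iff₀ (by positivity)]
    linarith
  have h4 : u^n ≤ (u + x^11)^n := pow_le_pow_left₀ hu0.le (by linarith [pow_pos hx0 11]) n
  have h5 : ‖(∏ i, ((u:ℂ) - s * τ i)) * Complex.exp (α * s + β * s^2/n) - (u:ℂ)^n‖ ≤
      (u + x^11)^n * (2 * Real.exp (x^10)) := by
    refine (norm_sub_le _ _).trans ?_
    rw [norm_mul, norm_pow, Complex.norm_real, Real.norm_eq_abs, abs_of_pos hu0]
    have e1 : (1:ℝ) ≤ Real.exp (x^10) := Real.one_le_exp (by positivity)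
    have e2 : ‖∏ i, ((u:ℂ) - s * τ i)‖ * ‖Complex.exp (α * s + β * s^2/n)‖ ≤
        (u + x^11)^n * Real.exp (x^10) := by gcongr
    have e3 : u^n ≤ (u + x^11)^n * Real.exp (x^10) := by
      calc u^n ≤ (u + x^11)^n := h4
        _ ≤ (u + x^11)^n * Real.exp (x^10) := le_mul_of_one_le_right (by positivity) e1
    linarith
  have h6 : (2:ℝ)^n = Real.exp (x^20 * Real.log 2) := by
    rw [hn, mul_comm, Real.exp_mul, Real.exp_log (by norm_num), Real.rpow_natCast]
  have hf : (0:ℝ) < n.factorial := by positivity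
  calc ‖(∏ i, ((u:ℂ) - s * τ i)) * Complex.exp (α * s + β * s^2/n) - (u:ℂ)^n‖ * Real.exp (-u)
      ≤ (n.factorial * (Real.exp (2 * (u + x^11)) / 2^n)) * (2 * Real.exp (x^10)) *
          Real.exp (-u) := by
        have := h5.trans (mul_le_mul_of_nonneg_right h3
          (by positivity : (0:ℝ) ≤ 2 * Real.exp (x^10)))
        exact mul_le_mul_of_nonneg_right this (Real.exp_pos _).le
    _ = n.factorial * (2 * Real.exp (u + 2 * x^11 + x^10 - x^20 * Real.log 2)) := by
        rw [h6, ← Real.exp_sub]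
        have : Real.exp (u + 2 * x^11 + x^10 - x^20 * Real.log 2) =
          Real.exp (2 * (u + x^11) - x^20 * Real.log 2) * Real.exp (x^10) * Real.exp (-u) := by
          rw [← Real.exp_add, ← Real.exp_add]; congr 1; ring
        rw [this]; ring
    _ ≤ n.factorial * (1/(100 * x^20)) := by
        gcongr
        have hl := Real.log_two_gt_d9
        have a1 : 2 * x^11 + x^10 ≤ x^20/100 := by
          have b1 : (10:ℝ)^9 ≤ x^9 := pow_le_pow_left₀ (by norm_num) hx 9
          have b2 : (10:ℝ)^10 ≤ x^10 := pow_le_pow_left₀ (by norm_num) hx 10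
          have b3 : x^11 * 10^9 ≤ x^20 := by
            calc x^11 * 10^9 ≤ x^11 * x^9 := by gcongr
              _ = x^20 := by ring
          have b4 : x^10 * 10^10 ≤ x^20 := by
            calc x^10 * 10^10 ≤ x^10 * x^10 := by gcongr
              _ = x^20 := by ring
          have b5 : 0 < x^11 := by positivity
          have b6 : 0 < x^10 := by positivity
          nlinarith
        have hX : (0:ℝ) < x^20 := by positivity
        have a2 : u + 2 * x^11 + x^10 - x^20 * Real.log 2 ≤ -(x^20/10) := by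
          nlinarith
        have a3 : Real.exp (u + 2 * x^11 + x^10 - x^20 * Real.log 2) ≤ Real.exp (-(x^20/10)) :=
          Real.exp_le_exp.2 a2
        have a4 : (x^20/10)^2/2 ≤ Real.exp (x^20/10) := by
          have := Real.quadratic_le_exp_of_nonneg (x := x^20/10) (by positivity)
          nlinarith
        have a5 : (10:ℝ)^20 ≤ x^20 := pow_le_pow_left₀ (by norm_num) hx 20
        calc 2 * Real.exp (u + 2 * x^11 + x^10 - x^20 * Real.log 2) ≤
              2 * Real.exp (-(x^20/10)) := by linarith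
          _ ≤ 1/(100 * x^20) := by
              rw [Real.exp_neg, ← div_eq_mul_inv, div_le_div_iff₀ (Real.exp_pos _) (by positivity)]
              nlinarith

theorem exp_mom (x δ : ℝ) (n : ℕ) (hx : 10 ≤ x) (hn : x^20 = n) (hδ : |δ| = 1/(6 * x^10)) :
    Real.exp (-(δ * n)) * (1/(1-δ)^(n+1)) ≤ 102/100 := by
  have hx0 : 0 < x := by linarith
  have b2 : (10:ℝ)^10 ≤ x^10 := pow_le_pow_left₀ (by norm_num) hx 10
  have hd : |δ| ≤ 1/10^10 := by
    rw [hδ]
    exact one_div_le_one_div_of_le (by positivity) (by linarith)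
  have hd1 := abs_le.1 hd
  have h1 : 0 < 1 - δ := by norm_num at hd1; linarith
  have h2 : 1/(1-δ)^(n+1) = Real.exp (-((n+1) * Real.log (1-δ))) := by
    rw [Real.exp_neg, one_div]
    congr 1
    rw [mul_comm, Real.exp_mul, Real.exp_log h1]
    norm_cast
  rw [h2, ← Real.exp_add]
  have h3 := Real.abs_log_sub_add_sum_range_le (x := δ) (by norm_num at hd ⊢; linarith) 2
  simp only [Finset.sum_range_succ, Finset.sum_range_zero] at h3
  norm_num at h3
  have h4 : |δ|^3/(1 - |δ|) ≤ 2 * |δ|^3 := by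
    rw [div_le_iff₀ (by norm_num at hd ⊢; linarith)]
    have : 0 ≤ |δ|^3 := by positivity
    norm_num at hd
    nlinarith
  have h5 := (abs_le.1 (h3.trans h4)).1
  have hδ2 : δ^2 * n = 1/36 := by
    rw [← sq_abs, hδ, ← hn]; field_simp; norm_num
  have hδ3 : |δ|^3 * n = |δ|/36 := by
    rw [show |δ|^3 * n = |δ| * (|δ|^2 * n) by ring, sq_abs, hδ2]; ring
  have hn0 : (0:ℝ) < n := by rw [← hn]; positivity
  have h6 : -(δ * n) + -((n+1) * Real.log (1-δ)) ≤ 1/60 := by
    have h7 : -Real.log (1-δ) ≤ δ + δ^2/2 + 2 * |δ|^3 := by linarith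
    have h8 : ((n:ℝ)+1) * (-Real.log (1-δ)) ≤ (n+1) * (δ + δ^2/2 + 2 * |δ|^3) := by
      gcongr
    have h9 : ((n:ℝ)+1) * (δ + δ^2/2 + 2 * |δ|^3) = n * δ + δ + (δ^2 * n)/2 + δ^2/2 +
        2 * (|δ|^3 * n) + 2 * |δ|^3 := by ring
    rw [h9, hδ2, hδ3] at h8
    have h10 : δ^2 ≤ 1/10^10 := by
      rw [← sq_abs]; norm_num at hd ⊢; nlinarith [abs_nonneg δ]
    have h11 : |δ|^3 ≤ 1/10^10 := by
      have : |δ|^3 ≤ (1/10^10)^3 := pow_le_pow_left₀ (abs_nonneg _) hd 3
      refine this.trans (by norm_num)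
    norm_num at hd hd1 h10 h11
    linarith
  calc Real.exp (-(δ * n) + -((n+1) * Real.log (1-δ))) ≤ Real.exp (1/60) := Real.exp_le_exp.2 h6
    _ ≤ 102/100 := by
      have := Real.exp_bound' (x := 1/60) (by norm_num) (by norm_num) (n := 2) (by norm_num)
      norm_num [Finset.sum_range_succ, Nat.factorial] at this
      linarith


/-- the pointwise bound in the main region -/
noncomputable def G1 (n : ℕ) (x u : ℝ) : ℝ :=
  Real.exp (1/100) * (u^n * Real.exp (-u) * (1/12) + u^n * (u - n)^2 * Real.exp (-u) * (1/(12 * x^20)) +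
    u^n * Real.exp (-((1 - 1/(6*x^10)) * u)) * Real.exp (-(1/(6*x^10) * n)) +
    u^n * Real.exp (-((1 + 1/(6*x^10)) * u)) * Real.exp (1/(6*x^10) * n) -
    u^n * Real.exp (-u)) - u^n * Real.exp (-u)

theorem G1_eq {n : ℕ} {x : ℝ} (hx : 10 ≤ x) (hn : x^20 = n) (u : ℝ) :
    G1 n x u = u^n * (Real.exp (1/100) * ((1 + ((u - x^20)/x^10)^2)/12 +
      Real.exp ((u - x^20)/x^10/6) + Real.exp (-((u - x^20)/x^10/6)) - 1) - 1) * Real.exp (-u) := by
  have hx0 : 0 < x := by linarith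
  have e1 : Real.exp (-((1 - 1/(6*x^10)) * u)) * Real.exp (-(1/(6*x^10) * n)) =
      Real.exp ((u - x^20)/x^10/6) * Real.exp (-u) := by
    rw [← Real.exp_add, ← Real.exp_add, ← hn]
    congr 1
    field_simp
    ring
  have e2 : Real.exp (-((1 + 1/(6*x^10)) * u)) * Real.exp (1/(6*x^10) * n) =
      Real.exp (-((u - x^20)/x^10/6)) * Real.exp (-u) := by
    rw [← Real.exp_add, ← Real.exp_add, ← hn]
    congr 1
    field_simp
    ring
  unfold G1
  rw [mul_assoc (u^n) (Real.exp (-((1 - 1/(6*x^10)) * u))), e1,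
    mul_assoc (u^n) (Real.exp (-((1 + 1/(6*x^10)) * u))), e2, ← hn]
  have e3 : ((u - x^20)/x^10)^2 = (u - x^20)^2 / x^20 := by
    rw [div_pow, ← pow_mul]
  rw [e3]
  field_simp

theorem G1_nonneg {n : ℕ} {x : ℝ} (hx : 10 ≤ x) (hn : x^20 = n) (u : ℝ) (hu : 0 < u) :
    0 ≤ G1 n x u := by
  rw [G1_eq hx hn]
  have h := exp_abs_le ((u - x^20)/x^10)
  have h2 : 1 ≤ Real.exp (|(u - x^20)/x^10|/6 + 1/100) := Real.one_le_exp (by positivity)
  have h3 : 0 ≤ Real.exp (1/100) * ((1 + ((u - x^20)/x^10)^2)/12 +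
      Real.exp ((u - x^20)/x^10/6) + Real.exp (-((u - x^20)/x^10/6)) - 1) - 1 := by linarith
  positivity

theorem G1_int {n : ℕ} {x : ℝ} (hx : 10 ≤ x) (hn : x^20 = n) :
    IntegrableOn (G1 n x) (Set.Ioi 0) ∧
      ∫ u in Set.Ioi (0:ℝ), G1 n x u ≤ n.factorial * (1/4) := by
  have hx0 : 0 < x := by linarith
  have b2 : (10:ℝ)^10 ≤ x^10 := pow_le_pow_left₀ (by norm_num) hx 10
  have hd : 1/(6*x^10) ≤ 1/2 := by
    apply one_div_le_one_div_of_le (by norm_num)
    norm_num at b2; linarith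
  have hd0 : 0 < 1/(6*x^10) := by positivity
  have i1 := integ_pow1 n
  have i2 := integ_sq n
  have i3 := integ_pow n (1 - 1/(6*x^10)) (by linarith)
  have i4 := integ_pow n (1 + 1/(6*x^10)) (by linarith)
  have v1 := int_pow1 n
  have v2 := int_sq n
  have v3 := int_pow n (1 - 1/(6*x^10)) (by linarith)
  have v4 := int_pow n (1 + 1/(6*x^10)) (by linarith)
  have j1 := i1.mul_const (1/12)
  have j2 := i2.mul_const (1/(12 * x^20))
  have j3 := i3.mul_const (Real.exp (-(1/(6*x^10) * n)))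
  have j4 := i4.mul_const (Real.exp (1/(6*x^10) * n))
  have j12 : Integrable (fun u : ℝ => u^n * Real.exp (-u) * (1/12) +
    u^n * (u - n)^2 * Real.exp (-u) * (1/(12 * x^20))) (volume.restrict (Set.Ioi 0)) := j1.add j2
  have j123 : Integrable (fun u : ℝ => u^n * Real.exp (-u) * (1/12) +
    u^n * (u - n)^2 * Real.exp (-u) * (1/(12 * x^20)) +
    u^n * Real.exp (-((1 - 1/(6*x^10)) * u)) * Real.exp (-(1/(6*x^10) * n)))
      (volume.restrict (Set.Ioi 0)) := j12.add j3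
  have j1234 : Integrable (fun u : ℝ => u^n * Real.exp (-u) * (1/12) +
    u^n * (u - n)^2 * Real.exp (-u) * (1/(12 * x^20)) +
    u^n * Real.exp (-((1 - 1/(6*x^10)) * u)) * Real.exp (-(1/(6*x^10) * n)) +
    u^n * Real.exp (-((1 + 1/(6*x^10)) * u)) * Real.exp (1/(6*x^10) * n))
      (volume.restrict (Set.Ioi 0)) := j123.add j4
  have j5 : Integrable (fun u : ℝ => u^n * Real.exp (-u) * (1/12) +
    u^n * (u - n)^2 * Real.exp (-u) * (1/(12 * x^20)) +
    u^n * Real.exp (-((1 - 1/(6*x^10)) * u)) * Real.exp (-(1/(6*x^10) * n)) +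
    u^n * Real.exp (-((1 + 1/(6*x^10)) * u)) * Real.exp (1/(6*x^10) * n) -
    u^n * Real.exp (-u)) (volume.restrict (Set.Ioi 0)) := j1234.sub i1
  have j6 := j5.const_mul (Real.exp (1/100))
  have hint : IntegrableOn (G1 n x) (Set.Ioi 0) := j6.sub i1
  refine ⟨hint, ?_⟩
  unfold G1
  rw [integral_sub j6 i1, integral_const_mul, integral_sub j1234 i1, integral_add j123 j4,
    integral_add j12 j3, integral_add j1 j2, integral_mul_const, integral_mul_const,
    integral_mul_const, integral_mul_const, v1, v2, v3, v4]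
  have hn0 : (0:ℝ) < n := by rw [← hn]; positivity
  have m3 := exp_mom x (1/(6*x^10)) n hx hn (abs_of_pos hd0)
  have m4 := exp_mom x (-(1/(6*x^10))) n hx hn (by rw [abs_neg, abs_of_pos hd0])
  rw [show (1 - -(1/(6*x^10))) = 1 + 1/(6*x^10) by ring,
    show -(-(1/(6*x^10)) * (n:ℝ)) = 1/(6*x^10) * n by ring] at m4
  have hf : (0:ℝ) < n.factorial := by positivity
  have a5 : (10:ℝ)^20 ≤ x^20 := pow_le_pow_left₀ (by norm_num) hx 20
  have m2 : ((n:ℝ) + 2) * (1/(12 * x^20)) ≤ 84/1000 := by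
    rw [← hn, ← div_eq_mul_one_div, div_le_iff₀ (by positivity)]
    nlinarith
  have m0 : Real.exp (1/100) ≤ 102/100 := by
    have := Real.exp_bound' (x := 1/100) (by norm_num) (by norm_num) (n := 2) (by norm_num)
    norm_num [Finset.sum_range_succ, Nat.factorial] at this
    norm_num
    linarith
  have m1 : 1 ≤ Real.exp (1/100) := Real.one_le_exp (by norm_num)
  set A := Real.exp (-(1/(6*x^10) * (n:ℝ))) * (1/(1 - 1/(6*x^10))^(n+1)) with hA
  set B := Real.exp (1/(6*x^10) * (n:ℝ)) * (1/(1 + 1/(6*x^10))^(n+1)) with hB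
  set D := ((n:ℝ) + 2) * (1/(12 * x^20)) with hD
  have : Real.exp (1/100) * ((n.factorial:ℝ) * (1/12) +
      ((n:ℝ) + 2) * n.factorial * (1/(12 * x^20)) +
      (n.factorial:ℝ) / (1 - 1/(6*x^10))^(n+1) * Real.exp (-(1/(6*x^10) * (n:ℝ))) +
      (n.factorial:ℝ) / (1 + 1/(6*x^10))^(n+1) * Real.exp (1/(6*x^10) * (n:ℝ)) - n.factorial) -
      n.factorial = n.factorial * (Real.exp (1/100) * (1/12 + D + A + B - 1) - 1) := by
    rw [hA, hB, hD]; ring
  rw [this]
  refine mul_le_mul_of_nonneg_left ?_ hf.le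
  have hq : 0 < 1 - 1/(6*x^10) := by linarith
  have hA0 : 0 ≤ A := by
    rw [hA]
    exact mul_nonneg (Real.exp_pos _).le (one_div_nonneg.2 (pow_pos hq _).le)
  have hB0 : 0 ≤ B := by rw [hB]; positivity
  have hD0 : 0 ≤ D := by positivity
  have h7 : 1/12 + D + A + B - 1 ≤ 1208/1000 := by linarith
  have h8 : Real.exp (1/100) * (1/12 + D + A + B - 1) ≤ 102/100 * (1208/1000) := by
    calc Real.exp (1/100) * (1/12 + D + A + B - 1) ≤ Real.exp (1/100) * (1208/1000) := by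
          gcongr
      _ ≤ 102/100 * (1208/1000) := by gcongr
  norm_num at h8 ⊢
  linarith

theorem GI_int {n : ℕ} (τ : Fin n → ℂ) (s : ℂ) :
    IntegrableOn (fun u : ℝ => (∏ i, ((u : ℂ) - s * τ i)) * (Real.exp (-u) : ℂ)) (Set.Ioi 0) := by
  have h := integ_poly (∏ i, (X - C (s * τ i)))
  refine h.congr_fun (fun u _ => ?_) measurableSet_Ioi
  simp only [eval_prod, eval_sub, eval_X, eval_C]

theorem asymp {n : ℕ} {x : ℝ} {τ : Fin n → ℂ} {s α β : ℂ} (hx : 10 ≤ x) (hn : x^20 = n)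
    (hτ : ∀ i, ‖τ i‖ ≤ x) (hα : (n:ℂ) * α = ∑ i, τ i) (hα1 : ‖α‖ ≤ 1/2)
    (hβ : 2 * (n:ℂ) * β = ∑ i, (τ i)^2) (hs : ‖s‖ ≤ x^10/7) :
    ‖GI τ s * Complex.exp (α * s + β * s ^ 2 / n) / n.factorial - 1‖ ≤ 2 / 5 := by
  have hx0 : 0 < x := by linarith
  have hf : (0:ℝ) < n.factorial := by positivity
  have hfC : (n.factorial:ℂ) ≠ 0 := by exact_mod_cast hf.ne'
  set E := Complex.exp (α * s + β * s ^ 2 / n) with hE
  have hI := GI_int τ s
  have hI0 : IntegrableOn (fun u : ℝ => (u:ℂ)^n * (Real.exp (-u) : ℂ)) (Set.Ioi 0) := by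
    have h := integ_poly (X^n)
    refine h.congr_fun (fun u _ => ?_) measurableSet_Ioi
    simp only [eval_pow, eval_X]
  have hv0 : ∫ u in Set.Ioi (0:ℝ), (u:ℂ)^n * (Real.exp (-u) : ℂ) = n.factorial := by
    have h := int_pow1 n
    have h2 : ∫ u in Set.Ioi (0:ℝ), ((u^n * Real.exp (-u) : ℝ) : ℂ) = ((n.factorial : ℝ) : ℂ) := by
      rw [integral_complex_ofReal, h]
    rw [← Complex.ofReal_natCast, ← h2]
    refine integral_congr_ae (Filter.Eventually.of_forall fun u => ?_)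
    simp only [Complex.ofReal_mul, Complex.ofReal_pow]
  have hdiff : GI τ s * E - n.factorial = ∫ u in Set.Ioi (0:ℝ),
      ((∏ i, ((u : ℂ) - s * τ i)) * E - (u:ℂ)^n) * (Real.exp (-u) : ℂ) := by
    rw [← hv0]
    unfold GI
    rw [← integral_mul_const, ← integral_sub (hI.mul_const E) hI0]
    refine integral_congr_ae (Filter.Eventually.of_forall fun u => ?_)
    simp only
    ring
  have hbound : ‖GI τ s * E - n.factorial‖ ≤ n.factorial * (2/5) := by
    rw [hdiff]
    set K : ℝ := n.factorial * (1/(100 * x^20)) with hK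
    have hK0 : 0 ≤ K := by positivity
    have hind : IntegrableOn (Set.indicator (Set.Ioc (0:ℝ) (x^20/2)) (fun _ => K)) (Set.Ioi 0) := by
      have : Integrable (Set.indicator (Set.Ioc (0:ℝ) (x^20/2)) (fun _ => K)) volume := by
        rw [integrable_indicator_iff measurableSet_Ioc]
        exact integrableOn_const (by simp) (by simp)
      exact this.integrableOn
    obtain ⟨hG1, hG2⟩ := G1_int hx hn
    have hb : ‖∫ u in Set.Ioi (0:ℝ),
      ((∏ i, ((u : ℂ) - s * τ i)) * E - (u:ℂ)^n) * (Real.exp (-u) : ℂ)‖ ≤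
        ∫ u in Set.Ioi (0:ℝ), (G1 n x u + Set.indicator (Set.Ioc (0:ℝ) (x^20/2)) (fun _ => K) u) := by
      refine norm_integral_le_of_norm_le (hG1.add hind) ?_
      refine (ae_restrict_iff' measurableSet_Ioi).2 (Filter.Eventually.of_forall fun u hu => ?_)
      have hu0 : 0 < u := hu
      rw [norm_mul, Complex.norm_real, Real.norm_eq_abs, abs_of_pos (Real.exp_pos _)]
      have hGn := G1_nonneg hx hn u hu0
      rcases le_total u (x^20/2) with h | h
      · have h1 := tail_pt hx hn hτ hα1 hβ hs u hu0 h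
        rw [Set.indicator_of_mem (show u ∈ Set.Ioc (0:ℝ) (x^20/2) from ⟨hu0, h⟩)]
        linarith
      · have h1 := main_pt hx hn hτ hα hα1 hβ hs u h
        have h2 := exp_abs_le ((u - x^20)/x^10)
        have h3 : 0 ≤ Set.indicator (Set.Ioc (0:ℝ) (x^20/2)) (fun _ => K) u :=
          Set.indicator_nonneg (fun _ _ => hK0) u
        have h4 : |(u - x^20)/x^10| = |u - x^20|/x^10 := by
          rw [abs_div, abs_of_pos (by positivity : 0 < x^10)]
        rw [h4] at h2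
        have h5 : ‖(∏ i, ((u:ℂ) - s * τ i)) * E - (u:ℂ)^n‖ * Real.exp (-u) ≤ G1 n x u := by
          rw [G1_eq hx hn]
          refine mul_le_mul_of_nonneg_right (h1.trans ?_) (Real.exp_pos _).le
          exact mul_le_mul_of_nonneg_left h2 (by positivity)
        linarith
    refine hb.trans ?_
    rw [integral_add hG1 hind]
    have hv : ∫ u in Set.Ioi (0:ℝ), Set.indicator (Set.Ioc (0:ℝ) (x^20/2)) (fun _ => K) u =
        K * (x^20/2) := by
      rw [setIntegral_indicator measurableSet_Ioc, Set.inter_eq_self_of_subset_right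
        Set.Ioc_subset_Ioi_self, setIntegral_const]
      simp [mul_comm]
      left
      positivity
    rw [hv]
    have : K * (x^20/2) = n.factorial * (1/200) := by rw [hK]; field_simp; norm_num
    rw [this]
    have := hG2
    linarith
  have : GI τ s * E / n.factorial - 1 = (GI τ s * E - n.factorial) / n.factorial := by
    field_simp
  rw [this, norm_div, Complex.norm_natCast, div_le_iff₀ hf]
  linarith

end PlC

/-- **asymptotic value of the Gamma integral** -/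
theorem GI_asymp : ∃ X0 : ℝ, 1 ≤ X0 ∧ ∀ (n : ℕ) (x : ℝ) (τ : Fin n → ℂ) (s α β : ℂ),
    X0 ≤ x → x ^ 20 = n → (∀ i, ‖τ i‖ ≤ x) → (n : ℂ) * α = ∑ i, τ i → ‖α‖ ≤ 1 / 2 →
    2 * (n : ℂ) * β = ∑ i, (τ i) ^ 2 → ‖s‖ ≤ x ^ 10 / 7 →
    ‖GI τ s * Complex.exp (α * s + β * s ^ 2 / n) / n.factorial - 1‖ ≤ 2 / 5 :=
  ⟨10, by norm_num, fun _ _ _ _ _ _ hx hn hτ hα hα1 hβ hs => PlC.asymp hx hn hτ hα hα1 hβ hs⟩

end Pool.Agent.Lib.FenceAF
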