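import Pool.Agent.Lib.MP_7d55f0_co.AF.SDefs

set_option autoImplicit false

namespace Pool.Agent.Lib.FenceAF

open Polynomial Finset Real

/-- the point of the upper half plane used in the Lipschitz formula -/
theorem plD_shift (v : ℝ) (d : ℤ) :
    (1 / 2 : ℂ) + Complex.I * (v / π) + d =
      Complex.I / (2 * π) * (2 * (v : ℂ) - Complex.I * π * (2 * d + 1)) := by
  have hπ : (π : ℂ) ≠ 0 := by exact_mod_cast Real.pi_ne_zero
  field_simp
  ring_nf
  simp only [Complex.I_sq]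
  ring

theorem plD_inv (v : ℝ) (d : ℤ) (k : ℕ) :
    1 / ((1 / 2 : ℂ) + Complex.I * (v / π) + d) ^ (k + 1) =
      (-2 * π * Complex.I) ^ (k + 1) *
        (1 / (2 * (v : ℂ) - Complex.I * π * (2 * d + 1)) ^ (k + 1)) := by
  have hπ : (π : ℂ) ≠ 0 := by exact_mod_cast Real.pi_ne_zero
  rw [plD_shift, mul_pow, one_div, mul_inv, ← inv_pow, one_div]
  congr 2
  rw [inv_div, div_eq_iff Complex.I_ne_zero]
  ring_nf
  simp only [Complex.I_sq]
  ring

theorem plD_summable (v : ℝ) (k : ℕ) (hk : 1 ≤ k) :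
    Summable fun d : ℤ => 1 / (2 * (v : ℂ) - Complex.I * π * (2 * d + 1)) ^ (k + 1) := by
  have hπ : (π : ℂ) ≠ 0 := by exact_mod_cast Real.pi_ne_zero
  have h1 := EisensteinSeries.linear_right_summable ((1 / 2 : ℂ) + Complex.I * (v / π)) 1
    (k := ((k + 1 : ℕ) : ℤ)) (by push_cast; lia)
  have h2 : Summable fun d : ℤ => 1 / ((1 / 2 : ℂ) + Complex.I * (v / π) + d) ^ (k + 1) := by
    refine h1.congr fun d => ?_
    rw [zpow_natCast, Int.cast_one, one_mul, one_div ((1 / 2 + Complex.I * (v / π) + d) ^ (k + 1))]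
  have h3 : ((-2 * π * Complex.I) ^ (k + 1) : ℂ) ≠ 0 := by
    apply pow_ne_zero
    simp [hπ]
  have h4 := h2.mul_left ((-2 * π * Complex.I) ^ (k + 1) : ℂ)⁻¹
  refine h4.congr fun d => ?_
  rw [plD_inv, inv_mul_cancel_left₀ h3]

/-- Lipschitz formula -/
theorem lipschitz (k : ℕ) (hk : 1 ≤ k) (v : ℝ) (hv : 0 < v) :
    ∑' m : ℕ, (-1 : ℂ) ^ m * (m : ℂ) ^ k * (Real.exp (-(2 * v)) : ℂ) ^ m =
      (k.factorial : ℂ) * ∑' d : ℤ, 1 / (2 * (v : ℂ) - Complex.I * π * (2 * d + 1)) ^ (k + 1) := by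
  have hπ : (π : ℂ) ≠ 0 := by exact_mod_cast Real.pi_ne_zero
  have him : 0 < ((1 / 2 : ℂ) + Complex.I * (v / π)).im := by
    have : ((1 / 2 : ℂ) + Complex.I * (v / π)).im = v / π := by
      rw [← Complex.ofReal_div]
      simp
    rw [this]
    positivity
  have h1 := EisensteinSeries.qExpansion_identity hk ⟨(1 / 2 : ℂ) + Complex.I * (v / π), him⟩
  have h3 : ((-2 * π * Complex.I) ^ (k + 1) : ℂ) ≠ 0 := by
    apply pow_ne_zero
    simp [hπ]
  have hk0 : (k.factorial : ℂ) ≠ 0 := by exact_mod_cast k.factorial_ne_zero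
  have hexp : Complex.exp (2 * π * Complex.I * ((1 / 2 : ℂ) + Complex.I * (v / π))) =
      -(Real.exp (-(2 * v)) : ℂ) := by
    have : 2 * π * Complex.I * ((1 / 2 : ℂ) + Complex.I * (v / π)) =
        π * Complex.I + ((-(2 * v) : ℝ) : ℂ) := by
      push_cast
      field_simp
      ring_nf
      simp only [Complex.I_sq]
      ring
    rw [this, Complex.exp_add, Complex.exp_pi_mul_I, Complex.ofReal_exp]
    ring
  have h2 : ∑' d : ℤ, 1 / (((1 / 2 : ℂ) + Complex.I * (v / π)) + d) ^ (k + 1) =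
      (-2 * π * Complex.I) ^ (k + 1) *
        ∑' d : ℤ, 1 / (2 * (v : ℂ) - Complex.I * π * (2 * d + 1)) ^ (k + 1) := by
    rw [← tsum_mul_left]
    exact tsum_congr fun d => plD_inv v d k
  have h4 : ∑' m : ℕ, (m : ℂ) ^ k * Complex.exp (2 * π * Complex.I *
      ((1 / 2 : ℂ) + Complex.I * (v / π))) ^ m =
      ∑' m : ℕ, (-1 : ℂ) ^ m * (m : ℂ) ^ k * (Real.exp (-(2 * v)) : ℂ) ^ m := by
    refine tsum_congr fun m => ?_
    rw [hexp, neg_pow]
    ring
  have h5 : (-2 * π * Complex.I) ^ (k + 1) *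
        ∑' d : ℤ, 1 / (2 * (v : ℂ) - Complex.I * π * (2 * d + 1)) ^ (k + 1) =
      ((-2 * π * Complex.I) ^ (k + 1) / k.factorial) *
      ∑' m : ℕ, (-1 : ℂ) ^ m * (m : ℂ) ^ k * (Real.exp (-(2 * v)) : ℂ) ^ m := by
    rw [← h2, ← h4]
    exact h1
  rw [div_mul_eq_mul_div, eq_div_iff hk0] at h5
  have h6 : (-2 * π * Complex.I) ^ (k + 1) *
      (∑' m : ℕ, (-1 : ℂ) ^ m * (m : ℂ) ^ k * (Real.exp (-(2 * v)) : ℂ) ^ m) =
      (-2 * π * Complex.I) ^ (k + 1) * ((k.factorial : ℂ) *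
        ∑' d : ℤ, 1 / (2 * (v : ℂ) - Complex.I * π * (2 * d + 1)) ^ (k + 1)) := by
    rw [← h5]
    ring
  exact mul_left_cancel₀ h3 h6

theorem plD_norm (v : ℝ) (hv : 0 < v) : ‖(Real.exp (-(2 * v)) : ℂ)‖ < 1 := by
  rw [Complex.norm_real, Real.norm_eq_abs, abs_of_pos (Real.exp_pos _)]
  exact Real.exp_lt_one_iff.mpr (by linarith)

theorem plD_summable_nat (v : ℝ) (hv : 0 < v) (k : ℕ) :
    Summable fun m : ℕ => (-1 : ℂ) ^ m * (m : ℂ) ^ k * (Real.exp (-(2 * v)) : ℂ) ^ m := by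
  have h := summable_pow_mul_geometric_of_norm_lt_one (R := ℂ) k
    (r := -(Real.exp (-(2 * v)) : ℂ)) (by rw [norm_neg]; exact plD_norm v hv)
  refine h.congr fun m => ?_
  rw [neg_pow (Real.exp (-(2 * v)) : ℂ)]
  ring

/-- the alternating sum of a polynomial -/
theorem alt_poly (Q : ℂ[X]) (v : ℝ) (hv : 0 < v) :
    ∑' m : ℕ, (-1 : ℂ) ^ (m + 1) * Q.eval ((m : ℂ) + 1) * (Real.exp (-(2 * v)) : ℂ) ^ (m + 1) =
      ∑' d : ℤ, LQ Q (2 * (v : ℂ) - Complex.I * π * (2 * d + 1)) -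
        Q.coeff 0 / (1 + (Real.exp (2 * v) : ℂ)) := by
  set r : ℂ := (Real.exp (-(2 * v)) : ℂ) with hr
  have hr1 : ‖r‖ < 1 := plD_norm v hv
  -- the series in `m`
  have hs : ∀ k : ℕ, Summable fun m : ℕ => (-1 : ℂ) ^ m * (m : ℂ) ^ k * r ^ m := fun k =>
    plD_summable_nat v hv k
  have hs1 : ∀ k : ℕ, Summable fun m : ℕ =>
      (-1 : ℂ) ^ (m + 1) * ((m : ℂ) + 1) ^ k * r ^ (m + 1) := by
    intro k
    have := (summable_nat_add_iff 1).mpr (hs k)
    refine this.congr fun m => ?_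
    push_cast
    rfl
  have h1 : ∀ m : ℕ, (-1 : ℂ) ^ (m + 1) * Q.eval ((m : ℂ) + 1) * r ^ (m + 1) =
      ∑ k ∈ range (Q.natDegree + 1), Q.coeff k *
        ((-1 : ℂ) ^ (m + 1) * ((m : ℂ) + 1) ^ k * r ^ (m + 1)) := by
    intro m
    rw [Polynomial.eval_eq_sum_range, Finset.mul_sum, Finset.sum_mul]
    exact Finset.sum_congr rfl fun k _ => by ring
  have h2 : ∑' m : ℕ, (-1 : ℂ) ^ (m + 1) * Q.eval ((m : ℂ) + 1) * r ^ (m + 1) =
      ∑ k ∈ range (Q.natDegree + 1), Q.coeff k *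
        ∑' m : ℕ, ((-1 : ℂ) ^ (m + 1) * ((m : ℂ) + 1) ^ k * r ^ (m + 1)) := by
    simp_rw [h1]
    rw [Summable.tsum_finsetSum fun k _ => (hs1 k).mul_left _]
    exact Finset.sum_congr rfl fun k _ => tsum_mul_left
  -- value for `k ≥ 1`
  have h3 : ∀ k : ℕ, 1 ≤ k → ∑' m : ℕ, ((-1 : ℂ) ^ (m + 1) * ((m : ℂ) + 1) ^ k * r ^ (m + 1)) =
      (k.factorial : ℂ) * ∑' d : ℤ, 1 / (2 * (v : ℂ) - Complex.I * π * (2 * d + 1)) ^ (k + 1) := by
    intro k hk
    rw [← lipschitz k hk v hv, (hs k).tsum_eq_zero_add]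
    have : (k : ℕ) ≠ 0 := by omega
    simp only [Nat.cast_zero, zero_pow this, mul_zero, zero_mul, zero_add]
    refine tsum_congr fun m => ?_
    push_cast
    rfl
  -- value for `k = 0`
  have h4 : ∑' m : ℕ, ((-1 : ℂ) ^ (m + 1) * ((m : ℂ) + 1) ^ 0 * r ^ (m + 1)) =
      -(1 / (1 + (Real.exp (2 * v) : ℂ))) := by
    have h5 : ∀ m : ℕ, (-1 : ℂ) ^ (m + 1) * ((m : ℂ) + 1) ^ 0 * r ^ (m + 1) =
        (-r) * (-r) ^ m := by
      intro m
      rw [pow_zero, mul_one, ← mul_pow, ← pow_succ']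
      congr 1
      ring
    simp_rw [h5]
    rw [tsum_mul_left, tsum_geometric_of_norm_lt_one (by rwa [norm_neg])]
    have h6 : r * (Real.exp (2 * v) : ℂ) = 1 := by
      rw [hr, ← Complex.ofReal_mul, ← Real.exp_add]
      simp
    have h7 : (1 - -r) ≠ 0 := by
      intro h
      have : r = -1 := by linear_combination h
      rw [this] at hr1
      simp at hr1
    have h8 : (1 + (Real.exp (2 * v) : ℂ)) ≠ 0 := by
      intro h
      apply h7
      have : r * (1 + (Real.exp (2 * v) : ℂ)) = 0 := by rw [h, mul_zero]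
      rw [mul_add, h6] at this
      linear_combination this
    rw [← div_eq_mul_inv, div_eq_iff h7, eq_comm]
    field_simp
    linear_combination (1 : ℂ) * h6
  have hsum : ∀ k ∈ range (Q.natDegree + 1), Summable fun d : ℤ =>
      (if k = 0 then (0 : ℂ) else Q.coeff k * (k.factorial : ℂ) /
        (2 * (v : ℂ) - Complex.I * π * (2 * d + 1)) ^ (k + 1)) := by
    intro k _
    by_cases hk : k = 0
    · simp only [hk, if_true]
      exact summable_zero
    · simp only [hk, if_false]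
      have := (plD_summable v k (by omega)).mul_left (Q.coeff k * (k.factorial : ℂ))
      refine this.congr fun d => ?_
      rw [mul_one_div]
  have h9 : ∑' d : ℤ, LQ Q (2 * (v : ℂ) - Complex.I * π * (2 * d + 1)) =
      ∑ k ∈ range (Q.natDegree + 1), if k = 0 then (0 : ℂ) else Q.coeff k *
        ((k.factorial : ℂ) * ∑' d : ℤ, 1 / (2 * (v : ℂ) - Complex.I * π * (2 * d + 1)) ^ (k + 1)) := by
    unfold LQ
    rw [Summable.tsum_finsetSum hsum]
    refine Finset.sum_congr rfl fun k _ => ?_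
    by_cases hk : k = 0
    · simp [hk]
    · simp only [hk, if_false]
      rw [← mul_assoc, ← tsum_mul_left]
      exact tsum_congr fun d => by rw [mul_one_div]
  rw [h2, h9, Finset.sum_range_succ', Finset.sum_range_succ', h4]
  simp only [Nat.add_eq_zero_iff, one_ne_zero, and_false, if_false, if_true, add_zero]
  rw [Finset.sum_congr rfl fun k _ => by rw [h3 (k + 1) (by omega)]]
  rw [div_eq_mul_one_div (Q.coeff 0)]
  ring

end Pool.Agent.Lib.FenceAF
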