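import Pool.Agent.Lib.MP_7d55f0_co.AF.PlB
import Pool.Agent.Lib.MP_7d55f0_co.AF.PlC

set_option autoImplicit false

namespace Pool.Agent.Lib.FenceAF

open Polynomial Finset Real

/-! ### coefficients -/

theorem plE_prod_coeff {n : ℕ} (τ : Fin n → ℂ) (x : ℝ) (hτ : ∀ i, ‖τ i‖ ≤ x)
    (s : Finset (Fin n)) (k : ℕ) :
    ‖(∏ i ∈ s, (X - C (τ i))).coeff k‖ ≤ ((X + C x : ℝ[X]) ^ s.card).coeff k := by
  classical
  induction s using Finset.induction_on generalizing k with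
  | empty =>
    simp only [Finset.prod_empty, Finset.card_empty, pow_zero, coeff_one]
    split_ifs <;> simp
  | insert a s ha ih =>
    have hx : 0 ≤ x := le_trans (norm_nonneg _) (hτ a)
    rw [Finset.prod_insert ha, Finset.card_insert_of_notMem ha, pow_succ', sub_mul, add_mul,
      coeff_sub, coeff_add, coeff_C_mul, coeff_C_mul]
    refine le_trans (norm_sub_le _ _) (add_le_add ?_ ?_)
    · cases k with
      | zero => simp
      | succ k => simpa [coeff_X_mul] using ih k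
    · rw [norm_mul]
      exact mul_le_mul (hτ a) (ih k) (norm_nonneg _) hx

theorem plE_coeff {n : ℕ} (τ : Fin n → ℂ) (x c : ℝ) (hτ : ∀ i, ‖τ i‖ ≤ x) (hc : 0 < c) (Q : ℂ[X])
    (hQ : Q = C (c : ℂ) * ∏ i, (X - C (τ i))) (k : ℕ) :
    ‖Q.coeff k‖ ≤ c * (x ^ (n - k) * n.choose k) := by
  have h := plE_prod_coeff τ x hτ Finset.univ k
  rw [Finset.card_univ, Fintype.card_fin, coeff_X_add_C_pow] at h
  rw [hQ, coeff_C_mul, norm_mul, Complex.norm_real, Real.norm_eq_abs, abs_of_pos hc]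
  exact mul_le_mul_of_nonneg_left h hc.le

theorem plE_deg {n : ℕ} (τ : Fin n → ℂ) (c : ℝ) (hc : 0 < c) (Q : ℂ[X])
    (hQ : Q = C (c : ℂ) * ∏ i, (X - C (τ i))) : Q.natDegree = n := by
  have hc' : (c : ℂ) ≠ 0 := by exact_mod_cast hc.ne'
  rw [hQ, natDegree_C_mul hc', natDegree_prod_of_monic _ _ fun i _ => monic_X_sub_C _]
  simp

/-- bound of `LQ` far out -/
theorem plE_far {n : ℕ} (τ : Fin n → ℂ) (x c : ℝ) (hx : 0 ≤ x) (hτ : ∀ i, ‖τ i‖ ≤ x) (hc : 0 < c)
    (Q : ℂ[X]) (hQ : Q = C (c : ℂ) * ∏ i, (X - C (τ i))) (s : ℂ) (s1 : ℝ) (hs1 : 0 < s1)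
    (hs : s1 ≤ ‖s‖) :
    ‖LQ Q s‖ ≤ (s1 / ‖s‖) ^ 2 * (c * (n.factorial * (Real.exp (x * s1) / s1 ^ (n + 1)))) := by
  have hs0 : 0 < ‖s‖ := lt_of_lt_of_le hs1 hs
  have hq : s1 / ‖s‖ ≤ 1 := (div_le_one hs0).mpr hs
  have hq0 : 0 ≤ s1 / ‖s‖ := by positivity
  unfold LQ
  rw [plE_deg τ c hc Q hQ]
  refine le_trans (norm_sum_le _ _) ?_
  have h1 : ∀ k ∈ range (n + 1), ‖(if k = 0 then (0 : ℂ) else
      Q.coeff k * (k.factorial : ℂ) / s ^ (k + 1))‖ ≤
      (s1 / ‖s‖) ^ 2 * (c * (n.factorial * (((x * s1) ^ (n - k) / (n - k).factorial) /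
        s1 ^ (n + 1)))) := by
    intro k hk
    have hkn : k ≤ n := by
      have := Finset.mem_range.mp hk
      omega
    by_cases hk0 : k = 0
    · simp only [hk0, if_true, norm_zero]
      positivity
    · rw [if_neg hk0, norm_div, norm_mul, norm_pow, Complex.norm_natCast]
      have h2 : ‖Q.coeff k‖ * (k.factorial : ℝ) ≤ c * (x ^ (n - k) * n.choose k) * k.factorial :=
        mul_le_mul_of_nonneg_right (plE_coeff τ x c hτ hc Q hQ k) (by positivity)
      have h3 : c * (x ^ (n - k) * n.choose k) * (k.factorial : ℝ) =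
          c * (n.factorial * (x ^ (n - k) / (n - k).factorial)) := by
        have h4 : ((n.choose k : ℝ)) * k.factorial * (n - k).factorial = n.factorial := by
          exact_mod_cast Nat.choose_mul_factorial_mul_factorial hkn
        have h5 : ((n - k).factorial : ℝ) ≠ 0 := by positivity
        field_simp
        rw [← h4]
        ring
      rw [h3] at h2
      have h6 : 1 / ‖s‖ ^ (k + 1) ≤ (s1 / ‖s‖) ^ 2 / s1 ^ (k + 1) := by
        rw [div_le_div_iff₀ (by positivity) (by positivity), one_mul]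
        have h7 : s1 ^ (k + 1) = (s1 / ‖s‖) ^ (k + 1) * ‖s‖ ^ (k + 1) := by
          rw [← mul_pow, div_mul_cancel₀ _ hs0.ne']
        rw [h7]
        exact mul_le_mul_of_nonneg_right (pow_le_pow_of_le_one hq0 hq (by omega)) (by positivity)
      have h8 : (x * s1) ^ (n - k) / (n - k).factorial / s1 ^ (n + 1) =
          (x ^ (n - k) / (n - k).factorial) * (1 / s1 ^ (k + 1)) := by
        have : s1 ^ (n + 1) = s1 ^ (n - k) * s1 ^ (k + 1) := by
          rw [← pow_add]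
          congr 1
          omega
        rw [this, mul_pow]
        field_simp
      calc ‖Q.coeff k‖ * (k.factorial : ℝ) / ‖s‖ ^ (k + 1)
          = ‖Q.coeff k‖ * (k.factorial : ℝ) * (1 / ‖s‖ ^ (k + 1)) := by ring
        _ ≤ c * (n.factorial * (x ^ (n - k) / (n - k).factorial)) *
            ((s1 / ‖s‖) ^ 2 / s1 ^ (k + 1)) :=
          mul_le_mul h2 h6 (by positivity) (by positivity)
        _ = _ := by
          rw [h8]
          ring
  refine le_trans (Finset.sum_le_sum h1) ?_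
  rw [← Finset.mul_sum, ← Finset.mul_sum, ← Finset.mul_sum, ← Finset.sum_div]
  have h9 : ∑ k ∈ range (n + 1), (x * s1) ^ (n - k) / ((n - k).factorial : ℝ) ≤
      Real.exp (x * s1) := by
    have := Real.sum_le_exp_of_nonneg (mul_nonneg hx hs1.le) (n + 1)
    rw [← Finset.sum_range_reflect] at this
    simpa using this
  gcongr

/-- bound of `LQ` for moderate arguments -/
theorem plE_near {n : ℕ} (τ : Fin n → ℂ) (x c α β : ℝ) (hc : 0 < c)
    (hτ : ∀ i, ‖τ i‖ ≤ x)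
    (Q : ℂ[X]) (hQ : Q = C (c : ℂ) * ∏ i, (X - C (τ i))) (s : ℂ) (hs1 : 1 ≤ ‖s‖)
    (h : ‖GI τ s * Complex.exp (α * s + β * s ^ 2 / n) / n.factorial - 1‖ ≤ 2 / 5) :
    ‖LQ Q s‖ ≤ 7 / 5 * (c * n.factorial / ‖s‖ ^ (n + 1) *
      Real.exp (-(α * s.re + β * (s.re ^ 2 - s.im ^ 2) / n))) + c * x ^ n := by
  have hs0 : s ≠ 0 := by
    intro h0
    rw [h0, norm_zero] at hs1
    linarith
  have hn : (0 : ℝ) < n.factorial := by positivity
  rw [LQ_GI (c : ℂ) τ s hs0 Q hQ]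
  refine le_trans (norm_sub_le _ _) (add_le_add ?_ ?_)
  · have h1 : ‖GI τ s * Complex.exp (α * s + β * s ^ 2 / n) / n.factorial‖ ≤ 7 / 5 := by
      have := norm_sub_norm_le (GI τ s * Complex.exp (α * s + β * s ^ 2 / n) / n.factorial) 1
      rw [norm_one] at this
      linarith
    have hre : ((α : ℂ) * s + β * s ^ 2 / n).re = α * s.re + β * (s.re ^ 2 - s.im ^ 2) / n := by
      have h2 : (α : ℂ) * s + β * s ^ 2 / n = ((α : ℝ) : ℂ) * s + (((β / n : ℝ)) : ℂ) * s ^ 2 := by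
        push_cast
        ring
      rw [h2, Complex.add_re, Complex.re_ofReal_mul, Complex.re_ofReal_mul]
      have h3 : (s ^ 2).re = s.re ^ 2 - s.im ^ 2 := by
        rw [sq, Complex.mul_re]
        ring
      rw [h3]
      ring
    rw [norm_div, norm_mul, Complex.norm_exp, hre, Complex.norm_natCast] at h1
    have h4 : ‖GI τ s‖ ≤ 7 / 5 * n.factorial *
        Real.exp (-(α * s.re + β * (s.re ^ 2 - s.im ^ 2) / n)) := by
      rw [Real.exp_neg, ← div_eq_mul_inv, le_div_iff₀ (Real.exp_pos _)]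
      rwa [div_le_iff₀ hn] at h1
    rw [norm_div, norm_mul, norm_pow, Complex.norm_real, Real.norm_eq_abs, abs_of_pos hc]
    have h5 : 0 < ‖s‖ ^ (n + 1) := by positivity
    calc c * ‖GI τ s‖ / ‖s‖ ^ (n + 1) ≤ c * (7 / 5 * n.factorial *
        Real.exp (-(α * s.re + β * (s.re ^ 2 - s.im ^ 2) / n))) / ‖s‖ ^ (n + 1) := by gcongr
      _ = _ := by ring
  · rw [norm_div]
    have h6 := plE_coeff τ x c hτ hc Q hQ 0
    simp only [Nat.sub_zero, Nat.choose_zero_right, Nat.cast_one, mul_one] at h6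
    have h7 : ‖Q.coeff 0‖ / ‖s‖ ≤ ‖Q.coeff 0‖ := div_le_self (norm_nonneg _) hs1
    linarith

/-! ### numerical facts -/

theorem plE_w : ∃ W : ℝ, W ≤ 4 ∧ HasSum (fun d : ℤ => 1 / (2 * (d : ℝ) + 1) ^ 2) W := by
  have hz : HasSum (fun n : ℕ => (1 : ℝ) / ((n : ℝ) + 1) ^ 2) (π ^ 2 / 6) := by
    have h := hasSum_zeta_two
    rw [← hasSum_nat_add_iff' 1] at h
    simpa using h
  have hle : ∀ n : ℕ, (1 : ℝ) / (2 * (n : ℝ) + 1) ^ 2 ≤ 1 / ((n : ℝ) + 1) ^ 2 := by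
    intro n
    have hn : (0 : ℝ) ≤ n := Nat.cast_nonneg n
    gcongr
    linarith
  have hs : Summable fun n : ℕ => (1 : ℝ) / (2 * (n : ℝ) + 1) ^ 2 :=
    Summable.of_nonneg_of_le (fun n => by positivity) hle hz.summable
  have hπ : π ^ 2 / 6 ≤ 2 := by
    have h1 := Real.pi_lt_d2
    have h2 := Real.pi_pos
    nlinarith
  have ht : ∑' n : ℕ, (1 : ℝ) / (2 * (n : ℝ) + 1) ^ 2 ≤ 2 := by
    refine le_trans (hs.tsum_le_tsum hle hz.summable) ?_
    rw [hz.tsum_eq]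
    exact hπ
  refine ⟨(∑' n : ℕ, (1 : ℝ) / (2 * (n : ℝ) + 1) ^ 2) +
    ∑' n : ℕ, (1 : ℝ) / (2 * (n : ℝ) + 1) ^ 2, by linarith, ?_⟩
  have h := HasSum.of_nat_of_neg_add_one (f := fun d : ℤ => (1 : ℝ) / (2 * (d : ℝ) + 1) ^ 2)
    (m := ∑' n : ℕ, (1 : ℝ) / (2 * (n : ℝ) + 1) ^ 2)
    (m' := ∑' n : ℕ, (1 : ℝ) / (2 * (n : ℝ) + 1) ^ 2)
    (by simpa using hs.hasSum) ?_
  · exact h
  · have e : (fun n : ℕ => (1 : ℝ) / (2 * ((-((n : ℤ) + 1) : ℤ) : ℝ) + 1) ^ 2) =
        fun n : ℕ => (1 : ℝ) / (2 * (n : ℝ) + 1) ^ 2 := by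
      funext n
      push_cast
      congr 1
      ring
    rw [e]
    exact hs.hasSum

theorem plE_F1 (x : ℝ) (hx : 10 ≤ x) (n : ℕ) (hn : x ^ 20 = n) :
    400 * (x ^ 10 / 7) ^ 2 * Real.exp (x * (x ^ 10 / 7)) * Real.exp (x ^ 10) *
      (7 / 10 : ℝ) ^ (n + 1) ≤ 1 := by
  have hx0 : 0 < x := by linarith
  have h1 : (7 / 10 : ℝ) ^ (n + 1) ≤ Real.exp (-(x ^ 20 / 3)) := by
    have h2 : (7 / 10 : ℝ) ≤ Real.exp (-(1 / 3)) := by
      have h3 : Real.exp (1 / 3) ≤ 10 / 7 := by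
        have h4 : Real.exp (1 / 3) ^ 3 ≤ (10 / 7 : ℝ) ^ 3 := by
          rw [← Real.exp_nat_mul]
          have := Real.exp_one_lt_d9
          norm_num at this ⊢
          linarith
        exact le_of_pow_le_pow_left₀ (by norm_num) (by norm_num) h4
      rw [Real.exp_neg]
      rw [show (7 / 10 : ℝ) = (10 / 7)⁻¹ by norm_num]
      exact inv_anti₀ (Real.exp_pos _) h3
    calc (7 / 10 : ℝ) ^ (n + 1) ≤ (7 / 10 : ℝ) ^ n :=
          pow_le_pow_of_le_one (by norm_num) (by norm_num) (by omega)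
      _ ≤ Real.exp (-(1 / 3)) ^ n := pow_le_pow_left₀ (by norm_num) h2 n
      _ = Real.exp (-(x ^ 20 / 3)) := by
          rw [← Real.exp_nat_mul, hn]
          congr 1
          ring
  have h5 : 400 * (x ^ 10 / 7) ^ 2 ≤ Real.exp (x ^ 10) := by
    have h6 := Real.pow_div_factorial_le_exp (x := x ^ 10) (by positivity) 3
    refine le_trans ?_ h6
    have h7 : (10 : ℝ) ^ 10 ≤ x ^ 10 := pow_le_pow_left₀ (by norm_num) hx 10
    have h8 : (Nat.factorial 3 : ℝ) = 6 := by norm_num [Nat.factorial]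
    rw [h8]
    have h9 : 0 ≤ (x ^ 10) ^ 2 := by positivity
    nlinarith
  have h10 : x ^ 10 + x * (x ^ 10 / 7) + x ^ 10 ≤ x ^ 20 / 3 := by
    have h11 : (10 : ℝ) ^ 9 ≤ x ^ 9 := pow_le_pow_left₀ (by norm_num) hx 9
    have h12 : x ^ 20 = x ^ 11 * x ^ 9 := by ring
    have h13 : x ^ 10 ≤ x ^ 11 := pow_le_pow_right₀ (by linarith) (by norm_num)
    have h14 : 0 ≤ x ^ 11 := by positivity
    have h15 : x * (x ^ 10 / 7) = x ^ 11 / 7 := by ring
    rw [h12, h15]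
    nlinarith
  calc 400 * (x ^ 10 / 7) ^ 2 * Real.exp (x * (x ^ 10 / 7)) * Real.exp (x ^ 10) *
      (7 / 10 : ℝ) ^ (n + 1)
      ≤ Real.exp (x ^ 10) * Real.exp (x * (x ^ 10 / 7)) * Real.exp (x ^ 10) *
        Real.exp (-(x ^ 20 / 3)) := by gcongr
    _ = Real.exp (x ^ 10 + x * (x ^ 10 / 7) + x ^ 10 - x ^ 20 / 3) := by
        rw [← Real.exp_add, ← Real.exp_add, ← Real.exp_add]
        congr 1
    _ ≤ 1 := by
        rw [Real.exp_le_one_iff]
        linarith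

theorem plE_F2 (x : ℝ) (hx : 10 ≤ x) (n : ℕ) (hn : x ^ 20 = n) :
    800 * x ^ 20 * x ^ n * (x ^ 10 / 10) ^ (n + 1) * Real.exp (x ^ 10) ≤ n.factorial := by
  have hx0 : 0 < x := by linarith
  have hx1 : 1 ≤ x := by linarith
  have hn0 : (0 : ℝ) < n := by
    rw [← hn]
    positivity
  have h1 : (x ^ 20) ^ n * Real.exp (-(x ^ 20)) ≤ n.factorial := by
    have h2 := Real.pow_div_factorial_le_exp (x := (n : ℝ)) hn0.le n
    have h3 : (0 : ℝ) < n.factorial := by positivity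
    rw [div_le_iff₀ h3] at h2
    rw [hn, Real.exp_neg, ← div_eq_mul_inv, div_le_iff₀ (Real.exp_pos _), mul_comm]
    exact h2
  refine le_trans ?_ h1
  have h4 : Real.exp (x ^ 10) ≤ Real.exp (x ^ 20) :=
    Real.exp_le_exp.mpr (pow_le_pow_right₀ hx1 (by norm_num))
  have h5 : 800 * x ^ 30 ≤ Real.exp (x ^ 20) := by
    have h6 := Real.pow_div_factorial_le_exp (x := x ^ 20) (by positivity) 2
    refine le_trans ?_ h6
    have h7 : (10 : ℝ) ^ 10 ≤ x ^ 10 := pow_le_pow_left₀ (by norm_num) hx 10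
    have h8 : (Nat.factorial 2 : ℝ) = 2 := by norm_num [Nat.factorial]
    rw [h8]
    have h9 : (x ^ 20) ^ 2 = x ^ 30 * x ^ 10 := by ring
    rw [h9]
    have h10 : 0 ≤ x ^ 30 := by positivity
    nlinarith
  have h11 : Real.exp 3 ≤ x ^ 9 := by
    have h12 : Real.exp 3 = Real.exp 1 ^ 3 := by
      rw [← Real.exp_nat_mul]
      norm_num
    have h13 : Real.exp 1 ^ 3 ≤ 3 ^ 3 :=
      pow_le_pow_left₀ (Real.exp_pos _).le Real.exp_one_lt_three.le 3
    have h14 : (10 : ℝ) ^ 9 ≤ x ^ 9 := pow_le_pow_left₀ (by norm_num) hx 9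
    rw [h12]
    linarith
  have h15 : Real.exp (x ^ 20) * Real.exp (x ^ 20) * Real.exp (x ^ 20) ≤ (x ^ 9) ^ n := by
    rw [← Real.exp_add, ← Real.exp_add]
    have : x ^ 20 + x ^ 20 + x ^ 20 = (n : ℝ) * 3 := by
      rw [← hn]
      ring
    rw [this, Real.exp_nat_mul]
    exact pow_le_pow_left₀ (Real.exp_pos _).le h11 n
  have h16 : (x ^ 10 / 10) ^ (n + 1) ≤ (x ^ 10) ^ (n + 1) := by
    gcongr
    have : 0 ≤ x ^ 10 := by positivity
    linarith
  calc 800 * x ^ 20 * x ^ n * (x ^ 10 / 10) ^ (n + 1) * Real.exp (x ^ 10)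
      ≤ 800 * x ^ 20 * x ^ n * (x ^ 10) ^ (n + 1) * Real.exp (x ^ 20) := by gcongr
    _ = (800 * x ^ 30) * Real.exp (x ^ 20) * (x ^ n * (x ^ 10) ^ n) := by ring
    _ ≤ Real.exp (x ^ 20) * Real.exp (x ^ 20) * (x ^ n * (x ^ 10) ^ n) := by gcongr
    _ = (Real.exp (x ^ 20) * Real.exp (x ^ 20) * Real.exp (x ^ 20)) *
        (x ^ n * (x ^ 10) ^ n) * Real.exp (-(x ^ 20)) := by
        rw [Real.exp_neg]
        field_simp
    _ ≤ (x ^ 9) ^ n * (x ^ n * (x ^ 10) ^ n) * Real.exp (-(x ^ 20)) := by gcongr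
    _ = (x ^ 20) ^ n * Real.exp (-(x ^ 20)) := by
        rw [← mul_pow, ← mul_pow]
        congr 2
        ring

/-- decay of the power -/
theorem plE_pow (A S U y : ℝ) (n : ℕ) (hA : 0 < A) (hS : 0 < S) (hU : 0 ≤ U)
    (h : S ^ 2 = A ^ 2 + U) (hn : (0 : ℝ) < n) (hSn : S ^ 2 ≤ n / 49) (hy : y = 49 * U / 2) :
    (A / S) ^ (n + 1) ≤ Real.exp (-y) := by
  have hS2 : 0 < S ^ 2 := by positivity
  have h1 : (A / S) ^ 2 ≤ Real.exp (-(49 * U / n)) := by
    have h2 : (A / S) ^ 2 = 1 - U / S ^ 2 := by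
      rw [div_pow, eq_sub_iff_add_eq, ← add_div, ← h, div_self hS2.ne']
    have h3 : 49 * U / n ≤ U / S ^ 2 := by
      rw [div_le_div_iff₀ hn hS2]
      have : S ^ 2 * 49 ≤ n := by linarith
      nlinarith
    rw [h2]
    have h4 := Real.add_one_le_exp (-(49 * U / (n : ℝ)))
    linarith
  have h5 : ((A / S) ^ (n + 1)) ^ 2 ≤ (Real.exp (-y)) ^ 2 := by
    calc ((A / S) ^ (n + 1)) ^ 2 = ((A / S) ^ 2) ^ (n + 1) := by rw [← pow_mul, ← pow_mul, mul_comm]
      _ ≤ (Real.exp (-(49 * U / n))) ^ (n + 1) := pow_le_pow_left₀ (by positivity) h1 _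
      _ = Real.exp (-(49 * U * (n + 1) / n)) := by
          rw [← Real.exp_nat_mul]
          congr 1
          push_cast
          ring
      _ ≤ Real.exp (-(49 * U)) := by
          apply Real.exp_le_exp.mpr
          apply neg_le_neg
          rw [le_div_iff₀ hn]
          nlinarith
      _ = (Real.exp (-y)) ^ 2 := by
          rw [← Real.exp_nat_mul, hy]
          congr 1
          push_cast
          ring
  exact le_of_pow_le_pow_left₀ (by norm_num) (Real.exp_pos _).le h5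

/-- the weight of the near terms -/
theorem plE_exp (D : ℝ) (hD : 9 ≤ D) :
    7 / 5 * Real.exp (-(24 * (π ^ 2 * (D - 1)))) ≤ 1 / 800 * (1 / D) := by
  have hπ : 9 ≤ π ^ 2 := by
    have := Real.pi_gt_three
    nlinarith
  have h1 : 192 * D ≤ 24 * (π ^ 2 * (D - 1)) := by nlinarith
  have h2 : Real.exp (-(24 * (π ^ 2 * (D - 1)))) ≤ Real.exp (-(192 * D)) :=
    Real.exp_le_exp.mpr (by linarith)
  have h3 : Real.exp (-(192 * D)) ≤ 1 / (96 * D) ^ 2 := by
    have h4 : (96 * D) ≤ Real.exp (96 * D) := by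
      have := Real.add_one_le_exp (96 * D)
      linarith
    have h5 : (96 * D) ^ 2 ≤ Real.exp (192 * D) := by
      have h6 : Real.exp (192 * D) = Real.exp (96 * D) ^ 2 := by
        rw [← Real.exp_nat_mul]
        congr 1
        push_cast
        ring
      rw [h6]
      exact pow_le_pow_left₀ (by positivity) h4 2
    rw [Real.exp_neg, one_div]
    exact inv_anti₀ (by positivity) h5
  have h7 : 7 / 5 * (1 / (96 * D) ^ 2) ≤ 1 / 800 * (1 / D) := by
    have hD0 : 0 < D := by linarith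
    rw [mul_one_div, mul_one_div, div_le_div_iff₀ (by positivity) hD0]
    nlinarith
  nlinarith

/-- **one term** -/
theorem plE_term : ∃ X0 : ℝ, 1 ≤ X0 ∧ ∀ (n : ℕ) (x : ℝ) (τ : Fin n → ℂ) (Q : ℂ[X])
    (c α β v : ℝ),
    X0 ≤ x → x ^ 20 = n → 0 < c → (∀ i, ‖τ i‖ ≤ x) → (n : ℂ) * (α : ℂ) = ∑ i, τ i → |α| ≤ 1 / 2 →
    2 * (n : ℂ) * (β : ℂ) = ∑ i, (τ i) ^ 2 → Q = C (c : ℂ) * ∏ i, (X - C (τ i)) →
    0 < v → 4 * v ^ 2 + π ^ 2 ≤ (x ^ 10 / 10) ^ 2 → ∀ d : ℤ, ¬ (d = 0 ∨ d = -1) →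
    ‖LQ Q (2 * (v : ℂ) - Complex.I * π * (2 * d + 1))‖ ≤
      1 / 400 * (c * n.factorial / (4 * v ^ 2 + π ^ 2) ^ (((n : ℝ) + 1) / 2) *
        Real.exp (-(2 * α * v) - β * (4 * v ^ 2 - π ^ 2) / n)) * (1 / (2 * (d : ℝ) + 1) ^ 2) := by
  obtain ⟨X1, hX1, hGI⟩ := GI_asymp
  refine ⟨max X1 10, le_trans hX1 (le_max_left _ _), ?_⟩
  intro n x τ Q c α β v hx hxn hc hτ hα hα2 hβ hQ hv hv2 d hd
  have hxX : X1 ≤ x := le_trans (le_max_left _ _) hx
  have hx10 : 10 ≤ x := le_trans (le_max_right _ _) hx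
  have hx0 : 0 < x := by linarith
  have hx1 : 1 ≤ x := by linarith
  have hn0 : (0 : ℝ) < n := by
    rw [← hxn]
    positivity
  have hfac : (0 : ℝ) < n.factorial := by positivity
  -- the argument
  set s : ℂ := 2 * (v : ℂ) - Complex.I * π * (2 * d + 1) with hs
  have hsre : s.re = 2 * v := by
    have : s = ((2 * v : ℝ) : ℂ) + ((-(π * (2 * d + 1)) : ℝ) : ℂ) * Complex.I := by
      rw [hs]
      push_cast
      ring
    rw [this]
    simp
  have hsim : s.im = -(π * (2 * d + 1)) := by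
    have : s = ((2 * v : ℝ) : ℂ) + ((-(π * (2 * d + 1)) : ℝ) : ℂ) * Complex.I := by
      rw [hs]
      push_cast
      ring
    rw [this]
    simp
  set D : ℝ := (2 * (d : ℝ) + 1) ^ 2 with hD
  have hD9 : 9 ≤ D := by
    have h1 : (1 ≤ d) ∨ (d ≤ -2) := by
      by_contra hcon
      rw [not_or] at hcon
      apply hd
      omega
    have h2 : 3 ≤ |2 * (d : ℝ) + 1| := by
      rcases h1 with h1 | h1
      · have : (1 : ℝ) ≤ d := by exact_mod_cast h1
        rw [abs_of_nonneg (by linarith)]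
        linarith
      · have : (d : ℝ) ≤ -2 := by exact_mod_cast h1
        rw [abs_of_nonpos (by linarith)]
        linarith
    have h3 : (3 : ℝ) ^ 2 ≤ |2 * (d : ℝ) + 1| ^ 2 := pow_le_pow_left₀ (by norm_num) h2 2
    rw [sq_abs] at h3
    rw [hD]
    linarith
  have hns : ‖s‖ ^ 2 = 4 * v ^ 2 + π ^ 2 * D := by
    rw [Complex.sq_norm, Complex.normSq_apply, hsre, hsim, hD]
    ring
  have hπ3 := Real.pi_gt_three
  have hπ9 : 9 ≤ π ^ 2 := by
    have h0 : (3 : ℝ) ^ 2 ≤ π ^ 2 := pow_le_pow_left₀ (by norm_num) hπ3.le 2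
    linarith
  have hsD : D ≤ ‖s‖ ^ 2 := by
    rw [hns]
    have h0 : 9 * D ≤ π ^ 2 * D := mul_le_mul_of_nonneg_right hπ9 (by linarith)
    have h1 := sq_nonneg v
    linarith
  have hs1 : 1 ≤ ‖s‖ := by
    have h0 : (1 : ℝ) ^ 2 ≤ ‖s‖ ^ 2 := by linarith
    exact le_of_pow_le_pow_left₀ two_ne_zero (norm_nonneg _) h0
  have hs0 : 0 < ‖s‖ := by linarith
  -- the main term
  set A : ℝ := Real.sqrt (4 * v ^ 2 + π ^ 2) with hA
  have hA2 : A ^ 2 = 4 * v ^ 2 + π ^ 2 := Real.sq_sqrt (by positivity)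
  have hA0 : 0 < A := Real.sqrt_pos.mpr (by positivity)
  have hAx : A ≤ x ^ 10 / 10 := by
    rw [hA]
    exact Real.sqrt_le_iff.mpr ⟨by positivity, hv2⟩
  have hrp : (4 * v ^ 2 + π ^ 2) ^ (((n : ℝ) + 1) / 2) = A ^ (n + 1) := by
    rw [← hA2, ← Real.rpow_natCast A 2, ← Real.rpow_mul hA0.le, ← Real.rpow_natCast]
    congr 1
    push_cast
    ring
  rw [hrp]
  set E0 : ℝ := -(2 * α * v) - β * (4 * v ^ 2 - π ^ 2) / n with hE0
  -- bound of `β`
  have hβ2 : |β| ≤ x ^ 2 / 2 := by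
    have h1 : ‖(2 : ℂ) * (n : ℂ) * (β : ℂ)‖ ≤ n * x ^ 2 := by
      rw [hβ]
      refine le_trans (norm_sum_le _ _) ?_
      refine le_trans (Finset.sum_le_card_nsmul _ _ (x ^ 2) fun i _ => ?_) ?_
      · rw [norm_pow]
        exact pow_le_pow_left₀ (norm_nonneg _) (hτ i) 2
      · simp
    rw [norm_mul, norm_mul, Complex.norm_natCast, Complex.norm_real, Real.norm_eq_abs] at h1
    norm_num at h1
    have h2 : n * (2 * |β|) ≤ n * x ^ 2 := by linarith
    have h3 := le_of_mul_le_mul_left h2 hn0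
    linarith
  have hx18 : x ^ 2 ≤ x ^ 10 := pow_le_pow_right₀ hx1 (by norm_num)
  have hv20 : 4 * v ^ 2 + π ^ 2 ≤ n / 100 := by
    have h1 : (x ^ 10 / 10) ^ 2 = n / 100 := by
      rw [← hxn]
      ring
    linarith
  have hE0low : -(x ^ 10) ≤ E0 := by
    have h1 : 2 * v ≤ x ^ 10 / 10 := by
      have : (2 * v) ^ 2 ≤ (x ^ 10 / 10) ^ 2 := by
        have h11 := sq_nonneg π
        have h12 : (2 * v) ^ 2 = 4 * v ^ 2 := by ring
        rw [h12]
        linarith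
      exact le_of_pow_le_pow_left₀ (by norm_num) (by positivity) this
    have h2 : 2 * α * v ≤ x ^ 10 / 10 := by
      have h21 := mul_le_mul_of_nonneg_right (abs_le.mp hα2).2 hv.le
      have h22 : 0 ≤ x ^ 10 := by positivity
      linarith
    have h3 : β * (4 * v ^ 2 - π ^ 2) / n ≤ x ^ 10 / 10 := by
      have h4 : |4 * v ^ 2 - π ^ 2| ≤ (n : ℝ) / 100 := by
        have h41 := sq_nonneg v
        have h42 := sq_nonneg π
        rw [abs_le]
        constructor <;> linarith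
      have h5 : β * (4 * v ^ 2 - π ^ 2) ≤ (x ^ 2 / 2) * ((n : ℝ) / 100) := by
        refine le_trans (le_abs_self _) ?_
        rw [abs_mul]
        exact mul_le_mul hβ2 h4 (abs_nonneg _) (by positivity)
      rw [div_le_iff₀ hn0]
      have h51 : x ^ 2 * n ≤ x ^ 10 * n := mul_le_mul_of_nonneg_right hx18 hn0.le
      have h52 : 0 ≤ x ^ 10 * n := by positivity
      linarith
    have h6 : 0 ≤ x ^ 10 := by positivity
    rw [hE0]
    linarith
  have hEexp : Real.exp (-(x ^ 10)) ≤ Real.exp E0 := Real.exp_le_exp.mpr hE0low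
  set M0 : ℝ := c * n.factorial / A ^ (n + 1) * Real.exp E0 with hM0
  have hM0pos : 0 < M0 := by positivity
  have hM0low : c * n.factorial / (x ^ 10 / 10) ^ (n + 1) * Real.exp (-(x ^ 10)) ≤ M0 := by
    rw [hM0]
    gcongr
  by_cases hcase : ‖s‖ ≤ x ^ 10 / 7
  · -- near
    have hG := hGI n x τ s (α : ℂ) (β : ℂ) hxX hxn hτ hα
      (by rw [Complex.norm_real, Real.norm_eq_abs]; exact hα2) hβ hcase
    have h1 := plE_near τ x c α β hc hτ Q hQ s hs1 hG
    refine le_trans h1 ?_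
    have hns49 : ‖s‖ ^ 2 ≤ n / 49 := by
      have : ‖s‖ ^ 2 ≤ (x ^ 10 / 7) ^ 2 := pow_le_pow_left₀ hs0.le hcase 2
      have h2 : (x ^ 10 / 7) ^ 2 = n / 49 := by
        rw [← hxn]
        ring
      linarith
    set U : ℝ := π ^ 2 * (D - 1) with hU
    have hU0 : 0 ≤ U := by
      rw [hU]
      have : 0 ≤ D - 1 := by linarith
      positivity
    have hSU : ‖s‖ ^ 2 = A ^ 2 + U := by
      rw [hns, hA2, hU]
      ring
    have hpow := plE_pow A ‖s‖ U (49 * U / 2) n hA0 hs0 hU0 hSU hn0 hns49 rfl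
    have hexp : Real.exp (-(α * s.re + β * (s.re ^ 2 - s.im ^ 2) / n)) ≤
        Real.exp E0 * Real.exp (U / 2) := by
      rw [← Real.exp_add]
      apply Real.exp_le_exp.mpr
      have h2 : -(α * s.re + β * (s.re ^ 2 - s.im ^ 2) / n) = E0 + β * U / n := by
        rw [hsre, hsim, hE0, hU, hD]
        field_simp
        ring
      rw [h2]
      have h3 : β * U / n ≤ U / 2 := by
        rw [div_le_iff₀ hn0]
        have h4 : x ^ 2 ≤ n := by
          rw [← hxn]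
          exact pow_le_pow_right₀ hx1 (by norm_num)
        have h5 : β ≤ n / 2 := by
          have := (abs_le.mp hβ2).2
          linarith
        have h51 := mul_le_mul_of_nonneg_right h5 hU0
        linarith
      linarith
    have h6 : c * n.factorial / ‖s‖ ^ (n + 1) *
        Real.exp (-(α * s.re + β * (s.re ^ 2 - s.im ^ 2) / n)) ≤
        M0 * Real.exp (-(24 * U)) := by
      have h7 : c * n.factorial / ‖s‖ ^ (n + 1) =
          c * n.factorial / A ^ (n + 1) * (A / ‖s‖) ^ (n + 1) := by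
        rw [div_pow]
        field_simp
      calc c * n.factorial / ‖s‖ ^ (n + 1) *
          Real.exp (-(α * s.re + β * (s.re ^ 2 - s.im ^ 2) / n))
          ≤ (c * n.factorial / A ^ (n + 1) * Real.exp (-(49 * U / 2))) *
            (Real.exp E0 * Real.exp (U / 2)) := by
            rw [h7]
            gcongr
        _ = M0 * (Real.exp (-(49 * U / 2)) * Real.exp (U / 2)) := by
            rw [hM0]
            ring
        _ = M0 * Real.exp (-(24 * U)) := by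
            rw [← Real.exp_add]
            congr 2
            ring
    have h8 := plE_exp D hD9
    have h9 : c * x ^ n ≤ 1 / 800 * M0 * (1 / D) := by
      have hD20 : D ≤ x ^ 20 := by
        rw [hxn]
        linarith
      have h10 : c * x ^ n * (800 * x ^ 20) ≤ M0 := by
        refine le_trans ?_ hM0low
        have h11 := plE_F2 x hx10 n hxn
        rw [Real.exp_neg, ← div_eq_mul_inv, le_div_iff₀ (Real.exp_pos _),
          le_div_iff₀ (by positivity)]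
        calc c * x ^ n * (800 * x ^ 20) * Real.exp (x ^ 10) * (x ^ 10 / 10) ^ (n + 1)
            = c * (800 * x ^ 20 * x ^ n * (x ^ 10 / 10) ^ (n + 1) * Real.exp (x ^ 10)) := by ring
          _ ≤ c * n.factorial := by gcongr
      have hDpos : 0 < D := by linarith
      rw [mul_one_div, le_div_iff₀ hDpos]
      have h12 : 0 ≤ c * x ^ n := by positivity
      have h13 : c * x ^ n * D ≤ c * x ^ n * x ^ 20 := mul_le_mul_of_nonneg_left hD20 h12
      linarith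
    have h14 : 7 / 5 * (M0 * Real.exp (-(24 * U))) ≤ 1 / 800 * M0 * (1 / D) := by
      have := mul_le_mul_of_nonneg_left h8 hM0pos.le
      rw [hU]
      linarith
    have h15 : 1 / 800 * M0 * (1 / D) + 1 / 800 * M0 * (1 / D) = 1 / 400 * M0 * (1 / D) := by ring
    linarith
  · -- far
    rw [not_le] at hcase
    have hs1pos : 0 < x ^ 10 / 7 := by positivity
    have h1 := plE_far τ x c hx0.le hτ hc Q hQ s (x ^ 10 / 7) hs1pos hcase.le
    refine le_trans h1 ?_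
    have hDpos : 0 < D := by linarith
    have h2 : (x ^ 10 / 7 / ‖s‖) ^ 2 ≤ (x ^ 10 / 7) ^ 2 * (1 / D) := by
      rw [div_pow, mul_one_div]
      gcongr
    have h3 : 400 * ((x ^ 10 / 7) ^ 2 *
        (c * (n.factorial * (Real.exp (x * (x ^ 10 / 7)) / (x ^ 10 / 7) ^ (n + 1))))) ≤ M0 := by
      refine le_trans ?_ hM0low
      have h4 := plE_F1 x hx10 n hxn
      have h5 : (7 / 10 : ℝ) ^ (n + 1) = (x ^ 10 / 10) ^ (n + 1) / (x ^ 10 / 7) ^ (n + 1) := by
        rw [← div_pow]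
        congr 1
        field_simp
      rw [h5] at h4
      rw [Real.exp_neg, ← div_eq_mul_inv, le_div_iff₀ (Real.exp_pos _),
        le_div_iff₀ (by positivity)]
      calc 400 * ((x ^ 10 / 7) ^ 2 *
          (c * (n.factorial * (Real.exp (x * (x ^ 10 / 7)) / (x ^ 10 / 7) ^ (n + 1))))) *
          Real.exp (x ^ 10) * (x ^ 10 / 10) ^ (n + 1)
          = c * n.factorial * (400 * (x ^ 10 / 7) ^ 2 * Real.exp (x * (x ^ 10 / 7)) *
            Real.exp (x ^ 10) * ((x ^ 10 / 10) ^ (n + 1) / (x ^ 10 / 7) ^ (n + 1))) := by ring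
        _ ≤ c * n.factorial * 1 := by gcongr
        _ = c * n.factorial := mul_one _
    have h6 : 0 ≤ c * (n.factorial * (Real.exp (x * (x ^ 10 / 7)) / (x ^ 10 / 7) ^ (n + 1))) := by
      positivity
    calc (x ^ 10 / 7 / ‖s‖) ^ 2 *
        (c * (n.factorial * (Real.exp (x * (x ^ 10 / 7)) / (x ^ 10 / 7) ^ (n + 1))))
        ≤ (x ^ 10 / 7) ^ 2 * (1 / D) *
        (c * (n.factorial * (Real.exp (x * (x ^ 10 / 7)) / (x ^ 10 / 7) ^ (n + 1)))) :=
          mul_le_mul_of_nonneg_right h2 h6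
      _ = 1 / 400 * (400 * ((x ^ 10 / 7) ^ 2 *
        (c * (n.factorial * (Real.exp (x * (x ^ 10 / 7)) / (x ^ 10 / 7) ^ (n + 1)))))) *
          (1 / D) := by ring
      _ ≤ 1 / 400 * M0 * (1 / D) := by gcongr

/-- the side poles are negligible -/
theorem side_poles : ∃ X0 : ℝ, 1 ≤ X0 ∧ ∀ (n : ℕ) (x : ℝ) (τ : Fin n → ℂ) (Q : ℂ[X]) (c α β v : ℝ),
    X0 ≤ x → x ^ 20 = n → 0 < c → (∀ i, ‖τ i‖ ≤ x) → (n : ℂ) * (α : ℂ) = ∑ i, τ i → |α| ≤ 1 / 2 →
    2 * (n : ℂ) * (β : ℂ) = ∑ i, (τ i) ^ 2 → Q = C (c : ℂ) * ∏ i, (X - C (τ i)) →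
    0 < v → 4 * v ^ 2 + π ^ 2 ≤ (x ^ 10 / 10) ^ 2 →
    ‖∑' d : ℤ, (if d = 0 ∨ d = -1 then 0 else
        LQ Q (2 * (v : ℂ) - Complex.I * π * (2 * d + 1)))‖ ≤
      1 / 100 * (c * n.factorial / (4 * v ^ 2 + π ^ 2) ^ (((n : ℝ) + 1) / 2) *
        Real.exp (-(2 * α * v) - β * (4 * v ^ 2 - π ^ 2) / n)) := by
  obtain ⟨X0, hX0, h⟩ := plE_term
  refine ⟨X0, hX0, ?_⟩
  intro n x τ Q c α β v hx hxn hc hτ hα hα2 hβ hQ hv hv2
  have h1 := h n x τ Q c α β v hx hxn hc hτ hα hα2 hβ hQ hv hv2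
  obtain ⟨W, hW, hsum⟩ := plE_w
  set M0 : ℝ := c * n.factorial / (4 * v ^ 2 + π ^ 2) ^ (((n : ℝ) + 1) / 2) *
        Real.exp (-(2 * α * v) - β * (4 * v ^ 2 - π ^ 2) / n) with hM0
  have hM0pos : 0 ≤ M0 := by positivity
  have h2 : HasSum (fun d : ℤ => 1 / 400 * M0 * (1 / (2 * (d : ℝ) + 1) ^ 2)) (1 / 400 * M0 * W) :=
    hsum.mul_left _
  have h3 := tsum_of_norm_bounded (f := fun d : ℤ => (if d = 0 ∨ d = -1 then (0 : ℂ) else
        LQ Q (2 * (v : ℂ) - Complex.I * π * (2 * d + 1)))) h2 (fun d => by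
      by_cases hd : d = 0 ∨ d = -1
      · rw [if_pos hd, norm_zero]
        positivity
      · rw [if_neg hd]
        exact h1 d hd)
  refine le_trans h3 ?_
  nlinarith

end Pool.Agent.Lib.FenceAF
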