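import Pool.Agent.Lib.MP_7d55f0_co.AF.PlA
import Pool.Agent.Lib.MP_7d55f0_co.AF.PlD
import Pool.Agent.Lib.MP_7d55f0_co.AF.PlE

set_option autoImplicit false

namespace Pool.Agent.Lib.FenceAF

open Polynomial Finset Real

theorem plF_eval (Q : ℝ[X]) (y : ℝ) :
    (Q.map Complex.ofRealHom).eval (y : ℂ) = ((Q.eval y : ℝ) : ℂ) := by
  rw [Polynomial.eval_map]
  exact Polynomial.eval₂_at_apply Complex.ofRealHom y

theorem plF_conj (Q : ℝ[X]) (s : ℂ) :
    LQ (Q.map Complex.ofRealHom) ((starRingEnd ℂ) s) =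
      (starRingEnd ℂ) (LQ (Q.map Complex.ofRealHom) s) := by
  unfold LQ
  rw [map_sum]
  refine Finset.sum_congr rfl fun k _ => ?_
  split_ifs with h
  · simp
  · rw [map_div₀, map_mul, map_pow, Polynomial.coeff_map, Complex.ofRealHom_eq_coe,
      Complex.conj_ofReal, Complex.conj_natCast]

theorem plF_AS (Q : ℝ[X]) (v : ℝ) (hv : 0 < v) :
    ((AS Q (Real.exp (-(2 * v))) : ℝ) : ℂ) =
      ∑' d : ℤ, LQ (Q.map Complex.ofRealHom) (2 * (v : ℂ) - Complex.I * π * (2 * d + 1)) -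
        ((Q.coeff 0 : ℝ) : ℂ) / (1 + (Real.exp (2 * v) : ℂ)) := by
  have h := alt_poly (Q.map Complex.ofRealHom) v hv
  rw [Polynomial.coeff_map, Complex.ofRealHom_eq_coe] at h
  rw [← h]
  unfold AS
  rw [Complex.ofReal_tsum]
  refine tsum_congr fun m => ?_
  rw [show ((m : ℂ) + 1) = (((m : ℝ) + 1 : ℝ) : ℂ) by push_cast; rfl, plF_eval]
  push_cast
  ring

theorem plF_summable (Q : ℂ[X]) (v : ℝ) :
    Summable fun d : ℤ => LQ Q (2 * (v : ℂ) - Complex.I * π * (2 * d + 1)) := by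
  unfold LQ
  refine summable_sum fun k _ => ?_
  by_cases hk : k = 0
  · simp only [hk, if_true]
    exact summable_zero
  · simp only [hk, if_false]
    have := (plD_summable v k (by omega)).mul_left (Q.coeff k * (k.factorial : ℂ))
    refine this.congr fun d => ?_
    rw [mul_one_div]

theorem plF_split (f : ℤ → ℂ) (hf : Summable f) :
    ∑' d : ℤ, f d = f 0 + f (-1) + ∑' d : ℤ, (if d = 0 ∨ d = -1 then 0 else f d) := by
  have h1 : Summable fun d : ℤ => (if d = 0 ∨ d = -1 then f d else 0) := by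
    refine summable_of_hasFiniteSupport ((Set.toFinite ({0, -1} : Set ℤ)).subset ?_)
    intro d hd
    by_contra hc
    apply hd
    have : ¬ (d = 0 ∨ d = -1) := by simpa using hc
    simp [this]
  have h2 : Summable fun d : ℤ => (if d = 0 ∨ d = -1 then 0 else f d) := by
    refine (hf.sub h1).congr fun d => ?_
    split_ifs <;> simp
  have h3 : ∑' d : ℤ, f d = ∑' d : ℤ, ((if d = 0 ∨ d = -1 then f d else 0) +
      (if d = 0 ∨ d = -1 then 0 else f d)) := by
    refine tsum_congr fun d => ?_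
    split_ifs <;> simp
  rw [h3, h1.tsum_add h2]
  congr 1
  rw [tsum_eq_sum (s := {0, -1})]
  · rw [Finset.sum_pair (by norm_num)]
    simp
  · intro d hd
    have : ¬ (d = 0 ∨ d = -1) := by simpa using hd
    simp [this]

/-- the real form -/
theorem plF_AS' (Q : ℝ[X]) (v : ℝ) (hv : 0 < v) :
    AS Q (Real.exp (-(2 * v))) =
      2 * (LQ (Q.map Complex.ofRealHom) (2 * (v : ℂ) - Complex.I * π)).re +
      (∑' d : ℤ, (if d = 0 ∨ d = -1 then 0 else
        LQ (Q.map Complex.ofRealHom) (2 * (v : ℂ) - Complex.I * π * (2 * d + 1)))).re -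
        Q.coeff 0 / (1 + Real.exp (2 * v)) := by
  have h := plF_AS Q v hv
  rw [plF_split _ (plF_summable _ v)] at h
  have h1 : (2 * (v : ℂ) - Complex.I * π * (2 * ((0 : ℤ) : ℂ) + 1)) =
      2 * (v : ℂ) - Complex.I * π := by
    push_cast
    ring
  have h2 : (2 * (v : ℂ) - Complex.I * π * (2 * ((-1 : ℤ) : ℂ) + 1)) =
      (starRingEnd ℂ) (2 * (v : ℂ) - Complex.I * π) := by
    rw [map_sub, map_mul, map_mul, Complex.conj_I, Complex.conj_ofReal, Complex.conj_ofReal,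
      map_ofNat]
    push_cast
    ring
  rw [h1, h2, plF_conj] at h
  have h3 := congrArg Complex.re h
  rw [Complex.ofReal_re, Complex.sub_re, Complex.add_re, Complex.add_re, Complex.conj_re] at h3
  rw [h3]
  have h4 : (((Q.coeff 0 : ℝ) : ℂ) / (1 + (Real.exp (2 * v) : ℂ))).re =
      Q.coeff 0 / (1 + Real.exp (2 * v)) := by
    rw [← Complex.ofReal_one, ← Complex.ofReal_add, ← Complex.ofReal_div, Complex.ofReal_re]
  rw [h4]
  ring


theorem plF_phase (N : ℕ) (ψ : ℝ) (δ : ℂ) (hδ : ‖δ‖ ≤ 2 / 5) (hψ : |ψ - N * π| ≤ 1 / 5) :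
    29 / 50 ≤ (-1) ^ N * (Complex.exp (Complex.I * ψ) * (1 + δ)).re := by
  set φ : ℝ := ψ - N * π with hφ
  have h1 : Complex.exp (Complex.I * ψ) = (-1) ^ N * Complex.exp (φ * Complex.I) := by
    have : Complex.I * (ψ : ℂ) = (N : ℂ) * (π * Complex.I) + φ * Complex.I := by
      rw [hφ]
      push_cast
      ring
    rw [this, Complex.exp_add, Complex.exp_nat_mul, Complex.exp_pi_mul_I]
  have h2 : (Complex.exp (Complex.I * ψ) * (1 + δ)).re =
      (-1) ^ N * (Complex.exp (φ * Complex.I) * (1 + δ)).re := by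
    rw [h1, mul_assoc]
    have : ((-1 : ℂ) ^ N) = (((-1 : ℝ) ^ N : ℝ) : ℂ) := by push_cast; rfl
    rw [this, Complex.re_ofReal_mul]
  rw [h2, ← mul_assoc, ← mul_pow, neg_mul_neg, one_mul, one_pow, one_mul]
  rw [mul_add, mul_one, Complex.add_re]
  have h3 : (Complex.exp (φ * Complex.I)).re = Real.cos φ := Complex.exp_ofReal_mul_I_re φ
  have h4 : |(Complex.exp (φ * Complex.I) * δ).re| ≤ 2 / 5 := by
    refine (Complex.abs_re_le_norm _).trans ?_
    rw [norm_mul, Complex.norm_exp_ofReal_mul_I, one_mul]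
    exact hδ
  have h5 : 1 - φ ^ 2 / 2 ≤ Real.cos φ := Real.one_sub_sq_div_two_le_cos
  have h6 : φ ^ 2 ≤ 1 / 25 := by
    rw [← sq_abs]
    nlinarith [abs_nonneg φ]
  have h7 := (abs_le.1 h4).1
  rw [h3]
  linarith

theorem plF_fact (n : ℕ) (x : ℝ) (hx : 3 ≤ x) (hn : x ^ 20 = n) :
    16 * (x ^ 11 / 10) ^ (n + 1) * Real.exp (x ^ 11 / 5 + x ^ 10 / 20 + x ^ 2 / 200) ≤
      n.factorial := by
  have hx1 : (1 : ℝ) ≤ x := by linarith
  have hn0 : (3 : ℝ) ^ 20 ≤ n := by
    rw [← hn]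
    exact pow_le_pow_left₀ (by norm_num) hx 20
  have hn1 : (11 : ℝ) ≤ n := by
    refine le_trans (by norm_num) hn0
  have hn2 : 11 ≤ n := by exact_mod_cast hn1
  have h1 := Real.pow_div_factorial_le_exp (n : ℝ) (Nat.cast_nonneg n) n
  have hf : (0 : ℝ) < n.factorial := by exact_mod_cast n.factorial_pos
  rw [div_le_iff₀ hf] at h1
  -- the exponent
  have hL : x ^ 11 / 5 + x ^ 10 / 20 + x ^ 2 / 200 ≤ n := by
    have e1 : x ^ 10 ≤ x ^ 11 := pow_le_pow_right₀ hx1 (by norm_num)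
    have e2 : x ^ 2 ≤ x ^ 11 := pow_le_pow_right₀ hx1 (by norm_num)
    have e3 : x ^ 11 ≤ x ^ 20 := pow_le_pow_right₀ hx1 (by norm_num)
    have e4 : 0 ≤ x ^ 11 := by positivity
    rw [← hn]
    linarith
  have hexp : Real.exp (x ^ 11 / 5 + x ^ 10 / 20 + x ^ 2 / 200) ≤ Real.exp n :=
    Real.exp_le_exp.2 hL
  -- powers
  have h2 : (x ^ 11 / 10) ^ (n + 1) ≤ x ^ (11 * (n + 1)) := by
    rw [pow_mul]
    refine pow_le_pow_left₀ (by positivity) ?_ _
    have : 0 ≤ x ^ 11 := by positivity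
    linarith
  have h3 : (n : ℝ) ^ n = x ^ (11 * (n + 1)) * x ^ (9 * n - 11) := by
    rw [← hn, ← pow_mul, ← pow_add]
    congr 1
    omega
  have h4 : Real.exp (8 * n) ≤ x ^ (9 * n - 11) := by
    have e1 : Real.exp 1 ≤ x := by
      have := Real.exp_one_lt_d9
      linarith
    have e2 : Real.exp (8 * n) = (Real.exp 1) ^ (8 * n) := by
      rw [← Real.exp_nat_mul]
      congr 1
      push_cast
      ring
    rw [e2]
    calc (Real.exp 1) ^ (8 * n) ≤ x ^ (8 * n) := pow_le_pow_left₀ (Real.exp_pos 1).le e1 _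
      _ ≤ x ^ (9 * n - 11) := pow_le_pow_right₀ hx1 (by omega)
  have h5 : (16 : ℝ) ≤ Real.exp (6 * n) := by
    have := Real.add_one_le_exp (6 * (n : ℝ))
    linarith
  have hA : (0 : ℝ) ≤ x ^ (11 * (n + 1)) := by positivity
  have key : 16 * (x ^ 11 / 10) ^ (n + 1) * Real.exp (x ^ 11 / 5 + x ^ 10 / 20 + x ^ 2 / 200) *
      Real.exp n ≤ n.factorial * Real.exp n := by
    calc 16 * (x ^ 11 / 10) ^ (n + 1) * Real.exp (x ^ 11 / 5 + x ^ 10 / 20 + x ^ 2 / 200) *
        Real.exp n ≤ Real.exp (6 * n) * x ^ (11 * (n + 1)) * Real.exp n * Real.exp n := by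
          gcongr
      _ = x ^ (11 * (n + 1)) * Real.exp (8 * n) := by
          rw [show (8 * (n : ℝ)) = 6 * n + n + n by ring, Real.exp_add, Real.exp_add]
          ring
      _ ≤ x ^ (11 * (n + 1)) * x ^ (9 * n - 11) := by gcongr
      _ = (n : ℝ) ^ n := h3.symm
      _ ≤ Real.exp n * n.factorial := h1
      _ = n.factorial * Real.exp n := mul_comm _ _
  exact le_of_mul_le_mul_right key (Real.exp_pos _)


/-- the value at the main pole -/
theorem plF_main (n : ℕ) (c α β θ : ℝ) (s : ℂ) (v : ℝ)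
    (hv : 2 * v = π * (Real.cos θ / Real.sin θ)) (hθ : 0 < Real.sin θ)
    (hs : s = 2 * (v : ℂ) - Complex.I * π) (G : ℂ)
    (δ : ℂ) (hδ : δ = G * Complex.exp (α * s + β * s ^ 2 / n) / n.factorial - 1) :
    (c : ℂ) * G / s ^ (n + 1) =
      ((c * n.factorial / (π / Real.sin θ) ^ (n + 1) *
        Real.exp (-(2 * α * v) - β * (4 * v ^ 2 - π ^ 2) / n) : ℝ) : ℂ) *
      (Complex.exp (Complex.I * (((n + 1) * θ + α * π + 4 * π * β * v / n : ℝ) : ℂ)) *
        (1 + δ)) := by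
  have hf : (n.factorial : ℂ) ≠ 0 := by exact_mod_cast n.factorial_ne_zero
  have hsθ : ((Real.sin θ : ℝ) : ℂ) ≠ 0 := by exact_mod_cast hθ.ne'
  have hπ : (π : ℂ) ≠ 0 := by exact_mod_cast Real.pi_ne_zero
  have h1 : s = ((π / Real.sin θ : ℝ) : ℂ) * Complex.exp (-(θ : ℂ) * Complex.I) := by
    have e1 : Complex.exp (-(θ : ℂ) * Complex.I) =
        ((Real.cos θ : ℝ) : ℂ) - ((Real.sin θ : ℝ) : ℂ) * Complex.I := by
      rw [Complex.exp_mul_I, Complex.cos_neg, Complex.sin_neg]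
      push_cast
      ring
    have e2 : (2 * (v : ℂ)) = ((π * (Real.cos θ / Real.sin θ) : ℝ) : ℂ) := by
      rw [← hv]
      push_cast
      rfl
    rw [hs, e1, e2, Complex.ofReal_div, Complex.ofReal_mul, Complex.ofReal_div]
    field_simp
  have h2 : s ^ (n + 1) = (((π / Real.sin θ) ^ (n + 1) : ℝ) : ℂ) *
      Complex.exp (-(Complex.I * (((n + 1) * θ : ℝ) : ℂ))) := by
    rw [h1, mul_pow, ← Complex.exp_nat_mul]
    congr 1
    · push_cast
      rfl
    · congr 1
      push_cast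
      ring
  have h3 : G = n.factorial * (Complex.exp (-(α * s + β * s ^ 2 / n)) * (1 + δ)) := by
    rw [hδ]
    generalize (α * s + β * s ^ 2 / n : ℂ) = w
    have e : Complex.exp (-w) * Complex.exp w = 1 := by
      rw [← Complex.exp_add, neg_add_cancel, Complex.exp_zero]
    rw [add_sub_cancel]
    field_simp
    linear_combination (-G) * e
  have h4 : Complex.exp (-(α * s + β * s ^ 2 / n)) =
      ((Real.exp (-(2 * α * v) - β * (4 * v ^ 2 - π ^ 2) / n) : ℝ) : ℂ) *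
        Complex.exp (Complex.I * ((α * π + 4 * π * β * v / n : ℝ) : ℂ)) := by
    rw [Complex.ofReal_exp, ← Complex.exp_add]
    congr 1
    have e1 : s ^ 2 = 4 * (v : ℂ) ^ 2 - π ^ 2 - 4 * π * v * Complex.I := by
      rw [hs]
      ring_nf
      rw [Complex.I_sq]
      ring
    rw [e1, hs]
    push_cast
    ring
  have h5 : Complex.exp (-(Complex.I * (((n + 1) * θ : ℝ) : ℂ))) ≠ 0 := Complex.exp_ne_zero _
  have h6 : (((π / Real.sin θ) ^ (n + 1) : ℝ) : ℂ) ≠ 0 := by
    have : (π / Real.sin θ) ^ (n + 1) ≠ 0 := pow_ne_zero _ (div_ne_zero Real.pi_ne_zero hθ.ne')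
    exact_mod_cast this
  have h7 : Complex.exp (Complex.I * (((n + 1) * θ + α * π + 4 * π * β * v / n : ℝ) : ℂ)) *
      Complex.exp (-(Complex.I * (((n + 1) * θ : ℝ) : ℂ))) =
      Complex.exp (Complex.I * ((α * π + 4 * π * β * v / n : ℝ) : ℂ)) := by
    rw [← Complex.exp_add]
    congr 1
    push_cast
    ring
  rw [div_eq_iff (by rw [h2]; exact mul_ne_zero h6 h5), h2]
  conv_lhs => rw [h3, h4, ← h7]
  generalize Complex.exp (Complex.I * (((n + 1) * θ + α * π + 4 * π * β * v / n : ℝ) : ℂ)) = X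
  generalize Complex.exp (-(Complex.I * (((n + 1) * θ : ℝ) : ℂ))) = Y
  generalize Real.exp (-(2 * α * v) - β * (4 * v ^ 2 - π ^ 2) / n) = W
  generalize (π / Real.sin θ) ^ (n + 1) = Z at h6 ⊢
  rw [Complex.ofReal_mul, Complex.ofReal_div, Complex.ofReal_mul, Complex.ofReal_natCast]
  field_simp


theorem plF_coeff {P : ℝ[X]} {n : ℕ} {M c : ℝ} {t : Fin n → ℂ} {a : ℝ} (h : Dat P n M c t a) :
    |P.coeff 0| ≤ c * M ^ n := by
  have h1 : ((P.coeff 0 : ℝ) : ℂ) = (P.map Complex.ofRealHom).eval 0 := by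
    rw [← Polynomial.coeff_zero_eq_eval_zero, Polynomial.coeff_map, Complex.ofRealHom_eq_coe]
  rw [← Real.norm_eq_abs, ← Complex.norm_real, h1, h.hP, Polynomial.eval_mul, Polynomial.eval_C,
    Polynomial.eval_prod, norm_mul, Complex.norm_real, Real.norm_eq_abs, abs_of_pos h.hc,
    norm_prod]
  refine mul_le_mul_of_nonneg_left ?_ h.hc.le
  calc ∏ i, ‖(X - C (t i)).eval (0 : ℂ)‖ ≤ ∏ _i : Fin n, M := by
        refine Finset.prod_le_prod (fun _ _ => norm_nonneg _) fun i _ => ?_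
        simpa using h.ht i
    _ = M ^ n := by simp

theorem plF_E (n : ℕ) (x c ρ e : ℝ) (hx : 3 ≤ x) (hn : x ^ 20 = n) (hc : 0 < c) (hρ : 0 < ρ)
    (hρ2 : ρ ≤ x ^ 10 / 10) (he : -(x ^ 10 / 20 + x ^ 2 / 200) ≤ e) :
    16 * c * x ^ (n + 1) * Real.exp (x ^ 11 / 5) ≤
      c * n.factorial / ρ ^ (n + 1) * Real.exp e := by
  have h1 := plF_fact n x hx hn
  have h2 : (x * ρ) ^ (n + 1) ≤ (x ^ 11 / 10) ^ (n + 1) := by
    refine pow_le_pow_left₀ (by positivity) ?_ _
    calc x * ρ ≤ x * (x ^ 10 / 10) := by gcongr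
      _ = x ^ 11 / 10 := by ring
  have h3 : Real.exp (-(x ^ 10 / 20 + x ^ 2 / 200)) ≤ Real.exp e := Real.exp_le_exp.2 he
  have hW0 : 0 ≤ Real.exp (x ^ 11 / 5) := (Real.exp_pos _).le
  have hL1 : 0 ≤ Real.exp (-(x ^ 10 / 20 + x ^ 2 / 200)) := (Real.exp_pos _).le
  have hL2 : 0 ≤ Real.exp (x ^ 10 / 20 + x ^ 2 / 200) := (Real.exp_pos _).le
  have h4 : Real.exp (x ^ 11 / 5 + x ^ 10 / 20 + x ^ 2 / 200) =
      Real.exp (x ^ 11 / 5) * Real.exp (x ^ 10 / 20 + x ^ 2 / 200) := by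
    rw [← Real.exp_add]
    congr 1
    ring
  have h5 : Real.exp (x ^ 10 / 20 + x ^ 2 / 200) * Real.exp (-(x ^ 10 / 20 + x ^ 2 / 200)) = 1 := by
    rw [← Real.exp_add, add_neg_cancel, Real.exp_zero]
  rw [h4] at h1
  clear h4 he
  generalize x ^ 10 / 20 + x ^ 2 / 200 = L at *
  generalize Real.exp (x ^ 11 / 5) = W at *
  generalize Real.exp (-L) = L1 at *
  generalize Real.exp L = L2 at *
  have hρn : 0 < ρ ^ (n + 1) := by positivity
  have h6 : 16 * (x * ρ) ^ (n + 1) * (W * L2) ≤ n.factorial := by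
    refine le_trans ?_ h1
    gcongr
  calc 16 * c * x ^ (n + 1) * W = c * (16 * (x * ρ) ^ (n + 1) * (W * L2)) / ρ ^ (n + 1) * L1 := by
        rw [mul_pow, div_mul_eq_mul_div, eq_div_iff hρn.ne']
        linear_combination (-(16 * c * x ^ (n + 1) * W * ρ ^ (n + 1))) * h5
    _ ≤ c * n.factorial / ρ ^ (n + 1) * Real.exp e := by
        gcongr


/-- the centred case -/
theorem plF_core : ∃ X0 : ℝ, 3 ≤ X0 ∧ ∀ (n : ℕ) (x c : ℝ) (τ : Fin n → ℂ) (Q : ℝ[X]) (α θ : ℝ)
    (N : ℕ), X0 ≤ x → x ^ 20 = n → Dat Q n x c τ α → |α| ≤ 1 / 2 → 0 < θ → θ < π / 2 →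
    π ≤ x ^ 10 / 10 * Real.sin θ → (n + 1) * θ + α * π ≤ N * π →
    N * π ≤ (n + 1) * θ + α * π + 1 / 10 →
    8 * c * x ^ (n + 1) * Real.exp (x ^ 11 / 5) ≤
      (-1) ^ N * AS Q (Real.exp (-(π * (Real.cos θ / Real.sin θ)))) := by
  obtain ⟨X1, hX1, hGI⟩ := GI_asymp
  obtain ⟨X2, hX2, hSP⟩ := side_poles
  refine ⟨max 3 (max X1 X2), le_max_left _ _, ?_⟩
  intro n x c τ Q α θ N hx hn hD hα hθ0 hθ1 hsin hN1 hN2
  have hx3 : 3 ≤ x := (le_max_left _ _).trans hx
  have hx1 : X1 ≤ x := ((le_max_left _ _).trans (le_max_right _ _)).trans hx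
  have hx2 : X2 ≤ x := ((le_max_right _ _).trans (le_max_right _ _)).trans hx
  have hc := hD.hc
  obtain ⟨β, hβ⟩ := hD.sq_real
  have hπ := Real.pi_pos
  have hsθ : 0 < Real.sin θ := Real.sin_pos_of_pos_of_lt_pi hθ0 (by linarith)
  have hcθ : 0 < Real.cos θ := Real.cos_pos_of_mem_Ioo ⟨by linarith, hθ1⟩
  set v : ℝ := π * (Real.cos θ / Real.sin θ) / 2 with hv
  have hv2 : 2 * v = π * (Real.cos θ / Real.sin θ) := by rw [hv]; ring
  have hv0 : 0 < v := by rw [hv]; positivity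
  set ρ : ℝ := π / Real.sin θ with hρ
  have hρ0 : 0 < ρ := by rw [hρ]; positivity
  have hρ1 : ρ ≤ x ^ 10 / 10 := by
    rw [hρ, div_le_iff₀ hsθ]
    exact hsin
  have hρv : 4 * v ^ 2 + π ^ 2 = ρ ^ 2 := by
    have e : 4 * v ^ 2 = (2 * v) ^ 2 := by ring
    rw [e, hv2, hρ]
    have h1 := Real.sin_sq_add_cos_sq θ
    field_simp
    linarith
  have hn0 : (0 : ℝ) < n := by rw [← hn]; positivity
  have hn0' : (n : ℝ) ≠ 0 := hn0.ne'
  -- bounds for `β` and `v`
  have hβ1 : |β| ≤ x ^ 2 / 2 := by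
    have h1 : ‖2 * (n : ℂ) * (β : ℂ)‖ ≤ n * x ^ 2 := by
      rw [hβ]
      refine (norm_sum_le _ _).trans ?_
      calc ∑ i, ‖τ i ^ 2‖ ≤ ∑ _i : Fin n, x ^ 2 := by
            refine Finset.sum_le_sum fun i _ => ?_
            rw [norm_pow]
            exact pow_le_pow_left₀ (norm_nonneg _) (hD.ht i) 2
        _ = n * x ^ 2 := by simp
    rw [norm_mul, norm_mul, Complex.norm_real, Real.norm_eq_abs, Complex.norm_natCast] at h1
    norm_num at h1
    nlinarith
  have hvρ : 2 * v ≤ ρ := by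
    nlinarith [sq_nonneg (2 * v - ρ)]
  have hvx : 2 * v ≤ x ^ 10 / 10 := hvρ.trans hρ1
  set s : ℂ := 2 * (v : ℂ) - Complex.I * π with hs
  have hsn : ‖s‖ = ρ := by
    have h1 : Complex.normSq s = ρ ^ 2 := by
      rw [← hρv, Complex.normSq_apply, hs]
      simp
      ring
    rw [Complex.norm_def, h1, Real.sqrt_sq hρ0.le]
  have hs0 : s ≠ 0 := by
    intro h
    rw [h, norm_zero] at hsn
    exact hρ0.ne hsn
  -- the Gamma integral
  have hα1 : ‖(α : ℂ)‖ ≤ 1 / 2 := by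
    rw [Complex.norm_real, Real.norm_eq_abs]
    exact hα
  have hG := hGI n x τ s α β hx1 hn hD.ht hD.ha hα1 hβ (by
    rw [hsn]
    refine hρ1.trans ?_
    have : 0 ≤ x ^ 10 := by positivity
    linarith)
  set δ : ℂ := GI τ s * Complex.exp (α * s + β * s ^ 2 / n) / n.factorial - 1 with hδ
  have hmain := plF_main n c α β θ s v hv2 hsθ hs (GI τ s) δ hδ
  have hLQ := LQ_GI (c : ℂ) τ s hs0 (Q.map Complex.ofRealHom) hD.hP
  set E : ℝ := c * n.factorial / (π / Real.sin θ) ^ (n + 1) *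
        Real.exp (-(2 * α * v) - β * (4 * v ^ 2 - π ^ 2) / n) with hE
  set ψ : ℝ := (n + 1) * θ + α * π + 4 * π * β * v / n with hψ
  -- size of the correction of the phase
  have hcor : |4 * π * β * v / n| ≤ 1 / 10 := by
    have h1 : |4 * π * β * v / n| = 2 * π * |β| * (2 * v) / n := by
      rw [abs_div, abs_mul, abs_mul, abs_mul, abs_of_pos hn0, abs_of_pos hv0, abs_of_pos hπ]
      norm_num
      ring
    rw [h1, div_le_iff₀ hn0, ← hn]
    have h2 : 2 * π * |β| * (2 * v) ≤ 2 * 3.15 * (x ^ 2 / 2) * (x ^ 10 / 10) := by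
      have := Real.pi_lt_d2
      gcongr
    refine h2.trans ?_
    have h3 : (3 : ℝ) ^ 8 ≤ x ^ 8 := pow_le_pow_left₀ (by norm_num) hx3 8
    have h4 : 0 ≤ x ^ 12 := by positivity
    have h5 : x ^ 20 = x ^ 12 * x ^ 8 := by ring
    rw [h5]
    nlinarith
  have hψN : |ψ - N * π| ≤ 1 / 5 := by
    rw [abs_le]
    have h1 := abs_le.1 hcor
    constructor
    · rw [hψ]
      linarith
    · rw [hψ]
      linarith
  have hph := plF_phase N ψ δ hG hψN
  have hEpos : 0 < E := by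
    rw [hE]
    positivity
  -- the real part of the main term
  have hre : ((c : ℂ) * GI τ s / s ^ (n + 1)).re =
      E * (Complex.exp (Complex.I * ψ) * (1 + δ)).re := by
    rw [hmain, Complex.re_ofReal_mul]
  have hQ0 := plF_coeff hD
  have hlow : 16 * c * x ^ (n + 1) * Real.exp (x ^ 11 / 5) ≤ E := by
    rw [hE]
    refine plF_E n x c _ _ hx3 hn hc hρ0 hρ1 ?_
    have h1 : |2 * α * v| ≤ x ^ 10 / 20 := by
      rw [abs_mul, abs_mul, abs_of_pos hv0]
      norm_num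
      nlinarith [abs_nonneg α]
    have h2 : |β * (4 * v ^ 2 - π ^ 2) / n| ≤ x ^ 2 / 200 := by
      rw [abs_div, abs_of_pos hn0, div_le_iff₀ hn0, abs_mul]
      have h3 : |4 * v ^ 2 - π ^ 2| ≤ (x ^ 10 / 10) ^ 2 := by
        rw [abs_le]
        have h4 : ρ ^ 2 ≤ (x ^ 10 / 10) ^ 2 := pow_le_pow_left₀ hρ0.le hρ1 2
        constructor
        · nlinarith [sq_nonneg v]
        · nlinarith [sq_nonneg π]
      calc |β| * |4 * v ^ 2 - π ^ 2| ≤ (x ^ 2 / 2) * (x ^ 10 / 10) ^ 2 := by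
            gcongr
        _ = x ^ 2 / 200 * n := by
            rw [← hn]
            ring
    have h1' := (abs_le.1 h1).2
    have h2' := (abs_le.1 h2).2
    linarith
  -- side poles
  have hside := hSP n x τ (Q.map Complex.ofRealHom) c α β v hx2 hn hc hD.ht hD.ha hα hβ hD.hP hv0
    (by rw [hρv]; exact pow_le_pow_left₀ hρ0.le hρ1 2)
  have hpw : (4 * v ^ 2 + π ^ 2) ^ (((n : ℝ) + 1) / 2) = (π / Real.sin θ) ^ (n + 1) := by
    rw [hρv, ← Real.rpow_natCast ρ 2, ← Real.rpow_mul hρ0.le, ← hρ, ← Real.rpow_natCast ρ (n + 1)]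
    congr 1
    push_cast
    ring
  rw [hpw, ← hE] at hside
  rw [← hv2, plF_AS' Q v hv0, ← hs, hLQ, Complex.sub_re, hre]
  set S : ℂ := ∑' d : ℤ, (if d = 0 ∨ d = -1 then 0 else
        LQ (Q.map Complex.ofRealHom) (2 * (v : ℂ) - Complex.I * π * (2 * d + 1))) with hS
  set u : ℝ := (Complex.exp (Complex.I * ψ) * (1 + δ)).re with hu
  -- error terms
  have hc0 : |(((Q.map Complex.ofRealHom).coeff 0) / s).re| ≤ c * x ^ n := by
    refine (Complex.abs_re_le_norm _).trans ?_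
    rw [norm_div, hsn, Polynomial.coeff_map, Complex.ofRealHom_eq_coe, Complex.norm_real,
      Real.norm_eq_abs, div_le_iff₀ hρ0]
    have h1 : 1 ≤ ρ := by
      rw [hρ, le_div_iff₀ hsθ]
      have := Real.sin_le_one θ
      have := Real.pi_gt_three
      linarith
    have h2 : 0 ≤ c * x ^ n := by positivity
    nlinarith
  have hc1 : |Q.coeff 0 / (1 + Real.exp (2 * v))| ≤ c * x ^ n := by
    have h0 := Real.exp_pos (2 * v)
    rw [abs_div, abs_of_pos (by linarith : (0 : ℝ) < 1 + Real.exp (2 * v)), div_le_iff₀ (by linarith)]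
    have h2 : 0 ≤ c * x ^ n := by positivity
    nlinarith
  have hSre : |S.re| ≤ E / 100 := by
    refine (Complex.abs_re_le_norm _).trans ?_
    linarith
  have hcx : 16 * (c * x ^ n) ≤ E := by
    refine le_trans ?_ hlow
    have h1 : 1 ≤ Real.exp (x ^ 11 / 5) := Real.one_le_exp (by positivity)
    have h2 : c * x ^ n ≤ c * x ^ (n + 1) := by
      refine mul_le_mul_of_nonneg_left ?_ hc.le
      exact pow_le_pow_right₀ (by linarith) (by omega)
    have h3 : 0 ≤ c * x ^ (n + 1) := by positivity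
    nlinarith
  have hEu : 29 / 50 * E ≤ (-1) ^ N * (E * u) := by
    nlinarith
  have hsg : ∀ y : ℝ, -|y| ≤ (-1) ^ N * y := by
    intro y
    rcases neg_one_pow_eq_or ℝ N with h | h
    · rw [h, one_mul]
      exact neg_abs_le y
    · rw [h]
      have := le_abs_self y
      linarith
  have e1 := hsg S.re
  have e2 := hsg (-(((Q.map Complex.ofRealHom).coeff 0) / s).re)
  have e3 := hsg (-(Q.coeff 0 / (1 + Real.exp (2 * v))))
  rw [abs_neg] at e2 e3
  have hfin : (-1) ^ N * (2 * (E * u - (((Q.map Complex.ofRealHom).coeff 0) / s).re) + S.re -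
      Q.coeff 0 / (1 + Real.exp (2 * v))) = 2 * ((-1) ^ N * (E * u)) +
      2 * ((-1) ^ N * (-(((Q.map Complex.ofRealHom).coeff 0) / s).re)) + (-1) ^ N * S.re +
      (-1) ^ N * (-(Q.coeff 0 / (1 + Real.exp (2 * v)))) := by
    ring
  rw [hfin]
  linarith



theorem plF_summ (P : ℝ[X]) (r : ℝ) (h0 : 0 < r) (h1 : r < 1) :
    Summable fun m : ℕ => (-1) ^ (m + 1) * P.eval ((m : ℝ) + 1) * r ^ (m + 1) := by
  have hs : ∀ k : ℕ, Summable fun m : ℕ => (((m + 1 : ℕ) : ℝ)) ^ k * (-r) ^ (m + 1) := by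
    intro k
    have h := summable_pow_mul_geometric_of_norm_lt_one (R := ℝ) k
      (r := -r) (by rw [norm_neg, Real.norm_eq_abs, abs_of_pos h0]; exact h1)
    exact (summable_nat_add_iff 1).mpr h
  have h2 : ∀ m : ℕ, (-1) ^ (m + 1) * P.eval ((m : ℝ) + 1) * r ^ (m + 1) =
      ∑ k ∈ range (P.natDegree + 1), P.coeff k * ((((m + 1 : ℕ) : ℝ)) ^ k * (-r) ^ (m + 1)) := by
    intro m
    rw [Polynomial.eval_eq_sum_range, Finset.mul_sum, Finset.sum_mul]
    refine Finset.sum_congr rfl fun k _ => ?_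
    rw [neg_pow r]
    push_cast
    ring
  simp_rw [h2]
  exact summable_sum fun k _ => (hs k).mul_left _

theorem plF_step (P : ℝ[X]) (r : ℝ) (h0 : 0 < r) (h1 : r < 1) :
    -r * AS (P.comp (X + C 1)) r = AS P r + r * P.eval 1 := by
  unfold AS
  rw [(plF_summ P r h0 h1).tsum_eq_zero_add, ← tsum_mul_left]
  have h2 : ∀ m : ℕ, -r * ((-1) ^ (m + 1) * (P.comp (X + C 1)).eval ((m : ℝ) + 1) * r ^ (m + 1)) =
      (-1) ^ (m + 1 + 1) * P.eval (((m + 1 : ℕ) : ℝ) + 1) * r ^ (m + 1 + 1) := by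
    intro m
    rw [Polynomial.eval_comp]
    simp only [Polynomial.eval_add, Polynomial.eval_X, Polynomial.eval_C]
    push_cast
    ring
  simp_rw [h2]
  simp
  ring

theorem plF_shift (P : ℝ[X]) (r : ℝ) (h0 : 0 < r) (h1 : r < 1) (j : ℕ) :
    (-r) ^ j * AS (P.comp (X + C (j : ℝ))) r =
      AS P r + ∑ i ∈ range j, (-r) ^ i * (r * P.eval ((i : ℝ) + 1)) := by
  induction j with
  | zero => simp
  | succ j ih =>
    have h2 := plF_step (P.comp (X + C (j : ℝ))) r h0 h1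
    have h3 : (P.comp (X + C (j : ℝ))).comp (X + C 1) = P.comp (X + C ((j + 1 : ℕ) : ℝ)) := by
      rw [Polynomial.comp_assoc]
      congr 1
      simp only [Polynomial.add_comp, Polynomial.X_comp, Polynomial.C_comp]
      push_cast
      rw [Polynomial.C_add, Polynomial.C_1]
      ring
    rw [h3] at h2
    have h4 : (P.comp (X + C (j : ℝ))).eval 1 = P.eval ((j : ℝ) + 1) := by
      rw [Polynomial.eval_comp]
      simp only [Polynomial.eval_add, Polynomial.eval_X, Polynomial.eval_C]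
      rw [add_comm]
    rw [h4] at h2
    rw [Finset.sum_range_succ, ← add_assoc, ← ih, pow_succ]
    linear_combination ((-r) ^ j) * h2

theorem plF_dat {P : ℝ[X]} {n : ℕ} {M c : ℝ} {t : Fin n → ℂ} {a : ℝ} (h : Dat P n M c t a)
    (b x : ℝ) (hx : M + |b| ≤ x) :
    Dat (P.comp (X + C b)) n x c (fun i => t i - b) (a - b) where
  hM := by
    have := h.hM
    have := abs_nonneg b
    linarith
  hc := h.hc
  ht := fun i => by
    refine (norm_sub_le _ _).trans ?_
    rw [Complex.norm_real, Real.norm_eq_abs]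
    have := h.ht i
    linarith
  hP := by
    rw [Polynomial.map_comp, h.hP, Polynomial.mul_comp, Polynomial.C_comp, Polynomial.prod_comp]
    congr 1
    refine Finset.prod_congr rfl fun i _ => ?_
    simp only [Polynomial.sub_comp, Polynomial.X_comp, Polynomial.C_comp, Polynomial.map_add,
      Polynomial.map_X, Polynomial.map_C, Complex.ofRealHom_eq_coe, map_sub]
    ring
  ha := by
    rw [Finset.sum_sub_distrib, ← h.ha]
    simp
    ring

theorem plF_evalle {P : ℝ[X]} {n : ℕ} {M c : ℝ} {t : Fin n → ℂ} {a : ℝ} (h : Dat P n M c t a)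
    (y : ℝ) : |P.eval y| ≤ c * (|y| + M) ^ n := by
  have h1 : ((P.eval y : ℝ) : ℂ) = (P.map Complex.ofRealHom).eval (y : ℂ) := by
    rw [Polynomial.eval_map]
    exact (Polynomial.eval₂_at_apply Complex.ofRealHom y).symm
  rw [← Real.norm_eq_abs, ← Complex.norm_real, h1, h.hP, Polynomial.eval_mul, Polynomial.eval_C,
    Polynomial.eval_prod, norm_mul, Complex.norm_real, Real.norm_eq_abs, abs_of_pos h.hc,
    norm_prod]
  refine mul_le_mul_of_nonneg_left ?_ h.hc.le
  calc ∏ i, ‖(X - C (t i)).eval (y : ℂ)‖ ≤ ∏ _i : Fin n, (|y| + M) := by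
        refine Finset.prod_le_prod (fun _ _ => norm_nonneg _) fun i _ => ?_
        rw [Polynomial.eval_sub, Polynomial.eval_X, Polynomial.eval_C]
        refine (norm_sub_le _ _).trans ?_
        rw [Complex.norm_real, Real.norm_eq_abs]
        have := h.ht i
        linarith
    _ = (|y| + M) ^ n := by simp

theorem plF_mean {P : ℝ[X]} {n : ℕ} {M c : ℝ} {t : Fin n → ℂ} {a : ℝ} (h : Dat P n M c t a)
    (hn : 0 < n) : |a| ≤ M := by
  have h1 : ‖(n : ℂ) * (a : ℂ)‖ ≤ n * M := by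
    rw [h.ha]
    refine (norm_sum_le _ _).trans ?_
    calc ∑ i, ‖t i‖ ≤ ∑ _i : Fin n, M := Finset.sum_le_sum fun i _ => h.ht i
      _ = n * M := by simp
  rw [norm_mul, Complex.norm_real, Real.norm_eq_abs, Complex.norm_natCast] at h1
  have hn' : (0 : ℝ) < n := by exact_mod_cast hn
  exact le_of_mul_le_mul_left h1 hn'


/-- the angle -/
theorem plF_angle (n k : ℕ) (x a b : ℝ) (hx : 3 ≤ x) (hn : x ^ 20 = n) (ha : |a| ≤ x / 2)
    (hk : 11 * x ^ 10 < k) (hk2 : (k : ℝ) ≤ ((n : ℝ) + 1) / 2 + a) :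
    0 < th n a k ∧ th n a k < π / 2 ∧ π ≤ x ^ 10 / 10 * Real.sin (th n a k) ∧
      (n + 1) * th n a k + (a - b) * π ≤ ((k : ℝ) - b) * π ∧
      ((k : ℝ) - b) * π ≤ (n + 1) * th n a k + (a - b) * π + 1 / 10 := by
  have hπ3 := Real.pi_gt_three
  have hπ4 := Real.pi_lt_d2
  have hπ := Real.pi_pos
  have hn1 : (0 : ℝ) < (n : ℝ) + 1 := by positivity
  have ha' := abs_le.1 ha
  have hx9 : (3 : ℝ) ^ 9 ≤ x ^ 9 := pow_le_pow_left₀ (by norm_num) hx 9
  have hx10 : (3 : ℝ) ^ 10 ≤ x ^ 10 := pow_le_pow_left₀ (by norm_num) hx 10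
  have hx10' : 0 < x ^ 10 := by positivity
  have hx11 : (3 : ℝ) ^ 11 ≤ x ^ 11 := pow_le_pow_left₀ (by norm_num) hx 11
  set θ := th n a k with hθ
  set θ1 : ℝ := 109 / 10 * π / x ^ 10 with hθ1
  have h1 : θ1 ≤ π * ((k : ℝ) - a) / ((n : ℝ) + 1) := by
    rw [hθ1, div_le_div_iff₀ hx10' hn1, ← hn]
    have e1 : 109 / 10 * (x ^ 20 + 1) ≤ ((k : ℝ) - a) * x ^ 10 := by
      have e2 : (11 * x ^ 10 - x / 2) * x ^ 10 ≤ ((k : ℝ) - a) * x ^ 10 := by
        apply mul_le_mul_of_nonneg_right _ hx10'.le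
        linarith
      refine le_trans ?_ e2
      have e3 : x ^ 20 = x ^ 11 * x ^ 9 := by ring
      have e4 : x * x ^ 10 = x ^ 11 := by ring
      have e5 : x ^ 10 * x ^ 10 = x ^ 20 := by ring
      have e6 : x ^ 11 * 3 ^ 9 ≤ x ^ 11 * x ^ 9 := by gcongr
      nlinarith
    nlinarith
  have h2 : θ1 ≤ 1 / 100 := by
    rw [hθ1, div_le_iff₀ hx10']
    norm_num at hx10
    linarith
  have hθ10 : 0 < θ1 := by rw [hθ1]; positivity
  have h3 : 1 / 100 ≤ π / 2 - 1 / (10 * ((n : ℝ) + 1)) := by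
    have : 1 / (10 * ((n : ℝ) + 1)) ≤ 1 / 10 := by
      apply one_div_le_one_div_of_le (by norm_num)
      have : (0 : ℝ) ≤ n := Nat.cast_nonneg n
      linarith
    linarith
  have h4 : θ1 ≤ θ := by
    rw [hθ, th]
    exact le_min h1 (h2.trans h3)
  have h5 : θ ≤ π / 2 - 1 / (10 * ((n : ℝ) + 1)) := by
    rw [hθ, th]
    exact min_le_right _ _
  have h6 : (0 : ℝ) < 1 / (10 * ((n : ℝ) + 1)) := by positivity
  have h7 : (n + 1) * θ ≤ π * ((k : ℝ) - a) := by
    have : θ ≤ π * ((k : ℝ) - a) / ((n : ℝ) + 1) := by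
      rw [hθ, th]
      exact min_le_left _ _
    rw [le_div_iff₀ hn1] at this
    linarith
  have h8 : π * ((k : ℝ) - a) ≤ (n + 1) * θ + 1 / 10 := by
    rcases min_choice (π * ((k : ℝ) - a) / ((n : ℝ) + 1)) (π / 2 - 1 / (10 * ((n : ℝ) + 1)))
      with h | h
    · have : θ = π * ((k : ℝ) - a) / ((n : ℝ) + 1) := by rw [hθ, th, h]
      rw [this, mul_div_cancel₀ _ hn1.ne']
      linarith
    · have : θ = π / 2 - 1 / (10 * ((n : ℝ) + 1)) := by rw [hθ, th, h]
      rw [this]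
      have e : ((n : ℝ) + 1) * (π / 2 - 1 / (10 * ((n : ℝ) + 1))) =
          ((n : ℝ) + 1) * π / 2 - 1 / 10 := by
        field_simp
      rw [e]
      nlinarith
  refine ⟨by linarith, by linarith, ?_, by linarith, by linarith⟩
  have h9 : Real.sin θ1 ≤ Real.sin θ :=
    Real.sin_le_sin_of_le_of_le_pi_div_two (by linarith) (by linarith) h4
  have h10 : θ1 - θ1 ^ 3 / 6 < Real.sin θ1 := Real.sin_gt_sub_cube hθ10
  have h11 : θ1 * (100 / 109) ≤ Real.sin θ1 := by
    refine le_trans ?_ h10.le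
    have : θ1 ^ 2 ≤ (1 / 100) ^ 2 := pow_le_pow_left₀ hθ10.le h2 2
    nlinarith
  calc π = x ^ 10 / 10 * (θ1 * (100 / 109)) := by
        rw [hθ1]
        field_simp
        norm_num
    _ ≤ x ^ 10 / 10 * Real.sin θ := by
        gcongr
        linarith

theorem plF_sum_le (Q : ℝ[X]) (r B : ℝ) (h0 : 0 < r) (h1 : r < 1) (j : ℕ)
    (hB : ∀ i : ℕ, i < j → |Q.eval ((i : ℝ) + 1)| ≤ B) :
    |∑ i ∈ range j, (-r) ^ i * (r * Q.eval ((i : ℝ) + 1))| ≤ j * B := by
  refine (Finset.abs_sum_le_sum_abs _ _).trans ?_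
  calc ∑ i ∈ range j, |(-r) ^ i * (r * Q.eval ((i : ℝ) + 1))| ≤ ∑ _i ∈ range j, B := by
        refine Finset.sum_le_sum fun i hi => ?_
        have h2 := hB i (Finset.mem_range.1 hi)
        rw [abs_mul, abs_mul, abs_pow, abs_neg, abs_of_pos h0, ← mul_assoc, ← pow_succ]
        have h3 : r ^ (i + 1) ≤ 1 := pow_le_one₀ h0.le h1.le
        calc r ^ (i + 1) * |Q.eval ((i : ℝ) + 1)| ≤ 1 * |Q.eval ((i : ℝ) + 1)| := by
              gcongr
          _ ≤ B := by rw [one_mul]; exact h2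
    _ = j * B := by simp

/-- **signs of the alternating sum in the pole regime** -/
theorem pole_sign : ∃ X0 : ℝ, 1 ≤ X0 ∧ ∀ (n : ℕ) (x M c : ℝ) (t : Fin n → ℂ) (P : ℝ[X]) (a : ℝ),
    Dat P n M c t a → X0 ≤ x → x ^ 20 = n → 2 * M + 1 ≤ x →
    ∀ k : ℕ, 11 * x ^ 10 < k → (k : ℝ) ≤ ((n : ℝ) + 1) / 2 + a →
      0 < (-1) ^ k * AS P (rk n a k) := by
  obtain ⟨X0, hX0, hcore⟩ := plF_core
  refine ⟨X0, by linarith, ?_⟩
  intro n x M c t P a hD hx hn hM k hk hk2
  have hx3 : 3 ≤ x := hX0.trans hx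
  have hM1 := hD.hM
  have hc := hD.hc
  have hn0 : (0 : ℝ) < n := by rw [← hn]; positivity
  have hn0' : 0 < n := by exact_mod_cast hn0
  have ha : |a| ≤ M := plF_mean hD hn0'
  have hx1011 : x ^ 10 * x = x ^ 11 := by ring
  have hround : |a - (round a : ℤ)| ≤ 1 / 2 := abs_sub_round a
  have hbM : |((round a : ℤ) : ℝ)| ≤ x / 2 := by
    have h1 : |((round a : ℤ) : ℝ)| ≤ |a| + 1 / 2 := by
      have h2 : ((round a : ℤ) : ℝ) = a - (a - (round a : ℤ)) := by ring
      rw [h2]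
      refine (abs_sub _ _).trans ?_
      linarith
    linarith
  obtain ⟨h1, h2, h3, h4, h5⟩ := plF_angle n k x a (round a : ℤ) hx3 hn (by linarith) hk hk2
  set θ := th n a k with hθ
  have hsθ : 0 < Real.sin θ := Real.sin_pos_of_pos_of_lt_pi h1 (by linarith [Real.pi_pos])
  have hcθ : 0 < Real.cos θ := Real.cos_pos_of_mem_Ioo ⟨by linarith [Real.pi_pos], h2⟩
  set r := Real.exp (-(π * (Real.cos θ / Real.sin θ))) with hr
  have hrk : rk n a k = r := rfl
  have hr0 : 0 < r := Real.exp_pos _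
  have hr1 : r < 1 := by
    rw [hr, Real.exp_lt_one_iff]
    have := Real.pi_pos
    have : 0 < π * (Real.cos θ / Real.sin θ) := by positivity
    linarith
  have hdat := plF_dat hD ((round a : ℤ) : ℝ) x (by linarith)
  have hexp1 : 1 ≤ Real.exp (x ^ 11 / 5) := Real.one_le_exp (by positivity)
  rw [hrk]
  obtain ⟨j, hj⟩ := Int.eq_nat_or_neg (round a)
  rcases hj with hj | hj
  · -- the mean is positive
    rw [hj] at h4 h5 hdat hround hbM
    rw [Int.cast_natCast] at h4 h5 hdat hround hbM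
    rw [abs_of_nonneg (Nat.cast_nonneg j)] at hbM
    have hjk : j ≤ k := by
      have : (j : ℝ) ≤ k := by
        have e1 : x ≤ x ^ 10 := le_self_pow₀ (by linarith) (by norm_num)
        have e2 : 0 ≤ x ^ 10 := by positivity
        linarith
      exact_mod_cast this
    have hkj : ((k - j : ℕ) : ℝ) = (k : ℝ) - j := by push_cast [hjk]; ring
    have key := hcore n x c _ _ _ θ (k - j) hx hn hdat hround h1 h2 h3 (by rw [hkj]; exact h4)
      (by rw [hkj]; exact h5)
    rw [← hr] at key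
    have hsh := plF_shift P r hr0 hr1 j
    have hS : |∑ i ∈ range j, (-r) ^ i * (r * P.eval ((i : ℝ) + 1))| ≤ j * (c * x ^ n) := by
      refine plF_sum_le P r _ hr0 hr1 j fun i hi => ?_
      refine (plF_evalle hD _).trans ?_
      refine mul_le_mul_of_nonneg_left ?_ hc.le
      refine pow_le_pow_left₀ (by positivity) ?_ _
      rw [abs_of_nonneg (by positivity)]
      have : ((i : ℝ) + 1) ≤ j := by exact_mod_cast hi
      linarith
    set S := ∑ i ∈ range j, (-r) ^ i * (r * P.eval ((i : ℝ) + 1)) with hSdef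
    set A := AS (P.comp (X + C (j : ℝ))) r with hA
    have hP : AS P r = (-r) ^ j * A - S := by linarith
    have hsg : (-1 : ℝ) ^ k * (-r) ^ j = r ^ j * (-1) ^ (k - j) := by
      have e1 : (-1 : ℝ) ^ k = (-1) ^ (k - j) * (-1) ^ j := by
        rw [← pow_add]
        congr 1
        omega
      rw [neg_pow r j, e1]
      have e2 : ((-1 : ℝ) ^ j) * (-1) ^ j = 1 := by
        rw [← mul_pow]
        norm_num
      linear_combination ((-1 : ℝ) ^ (k - j) * r ^ j) * e2
    have hrj : Real.exp (-(x ^ 11 / 5)) ≤ r ^ j := by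
      rw [hr, ← Real.exp_nat_mul]
      apply Real.exp_le_exp.2
      have e1 : π * (Real.cos θ / Real.sin θ) ≤ x ^ 10 / 10 := by
        rw [← mul_div_assoc, div_le_iff₀ hsθ]
        have := Real.cos_le_one θ
        have := Real.pi_pos
        nlinarith
      have e2 : 0 ≤ π * (Real.cos θ / Real.sin θ) := by
        have := Real.pi_pos
        positivity
      have e3 : (j : ℝ) * (π * (Real.cos θ / Real.sin θ)) ≤ x * (x ^ 10 / 10) := by
        apply mul_le_mul _ e1 e2 (by linarith)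
        linarith
      have e4 : 0 ≤ x ^ 11 := by positivity
      nlinarith
    have hmul : Real.exp (-(x ^ 11 / 5)) * Real.exp (x ^ 11 / 5) = 1 := by
      rw [← Real.exp_add, neg_add_cancel, Real.exp_zero]
    have hbig : 8 * c * x ^ (n + 1) ≤ r ^ j * ((-1) ^ (k - j) * A) := by
      calc 8 * c * x ^ (n + 1) = Real.exp (-(x ^ 11 / 5)) *
            (8 * c * x ^ (n + 1) * Real.exp (x ^ 11 / 5)) := by
            linear_combination (-(8 * c * x ^ (n + 1))) * hmul
        _ ≤ r ^ j * (8 * c * x ^ (n + 1) * Real.exp (x ^ 11 / 5)) := by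
            gcongr
        _ ≤ r ^ j * ((-1) ^ (k - j) * A) := by
            gcongr
    have hsm : (j : ℝ) * (c * x ^ n) ≤ c * x ^ (n + 1) := by
      rw [pow_succ]
      have : 0 ≤ c * x ^ n := by positivity
      nlinarith
    have hSk : -((j : ℝ) * (c * x ^ n)) ≤ -((-1) ^ k * S) := by
      have := abs_le.1 hS
      rcases neg_one_pow_eq_or ℝ k with h | h
      · rw [h, one_mul]
        linarith [this.2]
      · rw [h]
        linarith [this.1]
    have hpos : 0 < c * x ^ (n + 1) := by positivity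
    rw [hP, mul_sub, ← mul_assoc, hsg]
    nlinarith
  · -- the mean is negative
    rw [hj] at h4 h5 hdat hround hbM
    rw [Int.cast_neg, Int.cast_natCast] at h4 h5 hdat hround hbM
    rw [abs_neg, abs_of_nonneg (Nat.cast_nonneg j)] at hbM
    have hkj : ((k + j : ℕ) : ℝ) = (k : ℝ) - (-(j : ℝ)) := by push_cast; ring
    have key := hcore n x c _ _ _ θ (k + j) hx hn hdat hround h1 h2 h3 (by rw [hkj]; exact h4)
      (by rw [hkj]; exact h5)
    rw [← hr] at key
    set Q := P.comp (X + C (-(j : ℝ))) with hQ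
    have hsh := plF_shift Q r hr0 hr1 j
    have hQP : Q.comp (X + C (j : ℝ)) = P := by
      rw [hQ, Polynomial.comp_assoc]
      have : (X + C (-(j : ℝ))).comp (X + C (j : ℝ)) = X := by
        simp
      rw [this, Polynomial.comp_X]
    rw [hQP] at hsh
    have hS : |∑ i ∈ range j, (-r) ^ i * (r * Q.eval ((i : ℝ) + 1))| ≤ j * (c * x ^ n) := by
      refine plF_sum_le Q r _ hr0 hr1 j fun i hi => ?_
      have hev : Q.eval ((i : ℝ) + 1) = P.eval ((i : ℝ) + 1 - j) := by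
        rw [hQ, Polynomial.eval_comp]
        simp only [Polynomial.eval_add, Polynomial.eval_X, Polynomial.eval_C]
        rw [sub_eq_add_neg]
      rw [hev]
      refine (plF_evalle hD _).trans ?_
      refine mul_le_mul_of_nonneg_left ?_ hc.le
      refine pow_le_pow_left₀ (by positivity) ?_ _
      have e1 : ((i : ℝ) + 1) ≤ j := by exact_mod_cast hi
      have e2 : (0 : ℝ) ≤ i := Nat.cast_nonneg i
      rw [abs_of_nonpos (by linarith)]
      linarith
    set S := ∑ i ∈ range j, (-r) ^ i * (r * Q.eval ((i : ℝ) + 1)) with hSdef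
    have hsg : (-1 : ℝ) ^ (k + j) * (-r) ^ j = r ^ j * (-1) ^ k := by
      rw [neg_pow r j, pow_add]
      have e2 : ((-1 : ℝ) ^ j) * (-1) ^ j = 1 := by
        rw [← mul_pow]
        norm_num
      linear_combination ((-1 : ℝ) ^ k * r ^ j) * e2
    have hmain : r ^ j * ((-1) ^ k * AS P r) = (-1) ^ (k + j) * AS Q r + (-1) ^ (k + j) * S := by
      rw [← mul_assoc, ← hsg, mul_assoc, hsh]
      ring
    have hsm : (j : ℝ) * (c * x ^ n) ≤ c * x ^ (n + 1) := by
      rw [pow_succ]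
      have : 0 ≤ c * x ^ n := by positivity
      nlinarith
    have hSk : -((j : ℝ) * (c * x ^ n)) ≤ (-1) ^ (k + j) * S := by
      have := abs_le.1 hS
      rcases neg_one_pow_eq_or ℝ (k + j) with h | h
      · rw [h, one_mul]
        linarith [this.1]
      · rw [h]
        linarith [this.2]
    have hpos : 0 < c * x ^ (n + 1) := by positivity
    have hk1 : 8 * c * x ^ (n + 1) ≤ (-1) ^ (k + j) * AS Q r := by
      refine le_trans ?_ key
      nlinarith
    have hpos2 : 0 < r ^ j * ((-1) ^ k * AS P r) := by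
      rw [hmain]
      linarith
    exact (pos_iff_pos_of_mul_pos hpos2).1 (by positivity)

end Pool.Agent.Lib.FenceAF
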