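import Pool.Agent.Lib.MP_7d55f0_co.AF.SDefs

set_option autoImplicit false

namespace Pool.Agent.Lib.FenceAF

open Polynomial Finset Real

theorem rla_summable (κ : ℝ) (hκ : 0 < κ) (z : ℝ) :
    Summable (fun n : ℤ => Real.exp (-(κ * ((n : ℝ) + z) ^ 2))) := by
  have hr : Summable (fun n : ℕ => Real.exp (-(κ / 2)) ^ n) :=
    summable_geometric_of_lt_one (Real.exp_pos _).le (by rw [Real.exp_lt_one_iff]; linarith)
  have h1 : Summable (fun n : ℤ => Real.exp (κ * z ^ 2) * Real.exp (-(κ / 2)) ^ n.natAbs) := by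
    apply Summable.mul_left
    rw [summable_int_iff_summable_nat_and_neg]
    constructor
    · simpa using hr
    · simpa using hr
  refine Summable.of_nonneg_of_le (fun n => (Real.exp_pos _).le) (fun n => ?_) h1
  rw [← Real.exp_nat_mul, ← Real.exp_add]
  apply Real.exp_le_exp.mpr
  have h2 : ((n.natAbs : ℕ) : ℝ) ≤ (n : ℝ) ^ 2 := by
    have h3 : ((n.natAbs : ℕ) : ℤ) ≤ n ^ 2 := by
      rw [← Int.natAbs_sq n, sq]
      rcases Nat.eq_zero_or_pos n.natAbs with h | h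
      · rw [h]; simp
      · have : (1 : ℤ) ≤ (n.natAbs : ℤ) := by exact_mod_cast h
        nlinarith
    have h5 : (((n.natAbs : ℕ) : ℤ) : ℝ) ≤ ((n ^ 2 : ℤ) : ℝ) := Int.cast_le.mpr h3
    rw [Int.cast_pow, Int.cast_natCast] at h5
    exact h5
  have h4 : (n : ℝ) ^ 2 / 2 - z ^ 2 ≤ ((n : ℝ) + z) ^ 2 := by nlinarith [sq_nonneg ((n : ℝ) + 2 * z)]
  nlinarith [mul_le_mul_of_nonneg_left h4 hκ.le, mul_le_mul_of_nonneg_left h2 hκ.le]

/-- Jacobi: the alternating theta series is positive -/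
theorem theta_pos (κ : ℝ) (hκ : 0 < κ) :
    Real.exp (-(π ^ 2 / (4 * κ))) ≤ Real.sqrt (κ / π) *
      ∑' j : ℤ, (-1 : ℝ) ^ j.natAbs * Real.exp (-(κ * (j : ℝ) ^ 2)) := by
  have hπ := Real.pi_pos
  have ha : 0 < ((κ / π : ℝ) : ℂ).re := by simpa using div_pos hκ hπ
  have key := Complex.tsum_exp_neg_quadratic ha (Complex.I / 2)
  -- left side
  have hL : ∀ n : ℤ, Complex.exp (-π * ((κ / π : ℝ) : ℂ) * (n : ℂ) ^ 2 + 2 * π * (Complex.I / 2) * (n : ℂ))
      = (((-1 : ℝ) ^ n.natAbs * Real.exp (-(κ * (n : ℝ) ^ 2)) : ℝ) : ℂ) := by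
    intro n
    rw [Complex.exp_add]
    have h1 : Complex.exp (2 * π * (Complex.I / 2) * (n : ℂ)) = (((-1 : ℝ) ^ n.natAbs : ℝ) : ℂ) := by
      have : (2 * π * (Complex.I / 2) * (n : ℂ) : ℂ) = (n : ℂ) * (π * Complex.I) := by ring
      rw [this, Complex.exp_int_mul, Complex.exp_pi_mul_I]
      rcases Int.natAbs_eq n with h | h
      · conv_lhs => rw [h]
        rw [zpow_natCast]
        push_cast
        rfl
      · conv_lhs => rw [h]
        rw [zpow_neg, zpow_natCast]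
        push_cast
        rcases neg_one_pow_eq_or ℂ n.natAbs with h | h <;> rw [h] <;> norm_num
    rw [h1]
    have h2 : (-π * ((κ / π : ℝ) : ℂ) * (n : ℂ) ^ 2 : ℂ) = ((-(κ * (n : ℝ) ^ 2) : ℝ) : ℂ) := by
      push_cast
      have : (π : ℂ) ≠ 0 := by exact_mod_cast hπ.ne'
      field_simp
    rw [h2, ← Complex.ofReal_exp]
    push_cast
    ring
  have hR : ∀ n : ℤ, Complex.exp (-π / ((κ / π : ℝ) : ℂ) * ((n : ℂ) + Complex.I * (Complex.I / 2)) ^ 2)
      = ((Real.exp (-(π ^ 2 / κ * ((n : ℝ) + (-1 / 2)) ^ 2)) : ℝ) : ℂ) := by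
    intro n
    rw [Complex.ofReal_exp]
    congr 1
    have hI : Complex.I * (Complex.I / 2) = -1 / 2 := by
      have := Complex.I_mul_I
      linear_combination this / 2
    rw [hI]
    push_cast
    have : (π : ℂ) ≠ 0 := by exact_mod_cast hπ.ne'
    have : (κ : ℂ) ≠ 0 := by exact_mod_cast hκ.ne'
    field_simp
  rw [tsum_congr hL, tsum_congr hR, ← Complex.ofReal_tsum, ← Complex.ofReal_tsum] at key
  have hpow : (((κ / π : ℝ) : ℂ) ^ (1 / 2 : ℂ)) = ((Real.sqrt (κ / π) : ℝ) : ℂ) := by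
    rw [Real.sqrt_eq_rpow, Complex.ofReal_cpow (div_pos hκ hπ).le]
    norm_num
  rw [hpow] at key
  have hs : 0 < Real.sqrt (κ / π) := Real.sqrt_pos.mpr (div_pos hκ hπ)
  have key2 : Real.sqrt (κ / π) * ∑' j : ℤ, (-1 : ℝ) ^ j.natAbs * Real.exp (-(κ * (j : ℝ) ^ 2)) =
      ∑' n : ℤ, Real.exp (-(π ^ 2 / κ * ((n : ℝ) + (-1 / 2)) ^ 2)) := by
    have : ((∑' j : ℤ, (-1 : ℝ) ^ j.natAbs * Real.exp (-(κ * (j : ℝ) ^ 2)) : ℝ) : ℂ) =
      ((1 / Real.sqrt (κ / π) * ∑' n : ℤ, Real.exp (-(π ^ 2 / κ * ((n : ℝ) + (-1 / 2)) ^ 2)) : ℝ) : ℂ) := by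
      rw [key]; push_cast; ring
    have h := Complex.ofReal_injective this
    rw [h, ← mul_assoc, mul_one_div_cancel hs.ne', one_mul]
  rw [key2]
  have hsum := rla_summable (π ^ 2 / κ) (by positivity) (-1 / 2)
  have := hsum.le_tsum (0 : ℤ) (fun j _ => (Real.exp_pos _).le)
  refine le_trans (le_of_eq ?_) this
  congr 1
  push_cast
  field_simp
  ring

end Pool.Agent.Lib.FenceAF
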