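import Pool.Agent.Lib.MP_7d55f0_co.AF.SDefs

set_option autoImplicit false

namespace Pool.Agent.Lib.FenceAF

open Polynomial Finset Real

/-- the values of `P` -/
theorem Dat.eval_eq {P : ℝ[X]} {n : ℕ} {M c : ℝ} {t : Fin n → ℂ} {a : ℝ} (h : Dat P n M c t a)
    (x : ℝ) : ((P.eval x : ℝ) : ℂ) = c * ∏ i, ((x : ℂ) - t i) := by
  have h1 : (P.map Complex.ofRealHom).eval ((x : ℝ) : ℂ) = ((P.eval x : ℝ) : ℂ) := by
    rw [Polynomial.eval_map]
    exact Polynomial.eval₂_at_apply Complex.ofRealHom x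
  rw [← h1, h.hP, eval_mul, eval_C, eval_prod]
  simp

theorem Dat.abs_eval {P : ℝ[X]} {n : ℕ} {M c : ℝ} {t : Fin n → ℂ} {a : ℝ} (h : Dat P n M c t a)
    (x : ℝ) : |P.eval x| = c * ∏ i, ‖(x : ℂ) - t i‖ := by
  have h1 := congrArg norm (h.eval_eq x)
  rw [Complex.norm_real, Real.norm_eq_abs, norm_mul, norm_prod, Complex.norm_real,
    Real.norm_eq_abs, abs_of_pos h.hc] at h1
  exact h1

theorem Dat.dist_ge {P : ℝ[X]} {n : ℕ} {M c : ℝ} {t : Fin n → ℂ} {a : ℝ} (h : Dat P n M c t a)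
    {k : ℝ} (hk : 10 * M ≤ k) (i : Fin n) : 9 / 10 * k ≤ ‖(k : ℂ) - t i‖ := by
  have h1 := norm_sub_norm_le (k : ℂ) (t i)
  have h2 := h.ht i
  have h3 := h.hM
  rw [Complex.norm_real, Real.norm_eq_abs, abs_of_pos (by linarith)] at h1
  linarith

theorem log_norm_one_add (w : ℂ) (hw : ‖w‖ ≤ 5 / 18) :
    |Real.log ‖1 + w‖ - (w.re - (w ^ 2).re / 2)| ≤ ‖w‖ ^ 3 / 2 := by
  have h1 := Complex.norm_log_sub_logTaylor_le 2 (z := w) (by linarith)
  have h2 : Complex.logTaylor (2 + 1) w = w - w ^ 2 / 2 := by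
    simp [Complex.logTaylor, Finset.sum_range_succ]
    ring
  rw [h2] at h1
  have h3 : Real.log ‖1 + w‖ - (w.re - (w ^ 2).re / 2) =
      (Complex.log (1 + w) - (w - w ^ 2 / 2)).re := by
    rw [Complex.sub_re, Complex.log_re, Complex.sub_re]
    congr 2
    simp
  rw [h3]
  refine (Complex.abs_re_le_norm _).trans (h1.trans ?_)
  have h4 : (1 - ‖w‖)⁻¹ ≤ 3 / 2 := by
    rw [inv_le_comm₀ (by linarith) (by norm_num)]
    linarith
  have h5 : 0 ≤ ‖w‖ ^ 3 := by positivity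
  push_cast
  norm_num
  nlinarith

theorem ratio_exp {P : ℝ[X]} {n : ℕ} {M c : ℝ} {t : Fin n → ℂ} {a : ℝ} (h : Dat P n M c t a)
    (k j : ℝ) (hk : 10 * M ≤ k) (hj : |j| ≤ k / 4) :
    |Real.log (|P.eval (k + j)| / |P.eval k|) - (j * ∑ i, ((1 : ℂ) / (k - t i)).re -
      j ^ 2 / 2 * ∑ i, ((1 : ℂ) / (k - t i) ^ 2).re)| ≤ 2 * n * |j| ^ 3 / k ^ 3 := by
  have hM := h.hM
  have hk0 : 0 < k := by linarith
  have hne : ∀ i, (k : ℂ) - t i ≠ 0 := fun i h0 => by
    have := h.dist_ge hk i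
    rw [h0, norm_zero] at this
    linarith
  set w : Fin n → ℂ := fun i => (j : ℂ) / ((k : ℂ) - t i) with hw
  have hwn : ∀ i, ‖w i‖ ≤ |j| / (9 / 10 * k) := by
    intro i
    rw [hw]
    simp only
    rw [norm_div, Complex.norm_real, Real.norm_eq_abs]
    exact div_le_div_of_nonneg_left (abs_nonneg j) (by positivity) (h.dist_ge hk i)
  have hw1 : ∀ i, ‖w i‖ ≤ 5 / 18 := by
    intro i
    refine (hwn i).trans ?_
    rw [div_le_iff₀ (by positivity)]
    linarith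
  have hne1 : ∀ i, (1 : ℂ) + w i ≠ 0 := fun i h0 => by
    have h1 : w i = -1 := by
      rw [← add_eq_zero_iff_eq_neg]
      rw [add_comm]
      exact h0
    have h2 := hw1 i
    rw [h1, norm_neg, norm_one] at h2
    linarith
  have h1 : |P.eval (k + j)| / |P.eval k| = ∏ i, ‖1 + w i‖ := by
    rw [h.abs_eval, h.abs_eval, mul_div_mul_left _ _ h.hc.ne', ← Finset.prod_div_distrib]
    refine Finset.prod_congr rfl fun i _ => ?_
    rw [← norm_div]
    congr 1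
    rw [hw]
    simp only
    rw [Complex.ofReal_add, div_eq_iff (hne i), add_mul, div_mul_cancel₀ _ (hne i)]
    ring
  rw [h1, Real.log_prod (fun i _ => norm_ne_zero_iff.2 (hne1 i))]
  have h2 : ∑ i, Real.log ‖1 + w i‖ - (j * ∑ i, ((1 : ℂ) / (k - t i)).re -
      j ^ 2 / 2 * ∑ i, ((1 : ℂ) / (k - t i) ^ 2).re) =
      ∑ i, (Real.log ‖1 + w i‖ - ((w i).re - ((w i) ^ 2).re / 2)) := by
    rw [Finset.sum_sub_distrib, Finset.sum_sub_distrib, Finset.mul_sum, Finset.mul_sum]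
    congr 2
    · refine Finset.sum_congr rfl fun i _ => ?_
      rw [← Complex.re_ofReal_mul, hw]
      simp only
      congr 1
      ring
    · refine Finset.sum_congr rfl fun i _ => ?_
      rw [hw]
      simp only
      have h3 : ((j : ℂ) / ((k : ℂ) - t i)) ^ 2 = ((j ^ 2 : ℝ) : ℂ) * (1 / (k - t i) ^ 2) := by
        push_cast
        rw [div_pow, mul_one_div]
      rw [h3, Complex.re_ofReal_mul]
      ring
  rw [h2]
  refine (Finset.abs_sum_le_sum_abs _ _).trans ?_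
  have h3 : ∀ i, |Real.log ‖1 + w i‖ - ((w i).re - ((w i) ^ 2).re / 2)| ≤ 2 * |j| ^ 3 / k ^ 3 := by
    intro i
    refine (log_norm_one_add _ (hw1 i)).trans ?_
    have h4 : ‖w i‖ ^ 3 ≤ (|j| / (9 / 10 * k)) ^ 3 := pow_le_pow_left₀ (norm_nonneg _) (hwn i) 3
    have h5 : (|j| / (9 / 10 * k)) ^ 3 = 1000 / 729 * (|j| ^ 3 / k ^ 3) := by
      field_simp
      ring
    have h6 : 0 ≤ |j| ^ 3 / k ^ 3 := by positivity
    rw [h5] at h4
    rw [mul_div_assoc]
    linarith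
  refine (Finset.sum_le_sum fun i _ => h3 i).trans (le_of_eq ?_)
  rw [Finset.sum_const, Finset.card_univ, Fintype.card_fin, nsmul_eq_mul]
  ring

theorem sum_inv {P : ℝ[X]} {n : ℕ} {M c : ℝ} {t : Fin n → ℂ} {a : ℝ} (h : Dat P n M c t a)
    (k : ℝ) (hk : 10 * M ≤ k) :
    |∑ i, ((1 : ℂ) / (k - t i)).re - n / (k - a)| ≤ 10 * n * M ^ 2 / k ^ 3 := by
  have hM := h.hM
  have hk0 : 0 < k := by linarith
  rcases Nat.eq_zero_or_pos n with hn | hn
  · subst hn
    simp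
  have hn' : (0 : ℝ) < n := by exact_mod_cast hn
  have ha : |a| ≤ M := by
    have h1 : ‖(n : ℂ) * (a : ℂ)‖ ≤ n * M := by
      rw [h.ha]
      refine (norm_sum_le _ _).trans ((Finset.sum_le_sum fun i _ => h.ht i).trans (le_of_eq ?_))
      rw [Finset.sum_const, Finset.card_univ, Fintype.card_fin, nsmul_eq_mul]
    rw [norm_mul, Complex.norm_real, Real.norm_eq_abs, Complex.norm_natCast] at h1
    exact le_of_mul_le_mul_left h1 hn'
  have ha' := abs_le.1 ha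
  have hka : 9 / 10 * k ≤ k - a := by linarith [ha'.2]
  have hka0 : 0 < k - a := by linarith
  have hne : ∀ i, (k : ℂ) - t i ≠ 0 := fun i h0 => by
    have := h.dist_ge hk i
    rw [h0, norm_zero] at this
    linarith
  have hkC : (k : ℂ) ≠ 0 := by exact_mod_cast hk0.ne'
  have hkaC : (k : ℂ) - a ≠ 0 := by
    have : ((k - a : ℝ) : ℂ) ≠ 0 := by exact_mod_cast hka0.ne'
    simpa using this
  have h1 : ∑ i, ((1 : ℂ) / (k - t i)).re - n / (k - a) =
      (∑ i, (t i) ^ 2 / ((k : ℂ) ^ 2 * (k - t i)) -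
        (n : ℂ) * ((a : ℂ) ^ 2 / ((k : ℂ) ^ 2 * (k - a)))).re := by
    have h2 : (∑ i, (t i) ^ 2 / ((k : ℂ) ^ 2 * (k - t i)) -
        (n : ℂ) * ((a : ℂ) ^ 2 / ((k : ℂ) ^ 2 * (k - a)))) =
        ∑ i, (1 : ℂ) / (k - t i) - ((n / (k - a) : ℝ) : ℂ) := by
      have h3 : ∀ i, (1 : ℂ) / (k - t i) = 1 / k + t i / k ^ 2 +
          (t i) ^ 2 / ((k : ℂ) ^ 2 * (k - t i)) := by
        intro i
        have := hne i
        field_simp
        ring
      have h4 : ((n / (k - a) : ℝ) : ℂ) = n * (1 / k) + (n * (a : ℂ)) / k ^ 2 +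
          (n : ℂ) * ((a : ℂ) ^ 2 / ((k : ℂ) ^ 2 * (k - a))) := by
        push_cast
        field_simp
        ring
      rw [h4, Finset.sum_congr rfl fun i _ => h3 i, Finset.sum_add_distrib,
        Finset.sum_add_distrib, Finset.sum_const, Finset.card_univ, Fintype.card_fin,
        nsmul_eq_mul, ← Finset.sum_div, h.ha]
      ring
    rw [h2, Complex.sub_re, Complex.re_sum, Complex.ofReal_re]
  rw [h1]
  refine (Complex.abs_re_le_norm _).trans ((norm_sub_le _ _).trans ?_)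
  have h5 : ∀ i, ‖(t i) ^ 2 / ((k : ℂ) ^ 2 * (k - t i))‖ ≤ M ^ 2 / (k ^ 2 * (9 / 10 * k)) := by
    intro i
    rw [norm_div, norm_mul, norm_pow, norm_pow, Complex.norm_real, Real.norm_eq_abs,
      abs_of_pos hk0]
    exact div_le_div₀ (by positivity) (pow_le_pow_left₀ (norm_nonneg _) (h.ht i) 2)
      (by positivity) (mul_le_mul_of_nonneg_left (h.dist_ge hk i) (by positivity))
  have h6 : ‖(n : ℂ) * ((a : ℂ) ^ 2 / ((k : ℂ) ^ 2 * (k - a)))‖ ≤
      n * (M ^ 2 / (k ^ 2 * (9 / 10 * k))) := by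
    rw [norm_mul, Complex.norm_natCast, norm_div, norm_mul, norm_pow, norm_pow,
      Complex.norm_real, Complex.norm_real, Real.norm_eq_abs, Real.norm_eq_abs, abs_of_pos hk0]
    have h7 : ‖(k : ℂ) - a‖ = k - a := by
      rw [← Complex.ofReal_sub, Complex.norm_real, Real.norm_eq_abs, abs_of_pos hka0]
    rw [h7]
    refine mul_le_mul_of_nonneg_left ?_ hn'.le
    exact div_le_div₀ (by positivity) (pow_le_pow_left₀ (abs_nonneg _) ha 2)
      (by positivity) (mul_le_mul_of_nonneg_left hka (by positivity))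
  have h8 : ‖∑ i, (t i) ^ 2 / ((k : ℂ) ^ 2 * (k - t i))‖ ≤ n * (M ^ 2 / (k ^ 2 * (9 / 10 * k))) := by
    refine (norm_sum_le _ _).trans ((Finset.sum_le_sum fun i _ => h5 i).trans (le_of_eq ?_))
    rw [Finset.sum_const, Finset.card_univ, Fintype.card_fin, nsmul_eq_mul]
  refine (add_le_add h8 h6).trans ?_
  have h9 : (n : ℝ) * (M ^ 2 / (k ^ 2 * (9 / 10 * k))) = 10 / 9 * (n * M ^ 2 / k ^ 3) := by
    field_simp
  have h10 : 0 ≤ (n : ℝ) * M ^ 2 / k ^ 3 := by positivity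
  have h11 : 10 * (n : ℝ) * M ^ 2 / k ^ 3 = 10 * (n * M ^ 2 / k ^ 3) := by ring
  rw [h9, h11]
  linarith

/-- `1 / (k - t)²` is close to `1 / k²` -/
theorem inv_sq_near {M k : ℝ} {t : ℂ} (hM : 1 ≤ M) (ht : ‖t‖ ≤ M) (hk : 10 * M ≤ k) :
    76 / 100 / k ^ 2 ≤ ((1 : ℂ) / (k - t) ^ 2).re ∧
      ((1 : ℂ) / (k - t) ^ 2).re ≤ 124 / 100 / k ^ 2 := by
  have hk0 : 0 < k := by linarith
  have hkC : (k : ℂ) ≠ 0 := by exact_mod_cast hk0.ne'
  have hd : 9 / 10 * k ≤ ‖(k : ℂ) - t‖ := by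
    have h1 := norm_sub_norm_le (k : ℂ) t
    rw [Complex.norm_real, Real.norm_eq_abs, abs_of_pos hk0] at h1
    linarith
  have hne : (k : ℂ) - t ≠ 0 := fun h0 => by
    rw [h0, norm_zero] at hd
    linarith
  have h1 : (1 : ℂ) / (k - t) ^ 2 - ((1 / k ^ 2 : ℝ) : ℂ) =
      t / k * (2 / (k * (k - t)) + t / (k * (k - t) ^ 2)) := by
    push_cast
    field_simp
    ring
  have h2 : ‖(1 : ℂ) / (k - t) ^ 2 - ((1 / k ^ 2 : ℝ) : ℂ)‖ ≤ 24 / 100 / k ^ 2 := by
    rw [h1, norm_mul]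
    have ht1 : ‖t / k‖ ≤ 1 / 10 := by
      rw [norm_div, Complex.norm_real, Real.norm_eq_abs, abs_of_pos hk0, div_le_iff₀ hk0]
      linarith
    have h3 : ‖2 / ((k : ℂ) * (k - t))‖ ≤ 2 / (k * (9 / 10 * k)) := by
      rw [norm_div, norm_mul, Complex.norm_real, Real.norm_eq_abs, abs_of_pos hk0]
      rw [show ‖(2 : ℂ)‖ = 2 by simp]
      exact div_le_div_of_nonneg_left (by norm_num) (by positivity)
        (mul_le_mul_of_nonneg_left hd hk0.le)
    have h4 : ‖t / ((k : ℂ) * (k - t) ^ 2)‖ ≤ (k / 10) / (k * (9 / 10 * k) ^ 2) := by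
      rw [norm_div, norm_mul, norm_pow, Complex.norm_real, Real.norm_eq_abs, abs_of_pos hk0]
      exact div_le_div₀ (by positivity) (by linarith) (by positivity)
        (mul_le_mul_of_nonneg_left (pow_le_pow_left₀ (by positivity) hd 2) hk0.le)
    refine (mul_le_mul ht1 ((norm_add_le _ _).trans (add_le_add h3 h4)) (norm_nonneg _)
      (by norm_num)).trans ?_
    rw [div_add_div _ _ (by positivity) (by positivity), div_mul_div_comm,
      div_le_div_iff₀ (by positivity) (by positivity)]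
    have : 0 < k ^ 6 := by positivity
    nlinarith
  have h3 := (Complex.abs_re_le_norm _).trans h2
  rw [Complex.sub_re, Complex.ofReal_re, abs_le] at h3
  have h4 : 76 / 100 / k ^ 2 = 1 / k ^ 2 - 24 / 100 / k ^ 2 := by ring
  have h5 : 124 / 100 / k ^ 2 = 1 / k ^ 2 + 24 / 100 / k ^ 2 := by ring
  rw [h4, h5]
  constructor <;> linarith [h3.1, h3.2]

theorem sum_inv_sq {P : ℝ[X]} {n : ℕ} {M c : ℝ} {t : Fin n → ℂ} {a : ℝ} (h : Dat P n M c t a)
    (k : ℝ) (hk : 10 * M ≤ k) :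
    7 / 10 * n / k ^ 2 ≤ ∑ i, ((1 : ℂ) / (k - t i) ^ 2).re ∧
      ∑ i, ((1 : ℂ) / (k - t i) ^ 2).re ≤ 13 / 10 * n / k ^ 2 := by
  have hM := h.hM
  have hk0 : 0 < k := by linarith
  have h1 : ∀ x : ℝ, ∑ _i : Fin n, x / k ^ 2 = x * n / k ^ 2 := by
    intro x
    rw [Finset.sum_const, Finset.card_univ, Fintype.card_fin, nsmul_eq_mul]
    ring
  rw [← h1, ← h1]
  constructor
  · refine Finset.sum_le_sum fun i _ => le_trans ?_ (inv_sq_near hM (h.ht i) hk).1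
    exact div_le_div_of_nonneg_right (by norm_num) (by positivity)
  · refine Finset.sum_le_sum fun i _ => le_trans (inv_sq_near hM (h.ht i) hk).2 ?_
    exact div_le_div_of_nonneg_right (by norm_num) (by positivity)

/-- log-concavity with gain from the location of the zeros -/
theorem gap_of_zeros {P : ℝ[X]} {n : ℕ} {M c : ℝ} {t : Fin n → ℂ} {a : ℝ} (h : Dat P n M c t a)
    (k : ℝ) (hk : 10 * M ≤ k) :
    P.eval (k - 1) * P.eval (k + 1) ≤ Real.exp (-(7 / 10 * n / k ^ 2)) * P.eval k ^ 2 := by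
  have hM := h.hM
  have hk0 : 0 < k := by linarith
  have hne : ∀ i, (k : ℂ) - t i ≠ 0 := fun i h0 => by
    have := h.dist_ge hk i
    rw [h0, norm_zero] at this
    linarith
  refine (le_abs_self _).trans ?_
  rw [abs_mul, ← sq_abs (P.eval k), h.abs_eval, h.abs_eval, h.abs_eval]
  have hfac : ∀ i, ‖((k - 1 : ℝ) : ℂ) - t i‖ * ‖((k + 1 : ℝ) : ℂ) - t i‖ ≤
      Real.exp (-(7 / 10 / k ^ 2)) * ‖(k : ℂ) - t i‖ ^ 2 := by
    intro i
    set u : ℂ := 1 / ((k : ℂ) - t i) ^ 2 with hu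
    have h1 : ‖((k - 1 : ℝ) : ℂ) - t i‖ * ‖((k + 1 : ℝ) : ℂ) - t i‖ =
        ‖1 - u‖ * ‖(k : ℂ) - t i‖ ^ 2 := by
      rw [← norm_mul, ← norm_pow, ← norm_mul]
      congr 1
      have h0 : u * ((k : ℂ) - t i) ^ 2 = 1 := by
        rw [hu, one_div, inv_mul_cancel₀ (pow_ne_zero 2 (hne i))]
      rw [sub_mul 1 u, h0]
      push_cast
      ring
    rw [h1]
    refine mul_le_mul_of_nonneg_right ?_ (by positivity)
    have h2 := (inv_sq_near hM (h.ht i) hk).1
    rw [← hu] at h2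
    have h3 : ‖u‖ ≤ 1 / (81 / 100 * k ^ 2) := by
      rw [hu, norm_div, norm_one, norm_pow]
      have := pow_le_pow_left₀ (by positivity) (h.dist_ge hk i) 2
      exact div_le_div_of_nonneg_left (by norm_num) (by positivity) (by nlinarith)
    have h4 : ‖1 - u‖ ^ 2 ≤ Real.exp (-(7 / 10 / k ^ 2)) ^ 2 := by
      have h5 : ‖1 - u‖ ^ 2 = 1 - 2 * u.re + ‖u‖ ^ 2 := by
        rw [Complex.sq_norm, Complex.sq_norm, Complex.normSq_apply, Complex.normSq_apply]
        simp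
        ring
      rw [h5, ← Real.exp_nat_mul]
      have h6 := Real.add_one_le_exp (((2 : ℕ) : ℝ) * -(7 / 10 / k ^ 2))
      refine le_trans ?_ h6
      have h7 : ‖u‖ ^ 2 ≤ (1 / (81 / 100 * k ^ 2)) ^ 2 := pow_le_pow_left₀ (norm_nonneg _) h3 2
      have h8 : (1 / (81 / 100 * k ^ 2)) ^ 2 ≤ 6 / 100 / k ^ 2 := by
        have hk10 : 10 ≤ k := by linarith
        have hk100 : 100 ≤ k ^ 2 := by nlinarith
        rw [one_div, inv_pow, mul_pow, mul_inv, div_eq_mul_inv (6 / 100 : ℝ),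
          pow_two (k ^ 2), mul_inv, ← mul_assoc]
        refine mul_le_mul_of_nonneg_right ?_ (by positivity)
        rw [← div_eq_mul_inv, div_le_iff₀ (by positivity)]
        norm_num
        linarith
      have h9 : 76 / 100 / k ^ 2 = (7 / 10 / k ^ 2) + (6 / 100 / k ^ 2) := by ring
      have h9' : 0 ≤ 6 / 100 / k ^ 2 := by positivity
      push_cast
      linarith
    exact le_of_sq_le_sq h4 (Real.exp_pos _).le
  have h10 : c * (∏ i, ‖((k - 1 : ℝ) : ℂ) - t i‖) * (c * ∏ i, ‖((k + 1 : ℝ) : ℂ) - t i‖) =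
      c ^ 2 * ∏ i, (‖((k - 1 : ℝ) : ℂ) - t i‖ * ‖((k + 1 : ℝ) : ℂ) - t i‖) := by
    rw [Finset.prod_mul_distrib]
    ring
  rw [h10]
  have h11 := Finset.prod_le_prod (s := Finset.univ) (fun i _ => by positivity)
    (fun i _ => hfac i)
  refine (mul_le_mul_of_nonneg_left h11 (by positivity)).trans (le_of_eq ?_)
  rw [Finset.prod_mul_distrib, Finset.prod_const, Finset.card_univ, Fintype.card_fin,
    ← Real.exp_nat_mul, Finset.prod_pow]
  have h12 : (n : ℝ) * -(7 / 10 / k ^ 2) = -(7 / 10 * n / k ^ 2) := by ring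
  rw [h12]
  ring

end Pool.Agent.Lib.FenceAF
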