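import Pool.Agent.Lib.MP_7d55f0_co.AF.SDefs

set_option autoImplicit false

namespace Pool.Agent.Lib.FenceAF

open Polynomial Finset Real

theorem rlC_core (b : ℕ → ℝ) (hb0 : ∀ j, 0 ≤ b j) (hlc : ∀ j, b j * b (j + 2) ≤ b (j + 1) ^ 2)
    (K : ℕ) (hpos : ∀ j, K + 1 ≤ j → 0 < b j) (h1 : b (K + 2) ≤ b (K + 1) / 4)
    (h2 : ∀ j, j ≤ K → b j ≤ b (j + 1) / 4) :
    0 < (-1) ^ (K + 1) * ∑' m : ℕ, (-1 : ℝ) ^ (m + 1) * b (m + 1) := by
  have hR : ∀ i, b (K + 1 + i + 1) ≤ b (K + 1 + i) / 4 := by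
    intro i
    induction i with
    | zero => simpa using h1
    | succ i ih =>
      have hp : 0 < b (K + 1 + i) := hpos _ (by omega)
      have hp1 : 0 < b (K + 1 + i + 1) := hpos _ (by omega)
      have hl := hlc (K + 1 + i)
      have : b (K + 1 + i) * b (K + 1 + i + 2) ≤ b (K + 1 + i) * (b (K + 1 + i + 1) / 4) := by
        calc b (K + 1 + i) * b (K + 1 + i + 2) ≤ b (K + 1 + i + 1) ^ 2 := hl
          _ = b (K + 1 + i + 1) * b (K + 1 + i + 1) := by ring
          _ ≤ b (K + 1 + i + 1) * (b (K + 1 + i) / 4) := by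
              exact mul_le_mul_of_nonneg_left ih hp1.le
          _ = b (K + 1 + i) * (b (K + 1 + i + 1) / 4) := by ring
      have := le_of_mul_le_mul_left this hp
      have e1 : K + 1 + (i + 1) + 1 = K + 1 + i + 2 := by ring
      have e2 : K + 1 + (i + 1) = K + 1 + i + 1 := by ring
      rw [e1, e2]; exact this
  have hR' : ∀ i, b (K + 1 + i) ≤ b (K + 1) * (1 / 4) ^ i := by
    intro i
    induction i with
    | zero => simp
    | succ i ih =>
      have e2 : K + 1 + (i + 1) = K + 1 + i + 1 := by ring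
      rw [e2, pow_succ]
      have := hR i
      nlinarith [this, ih]
  have hbd : ∀ i, ‖(-1 : ℝ) ^ (i + K + 1) * b (i + K + 1)‖ ≤ b (K + 1) * (1 / 4) ^ i := by
    intro i
    rw [norm_mul, norm_pow, norm_neg, norm_one, one_pow, one_mul, Real.norm_eq_abs,
      abs_of_nonneg (hb0 _)]
    have e : i + K + 1 = K + 1 + i := by ring
    rw [e]; exact hR' i
  have hgeo : Summable (fun i : ℕ => b (K + 1) * (1 / 4 : ℝ) ^ i) :=
    (summable_geometric_of_lt_one (by norm_num) (by norm_num)).mul_left _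
  have hsum : Summable (fun m : ℕ => (-1 : ℝ) ^ (m + 1) * b (m + 1)) := by
    refine (summable_nat_add_iff K).1 ?_
    exact Summable.of_norm_bounded hgeo hbd
  rw [← hsum.sum_add_tsum_nat_add (K + 1), Finset.sum_range_succ]
  have hS : ∀ n, n ≤ K → ∑ m ∈ range n, b (m + 1) ≤ b (n + 1) / 3 := by
    intro n
    induction n with
    | zero =>
      intro _
      have := hb0 (0 + 1)
      simp at this ⊢
      linarith
    | succ n ih =>
      intro hn
      rw [Finset.sum_range_succ]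
      have i1 := ih (by omega)
      have i2 := h2 (n + 1) hn
      linarith
  have hA : |∑ m ∈ range K, (-1 : ℝ) ^ (m + 1) * b (m + 1)| ≤ b (K + 1) / 3 := by
    refine (Finset.abs_sum_le_sum_abs _ _).trans ?_
    refine le_trans (le_of_eq ?_) (hS K le_rfl)
    refine Finset.sum_congr rfl fun m _ => ?_
    rw [abs_mul, abs_pow, abs_neg, abs_one, one_pow, one_mul, abs_of_nonneg (hb0 _)]
  have hB : |∑' i : ℕ, (-1 : ℝ) ^ (i + (K + 1) + 1) * b (i + (K + 1) + 1)| ≤ b (K + 1) / 3 := by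
    have hg : HasSum (fun i : ℕ => b (K + 1) / 4 * (1 / 4 : ℝ) ^ i) (b (K + 1) / 4 * (1 - 1 / 4)⁻¹) :=
      (hasSum_geometric_of_lt_one (by norm_num) (by norm_num)).mul_left _
    have := tsum_of_norm_bounded (f := fun i : ℕ => (-1 : ℝ) ^ (i + (K + 1) + 1) * b (i + (K + 1) + 1))
      hg (by
        intro i
        have h := hbd (i + 1)
        have e : i + 1 + K + 1 = i + (K + 1) + 1 := by ring
        rw [e] at h
        refine h.trans (le_of_eq ?_)
        rw [pow_succ]; ring)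
    rw [Real.norm_eq_abs] at this
    refine this.trans (le_of_eq ?_)
    norm_num
    ring
  have hp := hpos (K + 1) le_rfl
  have hsq : (-1 : ℝ) ^ (K + 1) * (-1) ^ (K + 1) = 1 := by
    rw [← pow_add, ← two_mul, pow_mul]; norm_num
  have hab : |(-1 : ℝ) ^ (K + 1)| = 1 := by
    rw [abs_pow, abs_neg, abs_one, one_pow]
  have hA' : |(-1 : ℝ) ^ (K + 1) * ∑ m ∈ range K, (-1 : ℝ) ^ (m + 1) * b (m + 1)| ≤
      b (K + 1) / 3 := by rw [abs_mul, hab, one_mul]; exact hA
  have hB' : |(-1 : ℝ) ^ (K + 1) * ∑' i : ℕ, (-1 : ℝ) ^ (i + (K + 1) + 1) * b (i + (K + 1) + 1)| ≤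
      b (K + 1) / 3 := by rw [abs_mul, hab, one_mul]; exact hB
  have e : (-1 : ℝ) ^ (K + 1) * (∑ m ∈ range K, (-1 : ℝ) ^ (m + 1) * b (m + 1) +
      (-1) ^ (K + 1) * b (K + 1) +
        ∑' i : ℕ, (-1 : ℝ) ^ (i + (K + 1) + 1) * b (i + (K + 1) + 1)) =
      (-1) ^ (K + 1) * ∑ m ∈ range K, (-1 : ℝ) ^ (m + 1) * b (m + 1) + b (K + 1) +
        (-1) ^ (K + 1) * ∑' i : ℕ, (-1 : ℝ) ^ (i + (K + 1) + 1) * b (i + (K + 1) + 1) := by
    rw [mul_add, mul_add, ← mul_assoc _ _ (b (K + 1)), hsq, one_mul]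
  rw [e]
  have a1 := (abs_le.1 hA').1
  have a2 := (abs_le.1 hB').1
  linarith

/-- direct regime: if the ratio is at most `1 / 16`, the sign is that of the term `k` -/
theorem direct_sign {P : ℝ[X]} {M : ℝ} {l : ℕ} (h : Vals P M l) (k : ℕ) (hk : l < k)
    (hg : 16 * (P.eval ((k : ℝ) - 1) * P.eval ((k : ℝ) + 1)) ≤ P.eval (k : ℝ) ^ 2) :
    0 < (-1) ^ k * AS P (rq P k) := by
  obtain ⟨K, rfl⟩ : ∃ K, k = K + 1 := ⟨k - 1, by omega⟩
  have hl1 := h.l1
  have hKl : l ≤ K := by omega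
  have p0 : 0 < P.eval (K : ℝ) := h.pos K hKl
  have p1 : 0 < P.eval ((K : ℝ) + 1) := by
    have := h.pos (K + 1) (by omega); push_cast at this; exact this
  have p2 : 0 < P.eval ((K : ℝ) + 2) := by
    have := h.pos (K + 2) (by omega); push_cast at this; exact this
  have e1 : ((K + 1 : ℕ) : ℝ) - 1 = K := by push_cast; ring
  have e2 : ((K + 1 : ℕ) : ℝ) + 1 = (K : ℝ) + 2 := by push_cast; ring
  have e3 : ((K + 1 : ℕ) : ℝ) = (K : ℝ) + 1 := by push_cast; ring
  rw [e1, e2, e3] at hg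
  set r := rq P (K + 1) with hr
  have hr2 : r ^ 2 = P.eval (K : ℝ) / P.eval ((K : ℝ) + 2) := by
    rw [hr, rq, e1, e2, Real.sq_sqrt (by positivity)]
  have hr0 : 0 < r := by
    rw [hr, rq, e1, e2]; exact Real.sqrt_pos.2 (by positivity)
  have hnn : ∀ j : ℕ, 0 ≤ P.eval (j : ℝ) := by
    intro j
    rcases lt_or_ge j l with hj | hj
    · rw [h.zero j hj]
    · exact (h.pos j hj).le
  have hb := rlC_core (fun j => P.eval (j : ℝ) * r ^ j) (fun j => mul_nonneg (hnn j) (by positivity))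
    (fun j => by
      have := h.lc j
      push_cast
      have hrj : 0 ≤ r ^ (2 * j + 2) := by positivity
      calc P.eval (j : ℝ) * r ^ j * (P.eval ((j : ℝ) + 2) * r ^ (j + 2)) =
          P.eval (j : ℝ) * P.eval ((j : ℝ) + 2) * r ^ (2 * j + 2) := by ring
        _ ≤ P.eval ((j : ℝ) + 1) ^ 2 * r ^ (2 * j + 2) := mul_le_mul_of_nonneg_right this hrj
        _ = (P.eval ((j : ℝ) + 1) * r ^ (j + 1)) ^ 2 := by ring) K
    (fun j hj => mul_pos (h.pos j (by omega)) (by positivity))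
  have hr2' : P.eval ((K : ℝ) + 2) * r ^ 2 = P.eval (K : ℝ) := by
    rw [hr2]; field_simp
  -- `4 P(K) ≤ P(K+1) r`
  have key : 4 * P.eval (K : ℝ) ≤ P.eval ((K : ℝ) + 1) * r := by
    have : (4 * P.eval (K : ℝ)) ^ 2 ≤ (P.eval ((K : ℝ) + 1) * r) ^ 2 := by
      have t : (4 * P.eval (K : ℝ)) ^ 2 =
          16 * (P.eval (K : ℝ) * P.eval ((K : ℝ) + 2)) * r ^ 2 := by
        calc (4 * P.eval (K : ℝ)) ^ 2 = 16 * P.eval (K : ℝ) * P.eval (K : ℝ) := by ring
          _ = 16 * P.eval (K : ℝ) * (P.eval ((K : ℝ) + 2) * r ^ 2) := by rw [hr2']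
          _ = _ := by ring
      rw [t, mul_pow]
      exact mul_le_mul_of_nonneg_right hg (by positivity)
    exact (abs_le_of_sq_le_sq' this (by positivity)).2
  have hlast : ∀ d j : ℕ, j + d = K →
      P.eval (j : ℝ) * r ^ j ≤ P.eval ((j : ℝ) + 1) * r ^ (j + 1) / 4 := by
    intro d
    induction d with
    | zero =>
      intro j hj
      have : j = K := by omega
      subst this
      have hrj : 0 ≤ r ^ j := by positivity
      rw [pow_succ]
      nlinarith [mul_le_mul_of_nonneg_right key hrj]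
    | succ d ih =>
      intro j hj
      have i1 := ih (j + 1) (by omega)
      push_cast at i1
      have e4 : (j : ℝ) + 1 + 1 = (j : ℝ) + 2 := by ring
      rw [e4] at i1
      have hlc := h.lc j
      have nn1 : 0 ≤ P.eval ((j : ℝ) + 1) := by have := hnn (j + 1); push_cast at this; exact this
      rcases lt_or_ge (j + 2) l with hj2 | hj2
      · have z := h.zero j (by omega)
        rw [z, zero_mul]
        positivity
      · have pp : 0 < P.eval ((j : ℝ) + 2) := by
          have := h.pos (j + 2) hj2; push_cast at this; exact this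
        have hrp : 0 < r ^ (j + 2) := by positivity
        have : P.eval (j : ℝ) * r ^ j * (P.eval ((j : ℝ) + 2) * r ^ (j + 2)) ≤
            P.eval ((j : ℝ) + 1) * r ^ (j + 1) / 4 * (P.eval ((j : ℝ) + 2) * r ^ (j + 2)) := by
          calc P.eval (j : ℝ) * r ^ j * (P.eval ((j : ℝ) + 2) * r ^ (j + 2)) =
              P.eval (j : ℝ) * P.eval ((j : ℝ) + 2) * r ^ (2 * j + 2) := by ring
            _ ≤ P.eval ((j : ℝ) + 1) ^ 2 * r ^ (2 * j + 2) :=
                mul_le_mul_of_nonneg_right hlc (by positivity)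
            _ = (P.eval ((j : ℝ) + 1) * r ^ (j + 1)) * (P.eval ((j : ℝ) + 1) * r ^ (j + 1)) := by
                ring
            _ ≤ (P.eval ((j : ℝ) + 1) * r ^ (j + 1)) * (P.eval ((j : ℝ) + 2) * r ^ (j + 2) / 4) :=
                mul_le_mul_of_nonneg_left i1 (by positivity)
            _ = _ := by ring
        exact le_of_mul_le_mul_right this (by positivity)
  have fin := hb
    (by
      push_cast
      have hrK : 0 < r ^ (K + 1) := by positivity
      calc P.eval ((K : ℝ) + 2) * r ^ (K + 2) = P.eval ((K : ℝ) + 2) * r ^ 2 * r ^ K := by ring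
        _ = P.eval (K : ℝ) * r ^ K := by rw [hr2']
        _ ≤ P.eval ((K : ℝ) + 1) * r ^ (K + 1) / 4 := hlast 0 K (by omega))
    (fun j hj => by
      push_cast
      exact hlast (K - j) j (by omega))
  have hAS : AS P r = ∑' m : ℕ, (-1 : ℝ) ^ (m + 1) * (P.eval ((m + 1 : ℕ) : ℝ) * r ^ (m + 1)) := by
    rw [AS]
    refine tsum_congr fun m => ?_
    push_cast; ring
  rw [hAS]
  exact fin

/-- near zero -/
theorem first_sign {P : ℝ[X]} {M : ℝ} {l : ℕ} (h : Vals P M l) (ρ : ℝ) (hρ : 0 < ρ) :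
    ∃ r : ℝ, 0 < r ∧ r < ρ ∧ r < 1 ∧ 0 < (-1) ^ l * AS P r := by
  obtain ⟨K, rfl⟩ : ∃ K, l = K + 1 := ⟨l - 1, by have := h.l1; omega⟩
  have p1 : 0 < P.eval ((K : ℝ) + 1) := by
    have := h.pos (K + 1) le_rfl; push_cast at this; exact this
  have p2 : 0 < P.eval ((K : ℝ) + 2) := by
    have := h.pos (K + 2) (by omega); push_cast at this; exact this
  have hnn : ∀ j : ℕ, 0 ≤ P.eval (j : ℝ) := by
    intro j
    rcases lt_or_ge j (K + 1) with hj | hj
    · rw [h.zero j hj]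
    · exact (h.pos j hj).le
  set q := P.eval ((K : ℝ) + 1) / (4 * P.eval ((K : ℝ) + 2)) with hq
  have q0 : 0 < q := by positivity
  obtain ⟨r, hr0, hr1⟩ : ∃ r : ℝ, 0 < r ∧ r < min ρ (min 1 q) :=
    exists_between (lt_min hρ (lt_min one_pos q0))
  have hrρ : r < ρ := hr1.trans_le (min_le_left _ _)
  have hr1' : r < 1 := hr1.trans_le ((min_le_right _ _).trans (min_le_left _ _))
  have hrq : r < q := hr1.trans_le ((min_le_right _ _).trans (min_le_right _ _))
  refine ⟨r, hr0, hrρ, hr1', ?_⟩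
  have key : P.eval ((K : ℝ) + 2) * r ≤ P.eval ((K : ℝ) + 1) / 4 := by
    have : P.eval ((K : ℝ) + 2) * r ≤ P.eval ((K : ℝ) + 2) * q :=
      mul_le_mul_of_nonneg_left hrq.le p2.le
    refine this.trans (le_of_eq ?_)
    rw [hq]; field_simp
  have fin := rlC_core (fun j => P.eval (j : ℝ) * r ^ j)
    (fun j => mul_nonneg (hnn j) (by positivity))
    (fun j => by
      have := h.lc j
      push_cast
      have hrj : 0 ≤ r ^ (2 * j + 2) := by positivity
      calc P.eval (j : ℝ) * r ^ j * (P.eval ((j : ℝ) + 2) * r ^ (j + 2)) =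
          P.eval (j : ℝ) * P.eval ((j : ℝ) + 2) * r ^ (2 * j + 2) := by ring
        _ ≤ P.eval ((j : ℝ) + 1) ^ 2 * r ^ (2 * j + 2) := mul_le_mul_of_nonneg_right this hrj
        _ = (P.eval ((j : ℝ) + 1) * r ^ (j + 1)) ^ 2 := by ring) K
    (fun j hj => mul_pos (h.pos j (by omega)) (by positivity))
    (by
      push_cast
      have hrK : 0 ≤ r ^ (K + 1) := by positivity
      calc P.eval ((K : ℝ) + 2) * r ^ (K + 2) = P.eval ((K : ℝ) + 2) * r * r ^ (K + 1) := by ring
        _ ≤ P.eval ((K : ℝ) + 1) / 4 * r ^ (K + 1) := mul_le_mul_of_nonneg_right key hrK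
        _ = _ := by ring)
    (fun j hj => by
      have z := h.zero j (by omega)
      have nn := hnn (j + 1)
      simp only [z, zero_mul]
      positivity)
  have hAS : AS P r = ∑' m : ℕ, (-1 : ℝ) ^ (m + 1) * (P.eval ((m + 1 : ℕ) : ℝ) * r ^ (m + 1)) := by
    rw [AS]
    refine tsum_congr fun m => ?_
    push_cast; ring
  rw [hAS]
  exact fin

end Pool.Agent.Lib.FenceAF
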