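import Pool.Agent.Lib.MP_7d55f0_co.AF.RlA
import Pool.Agent.Lib.MP_7d55f0_co.AF.RlB

set_option autoImplicit false

namespace Pool.Agent.Lib.FenceAF

open Polynomial Finset Real

theorem hasSum_geom_int : HasSum (fun j : ℤ => ((1 : ℝ) / 2) ^ j.natAbs) 3 := by
  have h1 : HasSum (fun n : ℕ => ((1 : ℝ) / 2) ^ (n : ℤ).natAbs) 2 := by
    simpa using hasSum_geometric_two
  have h2 : HasSum (fun n : ℕ => ((1 : ℝ) / 2) ^ (-((n : ℤ) + 1)).natAbs) 1 := by
    have h3 : ∀ n : ℕ, ((1 : ℝ) / 2) ^ (-((n : ℤ) + 1)).natAbs = ((1 : ℝ) / 2) ^ n * (1 / 2) := by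
      intro n
      have : (-((n : ℤ) + 1)).natAbs = n + 1 := by omega
      rw [this, pow_succ]
    simp_rw [h3]
    have := hasSum_geometric_two.mul_right ((1 : ℝ) / 2)
    norm_num at this
    simpa using this
  have h4 := HasSum.of_nat_of_neg_add_one (f := fun j : ℤ => ((1 : ℝ) / 2) ^ j.natAbs) h1 h2
  rw [show (2 : ℝ) + 1 = 3 by norm_num] at h4
  exact h4

/-- comparison of an alternating sum with the theta series -/
theorem alt_theta {κ η : ℝ} {J : ℕ} {v : ℤ → ℝ} (hκ : 0 < κ) (_hη : 0 ≤ η)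
    (hv : ∀ j, 0 ≤ v j)
    (hc : ∀ j : ℤ, j.natAbs ≤ J → |v j - Real.exp (-(κ * (j : ℝ) ^ 2))| ≤ 2 * η)
    (ht : ∀ j : ℤ, J < j.natAbs → v j ≤ 2 * Real.exp (-(κ * (J : ℝ) ^ 2)) * 2 ^ J *
      (1 / 2) ^ j.natAbs)
    (hJ : Real.exp (-(κ * J)) ≤ 1 / 2)
    (hs : Real.sqrt (κ / π) * ((2 * J + 1) * (2 * η) + 9 * (Real.exp (-(κ * (J : ℝ) ^ 2)) * 2 ^ J)) <
      Real.exp (-(π ^ 2 / (4 * κ)))) :
    0 < ∑' j : ℤ, (-1 : ℝ) ^ j.natAbs * v j := by
  set g : ℤ → ℝ := fun j => Real.exp (-(κ * (j : ℝ) ^ 2)) with hg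
  set T : ℝ := Real.exp (-(κ * (J : ℝ) ^ 2)) * 2 ^ J with hT
  have hT0 : 0 ≤ T := by positivity
  -- tail of `g`
  have hgt : ∀ j : ℤ, J < j.natAbs → g j ≤ T * (1 / 2) ^ j.natAbs := by
    intro j hj
    have h1 : (j : ℝ) ^ 2 = (j.natAbs : ℝ) ^ 2 := by
      have := Int.natAbs_sq j
      have h2 : ((j.natAbs : ℤ) : ℝ) ^ 2 = (j : ℝ) ^ 2 := by exact_mod_cast this
      rw [← h2]; norm_cast
    obtain ⟨d, hd⟩ := Nat.exists_eq_add_of_lt hj
    have h3 : g j ≤ Real.exp (-(κ * (J : ℝ) ^ 2)) * Real.exp (-(κ * J)) ^ (d + 1) := by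
      rw [hg]
      simp only
      rw [← Real.exp_nat_mul, ← Real.exp_add]
      apply Real.exp_le_exp.2
      rw [h1, hd]
      push_cast
      nlinarith [mul_nonneg hκ.le (mul_nonneg (Nat.cast_nonneg (α := ℝ) J) (Nat.cast_nonneg (α := ℝ) d)), mul_nonneg hκ.le (Nat.cast_nonneg (α := ℝ) J), mul_nonneg hκ.le (sq_nonneg ((d : ℝ) + 1))]
    refine h3.trans ?_
    have h4 : Real.exp (-(κ * J)) ^ (d + 1) ≤ (1 / 2) ^ (d + 1) :=
      pow_le_pow_left₀ (Real.exp_pos _).le hJ _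
    have h5 : ((1 : ℝ) / 2) ^ (d + 1) = 2 ^ J * (1 / 2) ^ j.natAbs := by
      rw [hd, show J + d + 1 = J + (d + 1) by ring, pow_add ((1 : ℝ) / 2) J, ← mul_assoc,
        ← mul_pow]
      norm_num
    rw [hT, mul_assoc, ← h5]
    exact mul_le_mul_of_nonneg_left h4 (Real.exp_pos _).le
  set b : ℤ → ℝ := fun j => (if j ∈ Finset.Icc (-(J : ℤ)) J then 2 * η else 0) +
    3 * T * (1 / 2) ^ j.natAbs with hb
  have hb1 : HasSum (fun j : ℤ => if j ∈ Finset.Icc (-(J : ℤ)) J then 2 * η else 0)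
      ((2 * J + 1) * (2 * η)) := by
    have h6 : HasSum (fun j : ℤ => if j ∈ Finset.Icc (-(J : ℤ)) J then 2 * η else 0)
        (∑ j ∈ Finset.Icc (-(J : ℤ)) J, (if j ∈ Finset.Icc (-(J : ℤ)) J then 2 * η else 0)) :=
      hasSum_sum_of_ne_finset_zero (fun j hj => if_neg hj)
    have h7 : ∑ j ∈ Finset.Icc (-(J : ℤ)) J, (if j ∈ Finset.Icc (-(J : ℤ)) J then 2 * η else 0) =
        (2 * J + 1) * (2 * η) := by
      rw [Finset.sum_ite_mem, Finset.inter_self, Finset.sum_const, Int.card_Icc, nsmul_eq_mul]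
      congr 1
      have : ((J : ℤ) + 1 - -(J : ℤ)).toNat = 2 * J + 1 := by omega
      rw [this]
      push_cast
      ring
    rw [h7] at h6
    exact h6
  have hb2 : HasSum (fun j : ℤ => 3 * T * (1 / 2) ^ j.natAbs) (9 * T) := by
    have := hasSum_geom_int.mul_left (3 * T)
    rw [show 3 * T * 3 = 9 * T by ring] at this
    exact this
  have hbs : HasSum b ((2 * J + 1) * (2 * η) + 9 * T) := hb1.add hb2
  have hcmp : ∀ j, |v j - g j| ≤ b j := by
    intro j
    by_cases hj : j.natAbs ≤ J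
    · have h1 : j ∈ Finset.Icc (-(J : ℤ)) J := by rw [Finset.mem_Icc]; omega
      simp only [hb, if_pos h1]
      have := hc j hj
      have h2 : 0 ≤ 3 * T * (1 / 2) ^ j.natAbs := by positivity
      linarith
    · have hj' : J < j.natAbs := not_le.1 hj
      have h1 : j ∉ Finset.Icc (-(J : ℤ)) J := by rw [Finset.mem_Icc]; omega
      simp only [hb, if_neg h1, zero_add]
      have h2 := ht j hj'
      have h3 := hgt j hj'
      have h4 : 0 ≤ g j := (Real.exp_pos _).le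
      have h5 := hv j
      rw [abs_le]
      constructor <;> nlinarith
  have hgs : Summable g := by
    have h6 : HasSum (fun j : ℤ => if j ∈ Finset.Icc (-(J : ℤ)) J then g j else 0)
        (∑ j ∈ Finset.Icc (-(J : ℤ)) J, (if j ∈ Finset.Icc (-(J : ℤ)) J then g j else 0)) :=
      hasSum_sum_of_ne_finset_zero (fun j hj => if_neg hj)
    refine Summable.of_nonneg_of_le (fun j => (Real.exp_pos _).le) (fun j => ?_)
      (h6.summable.add (hasSum_geom_int.mul_left T).summable)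
    by_cases hj : j.natAbs ≤ J
    · have h1 : j ∈ Finset.Icc (-(J : ℤ)) J := by rw [Finset.mem_Icc]; omega
      simp only [if_pos h1]
      have h2 : 0 ≤ T * (1 / 2) ^ j.natAbs := by positivity
      linarith
    · have h1 : j ∉ Finset.Icc (-(J : ℤ)) J := by rw [Finset.mem_Icc]; omega
      simp only [if_neg h1, zero_add]
      exact hgt j (not_le.1 hj)
  have hds : Summable (fun j => v j - g j) := Summable.of_norm_bounded hbs.summable (fun j => by
    rw [Real.norm_eq_abs]; exact hcmp j)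
  have hsgn : ∀ j : ℤ, ‖(-1 : ℝ) ^ j.natAbs‖ = 1 := by
    intro j; rw [norm_pow, norm_neg, norm_one, one_pow]
  have hds' : Summable (fun j : ℤ => (-1 : ℝ) ^ j.natAbs * (v j - g j)) :=
    Summable.of_norm_bounded hbs.summable (fun j => by
      rw [norm_mul, hsgn, one_mul, Real.norm_eq_abs]; exact hcmp j)
  have hgs' : Summable (fun j : ℤ => (-1 : ℝ) ^ j.natAbs * g j) :=
    Summable.of_norm_bounded hgs (fun j => by
      rw [norm_mul, hsgn, one_mul, Real.norm_eq_abs, abs_of_nonneg (Real.exp_pos _).le])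
  have hsplit : ∑' j : ℤ, (-1 : ℝ) ^ j.natAbs * v j =
      ∑' j : ℤ, (-1 : ℝ) ^ j.natAbs * g j + ∑' j : ℤ, (-1 : ℝ) ^ j.natAbs * (v j - g j) := by
    rw [← hgs'.tsum_add hds']
    congr 1
    ext j
    ring
  have herr : |∑' j : ℤ, (-1 : ℝ) ^ j.natAbs * (v j - g j)| ≤
      (2 * J + 1) * (2 * η) + 9 * T := by
    rw [← hbs.tsum_eq, ← Real.norm_eq_abs]
    exact tsum_of_norm_bounded hbs.summable.hasSum (fun j => by
      rw [norm_mul, hsgn, one_mul, Real.norm_eq_abs]; exact hcmp j)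
  have hth := theta_pos κ hκ
  have hsq : 0 < Real.sqrt (κ / π) := Real.sqrt_pos.2 (div_pos hκ Real.pi_pos)
  have h8 : Real.sqrt (κ / π) * ((2 * J + 1) * (2 * η) + 9 * T) < Real.sqrt (κ / π) *
      ∑' j : ℤ, (-1 : ℝ) ^ j.natAbs * g j := lt_of_lt_of_le hs hth
  have h9 := lt_of_mul_lt_mul_left h8 hsq.le
  have h10 := neg_abs_le (∑' j : ℤ, (-1 : ℝ) ^ j.natAbs * (v j - g j))
  rw [hsplit]
  linarith


/-- log-concave sequences: right tail -/
theorem lc_right {w : ℕ → ℝ} (hlc : ∀ m, w m * w (m + 2) ≤ w (m + 1) ^ 2) {K : ℕ}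
    (hpos : ∀ m, K ≤ m → 0 < w m) (hK : w (K + 1) ≤ w K / 2) (d : ℕ) :
    w (K + d) ≤ w K * (1 / 2) ^ d := by
  have h1 : ∀ d : ℕ, w (K + d + 1) ≤ w (K + d) / 2 := by
    intro d
    induction d with
    | zero => simpa using hK
    | succ e ih =>
      have h2 := hlc (K + e)
      have h3 := hpos (K + e) (by omega)
      have h4 := hpos (K + e + 1) (by omega)
      have h5 : w (K + (e + 1) + 1) = w (K + e + 2) := by congr 1
      have h6 : w (K + (e + 1)) = w (K + e + 1) := by congr 1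
      rw [h5, h6]
      have h7 : w (K + e) * w (K + e + 2) ≤ w (K + e) * (w (K + e + 1) / 2) := by
        refine h2.trans ?_
        nlinarith
      exact le_of_mul_le_mul_left h7 h3
  induction d with
  | zero => simp
  | succ e ih =>
    have h2 := h1 e
    rw [pow_succ]
    have h3 : w (K + (e + 1)) = w (K + e + 1) := by congr 1
    rw [h3]
    linarith

/-- log-concave sequences: left tail -/
theorem lc_left {w : ℕ → ℝ} (hlc : ∀ m, w m * w (m + 2) ≤ w (m + 1) ^ 2)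
    (h0 : ∀ m, 0 ≤ w m) (hz : ∀ m, w (m + 1) = 0 → w m = 0) {K : ℕ}
    (hK : w K ≤ w (K + 1) / 2) (d : ℕ) (hd : d ≤ K + 1) :
    w (K + 1 - d) ≤ w (K + 1) * (1 / 2) ^ d := by
  have h1 : ∀ d : ℕ, d ≤ K → w (K - d) ≤ w (K - d + 1) / 2 := by
    intro d
    induction d with
    | zero => intro _; simpa using hK
    | succ e ih =>
      intro he
      have ih := ih (by omega)
      obtain ⟨m, hm⟩ : ∃ m, K - e = m + 1 := ⟨K - e - 1, by omega⟩
      have h2 : K - (e + 1) = m := by omega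
      rw [hm] at ih
      rw [h2]
      have h3 := hlc m
      rcases (h0 (m + 2)).eq_or_lt with h4 | h4
      · have h5 := hz (m + 1) h4.symm
        have h6 := hz m h5
        rw [h5, h6]; simp
      · have h7 : w (m + 2) * w m ≤ w (m + 2) * (w (m + 1) / 2) := by
          rw [mul_comm]
          refine h3.trans ?_
          have ih' : w (m + 1) ≤ w (m + 2) / 2 := ih
          nlinarith [h0 (m + 1)]
        exact le_of_mul_le_mul_left h7 h4
  induction d with
  | zero => simp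
  | succ e ih =>
    have ih := ih (by omega)
    have h2 := h1 e (by omega)
    have h3 : K + 1 - (e + 1) = K - e := by omega
    have h4 : K - e + 1 = K + 1 - e := by omega
    rw [h3, pow_succ]
    rw [h4] at h2
    linarith

/-- the exponent of the terms near the maximum -/
theorem near_exp {P : ℝ[X]} {n : ℕ} {M c : ℝ} {t : Fin n → ℂ} {a : ℝ} (h : Dat P n M c t a)
    (k j : ℝ) (hk : 10 * M ≤ k) (hj : |j| ≤ k / 4) (hj1 : j = 0 ∨ 1 ≤ |j|)
    (hp : 0 < P.eval k) (hp1 : 0 < P.eval (k + 1)) (hp2 : 0 < P.eval (k - 1))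
    (hpj : 0 < P.eval (k + j)) :
    |Real.log (P.eval (k + j) / P.eval k) +
      j * Real.log (Real.sqrt (P.eval (k - 1) / P.eval (k + 1))) +
      (∑ i, ((1 : ℂ) / (k - t i) ^ 2).re) / 2 * j ^ 2| ≤ 4 * n * |j| ^ 3 / k ^ 3 := by
  have hM := h.hM
  have hk0 : 0 < k := by linarith
  rcases hj1 with rfl | hj1
  · rw [add_zero, div_self hp.ne']
    simp
  have e0 := ratio_exp h k j hk hj
  have e1 := ratio_exp h k 1 hk (by rw [abs_one]; linarith)
  have e2 := ratio_exp h k (-1) hk (by rw [abs_neg, abs_one]; linarith)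
  rw [abs_of_pos hp, abs_of_pos hpj] at e0
  rw [abs_of_pos hp, abs_of_pos hp1, abs_one] at e1
  rw [show k + -1 = k - 1 by ring, abs_of_pos hp, abs_of_pos hp2, abs_neg, abs_one] at e2
  rw [Real.log_sqrt (div_pos hp2 hp1).le]
  rw [Real.log_div hp2.ne' hp1.ne']
  rw [Real.log_div hp1.ne' hp.ne'] at e1
  rw [Real.log_div hp2.ne' hp.ne'] at e2
  set A := ∑ i, ((1 : ℂ) / (k - t i)).re
  set B := ∑ i, ((1 : ℂ) / (k - t i) ^ 2).re
  set u0 := Real.log (P.eval (k + j) / P.eval k)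
  set u1 := Real.log (P.eval (k + 1))
  set u2 := Real.log (P.eval (k - 1))
  set u := Real.log (P.eval k)
  set δ : ℝ := 2 * n / k ^ 3 with hδ
  have hδ0 : 0 ≤ δ := by positivity
  have f0 : 2 * n * |j| ^ 3 / k ^ 3 = δ * |j| ^ 3 := by rw [hδ]; ring
  have f1 : 2 * n * (1 : ℝ) ^ 3 / k ^ 3 = δ := by rw [hδ]; ring
  have f2 : 4 * n * |j| ^ 3 / k ^ 3 = δ * |j| ^ 3 + δ * |j| ^ 3 := by rw [hδ]; ring
  rw [f0] at e0
  rw [f1] at e1 e2
  rw [f2]
  have g : u0 + j * ((u2 - u1) / 2) + B / 2 * j ^ 2 =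
      (u0 - (j * A - j ^ 2 / 2 * B)) + j * (((u2 - u - (-1 * A - (-1) ^ 2 / 2 * B)) -
        (u1 - u - (1 * A - 1 ^ 2 / 2 * B))) / 2) := by ring
  rw [g]
  refine (abs_add_le _ _).trans (add_le_add e0 ?_)
  rw [abs_mul]
  have g2 : |((u2 - u - (-1 * A - (-1) ^ 2 / 2 * B)) -
        (u1 - u - (1 * A - 1 ^ 2 / 2 * B))) / 2| ≤ δ := by
    rw [abs_div, abs_two, div_le_iff₀ (by norm_num)]
    refine (abs_sub _ _).trans ?_
    linarith
  have g3 : |j| ≤ |j| ^ 3 := by nlinarith [sq_nonneg (|j| - 1), abs_nonneg j]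
  calc |j| * _ ≤ |j| * δ := mul_le_mul_of_nonneg_left g2 (abs_nonneg j)
    _ ≤ δ * |j| ^ 3 := by rw [mul_comm]; exact mul_le_mul_of_nonneg_left g3 hδ0

theorem exp_neg_one_le_half : Real.exp (-1) ≤ 1 / 2 := by
  rw [Real.exp_neg, one_div]
  exact inv_anti₀ (by norm_num) (by linarith [Real.exp_one_gt_d9])

theorem neg_one_mul_pow (p q : ℕ) : (-1 : ℝ) ^ p * (-1) ^ q = (-1) ^ ((q : ℤ) - p).natAbs := by
  have hs : ∀ i : ℕ, (-1 : ℝ) ^ i * (-1) ^ i = 1 := fun i => by rw [← mul_pow]; norm_num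
  rcases le_total p q with h | h
  · obtain ⟨d, rfl⟩ := Nat.exists_eq_add_of_le h
    have h1 : (((p + d : ℕ) : ℤ) - p).natAbs = d := by omega
    rw [h1, pow_add, ← mul_assoc, hs, one_mul]
  · obtain ⟨d, rfl⟩ := Nat.exists_eq_add_of_le h
    have h1 : ((q : ℤ) - ((q + d : ℕ) : ℤ)).natAbs = d := by omega
    rw [h1, pow_add, mul_right_comm, hs, one_mul]

theorem exp_half_le_two : Real.exp (1 / 2) ≤ 2 := by
  have h1 : Real.exp (1 / 2) ^ 2 ≤ 2 ^ 2 := by
    rw [← Real.exp_nat_mul]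
    norm_num
    linarith [Real.exp_one_lt_d9]
  exact le_of_sq_le_sq h1 (by norm_num)

/-- theta regime -/
theorem theta_sign : ∃ X0 : ℝ, 1 ≤ X0 ∧ ∀ (n : ℕ) (x M c : ℝ) (t : Fin n → ℂ) (P : ℝ[X]) (a : ℝ)
    (l : ℕ), Dat P n M c t a → Vals P M l → X0 ≤ x → x ^ 20 = n → 2 * M + 1 ≤ x →
    ∀ k : ℕ, l < k → x ^ 10 / 10 ≤ k → (k : ℝ) ≤ 11 * x ^ 10 →
      0 < (-1) ^ k * AS P (rq P k) := by
  set κ0 : ℝ := 7 / 2420 with hκ0
  set c1 : ℝ := Real.exp (-(π ^ 2 / (4 * κ0))) with hc1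
  have hc1p : 0 < c1 := Real.exp_pos _
  refine ⟨1000 + 1000000 / c1, ?_, ?_⟩
  · have : 0 < 1000000 / c1 := by positivity
    linarith
  intro n x M c t P a l hD hV hx hxn hMx k hlk hk1 hk2
  have hx1 : 1000 ≤ x := by
    have : 0 < 1000000 / c1 := by positivity
    linarith
  have hx2 : 1000000 / c1 < x := by linarith
  have hx2' : 1000000 < c1 * x := by
    rw [div_lt_iff₀ hc1p] at hx2
    linarith
  have hx0 : 0 < x := by linarith
  have hM := hD.hM
  have hl1 := hV.l1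
  have hlM := hV.lM
  -- powers of x
  have hx3 : (1000 : ℝ) ^ 9 ≤ x ^ 9 := pow_le_pow_left₀ (by norm_num) hx1 9
  have hx10 : x ^ 10 = x * x ^ 9 := by ring
  have hkx : 1000 * x ≤ k := by
    have : 10000 * x ≤ x ^ 10 := by
      rw [hx10]
      nlinarith
    linarith
  have hkpos : (0 : ℝ) < k := by linarith
  have hk10 : 10 * M ≤ k := by linarith
  set J : ℕ := ⌈x⌉₊ with hJ
  have hJ1 : x ≤ J := Nat.le_ceil x
  have hJ2 : (J : ℝ) < x + 1 := Nat.ceil_lt_add_one hx0.le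
  set κ : ℝ := (∑ i, ((1 : ℂ) / ((k : ℝ) - t i) ^ 2).re) / 2 with hκ
  have hS := sum_inv_sq hD (k : ℝ) hk10
  have hx20 : x ^ 20 = x ^ 10 * x ^ 10 := by ring
  have hx10p : 0 < x ^ 10 := by positivity
  have hκl : κ0 ≤ κ := by
    have h1 : 7 / 10 / 121 ≤ 7 / 10 * (n : ℝ) / (k : ℝ) ^ 2 := by
      rw [le_div_iff₀ (by positivity), ← hxn, hx20]
      nlinarith
    rw [hκ, hκ0]
    linarith [hS.1]
  have hκu : κ ≤ 65 := by
    have h1 : 13 / 10 * (n : ℝ) / (k : ℝ) ^ 2 ≤ 130 := by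
      rw [div_le_iff₀ (by positivity), ← hxn, hx20]
      nlinarith
    rw [hκ]
    linarith [hS.2]
  have hκ0p : 0 < κ0 := by rw [hκ0]; norm_num
  have hκp : 0 < κ := lt_of_lt_of_le hκ0p hκl
  set η : ℝ := 32000 / x ^ 7 with hη
  have hη0 : 0 ≤ η := by positivity
  have hx7 : (1000 : ℝ) ^ 6 ≤ x ^ 6 := pow_le_pow_left₀ (by norm_num) hx1 6
  have hx6 : x ^ 7 = x * x ^ 6 := by ring
  have hηx : η * x ≤ 1 / x := by
    have h5 : (1000 : ℝ) ^ 5 ≤ x ^ 5 := pow_le_pow_left₀ (by norm_num) hx1 5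
    have h6 : x ^ 7 = x * x * x ^ 5 := by ring
    rw [hη, div_mul_eq_mul_div, div_le_div_iff₀ (by positivity) hx0, h6]
    nlinarith [mul_pos hx0 hx0]
  have hη1 : η ≤ 1 / 2 := by
    rw [hη, div_le_iff₀ (by positivity), hx6]
    nlinarith
  have hJk : (J : ℝ) + 1 ≤ k / 4 := by linarith
  have hJkn : J + 1 ≤ k := by
    have : ((J + 1 : ℕ) : ℝ) ≤ (k : ℝ) := by push_cast; linarith
    exact_mod_cast this
  have hlJ : l + J + 1 ≤ k := by
    have : ((l + J + 1 : ℕ) : ℝ) ≤ (k : ℝ) := by push_cast; linarith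
    exact_mod_cast this
  -- the terms
  have hpos : ∀ m : ℕ, l ≤ m → 0 < P.eval (m : ℝ) := hV.pos
  have hnn : ∀ m : ℕ, 0 ≤ P.eval (m : ℝ) := fun m => by
    rcases lt_or_ge m l with h | h
    · exact (hV.zero m h).ge
    · exact (hpos m h).le
  have hk1c : (((k - 1 : ℕ) : ℝ)) = (k : ℝ) - 1 := by
    rw [Nat.cast_sub (by omega)]; simp
  have hPk : 0 < P.eval (k : ℝ) := hpos k hlk.le
  have hPk1 : 0 < P.eval ((k : ℝ) + 1) := by
    have := hpos (k + 1) (by omega)
    push_cast at this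
    exact this
  have hPk2 : 0 < P.eval ((k : ℝ) - 1) := by
    rw [← hk1c]
    exact hpos (k - 1) (by omega)
  set r : ℝ := rq P k with hr
  have hrdef : r = Real.sqrt (P.eval ((k : ℝ) - 1) / P.eval ((k : ℝ) + 1)) := rfl
  have hr0 : 0 < r := by rw [hrdef]; exact Real.sqrt_pos.2 (div_pos hPk2 hPk1)
  set w : ℕ → ℝ := fun m => P.eval (m : ℝ) * r ^ m with hw
  have hw0 : ∀ m, 0 ≤ w m := fun m => mul_nonneg (hnn m) (pow_nonneg hr0.le m)
  have hwp : ∀ m, l ≤ m → 0 < w m := fun m hm => mul_pos (hpos m hm) (pow_pos hr0 m)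
  have hwz : ∀ m, m < l → w m = 0 := fun m hm => by
    simp only [hw]; rw [hV.zero m hm, zero_mul]
  have hwz1 : ∀ m, w (m + 1) = 0 → w m = 0 := fun m hm => by
    by_cases h : l ≤ m + 1
    · exact absurd hm (hwp (m + 1) h).ne'
    · exact hwz m (by omega)
  have hwlc : ∀ m, w m * w (m + 2) ≤ w (m + 1) ^ 2 := fun m => by
    have h1 := hV.lc m
    simp only [hw]
    push_cast
    have h2 : P.eval (m : ℝ) * r ^ m * (P.eval ((m : ℝ) + 2) * r ^ (m + 2)) =
        (P.eval (m : ℝ) * P.eval ((m : ℝ) + 2)) * (r ^ (m + 1)) ^ 2 := by ring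
    rw [h2, mul_pow]
    exact mul_le_mul_of_nonneg_right h1 (by positivity)
  -- the main estimate
  have main : ∀ j : ℤ, j.natAbs ≤ J + 1 → ∃ e : ℝ, |e| ≤ η ∧
      w ((k : ℤ) + j).toNat = w k * Real.exp (-(κ * (j : ℝ) ^ 2) + e) := by
    intro j hj
    set m : ℕ := ((k : ℤ) + j).toNat with hm
    have hmj : (m : ℤ) = (k : ℤ) + j := by omega
    have hmr : (m : ℝ) = (k : ℝ) + (j : ℝ) := by exact_mod_cast hmj
    have hml : l ≤ m := by omega
    have habs : |(j : ℝ)| = (j.natAbs : ℝ) := by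
      rw [Nat.cast_natAbs, Int.cast_abs]
    have hjJ : |(j : ℝ)| ≤ (J : ℝ) + 1 := by
      rw [habs]; exact_mod_cast hj
    have hj1 : (j : ℝ) = 0 ∨ 1 ≤ |(j : ℝ)| := by
      rcases Nat.eq_zero_or_pos j.natAbs with h | h
      · left
        rw [Int.natAbs_eq_zero.1 h]; simp
      · right
        rw [habs]; exact_mod_cast h
    have hPm := hpos m hml
    have e1 := near_exp hD (k : ℝ) (j : ℝ) hk10 (by linarith) hj1 hPk hPk1 hPk2
      (by rw [← hmr]; exact hPm)
    rw [← hmr, ← hrdef, ← hκ] at e1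
    refine ⟨Real.log (P.eval (m : ℝ) / P.eval (k : ℝ)) + (j : ℝ) * Real.log r + κ * (j : ℝ) ^ 2,
      e1.trans ?_, ?_⟩
    · have h1 : |(j : ℝ)| ^ 3 ≤ (2 * x) ^ 3 :=
        pow_le_pow_left₀ (abs_nonneg _) (by linarith) 3
      have h2 : (n : ℝ) / (k : ℝ) ^ 3 ≤ 1000 / x ^ 10 := by
        rw [div_le_div_iff₀ (by positivity) hx10p, ← hxn]
        have h3 : (x ^ 10 / 10) ^ 3 ≤ (k : ℝ) ^ 3 := pow_le_pow_left₀ (by positivity) hk1 3
        have h4 : x ^ 20 * x ^ 10 = 1000 * (x ^ 10 / 10) ^ 3 := by ring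
        rw [h4]
        linarith
      have h3 : 4 * (n : ℝ) * |(j : ℝ)| ^ 3 / (k : ℝ) ^ 3 = 4 * ((n : ℝ) / (k : ℝ) ^ 3) *
          |(j : ℝ)| ^ 3 := by ring
      rw [h3]
      have h4 : 4 * ((n : ℝ) / (k : ℝ) ^ 3) * |(j : ℝ)| ^ 3 ≤ 4 * (1000 / x ^ 10) * (2 * x) ^ 3 :=
        mul_le_mul (by linarith) h1 (by positivity) (by positivity)
      refine h4.trans (le_of_eq ?_)
      rw [hη]
      field_simp
      ring
    · have h1 : -(κ * (j : ℝ) ^ 2) + (Real.log (P.eval (m : ℝ) / P.eval (k : ℝ)) +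
          (j : ℝ) * Real.log r + κ * (j : ℝ) ^ 2) =
          Real.log (P.eval (m : ℝ) / P.eval (k : ℝ)) + (j : ℝ) * Real.log r := by ring
      rw [h1, Real.exp_add, Real.exp_log (div_pos hPm hPk)]
      have h2 : Real.exp ((j : ℝ) * Real.log r) = r ^ j := by
        rw [mul_comm, Real.exp_mul, Real.exp_log hr0, Real.rpow_intCast]
      rw [h2]
      simp only [hw]
      have h3 : r ^ m = r ^ k * r ^ j := by
        rw [← zpow_natCast r m, ← zpow_natCast r k, ← zpow_add₀ hr0.ne', hmj]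
      rw [h3]
      field_simp
  have hwk : 0 < w k := hwp k hlk.le
  have hκJ : 2 ≤ κ * J := by
    have h1 : κ0 * 1000 ≤ κ * J := mul_le_mul hκl (by linarith) (by norm_num) hκp.le
    rw [hκ0] at h1
    linarith
  have hhalf : ∀ e e' : ℝ, |e| ≤ η → |e'| ≤ η →
      w k * Real.exp (-(κ * ((J : ℝ) + 1) ^ 2) + e') ≤
        w k * Real.exp (-(κ * (J : ℝ) ^ 2) + e) / 2 := by
    intro e e' he he'
    have h1 : Real.exp (-(κ * ((J : ℝ) + 1) ^ 2) + e') ≤
        Real.exp (-(κ * (J : ℝ) ^ 2) + e) * Real.exp (-1) := by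
      rw [← Real.exp_add]
      apply Real.exp_le_exp.2
      have := (abs_le.1 he).1
      have := (abs_le.1 he').2
      nlinarith
    have h2 := exp_neg_one_le_half
    have h3 := Real.exp_pos (-(κ * (J : ℝ) ^ 2) + e)
    have h4 : Real.exp (-(κ * ((J : ℝ) + 1) ^ 2) + e') ≤
        Real.exp (-(κ * (J : ℝ) ^ 2) + e) / 2 := by nlinarith
    rw [mul_div_assoc]
    exact mul_le_mul_of_nonneg_left h4 hwk.le
  have htwo : ∀ e : ℝ, |e| ≤ η → w k * Real.exp (-(κ * (J : ℝ) ^ 2) + e) ≤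
      w k * (2 * Real.exp (-(κ * (J : ℝ) ^ 2))) := by
    intro e he
    refine mul_le_mul_of_nonneg_left ?_ hwk.le
    rw [Real.exp_add, mul_comm]
    refine mul_le_mul_of_nonneg_right ?_ (Real.exp_pos _).le
    refine (Real.exp_le_exp.2 ?_).trans exp_half_le_two
    linarith [(abs_le.1 he).2]
  obtain ⟨e1, he1, hw1⟩ := main (J : ℤ) (by omega)
  obtain ⟨e2, he2, hw2⟩ := main ((J : ℤ) + 1) (by omega)
  obtain ⟨e3, he3, hw3⟩ := main (-(J : ℤ)) (by omega)
  obtain ⟨e4, he4, hw4⟩ := main (-((J : ℤ) + 1)) (by omega)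
  have i1 : ((k : ℤ) + (J : ℤ)).toNat = k + J := by omega
  have i2 : ((k : ℤ) + ((J : ℤ) + 1)).toNat = k + J + 1 := by omega
  have i3 : ((k : ℤ) + -(J : ℤ)).toNat = k - J := by omega
  have i4 : ((k : ℤ) + -((J : ℤ) + 1)).toNat = k - J - 1 := by omega
  have j3 : k - J = k - J - 1 + 1 := by omega
  rw [i1] at hw1
  rw [i2] at hw2
  rw [i3] at hw3
  rw [i4] at hw4
  push_cast at hw1 hw2 hw3 hw4
  rw [neg_sq] at hw3 hw4
  have hRK : w (k + J + 1) ≤ w (k + J) / 2 := by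
    rw [hw1, hw2]; exact hhalf e1 e2 he1 he2
  have hLK : w (k - J - 1) ≤ w (k - J - 1 + 1) / 2 := by
    rw [← j3, hw3, hw4]; exact hhalf e3 e4 he3 he4
  have hR := lc_right hwlc (K := k + J) (fun m hm => hwp m (by omega)) hRK
  have hL := lc_left hwlc hw0 hwz1 hLK
  rw [← j3] at hL
  have hR1 : w (k + J) ≤ w k * (2 * Real.exp (-(κ * (J : ℝ) ^ 2))) := by
    rw [hw1]; exact htwo e1 he1
  have hL1 : w (k - J) ≤ w k * (2 * Real.exp (-(κ * (J : ℝ) ^ 2))) := by
    rw [hw3]; exact htwo e3 he3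
  set v : ℤ → ℝ := fun j => w ((k : ℤ) + j).toNat / w k with hv
  have hpow : ∀ d : ℕ, ((1 : ℝ) / 2) ^ d = 2 ^ J * (1 / 2) ^ (J + d) := by
    intro d
    rw [pow_add ((1 : ℝ) / 2) J, ← mul_assoc, ← mul_pow]
    norm_num
  have hfin : 0 < ∑' j : ℤ, (-1 : ℝ) ^ j.natAbs * v j := by
    refine alt_theta (κ := κ) (η := η) (J := J) hκp hη0 (fun j => div_nonneg (hw0 _) hwk.le)
      ?_ ?_ ?_ ?_
    · intro j hj
      obtain ⟨e, he, hwe⟩ := main j (by omega)
      simp only [hv]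
      rw [hwe, mul_div_cancel_left₀ _ hwk.ne', Real.exp_add, ← mul_sub_one, abs_mul]
      have h1 : |Real.exp (-(κ * (j : ℝ) ^ 2))| ≤ 1 := by
        rw [abs_of_pos (Real.exp_pos _), Real.exp_le_one_iff]
        have : 0 ≤ κ * (j : ℝ) ^ 2 := by positivity
        linarith
      have h2 : |Real.exp e - 1| ≤ 2 * |e| := Real.abs_exp_sub_one_le (by linarith)
      calc _ ≤ 1 * |Real.exp e - 1| := mul_le_mul_of_nonneg_right h1 (abs_nonneg _)
        _ ≤ 2 * η := by linarith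
    · intro j hj
      simp only [hv]
      rw [div_le_iff₀ hwk]
      obtain ⟨d, hd⟩ : ∃ d, j.natAbs = J + d := ⟨j.natAbs - J, by omega⟩
      rw [hd]
      have h1 : 2 * Real.exp (-(κ * (J : ℝ) ^ 2)) * 2 ^ J * (1 / 2) ^ (J + d) * w k =
          w k * (2 * Real.exp (-(κ * (J : ℝ) ^ 2))) * (1 / 2) ^ d := by
        rw [hpow d]; ring
      rw [h1]
      rcases le_total 0 j with h | h
      · have h2 : ((k : ℤ) + j).toNat = k + J + d := by omega
        rw [h2]
        exact (hR d).trans (mul_le_mul_of_nonneg_right hR1 (by positivity))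
      · by_cases h3 : d ≤ k - J
        · have h2 : ((k : ℤ) + j).toNat = k - J - d := by omega
          rw [h2]
          exact (hL d h3).trans (mul_le_mul_of_nonneg_right hL1 (by positivity))
        · have h2 : ((k : ℤ) + j).toNat = 0 := by omega
          rw [h2, hwz 0 (by omega)]
          positivity
    · refine le_trans (Real.exp_le_exp.2 ?_) exp_neg_one_le_half
      linarith
    · have g1 : Real.sqrt (κ / π) ≤ 5 := by
        rw [Real.sqrt_le_iff]
        refine ⟨by norm_num, ?_⟩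
        rw [div_le_iff₀ Real.pi_pos]
        nlinarith [Real.pi_gt_three]
      have g2 : (2 * (J : ℝ) + 1) * (2 * η) ≤ 6 / x := by
        have : (2 * (J : ℝ) + 1) * (2 * η) ≤ 3 * x * (2 * η) :=
          mul_le_mul_of_nonneg_right (by linarith) (by linarith)
        refine this.trans ?_
        have h6 : (6 : ℝ) / x = 6 * (1 / x) := by ring
        rw [h6]
        nlinarith
      have g3 : Real.exp (-(κ * (J : ℝ) ^ 2)) * 2 ^ J ≤ 1 / x := by
        have h1 : (2 : ℝ) ^ J ≤ Real.exp J := by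
          have h2 : (2 : ℝ) ≤ Real.exp 1 := by linarith [Real.exp_one_gt_d9]
          have h3 := pow_le_pow_left₀ (by norm_num) h2 J
          rwa [← Real.exp_nat_mul, mul_one] at h3
        have h2 : Real.exp (-(κ * (J : ℝ) ^ 2)) * 2 ^ J ≤ Real.exp (-J) := by
          refine (mul_le_mul_of_nonneg_left h1 (Real.exp_pos _).le).trans ?_
          rw [← Real.exp_add]
          apply Real.exp_le_exp.2
          have h3 : 2 * (J : ℝ) ≤ κ * J * J := mul_le_mul_of_nonneg_right hκJ (by positivity)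
          have h4 : κ * (J : ℝ) ^ 2 = κ * J * J := by ring
          linarith
        refine h2.trans ?_
        rw [Real.exp_neg, one_div]
        refine inv_anti₀ hx0 ?_
        linarith [Real.add_one_le_exp (J : ℝ)]
      have g4 : c1 ≤ Real.exp (-(π ^ 2 / (4 * κ))) := by
        rw [hc1]
        apply Real.exp_le_exp.2
        apply neg_le_neg
        exact div_le_div_of_nonneg_left (by positivity) (by positivity) (by linarith)
      refine lt_of_lt_of_le ?_ g4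
      have g5 : (2 * (J : ℝ) + 1) * (2 * η) + 9 * (Real.exp (-(κ * (J : ℝ) ^ 2)) * 2 ^ J) ≤
          15 / x := by
        have h1 : 15 / x = 6 / x + 9 * (1 / x) := by ring
        rw [h1]
        linarith
      refine lt_of_le_of_lt (mul_le_mul g1 g5 (by positivity) (by norm_num)) ?_
      rw [← mul_div_assoc, div_lt_iff₀ hx0]
      linarith
  have hsum : (-1) ^ k * AS P r = w k * ∑' j : ℤ, (-1 : ℝ) ^ j.natAbs * v j := by
    have hinj : Function.Injective (fun m : ℕ => (m : ℤ) + 1 - k) := fun p q hpq => by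
      simp only at hpq
      omega
    have hsupp : Function.support (fun j : ℤ => (-1 : ℝ) ^ j.natAbs * v j) ⊆
        Set.range (fun m : ℕ => (m : ℤ) + 1 - k) := by
      intro j hj
      rw [Function.mem_support] at hj
      by_contra hcon
      apply hj
      have h1 : ((k : ℤ) + j).toNat = 0 := by
        by_contra h2
        apply hcon
        exact ⟨((k : ℤ) + j).toNat - 1, by simp only; omega⟩
      simp only [hv]
      rw [h1, hwz 0 (by omega)]
      simp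
    rw [← Function.Injective.tsum_eq hinj hsupp, AS, ← tsum_mul_left, ← tsum_mul_left]
    congr 1
    ext m
    have h1 : ((k : ℤ) + ((m : ℤ) + 1 - k)).toNat = m + 1 := by omega
    simp only [hv]
    rw [h1]
    have h2 := neg_one_mul_pow k (m + 1)
    push_cast at h2
    rw [← h2]
    simp only [hw]
    push_cast
    field_simp
  rw [hsum]
  exact mul_pos hwk hfin

end Pool.Agent.Lib.FenceAF
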