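import Pool.Agent.Lib.MP_7d55f0_co.AF.RlC
import Pool.Agent.Lib.MP_7d55f0_co.AF.RlD

set_option autoImplicit false

namespace Pool.Agent.Lib.FenceAF

open Polynomial Finset Real

theorem Dat.lt_succ {P : ℝ[X]} {n : ℕ} {M c : ℝ} {t : Fin n → ℂ} {a : ℝ} (h : Dat P n M c t a)
    (hn : 1 ≤ n) {k : ℝ} (hk : 10 * M ≤ k) : |P.eval k| < |P.eval (k + 1)| := by
  have hM := h.hM
  rw [h.abs_eval, h.abs_eval]
  refine mul_lt_mul_of_pos_left ?_ h.hc
  have hpos : ∀ i, 0 < ‖(k : ℂ) - t i‖ := fun i => by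
    have := h.dist_ge hk i
    linarith
  refine Finset.prod_lt_prod_of_nonempty (fun i _ => hpos i) (fun i _ => ?_) ?_
  · have h1 : ‖((k + 1 : ℝ) : ℂ) - t i‖ ^ 2 = ‖(k : ℂ) - t i‖ ^ 2 + (2 * (k - (t i).re) + 1) := by
      rw [Complex.sq_norm, Complex.sq_norm, Complex.normSq_apply, Complex.normSq_apply]
      simp
      ring
    have h2 : (t i).re ≤ M := (Complex.re_le_norm _).trans (h.ht i)
    have h3 : ‖(k : ℂ) - t i‖ ^ 2 < ‖((k + 1 : ℝ) : ℂ) - t i‖ ^ 2 := by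
      rw [h1]
      linarith
    exact lt_of_pow_lt_pow_left₀ 2 (norm_nonneg _) h3
  · have : Nonempty (Fin n) := ⟨⟨0, hn⟩⟩
    exact Finset.univ_nonempty

theorem Vals.lc' {P : ℝ[X]} {M : ℝ} {l : ℕ} (v : Vals P M l) (m : ℕ) :
    P.eval (m : ℝ) * P.eval ((m + 2 : ℕ) : ℝ) ≤ P.eval ((m + 1 : ℕ) : ℝ) ^ 2 := by
  have := v.lc m
  push_cast
  exact this

theorem Vals.gap' {P : ℝ[X]} {M : ℝ} {l : ℕ} (v : Vals P M l) (m : ℕ) (hm : (m : ℝ) ≤ 20 * M) :
    20 * (P.eval (m : ℝ) * P.eval ((m + 2 : ℕ) : ℝ)) ≤ P.eval ((m + 1 : ℕ) : ℝ) ^ 2 := by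
  have := v.gap m hm
  push_cast
  exact this

theorem gap_nat {P : ℝ[X]} {n : ℕ} {M c : ℝ} {t : Fin n → ℂ} {a : ℝ} (h : Dat P n M c t a)
    (m : ℕ) (hm : 10 * M ≤ (m : ℝ) + 1) :
    P.eval (m : ℝ) * P.eval ((m + 2 : ℕ) : ℝ) ≤
      Real.exp (-(7 / 10 * n / ((m : ℝ) + 1) ^ 2)) * P.eval ((m + 1 : ℕ) : ℝ) ^ 2 := by
  have h1 := gap_of_zeros h ((m : ℝ) + 1) hm
  have e1 : (m : ℝ) + 1 - 1 = m := by ring
  have e2 : (m : ℝ) + 1 + 1 = ((m + 2 : ℕ) : ℝ) := by push_cast; ring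
  have e3 : ((m + 1 : ℕ) : ℝ) = (m : ℝ) + 1 := by push_cast; ring
  rw [e1, e2] at h1
  rw [e3]
  exact h1

theorem strict_lc {P : ℝ[X]} {n : ℕ} {M c : ℝ} {t : Fin n → ℂ} {a : ℝ} {l : ℕ}
    (h : Dat P n M c t a) (v : Vals P M l) (hn : 1 ≤ n) (m : ℕ) (hm : l ≤ m) :
    P.eval (m : ℝ) * P.eval ((m + 2 : ℕ) : ℝ) < P.eval ((m + 1 : ℕ) : ℝ) ^ 2 := by
  have hM := h.hM
  have hp : 0 < P.eval ((m + 1 : ℕ) : ℝ) := v.pos _ (by omega)
  rcases le_or_gt (m : ℝ) (20 * M) with h1 | h1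
  · have h2 := v.gap' m h1
    have h3 : 0 < P.eval ((m + 1 : ℕ) : ℝ) ^ 2 := by positivity
    linarith
  · have h2 := gap_nat h m (by linarith)
    refine h2.trans_lt ?_
    have h3 : Real.exp (-(7 / 10 * n / ((m : ℝ) + 1) ^ 2)) < 1 := by
      rw [Real.exp_lt_one_iff, neg_lt_zero]
      have : (1 : ℝ) ≤ n := by exact_mod_cast hn
      positivity
    have h4 : 0 < P.eval ((m + 1 : ℕ) : ℝ) ^ 2 := by positivity
    nlinarith

theorem lt_succ_nat {P : ℝ[X]} {n : ℕ} {M c : ℝ} {t : Fin n → ℂ} {a : ℝ} {l : ℕ}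
    (h : Dat P n M c t a) (v : Vals P M l) (hn : 1 ≤ n) (m : ℕ) (hm : l ≤ m) :
    P.eval (m : ℝ) < P.eval ((m + 1 : ℕ) : ℝ) := by
  by_contra hcon
  push Not at hcon
  have key : ∀ j : ℕ, P.eval ((m + j + 1 : ℕ) : ℝ) ≤ P.eval ((m + j : ℕ) : ℝ) := by
    intro j
    induction j with
    | zero => exact hcon
    | succ j ih =>
      have h1 := v.lc' (m + j)
      have h2 := v.pos (m + j) (by omega)
      have h3 := v.pos (m + j + 1) (by omega)
      have h4 : P.eval ((m + j : ℕ) : ℝ) * P.eval ((m + j + 2 : ℕ) : ℝ) ≤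
          P.eval ((m + j : ℕ) : ℝ) * P.eval ((m + j + 1 : ℕ) : ℝ) := by
        refine h1.trans ?_
        rw [pow_two]
        exact mul_le_mul_of_nonneg_right ih h3.le
      exact le_of_mul_le_mul_left h4 h2
  obtain ⟨K, hK⟩ := exists_nat_ge (10 * M)
  have h1 := key K
  have h2 : 10 * M ≤ ((m + K : ℕ) : ℝ) := by
    push_cast
    have : (0 : ℝ) ≤ m := Nat.cast_nonneg m
    linarith
  have h3 := h.lt_succ hn h2
  rw [abs_of_pos (v.pos _ (by omega))] at h3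
  have e : ((m + K : ℕ) : ℝ) + 1 = ((m + K + 1 : ℕ) : ℝ) := by push_cast; ring
  rw [e, abs_of_pos (v.pos _ (by omega))] at h3
  linarith

theorem rq_succ (P : ℝ[X]) (m : ℕ) :
    rq P (m + 1) = Real.sqrt (P.eval (m : ℝ) / P.eval ((m + 2 : ℕ) : ℝ)) := by
  unfold rq
  have e1 : ((m + 1 : ℕ) : ℝ) - 1 = m := by push_cast; ring
  have e2 : ((m + 1 : ℕ) : ℝ) + 1 = ((m + 2 : ℕ) : ℝ) := by push_cast; ring
  rw [e1, e2]

/-- all `k` up to `11 √n` -/
theorem real_sign : ∃ X0 : ℝ, 1 ≤ X0 ∧ ∀ (n : ℕ) (x M c : ℝ) (t : Fin n → ℂ) (P : ℝ[X]) (a : ℝ)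
    (l : ℕ), Dat P n M c t a → Vals P M l → X0 ≤ x → x ^ 20 = n → 2 * M + 1 ≤ x →
    ∀ k : ℕ, l < k → (k : ℝ) ≤ 11 * x ^ 10 →
      0 < (-1) ^ k * AS P (rq P k) ∧ 0 < rq P k ∧ rq P k < 1 ∧ rq P k < rq P (k + 1) := by
  obtain ⟨X0, hX0, hth⟩ := theta_sign
  refine ⟨X0, hX0, fun n x M c t P a l h v hx hxn hMx k hlk hk => ?_⟩
  have hM := h.hM
  have hx1 : 1 ≤ x := hX0.trans hx
  have hn : 1 ≤ n := by
    have : (1 : ℝ) ≤ n := by
      rw [← hxn]
      exact one_le_pow₀ hx1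
    exact_mod_cast this
  obtain ⟨m, rfl⟩ : ∃ m, k = m + 1 := ⟨k - 1, by omega⟩
  have hlm : l ≤ m := by omega
  have p0 := v.pos m hlm
  have p1 := v.pos (m + 1) (by omega)
  have p2 := v.pos (m + 2) (by omega)
  have p3 := v.pos (m + 3) (by omega)
  have hrq : 0 < rq P (m + 1) := by
    rw [rq_succ]
    exact Real.sqrt_pos.2 (div_pos p0 p2)
  refine ⟨?_, hrq, ?_, ?_⟩
  · rcases le_or_gt (x ^ 10 / 10) ((m + 1 : ℕ) : ℝ) with h1 | h1
    · exact hth n x M c t P a l h v hx hxn hMx (m + 1) hlk h1 hk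
    · refine direct_sign v (m + 1) hlk ?_
      have e1 : ((m + 1 : ℕ) : ℝ) - 1 = m := by push_cast; ring
      have e2 : ((m + 1 : ℕ) : ℝ) + 1 = ((m + 2 : ℕ) : ℝ) := by push_cast; ring
      rw [e1, e2]
      rcases le_or_gt (m : ℝ) (20 * M) with h2 | h2
      · have h3 := v.gap' m h2
        have h4 : 0 < P.eval (m : ℝ) * P.eval ((m + 2 : ℕ) : ℝ) := mul_pos p0 p2
        linarith
      · have h3 := gap_nat h m (by linarith)
        have h4 : Real.exp (-(7 / 10 * n / ((m : ℝ) + 1) ^ 2)) ≤ 1 / 16 := by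
          have h5 : 70 ≤ 7 / 10 * n / ((m : ℝ) + 1) ^ 2 := by
            have hm1 : 0 < (m : ℝ) + 1 := by positivity
            rw [le_div_iff₀ (by positivity), ← hxn]
            have h6 : (m : ℝ) + 1 ≤ x ^ 10 / 10 := by
              have := h1.le
              push_cast at this
              exact this
            have h7 : ((m : ℝ) + 1) ^ 2 ≤ (x ^ 10 / 10) ^ 2 := pow_le_pow_left₀ hm1.le h6 2
            have h8 : (x ^ 10 / 10) ^ 2 = x ^ 20 / 100 := by ring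
            rw [h8] at h7
            linarith
          have h9 := Real.add_one_le_exp (7 / 10 * n / ((m : ℝ) + 1) ^ 2)
          rw [Real.exp_neg, one_div]
          exact inv_anti₀ (by norm_num) (by linarith)
        have h5 : 0 < P.eval ((m + 1 : ℕ) : ℝ) ^ 2 := by positivity
        nlinarith
  · rw [rq_succ]
    rw [Real.sqrt_lt' one_pos, one_pow, div_lt_one p2]
    exact (lt_succ_nat h v hn m hlm).trans (lt_succ_nat h v hn (m + 1) (by omega))
  · rw [rq_succ, rq_succ]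
    refine Real.sqrt_lt_sqrt (div_nonneg p0.le p2.le) ?_
    rw [div_lt_div_iff₀ p2 p3]
    have h1 := strict_lc h v hn m hlm
    have h2 := v.lc' (m + 1)
    have e3 : m + 1 + 2 = m + 3 := by ring
    have e4 : m + 1 + 1 = m + 2 := by ring
    rw [e3, e4] at h2
    set A := P.eval (m : ℝ)
    set B := P.eval ((m + 1 : ℕ) : ℝ)
    set C' := P.eval ((m + 2 : ℕ) : ℝ)
    set D := P.eval ((m + 3 : ℕ) : ℝ)
    have h3 : (A * C') * (B * D) < B ^ 2 * C' ^ 2 :=
      mul_lt_mul h1 h2 (mul_pos p1 p3) (by positivity)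
    have h4 : (A * D) * (B * C') < (B * C') * (B * C') := by nlinarith
    exact lt_of_mul_lt_mul_right h4 (mul_pos p1 p2).le

/-- the two families of test points are ordered -/
theorem junction : ∃ X0 : ℝ, 1 ≤ X0 ∧ ∀ (n : ℕ) (x M c : ℝ) (t : Fin n → ℂ) (P : ℝ[X]) (a : ℝ)
    (l : ℕ), Dat P n M c t a → Vals P M l → X0 ≤ x → x ^ 20 = n → 2 * M + 1 ≤ x →
    ∀ k : ℕ, l < k → (k : ℝ) ≤ 11 * x ^ 10 → 11 * x ^ 10 < k + 1 → rq P k < rk n a (k + 1) := by
  refine ⟨10, by norm_num, fun n x M c t P a l h v hx hxn hMx k hlk hk hk2 => ?_⟩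
  have hM := h.hM
  have hx0 : 0 < x := by linarith
  set s : ℝ := x ^ 10 with hs
  have hs2 : s ^ 2 = n := by rw [hs, ← hxn]; ring
  have hxs : x ^ 2 ≤ s := by
    rw [hs]
    exact pow_le_pow_right₀ (by linarith) (by norm_num)
  have hs1000 : 1000 ≤ s := by
    have h1 : x ^ 3 ≤ s := pow_le_pow_right₀ (by linarith) (by norm_num)
    have h2 : (10 : ℝ) ^ 3 ≤ x ^ 3 := pow_le_pow_left₀ (by norm_num) hx 3
    linarith
  have hxs1 : x ≤ s := by nlinarith
  have hn' : (0 : ℝ) < n := by rw [← hs2]; positivity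
  have hn : 1 ≤ n := by exact_mod_cast hn'
  have ha : |a| ≤ M := by
    have h1 : ‖(n : ℂ) * (a : ℂ)‖ ≤ n * M := by
      rw [h.ha]
      refine (norm_sum_le _ _).trans ((Finset.sum_le_sum fun i _ => h.ht i).trans (le_of_eq ?_))
      rw [Finset.sum_const, Finset.card_univ, Fintype.card_fin, nsmul_eq_mul]
    rw [norm_mul, Complex.norm_real, Real.norm_eq_abs, Complex.norm_natCast] at h1
    exact le_of_mul_le_mul_left h1 hn'
  have ha' := abs_le.1 ha
  have hMs : M ≤ s := by linarith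
  have hMx2 : M ≤ x / 2 := by linarith
  have hk10 : 10 * s ≤ k := by linarith
  have hkM : 10 * M ≤ k := by linarith
  have hk0 : (0 : ℝ) < k := by linarith
  have hd1 : (k : ℝ) - a ≤ 12 * s := by linarith [ha'.1]
  have hd2 : 9 * s ≤ (k : ℝ) - a := by linarith [ha'.2]
  have hd0 : 0 < (k : ℝ) - a := by linarith
  -- the values
  obtain ⟨m, rfl⟩ : ∃ m, k = m + 1 := ⟨k - 1, by omega⟩
  have p0 := v.pos m (by omega)
  have p1 := v.pos (m + 1) (by omega)
  have p2 := v.pos (m + 2) (by omega)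
  have e1 : ((m + 1 : ℕ) : ℝ) + -1 = m := by push_cast; ring
  have e2 : ((m + 1 : ℕ) : ℝ) + 1 = ((m + 2 : ℕ) : ℝ) := by push_cast; ring
  have r1 := ratio_exp h ((m + 1 : ℕ) : ℝ) 1 hkM (by rw [abs_one]; linarith)
  have r2 := ratio_exp h ((m + 1 : ℕ) : ℝ) (-1) hkM (by rw [abs_neg, abs_one]; linarith)
  have r3 := sum_inv h ((m + 1 : ℕ) : ℝ) hkM
  rw [e2, abs_of_pos p2, abs_of_pos p1, abs_one, Real.log_div p2.ne' p1.ne'] at r1
  rw [e1, abs_of_pos p0, abs_of_pos p1, abs_neg, abs_one, Real.log_div p0.ne' p1.ne'] at r2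
  set K : ℝ := ((m + 1 : ℕ) : ℝ) with hK
  set S1 := ∑ i, ((1 : ℂ) / (K - t i)).re
  set S2 := ∑ i, ((1 : ℂ) / (K - t i) ^ 2).re
  have q1 := (abs_le.1 r1).1
  have q2 := (abs_le.1 r2).2
  have q3 := (abs_le.1 r3).1
  have hlog : Real.log (rq P (m + 1)) ≤ -(n / (K - a)) + (10 * M ^ 2 + 2) * (n / K ^ 3) := by
    rw [rq_succ, Real.log_sqrt (div_nonneg p0.le p2.le), Real.log_div p0.ne' p2.ne']
    have e5 : 10 * (n : ℝ) * M ^ 2 / K ^ 3 = 10 * M ^ 2 * (n / K ^ 3) := by ring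
    have e6 : 2 * (n : ℝ) * 1 ^ 3 / K ^ 3 = 2 * (n / K ^ 3) := by ring
    rw [e5] at q3
    rw [e6] at q1 q2
    nlinarith
  -- the angle
  have hphi : th n a (m + 1 + 1) = π * (K + 1 - a) / ((n : ℝ) + 1) := by
    unfold th
    have e7 : ((m + 1 + 1 : ℕ) : ℝ) = K + 1 := by rw [hK]; push_cast; ring
    rw [e7]
    refine min_eq_left ?_
    have h1 : π * (K + 1 - a) / ((n : ℝ) + 1) ≤ π / 4 := by
      rw [div_le_iff₀ (by positivity)]
      have h2 : K + 1 - a ≤ (n + 1) / 4 := by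
        rw [← hs2]
        nlinarith
      have := mul_le_mul_of_nonneg_left h2 Real.pi_pos.le
      linarith
    have h2 : 1 / (10 * ((n : ℝ) + 1)) ≤ 1 / 10 := by
      refine one_div_le_one_div_of_le (by norm_num) ?_
      linarith
    have h3 := Real.pi_gt_three
    linarith
  set φ : ℝ := π * (K + 1 - a) / ((n : ℝ) + 1) with hφ
  have hφ0 : 0 < φ := by
    have : 0 < K + 1 - a := by linarith
    have := Real.pi_pos
    positivity
  have hφ1 : φ < π / 2 := by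
    rw [hφ, div_lt_iff₀ (by positivity)]
    have h2 : K + 1 - a < (n + 1) / 2 := by
      rw [← hs2]
      nlinarith
    have := mul_lt_mul_of_pos_left h2 Real.pi_pos
    linarith
  have hsin : 0 < Real.sin φ := Real.sin_pos_of_pos_of_lt_pi hφ0 (by linarith [Real.pi_pos])
  have hcos : 0 < Real.cos φ := Real.cos_pos_of_mem_Ioo ⟨by linarith [Real.pi_pos], hφ1⟩
  have hcot : π * (Real.cos φ / Real.sin φ) < (n + 1) / (K + 1 - a) := by
    have h1 := Real.lt_tan hφ0 hφ1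
    rw [Real.tan_eq_sin_div_cos, lt_div_iff₀ hcos] at h1
    have h2 : Real.cos φ / Real.sin φ < 1 / φ := by
      rw [div_lt_div_iff₀ hsin hφ0]
      linarith
    have h3 : π * (1 / φ) = (n + 1) / (K + 1 - a) := by
      rw [hφ]
      have : K + 1 - a ≠ 0 := by linarith
      field_simp
    rw [← h3]
    exact mul_lt_mul_of_pos_left h2 Real.pi_pos
  -- the comparison
  have hrq : 0 < rq P (m + 1) := by
    rw [rq_succ]
    exact Real.sqrt_pos.2 (div_pos p0 p2)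
  unfold rk
  rw [hphi, ← Real.log_lt_iff_lt_exp hrq]
  refine lt_of_le_of_lt hlog ?_
  rw [neg_add_eq_sub, lt_neg]
  refine hcot.trans_le ?_
  rw [neg_sub, le_sub_iff_add_le]
  have h1 : (10 * M ^ 2 + 2) * (n / K ^ 3) ≤ 1 / 200 := by
    have h2 : (10 * M ^ 2 + 2) ≤ 4.5 * s := by
      have : M ^ 2 ≤ (x / 2) ^ 2 := pow_le_pow_left₀ (by linarith) hMx2 2
      nlinarith
    have h3 : (n : ℝ) / K ^ 3 ≤ 1 / (1000 * s) := by
      rw [← hs2, div_le_div_iff₀ (by positivity) (by positivity)]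
      have : (10 * s) ^ 3 ≤ K ^ 3 := pow_le_pow_left₀ (by positivity) hk10 3
      nlinarith
    refine (mul_le_mul h2 h3 (by positivity) (by positivity)).trans ?_
    rw [mul_one_div, div_le_div_iff₀ (by positivity) (by norm_num)]
    linarith
  have h2 : (n : ℝ) / (K - a) - (n + 1) / (K + 1 - a) ≥ 1 / 200 := by
    have hd3 : 0 < K + 1 - a := by linarith
    rw [ge_iff_le, div_sub_div _ _ hd0.ne' hd3.ne', div_le_div_iff₀ (by norm_num) (by positivity)]
    have h3 : (n : ℝ) * (K + 1 - a) - (K - a) * (n + 1) = n - (K - a) := by ring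
    rw [h3, ← hs2]
    nlinarith
  linarith

theorem rk_facts (n : ℕ) (a : ℝ) (k : ℕ) (hn : 1 ≤ n) (hk : a < k)
    (hk2 : (k : ℝ) ≤ ((n : ℝ) + 1) / 2 + a) :
    0 < rk n a k ∧ rk n a k < 1 ∧
      ((k : ℝ) + 1 ≤ ((n : ℝ) + 1) / 2 + a → rk n a k < rk n a (k + 1)) := by
  have hn' : (1 : ℝ) ≤ n := by exact_mod_cast hn
  have hπ := Real.pi_gt_three
  have h1 : 1 / (10 * ((n : ℝ) + 1)) ≤ 1 / 10 := by
    refine one_div_le_one_div_of_le (by norm_num) ?_
    linarith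
  have h0 : 0 < 1 / (10 * ((n : ℝ) + 1)) := by positivity
  have gen : ∀ j : ℕ, a < j → 0 < th n a j ∧ th n a j < π / 2 := by
    intro j hj
    unfold th
    constructor
    · refine lt_min ?_ (by linarith)
      have : 0 < (j : ℝ) - a := by linarith
      positivity
    · refine (min_le_right _ _).trans_lt ?_
      linarith
  have cot : ∀ j : ℕ, a < j → 0 < Real.cos (th n a j) / Real.sin (th n a j) := by
    intro j hj
    obtain ⟨g1, g2⟩ := gen j hj
    exact div_pos (Real.cos_pos_of_mem_Ioo ⟨by linarith, g2⟩)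
      (Real.sin_pos_of_pos_of_lt_pi g1 (by linarith))
  refine ⟨Real.exp_pos _, ?_, fun hk3 => ?_⟩
  · unfold rk
    rw [Real.exp_lt_one_iff, neg_lt_zero]
    exact mul_pos Real.pi_pos (cot k hk)
  · have hk4 : a < ((k + 1 : ℕ) : ℝ) := by push_cast; linarith
    obtain ⟨g1, g2⟩ := gen k hk
    obtain ⟨g3, g4⟩ := gen (k + 1) hk4
    have hlt : th n a k < th n a (k + 1) := by
      have e1 : th n a k ≤ π * ((k : ℝ) - a) / ((n : ℝ) + 1) := min_le_left _ _
      refine lt_of_le_of_lt e1 ?_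
      unfold th
      refine lt_min ?_ ?_
      · rw [div_lt_div_iff_of_pos_right (by positivity)]
        refine mul_lt_mul_of_pos_left ?_ Real.pi_pos
        push_cast
        linarith
      · rw [div_lt_iff₀ (by positivity)]
        have h2 : (π / 2 - 1 / (10 * ((n : ℝ) + 1))) * ((n : ℝ) + 1) =
            π / 2 * ((n : ℝ) + 1) - 1 / 10 := by
          field_simp
        rw [h2]
        nlinarith
    unfold rk
    rw [Real.exp_lt_exp, neg_lt_neg_iff]
    refine mul_lt_mul_of_pos_left ?_ Real.pi_pos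
    have s1 : 0 < Real.sin (th n a k) := Real.sin_pos_of_pos_of_lt_pi g1 (by linarith)
    have s2 : 0 < Real.sin (th n a (k + 1)) := Real.sin_pos_of_pos_of_lt_pi g3 (by linarith)
    rw [div_lt_div_iff₀ s2 s1]
    have h3 : 0 < Real.sin (th n a (k + 1) - th n a k) :=
      Real.sin_pos_of_pos_of_lt_pi (by linarith) (by linarith)
    rw [Real.sin_sub] at h3
    linarith

end Pool.Agent.Lib.FenceAF
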