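import Mathlib

set_option autoImplicit false

namespace Pool.Agent.Lib.FenceAF

open Polynomial Finset Real

/-- `P = c * ∏ (X - t i)` with all zeros in the disc of radius `M`; `a` is the mean of the zeros -/
structure Dat (P : ℝ[X]) (n : ℕ) (M c : ℝ) (t : Fin n → ℂ) (a : ℝ) : Prop where
  hM : 1 ≤ M
  hc : 0 < c
  ht : ∀ i, ‖t i‖ ≤ M
  hP : P.map Complex.ofRealHom = C (c : ℂ) * ∏ i, (X - C (t i))
  ha : (n : ℂ) * (a : ℂ) = ∑ i, t i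

/-- `∑_{m ≥ 1} (-1)^m P(m) r^m` -/
noncomputable def AS (P : ℝ[X]) (r : ℝ) : ℝ :=
  ∑' m : ℕ, (-1) ^ (m + 1) * P.eval ((m : ℝ) + 1) * r ^ (m + 1)

/-- test angles in the pole regime -/
noncomputable def th (n : ℕ) (a : ℝ) (k : ℕ) : ℝ :=
  min (π * ((k : ℝ) - a) / ((n : ℝ) + 1)) (π / 2 - 1 / (10 * ((n : ℝ) + 1)))

/-- test points in the pole regime -/
noncomputable def rk (n : ℕ) (a : ℝ) (k : ℕ) : ℝ :=
  Real.exp (-(π * (Real.cos (th n a k) / Real.sin (th n a k))))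

/-- test points in the direct regime -/
noncomputable def rq (P : ℝ[X]) (k : ℕ) : ℝ :=
  Real.sqrt (P.eval ((k : ℝ) - 1) / P.eval ((k : ℝ) + 1))

/-- the values of `P` at the natural numbers -/
structure Vals (P : ℝ[X]) (M : ℝ) (l : ℕ) : Prop where
  l1 : 1 ≤ l
  lM : (l : ℝ) ≤ M
  zero : ∀ m : ℕ, m < l → P.eval (m : ℝ) = 0
  pos : ∀ m : ℕ, l ≤ m → 0 < P.eval (m : ℝ)
  lc : ∀ m : ℕ, P.eval (m : ℝ) * P.eval ((m : ℝ) + 2) ≤ P.eval ((m : ℝ) + 1) ^ 2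
  gap : ∀ m : ℕ, (m : ℝ) ≤ 20 * M →
    20 * (P.eval (m : ℝ) * P.eval ((m : ℝ) + 2)) ≤ P.eval ((m : ℝ) + 1) ^ 2

/-- `∫_0^∞ ∏ (u - s τ_j) e^(-u) du` -/
noncomputable def GI {n : ℕ} (τ : Fin n → ℂ) (s : ℂ) : ℂ :=
  ∫ u in Set.Ioi (0 : ℝ), (∏ i, ((u : ℂ) - s * τ i)) * (Real.exp (-u) : ℂ)

/-- `∑_{k ≥ 1} q_k k! / s ^ (k + 1)` -/
noncomputable def LQ (Q : ℂ[X]) (s : ℂ) : ℂ :=
  ∑ k ∈ range (Q.natDegree + 1), if k = 0 then 0 else Q.coeff k * (k.factorial : ℂ) / s ^ (k + 1)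

end Pool.Agent.Lib.FenceAF
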