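import Pool.Agent.Lib.MP_7d55f0_co.AF.PlF
import Pool.Agent.Lib.MP_7d55f0_co.AF.RlE

set_option autoImplicit false

namespace Pool.Agent.Lib.FenceAF

open Polynomial Finset Real

/-- **all test points on one side** -/
theorem side_points : ∃ K0 : ℕ, ∀ (n : ℕ) (M c : ℝ) (t : Fin n → ℂ) (P : ℝ[X]) (a : ℝ) (l : ℕ),
    Dat P n M c t a → Vals P M l → (K0 : ℝ) * M ^ 20 ≤ n →
    ∃ r : ℕ → ℝ,
      (∀ k : ℕ, l ≤ k → (k : ℝ) ≤ ((n : ℝ) + 1) / 2 + a →
        0 < r k ∧ r k < 1 ∧ 0 < (-1) ^ k * AS P (r k)) ∧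
      (∀ k : ℕ, l ≤ k → (k : ℝ) + 1 ≤ ((n : ℝ) + 1) / 2 + a → r k < r (k + 1)) := by
  obtain ⟨X1, hX1, hpole⟩ := pole_sign
  obtain ⟨X2, hX2, hreal⟩ := real_sign
  obtain ⟨X3, hX3, hjun⟩ := junction
  set Y : ℝ := max 3 (max X1 (max X2 X3)) with hY
  have hY3 : 3 ≤ Y := le_max_left _ _
  have hY1 : X1 ≤ Y := (le_max_left _ _).trans (le_max_right _ _)
  have hY2 : X2 ≤ Y := ((le_max_left _ _).trans (le_max_right _ _)).trans (le_max_right _ _)
  have hY4 : X3 ≤ Y := ((le_max_right _ _).trans (le_max_right _ _)).trans (le_max_right _ _)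
  refine ⟨⌈Y ^ 20⌉₊, ?_⟩
  intro n M c t P a l hD hV hK
  have hM := hD.hM
  have hM0 : 0 < M := by linarith
  have hY0 : 0 < Y := by linarith
  set x : ℝ := (n : ℝ) ^ ((1 : ℝ) / 20) with hx
  have hx0 : 0 ≤ x := by rw [hx]; positivity
  have hxn : x ^ 20 = n := by
    rw [hx, ← Real.rpow_natCast, ← Real.rpow_mul (Nat.cast_nonneg n)]
    norm_num
  have hYM : Y * M ≤ x := by
    have h1 : (Y * M) ^ 20 ≤ x ^ 20 := by
      rw [hxn, mul_pow]
      refine le_trans ?_ hK
      have := Nat.le_ceil (Y ^ 20)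
      gcongr
    exact le_of_pow_le_pow_left₀ (by norm_num) hx0 h1
  have hYx : Y ≤ x := by nlinarith
  have h3M : 3 * M ≤ x := by nlinarith
  have h2M : 2 * M + 1 ≤ x := by linarith
  have hx3 : 3 ≤ x := hY3.trans hYx
  have hx10 : x ≤ x ^ 10 := le_self_pow₀ (by linarith) (by norm_num)
  have hn0 : (0 : ℝ) < n := by rw [← hxn]; positivity
  have hn1 : 1 ≤ n := by exact_mod_cast hn0
  have ha : |a| ≤ M := plF_mean hD hn1
  have ha' := abs_le.1 ha
  have hl := hV.lM
  have hl1 : ((l + 1 : ℕ) : ℝ) ≤ 11 * x ^ 10 := by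
    push_cast
    linarith
  have hreal' := hreal n x M c t P a l hD hV (hY2.trans hYx) hxn h2M
  have hjun' := hjun n x M c t P a l hD hV (hY4.trans hYx) hxn h2M
  have hpole' := hpole n x M c t P a hD (hY1.trans hYx) hxn h2M
  obtain ⟨r0, h01, h02, h03, h04⟩ := first_sign hV (rq P (l + 1))
    (hreal' (l + 1) (by omega) hl1).2.1
  refine ⟨fun k => if k = l then r0 else if (k : ℝ) ≤ 11 * x ^ 10 then rq P k else rk n a k,
    ?_, ?_⟩
  · intro k hk hk2
    by_cases h1 : k = l
    · simp only [h1, if_true]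
      exact ⟨h01, h03, h04⟩
    · by_cases h2 : (k : ℝ) ≤ 11 * x ^ 10
      · simp only [h1, if_false, h2, if_true]
        have := hreal' k (by omega) h2
        exact ⟨this.2.1, this.2.2.1, this.1⟩
      · simp only [h1, if_false, h2]
        rw [not_le] at h2
        have h3 := rk_facts n a k hn1 (by linarith) hk2
        exact ⟨h3.1, h3.2.1, hpole' k h2 hk2⟩
  · intro k hk hk2
    have hk3 : k + 1 ≠ l := by omega
    by_cases h1 : k = l
    · simp only [h1, if_true]
      have h4 : l + 1 ≠ l := by omega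
      simp only [h4, if_false, hl1, if_true]
      exact h02
    · by_cases h2 : ((k + 1 : ℕ) : ℝ) ≤ 11 * x ^ 10
      · have h2' : (k : ℝ) ≤ 11 * x ^ 10 := by
          push_cast at h2
          linarith
        simp only [h1, if_false, hk3, h2, h2', if_true]
        exact (hreal' k (by omega) h2').2.2.2
      · have h2n : 11 * x ^ 10 < (k : ℝ) + 1 := by
          rw [not_le] at h2
          push_cast at h2
          exact h2
        by_cases h3 : (k : ℝ) ≤ 11 * x ^ 10
        · simp only [h1, if_false, hk3, h2, h3, if_true]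
          exact hjun' k (by omega) h3 h2n
        · simp only [h1, if_false, hk3, h2, h3]
          rw [not_le] at h3
          exact (rk_facts n a k hn1 (by linarith) (by linarith)).2.2 hk2

end Pool.Agent.Lib.FenceAF
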