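import Pool.Agent.Lib.MP_7d55f0_co.AF.Defs

set_option autoImplicit false

namespace Pool.Agent.Lib.FenceAF

open Polynomial Finset

/-- integration from `0` -/
noncomputable def V (g : ℂ[X]) : ℂ[X] :=
  ∑ i ∈ range (g.natDegree + 1), monomial (i + 1) (g.coeff i / ((i : ℂ) + 1))

/-- the Taylor coefficients of `z / (1 - exp (- z))` -/
noncomputable def ph (k : ℕ) : ℂ := ((bernoulli' k : ℚ) : ℂ) / (k.factorial : ℂ)

/-- `φ (ε ∂) g` with `φ z = z / (1 - exp (- z))` -/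
noncomputable def Ph (ε : ℂ) (g : ℂ[X]) : ℂ[X] :=
  ∑ k ∈ range (g.natDegree + 1), C (ph k * ε ^ k) * derivative^[k] g

/-- reflection of `[0, 1]` -/
noncomputable def Rf (g : ℂ[X]) : ℂ[X] := g.comp (1 - X)

/-- the scaled counting functions of fences -/
noncomputable def vw (ε : ℂ) : List Bool → ℂ[X]
  | [] => 1
  | false :: w => V (Ph ε (vw ε w))
  | true :: w => C ((V (Ph (-ε) (vw ε w))).eval 1) - V (Ph (-ε) (vw ε w))
      + C (ε * (vw ε w).eval 1)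

/-- one step in the oriented coordinate -/
noncomputable def T (σ : Bool) (ε : ℂ) (g : ℂ[X]) : ℂ[X] :=
  V (Ph ε g) + C (if σ then ε * g.eval 0 else 0)

/-- the counting functions, run by run, in the oriented coordinate -/
noncomputable def vo (ε : ℂ) : Bool → List ℕ → ℂ[X]
  | _, [] => 1
  | σ, a :: as => (T σ ε)^[a] (Rf (vo ε (!σ) as))

/-- `A * C ^ k` bounds the `k`-th derivative on `[0, 1]` -/
def Bd (C A : ℝ) (g : ℂ[X]) : Prop :=
  ∀ k : ℕ, ∀ x : ℝ, 0 ≤ x → x ≤ 1 → ‖(derivative^[k] g).eval (x : ℂ)‖ ≤ A * C ^ k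

/-- real polynomial seen as complex polynomial -/
noncomputable def cx (g : ℝ[X]) : ℂ[X] := g.map Complex.ofRealHom

/-- integration from `0` of real polynomials -/
noncomputable def Vr (g : ℝ[X]) : ℝ[X] :=
  ∑ i ∈ range (g.natDegree + 1), monomial (i + 1) (g.coeff i / ((i : ℝ) + 1))

noncomputable def Rr (g : ℝ[X]) : ℝ[X] := g.comp (1 - X)

/-- shape of the reference function at the beginning of a run -/
structure Dec (b : ℕ) (f : ℝ[X]) : Prop where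
  anti : ∀ x y : ℝ, 0 ≤ x → x ≤ y → y ≤ 1 → f.eval y ≤ f.eval x
  nn : 0 ≤ f.eval 1
  pos : 0 < f.eval 0
  low : ∀ x : ℝ, 0 ≤ x → x ≤ 1 → (1 - x) ^ b * f.eval 0 ≤ f.eval x

/-- shape of the reference function at the end of a run -/
structure Inc (a : ℕ) (g : ℝ[X]) : Prop where
  mono : ∀ x y : ℝ, 0 ≤ x → x ≤ y → y ≤ 1 → g.eval x ≤ g.eval y
  nn : 0 ≤ g.eval 0
  pos : 0 < g.eval 1
  low : ∀ x : ℝ, 0 ≤ x → x ≤ 1 → x ^ a * g.eval 1 ≤ g.eval x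

/-- the constant in the derivative bounds -/
noncomputable def cc (R : ℕ) : ℝ := 4 * ((R : ℝ) + 1) ^ 2

noncomputable def dd (R : ℕ) : ℝ := 1 / (256 * ((R : ℝ) + 1) ^ 3)

noncomputable def rr (R : ℕ) : ℝ := 1 / (16 * ((R : ℝ) + 1))

/-- state at the end of a run -/
def St (R : ℕ) (v : ℂ[X]) : Prop :=
  ∃ (α : ℂ) (g : ℝ[X]) (p h : ℂ[X]) (b : ℕ), α ≠ 0 ∧ b ≤ R ∧ Inc b g ∧
    v = C α * (cx g + p + h) ∧
    (∀ x : ℝ, 0 ≤ x → x ≤ 1 → ‖p.eval (x : ℂ)‖ ≤ rr R * g.eval x) ∧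
    (∀ x : ℝ, 0 ≤ x → x ≤ 1 → ‖h.eval (x : ℂ)‖ ≤ dd R * g.eval 1) ∧
    Bd (cc R) (4 * ‖α‖ * g.eval 1) v

end Pool.Agent.Lib.FenceAF
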