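import Pool.Agent.Lib.MP_7d55f0_co.RBPoly
import Pool.Agent.Lib.MP_7d55f0_co.AF.CountB

set_option autoImplicit false

namespace Pool.Agent.Lib.FenceAF

open Polynomial Finset Pool.Agent.Lib.FenceGlue

/-- **all zeros of the order polynomial are bounded in terms of the longest run** -/
theorem PP_ne {R : ℕ} (hR : 1 ≤ R) (w : List Bool) (hw : Short R w) (t : ℂ)
    (ht : 2 ^ 14 * ((R : ℝ) + 1) ^ 7 ≤ ‖t‖) :
    ((PP w).map Complex.ofRealHom).eval t ≠ 0 :=
  FenceRB.PP_ne_aux hR w hw t ht

theorem Om_lower (w : List Bool) (m : ℕ) : (m + 1).choose (w.length + 1) ≤ Om w m := by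
  obtain ⟨j, k, hjk, φ, _, h⟩ := rc_mem w
  unfold Om
  rw [h, ← hjk, ← conv_choose m j k]
  apply sum_le_sum
  intro p _
  exact Nat.le_add_right _ _

theorem PP_coeff_pos (w : List Bool) : 0 < (PP w).coeff (w.length + 1) := by
  set N := w.length + 1 with hN
  have hdeg : (PP w).natDegree ≤ N := PP_natDegree_le w
  have hbdeg : (bn N).natDegree = N := bn_natDegree N
  have hbl : (bn N).coeff N = ((N.factorial : ℝ)⁻¹) := by
    unfold bn
    rw [coeff_C_mul]
    have h1 : (∏ i ∈ range N, (X - C (i : ℝ))).Monic :=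
      monic_prod_of_monic _ _ fun i _ => monic_X_sub_C _
    have h2 : (∏ i ∈ range N, (X - C (i : ℝ))).natDegree = N := by
      rw [natDegree_finsetProd_X_sub_C_eq_card, card_range]
    have h3 := h1.coeff_natDegree
    rw [h2] at h3
    rw [h3, mul_one]
  set Q := PP w - bn N with hQ
  have hQdeg : Q.natDegree ≤ N := by
    refine (natDegree_sub_le _ _).trans ?_
    rw [hbdeg]
    exact max_le hdeg le_rfl
  have hQn : ∀ m : ℕ, 0 ≤ Q.eval ((m : ℝ) + 1) := by
    intro m
    have h1 := PP_eval w m
    have h2 := bn_eval_nat N (m + 1)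
    push_cast at h2
    rw [hQ, eval_sub, h1, h2, sub_nonneg]
    exact_mod_cast Om_lower w m
  have hlead : 0 ≤ Q.leadingCoeff := by
    by_contra hneg
    push Not at hneg
    rcases Nat.eq_zero_or_pos Q.natDegree with h0 | h0
    · have h1 := hQn 0
      rw [eq_C_of_natDegree_eq_zero h0, eval_C] at h1
      rw [leadingCoeff, h0] at hneg
      linarith
    · have h2 := Q.tendsto_atBot_of_leadingCoeff_nonpos (natDegree_pos_iff_degree_pos.mp h0)
        hneg.le
      have h3 : Filter.Tendsto (fun m : ℕ => (m : ℝ) + 1) Filter.atTop Filter.atTop :=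
        Filter.tendsto_atTop_add_const_right _ _ tendsto_natCast_atTop_atTop
      have h4 := (h2.comp h3).eventually (Filter.eventually_lt_atBot (0 : ℝ))
      obtain ⟨m, hm⟩ := h4.exists
      have := hQn m
      simp only [Function.comp_apply] at hm
      linarith
  have hQc : 0 ≤ Q.coeff N := by
    rcases Nat.lt_or_ge Q.natDegree N with h | h
    · rw [coeff_eq_zero_of_natDegree_lt h]
    · have h1 : Q.natDegree = N := le_antisymm hQdeg h
      rw [leadingCoeff, h1] at hlead
      exact hlead
  have h5 : (PP w).coeff N = Q.coeff N + (bn N).coeff N := by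
    rw [hQ, coeff_sub]
    ring
  rw [h5, hbl]
  positivity

/-- the order polynomial has degree `n` and positive leading coefficient -/
theorem PP_degree (w : List Bool) : (PP w).natDegree = w.length + 1 :=
  le_antisymm (PP_natDegree_le w) (le_natDegree_of_ne_zero (PP_coeff_pos w).ne')

theorem PP_lead_pos (w : List Bool) : 0 < (PP w).leadingCoeff := by
  rw [leadingCoeff, PP_degree]
  exact PP_coeff_pos w

end Pool.Agent.Lib.FenceAF
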